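import Mathlib

/-!
# Definitions: families of `n` points, the Hilbert scheme, Cohen–Macaulay local rings
-/

set_option autoImplicit false

universe u

open CategoryTheory CategoryTheory.Limits AlgebraicGeometry

namespace Pool.Agent.J4.H15

/-- `q : Z ⟶ X` and `p : Z ⟶ T` exhibit `Z` as a closed subscheme of `X ×_S T` which is finite and
locally free of rank `n` over `T` -/
structure IsFam {S X T Z : Scheme.{u}} (a : X ⟶ S) (t : T ⟶ S) (q : Z ⟶ X) (p : Z ⟶ T) (n : ℕ) :
    Prop where
  w : q ≫ a = p ≫ t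
  closed : IsClosedImmersion (pullback.lift q p w)
  fin : IsFinite p
  flat : Flat p
  lfp : LocallyOfFinitePresentation p
  rank : ∀ x : T, p.finrank x = n

/-- `h : H ⟶ S` with the family `Q : W ⟶ X`, `P : W ⟶ H` is the Hilbert scheme of `n` points of
`a : X ⟶ S`: every flat family of `n` points of `X` over an `S`-scheme `T` is the pullback of
`(Q, P)` along exactly one `S`-morphism `T ⟶ H`. -/
structure IsHilb {S X H W : Scheme.{u}} (a : X ⟶ S) (h : H ⟶ S) (Q : W ⟶ X) (P : W ⟶ H) (n : ℕ) :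
    Prop where
  fam : IsFam a h Q P n
  univ : ∀ {T Z : Scheme.{u}} (t : T ⟶ S) (q : Z ⟶ X) (p : Z ⟶ T), IsFam a t q p n →
    ∃! f : T ⟶ H, f ≫ h = t ∧ ∃ g : Z ⟶ W, g ≫ Q = q ∧ IsPullback g p P f

/-- A Noetherian local ring is Cohen–Macaulay if its maximal ideal contains a regular sequence
whose length is the Krull dimension of the ring. -/
def IsCMLocal (R : Type*) [CommRing R] [IsLocalRing R] : Prop :=
  IsNoetherianRing R ∧ ∃ rs : List R, (∀ r ∈ rs, r ∈ IsLocalRing.maximalIdeal R) ∧
    RingTheory.Sequence.IsRegular R rs ∧ (rs.length : WithBot ℕ∞) = ringKrullDim R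

end Pool.Agent.J4.H15
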