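import Mathlib
import Pool.Agent.J4.H15.HilbDef
import Pool.Agent.H379R3.Reg

/-!
# Cohen–Macaulay local rings: quotients by nonzerodivisors
-/

set_option autoImplicit false
set_option linter.style.haveILetI false

universe u

namespace Pool.Agent.J4.H15

open IsLocalRing RingTheory.Sequence Pointwise

/-- there is a regular sequence of length `n` -/
def RegN (S : Type*) [CommRing S] (n : ℕ) : Prop :=
  ∃ rs : List S, rs.length = n ∧ IsRegular S rs

theorem RegN.of_equiv {S S' : Type*} [CommRing S] [CommRing S'] (e : S ≃+* S') {n : ℕ}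
    (h : RegN S n) : RegN S' n := by
  obtain ⟨rs, hl, hr⟩ := h
  refine ⟨rs.map e, by rw [List.length_map, hl], ?_⟩
  refine (e.toAddEquiv.isRegular_congr ?_).1 hr
  rw [List.forall₂_map_right_iff, List.forall₂_same]
  intro r _ x
  exact map_mul e r x

theorem isRegular_cons_ring {S : Type*} [CommRing S] (x : S) (rs : List S) :
    IsRegular S (x :: rs) ↔ IsSMulRegular S x ∧
      IsRegular (S ⧸ Ideal.span {x}) (rs.map (Ideal.Quotient.mk (Ideal.span {x}))) := by
  rw [isRegular_cons_iff']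
  refine and_congr_right fun _ => ?_
  have he : x • (⊤ : Submodule S S) = Ideal.span {x} := by
    rw [← Submodule.ideal_span_singleton_smul]
    simp
  let e := Submodule.quotEquivOfEq _ _ he
  refine e.toAddEquiv.isRegular_congr ?_
  rw [List.forall₂_map_left_iff, List.forall₂_map_right_iff, List.forall₂_same]
  intro r _ z
  change e (Ideal.Quotient.mk _ r • z) = Ideal.Quotient.mk _ r • e z
  exact e.map_smul r z

theorem RegN.succ_of_quot {S : Type*} [CommRing S] {x : S} (hx : IsSMulRegular S x) {n : ℕ}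
    (h : RegN (S ⧸ Ideal.span {x}) n) : RegN S (n + 1) := by
  obtain ⟨rs', hl, hr⟩ := h
  obtain ⟨rs, rfl⟩ := (List.map_surjective_iff.2
    (Ideal.Quotient.mk_surjective (I := Ideal.span {x}))) rs'
  refine ⟨x :: rs, ?_, (isRegular_cons_ring x rs).2 ⟨hx, hr⟩⟩
  rw [List.length_cons, ← hl, List.length_map]

theorem mem_maximalIdeal_of_isRegular {S : Type*} [CommRing S] [IsLocalRing S] {rs : List S}
    (h : IsRegular S rs) : ∀ r ∈ rs, r ∈ maximalIdeal S := by
  intro r hr
  by_contra hc
  have hu : IsUnit r := by simpa using hc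
  refine h.2 ?_
  have h1 : Ideal.ofList rs = ⊤ := Ideal.eq_top_of_isUnit_mem _ (Ideal.subset_span hr) hu
  rw [h1]
  simp

theorem RegN.exists_of_succ {S : Type*} [CommRing S] [IsLocalRing S] {n : ℕ}
    (h : RegN S (n + 1)) :
    ∃ x ∈ maximalIdeal S, IsSMulRegular S x ∧ RegN (S ⧸ Ideal.span {x}) n := by
  obtain ⟨rs, hl, hr⟩ := h
  match rs, hl, hr with
  | [], hl, _ => simp at hl
  | x :: rs, hl, hr =>
    refine ⟨x, mem_maximalIdeal_of_isRegular hr x (List.mem_cons_self),
      ((isRegular_cons_ring x rs).1 hr).1, _, ?_, ((isRegular_cons_ring x rs).1 hr).2⟩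
    rw [List.length_map]
    simpa using hl

theorem isLocalRing_quot {S : Type*} [CommRing S] [IsLocalRing S] {x : S}
    (hx : x ∈ maximalIdeal S) : IsLocalRing (S ⧸ Ideal.span {x}) := by
  have : Nontrivial (S ⧸ Ideal.span {x}) := by
    refine Ideal.Quotient.nontrivial_iff.2 fun h => ?_
    have h1 : Ideal.span {x} ≤ maximalIdeal S := by
      rw [Ideal.span_singleton_le_iff_mem]; exact hx
    rw [h] at h1
    exact (maximalIdeal.isMaximal S).ne_top (top_le_iff.1 h1)
  exact IsLocalRing.of_surjective' _ Ideal.Quotient.mk_surjective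

theorem mk_mem_maximalIdeal {S : Type*} [CommRing S] [IsLocalRing S] {x z : S}
    (hx : x ∈ maximalIdeal S) (hz : z ∈ maximalIdeal S) [IsLocalRing (S ⧸ Ideal.span {x})] :
    Ideal.Quotient.mk (Ideal.span {x}) z ∈ maximalIdeal (S ⧸ Ideal.span {x}) := by
  by_contra hc
  have hu : IsUnit (Ideal.Quotient.mk (Ideal.span {x}) z) := by simpa using hc
  obtain ⟨w, hw⟩ := hu.exists_right_inv
  obtain ⟨w, rfl⟩ := Ideal.Quotient.mk_surjective w
  rw [← map_mul, ← map_one (Ideal.Quotient.mk (Ideal.span {x})), Ideal.Quotient.eq] at hw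
  have h1 : z * w - 1 ∈ maximalIdeal S :=
    (Ideal.span_singleton_le_iff_mem _).2 hx hw
  have h2 : (1 : S) ∈ maximalIdeal S := by
    have := (maximalIdeal S).sub_mem (Ideal.mul_mem_right w _ hz) h1
    simpa using this
  exact (maximalIdeal.isMaximal S).ne_top ((Ideal.eq_top_iff_one _).2 h2)

theorem isSMulRegular_quot_iff {S : Type*} [CommRing S] {x z : S} :
    IsSMulRegular (S ⧸ Ideal.span {x}) z ↔
      IsSMulRegular (S ⧸ Ideal.span {x}) (Ideal.Quotient.mk (Ideal.span {x}) z) := by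
  refine ⟨fun h a b hab => h ?_, fun h a b hab => h ?_⟩
  · exact hab
  · exact hab

/-- exchanging the order of two nonzerodivisors -/
theorem swap_regular {S : Type*} [CommRing S] [IsLocalRing S] [IsNoetherianRing S] {x z : S}
    (hx : x ∈ maximalIdeal S) (hz : z ∈ maximalIdeal S) (hxr : IsSMulRegular S x)
    (hzr : IsSMulRegular (S ⧸ Ideal.span {x}) z) :
    IsSMulRegular S z ∧ IsSMulRegular (S ⧸ Ideal.span {z}) x := by
  have hl := isLocalRing_quot hx
  have hl' := isLocalRing_quot hz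
  have h1 : IsRegular S [x, z] := by
    rw [isRegular_cons_ring]
    refine ⟨hxr, ?_⟩
    rw [List.map_cons, List.map_nil, isRegular_cons_iff]
    refine ⟨isSMulRegular_quot_iff.1 hzr, ?_⟩
    have : Nontrivial (QuotSMulTop (Ideal.Quotient.mk (Ideal.span {x}) z)
        (S ⧸ Ideal.span {x})) := by
      refine nontrivial_quotSMulTop_of_mem_maximalIdeal _ ?_
      exact mk_mem_maximalIdeal hx hz
    exact IsRegular.nil _ _
  have h2 := IsLocalRing.isRegular_of_perm h1 (List.Perm.swap z x [])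
  rw [isRegular_cons_ring] at h2
  refine ⟨h2.1, ?_⟩
  have h3 := h2.2
  rw [List.map_cons, List.map_nil, isRegular_cons_iff] at h3
  exact isSMulRegular_quot_iff.2 h3.1

/-- an element regular modulo two nonzerodivisors -/
theorem exists_regular {S : Type u} [CommRing S] [IsLocalRing S] [IsNoetherianRing S] {x y w : S}
    (hx : x ∈ maximalIdeal S) (hy : y ∈ maximalIdeal S) (hw : w ∈ maximalIdeal S)
    (hxr : IsSMulRegular S x) (hyr : IsSMulRegular S y)
    (hwr : IsSMulRegular (S ⧸ Ideal.span {x}) w) :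
    ∃ z ∈ maximalIdeal S, IsSMulRegular (S ⧸ Ideal.span {x}) z ∧
      IsSMulRegular (S ⧸ Ideal.span {y}) z := by
  have hx0 : ∀ a b, x * a = x * b → a = b := fun a b h => hxr h
  have hy0 : ∀ a b, y * a = y * b → a = b := fun a b h => hyr h
  have key1 : ∀ a : S, (∀ c ∈ maximalIdeal S, c * a ∈ Ideal.span {x}) → a ∈ Ideal.span {x} := by
    intro a ha
    have h1 : w • (Ideal.Quotient.mk (Ideal.span {x}) a) =
        w • (0 : S ⧸ Ideal.span {x}) := by
      rw [smul_zero]
      exact Ideal.Quotient.eq_zero_iff_mem.2 (ha w hw)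
    exact Ideal.Quotient.eq_zero_iff_mem.1 (hwr h1)
  have key2 : ∀ a : S, (∀ c ∈ maximalIdeal S, c * a ∈ Ideal.span {y}) → a ∈ Ideal.span {y} := by
    intro a ha
    obtain ⟨b, hb⟩ := Ideal.mem_span_singleton.1 (ha x hx)
    have hbx : b ∈ Ideal.span {x} := by
      apply key1
      intro c hc
      obtain ⟨d, hd⟩ := Ideal.mem_span_singleton.1 (ha c hc)
      refine Ideal.mem_span_singleton.2 ⟨d, hy0 _ _ ?_⟩
      linear_combination (-c) * hb + x * hd
    obtain ⟨c, rfl⟩ := Ideal.mem_span_singleton.1 hbx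
    refine Ideal.mem_span_singleton.2 ⟨c, hx0 _ _ ?_⟩
    linear_combination hb
  let k := S ⧸ maximalIdeal S
  let M := (S ⧸ Ideal.span {x}) × (S ⧸ Ideal.span {y})
  have hsub : Subsingleton (k →ₗ[S] M) := by
    refine ⟨fun φ ψ => ?_⟩
    have h0 : ∀ φ : k →ₗ[S] M, φ = 0 := by
      intro φ
      have h1 : φ (Ideal.Quotient.mk _ 1) = 0 := by
        obtain ⟨a, ha⟩ := Ideal.Quotient.mk_surjective (φ (Ideal.Quotient.mk _ 1)).1
        obtain ⟨b, hb⟩ := Ideal.Quotient.mk_surjective (φ (Ideal.Quotient.mk _ 1)).2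
        have h2 : ∀ c ∈ maximalIdeal S, c • φ (Ideal.Quotient.mk _ 1) = 0 := by
          intro c hc
          rw [← map_smul]
          have : c • (Ideal.Quotient.mk (maximalIdeal S) 1) = 0 := by
            change Ideal.Quotient.mk (maximalIdeal S) (c * 1) = 0
            rw [mul_one]
            exact Ideal.Quotient.eq_zero_iff_mem.2 hc
          rw [this, map_zero]
        have ha' : a ∈ Ideal.span {x} := key1 a fun c hc => by
          have := congrArg Prod.fst (h2 c hc)
          rw [Prod.smul_fst, ← ha] at this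
          exact Ideal.Quotient.eq_zero_iff_mem.1 this
        have hb' : b ∈ Ideal.span {y} := key2 b fun c hc => by
          have := congrArg Prod.snd (h2 c hc)
          rw [Prod.smul_snd, ← hb] at this
          exact Ideal.Quotient.eq_zero_iff_mem.1 this
        refine Prod.ext ?_ ?_
        · rw [← ha]; exact Ideal.Quotient.eq_zero_iff_mem.2 ha'
        · rw [← hb]; exact Ideal.Quotient.eq_zero_iff_mem.2 hb'
      ext
      · exact congrArg Prod.fst h1
      · exact congrArg Prod.snd h1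
    rw [h0 φ, h0 ψ]
  obtain ⟨z, hz, hzr⟩ := IsSMulRegular.subsingleton_linearMap_iff.1 hsub
  refine ⟨z, ?_, ?_, ?_⟩
  · rw [Ideal.annihilator_quotient] at hz
    exact hz
  · intro a b hab
    have := @hzr (a, 0) (b, 0) (Prod.ext hab rfl)
    exact congrArg Prod.fst this
  · intro a b hab
    have := @hzr (0, a) (0, b) (Prod.ext rfl hab)
    exact congrArg Prod.snd this

/-- the two double quotients agree -/
theorem exists_quotEquiv {S : Type u} [CommRing S] (x z : S) :
    Nonempty (((S ⧸ Ideal.span {x}) ⧸ Ideal.span {Ideal.Quotient.mk (Ideal.span {x}) z}) ≃+*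
      ((S ⧸ Ideal.span {z}) ⧸ Ideal.span {Ideal.Quotient.mk (Ideal.span {z}) x})) := by
  have e1 : Ideal.span {Ideal.Quotient.mk (Ideal.span {x}) z} =
      (Ideal.span {z}).map (Ideal.Quotient.mk (Ideal.span {x})) := by
    rw [Ideal.map_span, Set.image_singleton]
  have e2 : Ideal.span {Ideal.Quotient.mk (Ideal.span {z}) x} =
      (Ideal.span {x}).map (Ideal.Quotient.mk (Ideal.span {z})) := by
    rw [Ideal.map_span, Set.image_singleton]
  rw [e1, e2]
  exact ⟨DoubleQuot.quotQuotEquivComm _ _⟩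

theorem RegN.quotient (n : ℕ) : ∀ (S : Type u) [CommRing S] [IsLocalRing S] [IsNoetherianRing S]
    (y : S), RegN S n → y ∈ maximalIdeal S → IsSMulRegular S y →
      RegN (S ⧸ Ideal.span {y}) (n - 1) := by
  have h0 : ∀ (S : Type u) [CommRing S] [IsLocalRing S] (y : S), y ∈ maximalIdeal S →
      RegN (S ⧸ Ideal.span {y}) 0 := by
    intro S _ _ y hy
    have := isLocalRing_quot hy
    exact ⟨[], rfl, IsRegular.nil _ _⟩
  induction n with
  | zero => intro S _ _ _ y _ hy _; exact h0 S y hy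
  | succ n ih =>
    intro S _ _ _ y hS hy hyr
    match n, ih, hS with
    | 0, _, _ => exact h0 S y hy
    | n + 1, ih, hS =>
      obtain ⟨x, hx, hxr, h1⟩ := hS.exists_of_succ
      have hlx := isLocalRing_quot hx
      have hly := isLocalRing_quot hy
      obtain ⟨w', hw', hwr', -⟩ := h1.exists_of_succ
      obtain ⟨w, rfl⟩ := Ideal.Quotient.mk_surjective w'
      have hw : w ∈ maximalIdeal S := by
        by_contra hc
        have hu : IsUnit w := by simpa using hc
        exact hw' (hu.map _)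
      obtain ⟨z, hz, hzx, hzy⟩ := exists_regular hx hy hw hxr hyr (isSMulRegular_quot_iff.2 hwr')
      have hlz := isLocalRing_quot hz
      obtain ⟨hzr, hxz⟩ := swap_regular hx hz hxr hzx
      obtain ⟨-, hyz⟩ := swap_regular hy hz hyr hzy
      have h2 := ih (S ⧸ Ideal.span {x}) (Ideal.Quotient.mk _ z) h1 (mk_mem_maximalIdeal hx hz)
        (isSMulRegular_quot_iff.1 hzx)
      rw [Nat.add_sub_cancel] at h2
      obtain ⟨e⟩ := exists_quotEquiv x z
      have h3 : RegN (S ⧸ Ideal.span {z}) (n + 1) :=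
        RegN.succ_of_quot (isSMulRegular_quot_iff.1 hxz) (h2.of_equiv e)
      have h4 := ih (S ⧸ Ideal.span {z}) (Ideal.Quotient.mk _ y) h3 (mk_mem_maximalIdeal hz hy)
        (isSMulRegular_quot_iff.1 hyz)
      rw [Nat.add_sub_cancel] at h4
      obtain ⟨e'⟩ := exists_quotEquiv z y
      exact RegN.succ_of_quot (isSMulRegular_quot_iff.1 hzy) (h4.of_equiv e')

theorem isCMLocal_iff {S : Type*} [CommRing S] [IsLocalRing S] :
    IsCMLocal S ↔ IsNoetherianRing S ∧ ∃ n : ℕ, RegN S n ∧ (n : WithBot ℕ∞) = ringKrullDim S := by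
  constructor
  · rintro ⟨h, rs, -, hr, hd⟩
    exact ⟨h, rs.length, ⟨rs, rfl, hr⟩, hd⟩
  · rintro ⟨h, n, ⟨rs, rfl, hr⟩, hd⟩
    exact ⟨h, rs, mem_maximalIdeal_of_isRegular hr, hr, hd⟩

theorem IsCMLocal.of_equiv {S S' : Type*} [CommRing S] [CommRing S'] [IsLocalRing S]
    [IsLocalRing S'] (e : S ≃+* S') (h : IsCMLocal S) : IsCMLocal S' := by
  rw [isCMLocal_iff] at h ⊢
  obtain ⟨hn, n, hr, hd⟩ := h
  exact ⟨isNoetherianRing_of_ringEquiv S e, n, hr.of_equiv e,
    by rw [hd, ringKrullDim_eq_of_ringEquiv e]⟩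

/-- the quotient of a Cohen–Macaulay local ring by a nonzerodivisor -/
theorem IsCMLocal.quotient {S : Type u} [CommRing S] [IsLocalRing S] (h : IsCMLocal S) {y : S}
    (hy : y ∈ maximalIdeal S) (hyr : IsSMulRegular S y) [IsLocalRing (S ⧸ Ideal.span {y})] :
    IsCMLocal (S ⧸ Ideal.span {y}) := by
  rw [isCMLocal_iff] at h ⊢
  obtain ⟨hn, n, hr, hd⟩ := h
  refine ⟨inferInstance, n - 1, RegN.quotient n S y hr hy hyr, ?_⟩
  have h1 := ringKrullDim_quotient_span_singleton_succ_eq_ringKrullDim hyr hy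
  rw [← hd] at h1
  match n with
  | 0 =>
    exfalso
    have h2 : (0 : WithBot ℕ∞) ≤ ringKrullDim (S ⧸ Ideal.span {y}) := ringKrullDim_nonneg_of_nontrivial
    have h3 : (1 : WithBot ℕ∞) ≤ ringKrullDim (S ⧸ Ideal.span {y}) + 1 := by
      calc (1 : WithBot ℕ∞) = 0 + 1 := (zero_add 1).symm
        _ ≤ _ := by gcongr
    rw [h1] at h3
    exact absurd h3 (by decide)
  | n + 1 =>
    rw [Nat.add_sub_cancel]
    have h2 : ringKrullDim (S ⧸ Ideal.span {y}) + 1 = (n : WithBot ℕ∞) + 1 := by
      rw [h1]; push_cast; rfl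
    exact (ENat.WithBot.add_one_cancel.1 h2).symm

end Pool.Agent.J4.H15
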