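import Pool.Agent.J4.H15.CM1

/-!
# Flat quasi-finite algebras over regular rings are Cohen–Macaulay
-/

set_option autoImplicit false
set_option linter.style.haveILetI false

universe u

namespace Pool.Agent.J4.H15

open IsLocalRing RingTheory.Sequence Pointwise

theorem regular_seq (d : ℕ) : ∀ (B : Type u) [CommRing B] [IsRegularLocalRing B],
    ringKrullDim B = (d : ℕ) →
    ∃ rs : List B, rs.length = d ∧ IsRegular B rs ∧ Ideal.ofList rs = maximalIdeal B := by
  induction d with
  | zero =>
    intro B _ _ h
    refine ⟨[], rfl, IsRegular.nil _ _, ?_⟩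
    rw [Ideal.ofList_nil, H379R3.dim_zero_maximalIdeal_eq_bot h]
  | succ d ih =>
    intro B _ _ h
    have hB : IsDomain B := H379R3.isDomain B
    have hmb : maximalIdeal B ≠ ⊥ := by
      intro h0
      have h2 : IsField B := isField_iff_maximalIdeal_eq.2 h0
      have := ringKrullDim_eq_zero_of_isField h2
      rw [h] at this
      have h3 : d + 1 = 0 := by exact_mod_cast this
      omega
    have hsq : ¬ (maximalIdeal B ≤ maximalIdeal B ^ 2) := by
      intro hle
      apply hmb
      apply Submodule.eq_bot_of_le_smul_of_le_jacobson_bot (maximalIdeal B) (maximalIdeal B)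
        (maximalIdeal B).fg_of_isNoetherianRing
      · rw [smul_eq_mul, ← pow_two]; exact hle
      · exact IsLocalRing.maximalIdeal_le_jacobson _
    obtain ⟨t, ht, ht2⟩ := Set.not_subset.1 hsq
    obtain ⟨hreg, hdim⟩ := H379R3.regular_quotient t ht ht2 d h
    obtain ⟨rs', hl, hr, hm⟩ := ih (B ⧸ Ideal.span {t}) hdim
    obtain ⟨rs, rfl⟩ := (List.map_surjective_iff.2
      (Ideal.Quotient.mk_surjective (I := Ideal.span {t}))) rs'
    have ht0 : t ≠ 0 := fun h0 => ht2 (by rw [h0]; exact Ideal.zero_mem _)
    refine ⟨t :: rs, ?_, (isRegular_cons_ring t rs).2 ⟨?_, hr⟩, ?_⟩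
    · rw [List.length_cons, ← hl, List.length_map]
    · intro a b hab
      exact mul_left_cancel₀ ht0 hab
    · rw [Ideal.ofList_cons]
      have h1 := congrArg (Ideal.comap (Ideal.Quotient.mk (Ideal.span {t}))) hm
      rw [← Ideal.map_ofList, Ideal.comap_map_of_surjective _ Ideal.Quotient.mk_surjective,
        ← RingHom.ker_eq_comap_bot, Ideal.mk_ker] at h1
      rw [sup_comm, h1]
      ext z
      rw [Ideal.mem_comap]
      refine ⟨fun hz => ?_, fun hz => mk_mem_maximalIdeal ht hz⟩
      by_contra hc
      have hu : IsUnit z := by simpa using hc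
      exact hz (hu.map _)

theorem IsCMLocal.of_flat {A R : Type u} [CommRing A] [IsRegularLocalRing A] [CommRing R]
    [IsLocalRing R] [IsNoetherianRing R] [Algebra A R] [Module.Flat A R]
    [IsLocalHom (algebraMap A R)]
    (h0 : ringKrullDim (R ⧸ (maximalIdeal A).map (algebraMap A R)) = 0) : IsCMLocal R := by
  obtain ⟨d, hd⟩ := H379R3.exists_dim_eq (B := A)
  obtain ⟨rs, hl, hr, hm⟩ := regular_seq d A hd
  have hmem : ∀ r ∈ rs.map (algebraMap A R), r ∈ maximalIdeal R := by
    intro r hr'
    obtain ⟨a, ha, rfl⟩ := List.mem_map.1 hr'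
    have h1 := mem_maximalIdeal_of_isRegular hr a ha
    rw [mem_maximalIdeal, mem_nonunits_iff] at h1 ⊢
    exact fun hu => h1 (isUnit_of_map_unit (algebraMap A R) a hu)
  have hreg : IsRegular R (rs.map (algebraMap A R)) :=
    IsRegular.of_isWeaklyRegular_of_mem_maximalIdeal _ hmem (hr.1.of_flat)
  have h2 := ringKrullDim_add_length_eq_ringKrullDim_of_isRegular _ hreg
  rw [← Ideal.map_ofList, hm, h0, zero_add] at h2
  exact ⟨inferInstance, _, hmem, hreg, h2⟩

theorem IsCMLocal.of_quasiFinite {P S : Type u} [CommRing P] [IsRegularRing P] [CommRing S]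
    [IsNoetherianRing S] [Algebra P S] [Module.Flat P S] [Algebra.QuasiFinite P S] (q : Ideal S)
    [q.IsPrime] : IsCMLocal (Localization.AtPrime q) := by
  let p := q.under P
  have hp : p.IsPrime := inferInstance
  letI := Localization.AtPrime.algebraOfLiesOver p q
  have hreg : IsRegularLocalRing (Localization.AtPrime p) :=
    IsRegularRing.isRegularLocalRing_localization p
  have hloc : IsLocalHom (algebraMap (Localization.AtPrime p) (Localization.AtPrime q)) :=
    Localization.isLocalHom_localRingHom p q (algebraMap P S) Ideal.LiesOver.over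
  have hqf : Algebra.QuasiFinite P (Localization.AtPrime q) :=
    Algebra.QuasiFinite.of_isLocalization q.primeCompl
  have hqf2 : Algebra.QuasiFinite (Localization.AtPrime p) (Localization.AtPrime q) :=
    Algebra.QuasiFinite.of_restrictScalars P _ _
  refine IsCMLocal.of_flat (A := Localization.AtPrime p) ?_
  set m := maximalIdeal (Localization.AtPrime p)
  set I := m.map (algebraMap (Localization.AtPrime p) (Localization.AtPrime q)) with hI
  have hne : I ≠ ⊤ := by
    have h1 : I ≤ maximalIdeal (Localization.AtPrime q) :=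
      (IsLocalRing.local_hom_TFAE (algebraMap (Localization.AtPrime p)
        (Localization.AtPrime q))).out 0 2 |>.1 hloc
    intro h
    rw [h] at h1
    exact (maximalIdeal.isMaximal (Localization.AtPrime q)).ne_top (top_le_iff.1 h1)
  have hnt : Nontrivial (Localization.AtPrime q ⧸ I) := Ideal.Quotient.nontrivial_iff.2 hne
  letI : Field (Localization.AtPrime p ⧸ m) := Ideal.Quotient.field m
  have hqf3 : Algebra.QuasiFinite (Localization.AtPrime p) (Localization.AtPrime q ⧸ I) :=
    inferInstance
  letI : Algebra (Localization.AtPrime p ⧸ m) (Localization.AtPrime q ⧸ I) :=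
    Ideal.Quotient.algebraQuotientOfLEComap Ideal.le_comap_map
  have htow : IsScalarTower (Localization.AtPrime p) (Localization.AtPrime p ⧸ m)
      (Localization.AtPrime q ⧸ I) := IsScalarTower.of_algebraMap_eq fun _ => rfl
  have hqf4 : Algebra.QuasiFinite (Localization.AtPrime p ⧸ m) (Localization.AtPrime q ⧸ I) :=
    Algebra.QuasiFinite.of_restrictScalars (Localization.AtPrime p) _ _
  have hfin : Module.Finite (Localization.AtPrime p ⧸ m) (Localization.AtPrime q ⧸ I) :=
    Algebra.QuasiFinite.iff_of_isArtinianRing.1 hqf4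
  have hart : IsArtinianRing (Localization.AtPrime q ⧸ I) :=
    IsArtinianRing.of_finite (Localization.AtPrime p ⧸ m) _
  exact ringKrullDimZero_iff_ringKrullDim_eq_zero.1 inferInstance

end Pool.Agent.J4.H15
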