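import Pool.Agent.Helper226.HilbUniv

/-!
# The finite algebra of a chart datum
-/

set_option autoImplicit false
set_option linter.style.haveILetI false

universe u

open scoped TensorProduct

namespace Pool.Agent.J4.H15

open Helper226

section

variable {k : Type u} [CommRing k] {B : Type u} [CommRing B] [Algebra k B] {d : ℕ}
  {b : Fin d → B} {R : Type u} [CommRing R] [Algebra k R]

/-- the algebra of a chart datum -/
abbrev EAlg (c : Chart k b R) : Type u := (R ⊗[k] B) ⧸ c.ideal

/-- the element with given coordinates -/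
noncomputable def expandE (c : Chart k b R) : (Fin d → R) →ₗ[R] EAlg c :=
  (Ideal.Quotient.mkₐ R c.ideal).toLinearMap ∘ₗ Chart.expand (k := k) R b

theorem expandE_apply (c : Chart k b R) (v : Fin d → R) :
    expandE c v = Ideal.Quotient.mk c.ideal (Chart.expand (k := k) R b v) := rfl

theorem expandE_L (c : Chart k b R) (x : R ⊗[k] B) :
    expandE c (c.L x) = Ideal.Quotient.mk c.ideal x :=
  (Ideal.Quotient.eq.2 (c.sub_expand_mem x)).symm

theorem expandE_bijective (c : Chart k b R) : Function.Bijective (expandE c) := by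
  constructor
  · rw [injective_iff_map_eq_zero]
    intro v hv
    rw [expandE_apply, Ideal.Quotient.eq_zero_iff_mem, Chart.mem_ideal, Chart.L_expand] at hv
    exact hv
  · intro z
    obtain ⟨x, rfl⟩ := Ideal.Quotient.mk_surjective z
    exact ⟨c.L x, expandE_L c x⟩

/-- coordinates -/
noncomputable def coordE (c : Chart k b R) : EAlg c ≃ₗ[R] (Fin d → R) :=
  (LinearEquiv.ofBijective (expandE c) (expandE_bijective c)).symm

theorem coordE_mk (c : Chart k b R) (x : R ⊗[k] B) :
    coordE c (Ideal.Quotient.mk c.ideal x) = c.L x := by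
  rw [← expandE_L]
  exact (LinearEquiv.ofBijective (expandE c) (expandE_bijective c)).symm_apply_apply _

theorem coordE_expandE (c : Chart k b R) (v : Fin d → R) : coordE c (expandE c v) = v :=
  (LinearEquiv.ofBijective (expandE c) (expandE_bijective c)).symm_apply_apply _

/-- the structure map -/
noncomputable def piE (c : Chart k b R) : B →ₐ[k] EAlg c :=
  (Ideal.Quotient.mkₐ k c.ideal).comp Algebra.TensorProduct.includeRight

theorem coordE_piE (c : Chart k b R) (x : B) : coordE c (piE c x) = c.q x := by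
  change coordE c (Ideal.Quotient.mk c.ideal (1 ⊗ₜ x)) = _
  rw [coordE_mk, Chart.L_tmul, one_smul]

theorem coordE_mul (c : Chart k b R) (x y : EAlg c) :
    coordE c (x * y) = ∑ j, coordE c x j • coordE c (piE c (b j) * y) := by
  obtain ⟨x, rfl⟩ := Ideal.Quotient.mk_surjective x
  obtain ⟨y, rfl⟩ := Ideal.Quotient.mk_surjective y
  rw [← map_mul, coordE_mk, coordE_mk, Chart.L_mul]
  refine Finset.sum_congr rfl fun j _ => ?_
  congr 1
  change _ = coordE c (Ideal.Quotient.mk c.ideal ((1 ⊗ₜ b j)) * Ideal.Quotient.mk c.ideal y)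
  rw [← map_mul, coordE_mk]

section hom

variable {B' : Type u} [CommRing B'] [Algebra k B']

/-- a chart datum from an algebra map to the algebra of a chart datum -/
noncomputable def ofHom (c : Chart k b R) (Φ : B' →ₐ[k] EAlg c) (b' : Fin d → B')
    (h : ∀ i, Φ (b' i) = piE c (b i)) : Chart k b' R where
  q := ((coordE c).toLinearMap.restrictScalars k) ∘ₗ Φ.toLinearMap
  q_b i := by
    change coordE c (Φ (b' i)) = _
    rw [h, coordE_piE, c.q_b]
  q_mul x y := by
    change coordE c (Φ (x * y)) = ∑ j, coordE c (Φ x) j • coordE c (Φ (b' j * y))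
    rw [map_mul, coordE_mul]
    refine Finset.sum_congr rfl fun j _ => ?_
    rw [map_mul Φ, h]

theorem ofHom_q (c : Chart k b R) (Φ : B' →ₐ[k] EAlg c) (b' : Fin d → B')
    (h : ∀ i, Φ (b' i) = piE c (b i)) (x : B') : (ofHom c Φ b' h).q x = coordE c (Φ x) := rfl

/-- restriction of a chart datum -/
noncomputable def comapC {b' : Fin d → B'} (c' : Chart k b' R) (ι : B →ₐ[k] B')
    (b : Fin d → B) (h : ∀ i, ι (b i) = b' i) : Chart k b R where
  q := c'.q ∘ₗ ι.toLinearMap
  q_b i := by
    change c'.q (ι (b i)) = _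
    rw [h, c'.q_b]
  q_mul x y := by
    change c'.q (ι (x * y)) = ∑ j, c'.q (ι x) j • c'.q (ι (b j * y))
    rw [map_mul, c'.q_mul]
    refine Finset.sum_congr rfl fun j _ => ?_
    rw [map_mul ι, h]

theorem comapC_q {b' : Fin d → B'} (c' : Chart k b' R) (ι : B →ₐ[k] B')
    (b : Fin d → B) (h : ∀ i, ι (b i) = b' i) (x : B) : (comapC c' ι b h).q x = c'.q (ι x) := rfl

theorem exists_toHom {b' : Fin d → B'} (c' : Chart k b' R) (ι : B →ₐ[k] B')
    (hι : ∀ i, ι (b i) = b' i) (c : Chart k b R) (h : ∀ x, c'.q (ι x) = c.q x) :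
    ∃ Φ : B' →ₐ[k] EAlg c, (∀ u, coordE c (Φ u) = c'.q u) ∧ ∀ x, Φ (ι x) = piE c x := by
  let φ : B' → EAlg c := fun u => (coordE c).symm (c'.q u)
  have hφ : ∀ u, coordE c (φ u) = c'.q u := fun u => (coordE c).apply_symm_apply _
  have hφι : ∀ x, φ (ι x) = piE c x := by
    intro x
    apply (coordE c).injective
    rw [hφ, h, coordE_piE]
  have h1 : ∀ x v, coordE c (piE c x * φ v) = c'.q (ι x * v) := by
    intro x v
    rw [mul_comm, coordE_mul, mul_comm (ι x), c'.q_mul, hφ]
    refine Finset.sum_congr rfl fun j _ => ?_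
    rw [← map_mul, coordE_piE, ← h, map_mul, hι]
  have hmul : ∀ u v, φ (u * v) = φ u * φ v := by
    intro u v
    apply (coordE c).injective
    rw [coordE_mul, hφ, hφ, c'.q_mul]
    refine Finset.sum_congr rfl fun j _ => ?_
    rw [h1, hι]
  have halg : ∀ r : k, φ (algebraMap k B' r) = algebraMap k (EAlg c) r := by
    intro r
    rw [← ι.commutes, hφι, AlgHom.commutes]
  have hone : φ 1 = 1 := by
    rw [← map_one ι, hφι, map_one]
  refine ⟨{ toFun := φ
            map_one' := hone
            map_mul' := hmul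
            map_zero' := by
              change (coordE c).symm (c'.q 0) = 0
              rw [map_zero, map_zero]
            map_add' := fun u v => by
              change (coordE c).symm (c'.q (u + v)) = _
              rw [map_add, map_add]
            commutes' := halg }, hφ, hφι⟩

end hom

section baseChange

variable {R' : Type u} [CommRing R'] [Algebra k R']

/-- base change of the algebra of a chart datum -/
theorem exists_bcE (c : Chart k b R) (φ : R →ₐ[k] R') :
    ∃ f : EAlg c →ₐ[k] EAlg (c.map φ), (∀ z j, coordE (c.map φ) (f z) j = φ (coordE c z j)) ∧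
      ∀ x, f (piE c x) = piE (c.map φ) x := by
  let f : EAlg c →ₐ[k] EAlg (c.map φ) := Ideal.quotientMapₐ (c.map φ).ideal (bc B φ) (by
    rw [Chart.ideal_map]
    exact Ideal.le_comap_map)
  have hf : ∀ x, f (Ideal.Quotient.mk _ x) = Ideal.Quotient.mk _ (bc B φ x) := fun x => rfl
  refine ⟨f, ?_, ?_⟩
  · intro z j
    obtain ⟨x, rfl⟩ := Ideal.Quotient.mk_surjective z
    rw [hf, coordE_mk, coordE_mk, Chart.map_L]
  · intro x
    change f (Ideal.Quotient.mk _ (1 ⊗ₜ x)) = Ideal.Quotient.mk _ (1 ⊗ₜ x)
    rw [hf]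
    congr 1
    simp

end baseChange

end

end Pool.Agent.J4.H15
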