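import Mathlib

/-!
# Two lemmas on domains and integrally closed domains
-/

set_option autoImplicit false

namespace Pool.Agent.J4.H15

theorem mem_of_pivot {K R G D : Type*} [CommRing K] [CommRing R] [CommRing G] [CommRing D]
    [Algebra K R] [Algebra K G] [Algebra K D] (I : Ideal R) (ψ : G →ₐ[K] R) (φ : R →ₐ[K] D)
    (u : G) (hI : ∀ x ∈ I, φ x = 0) (hinj : ∀ g, φ (ψ g) = 0 → g = 0) (s : Set R)
    (hs : Algebra.adjoin K s = ⊤)
    (hgen : ∀ x ∈ s, ∃ (N : ℕ) (g : G), ψ u ^ N * x - ψ g ∈ I)
    (hnz : ∀ x, ψ u * x ∈ I → x ∈ I) (x : R) (hx : φ x = 0) : x ∈ I := by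
  have key : ∀ x : R, ∃ (N : ℕ) (g : G), ψ u ^ N * x - ψ g ∈ I := by
    intro x
    have hx : x ∈ Algebra.adjoin K s := hs ▸ Algebra.mem_top
    induction hx using Algebra.adjoin_induction with
    | mem x hx => exact hgen x hx
    | algebraMap a => exact ⟨0, algebraMap K G a, by simp⟩
    | add x y _ _ hx hy =>
      obtain ⟨N, g, h⟩ := hx
      obtain ⟨M, g', h'⟩ := hy
      refine ⟨N + M, u ^ M * g + u ^ N * g', ?_⟩
      have := I.add_mem (I.mul_mem_left (ψ u ^ M) h) (I.mul_mem_left (ψ u ^ N) h')
      convert this using 1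
      simp only [map_add, map_mul, map_pow]
      ring
    | mul x y _ _ hx hy =>
      obtain ⟨N, g, h⟩ := hx
      obtain ⟨M, g', h'⟩ := hy
      refine ⟨N + M, g * g', ?_⟩
      have := I.add_mem (I.mul_mem_left (ψ u ^ M * y) h) (I.mul_mem_left (ψ g) h')
      convert this using 1
      simp only [map_mul]
      ring
  have hpow : ∀ (N : ℕ) (x : R), ψ u ^ N * x ∈ I → x ∈ I := by
    intro N
    induction N with
    | zero => intro x h; simpa using h
    | succ n ih =>
      intro x h
      apply ih
      apply hnz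
      rw [pow_succ'] at h
      rwa [← mul_assoc]
  obtain ⟨N, g, h⟩ := key x
  have h1 := hI _ h
  rw [map_sub, map_mul, hx, mul_zero, zero_sub, neg_eq_zero] at h1
  rw [hinj g h1, map_zero, sub_zero] at h
  exact hpow N x h

theorem isIntegrallyClosed_of_prime {R : Type*} [CommRing R] [IsDomain R] (x : R) (hx : Prime x)
    (D : Type*) [CommRing D] [IsDomain D] [Algebra R D] [IsLocalization.Away x D]
    [IsIntegrallyClosed D] : IsIntegrallyClosed R := by
  have hinj : Function.Injective (algebraMap R D) :=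
    IsLocalization.injective D (powers_le_nonZeroDivisors_of_noZeroDivisors hx.ne_zero)
  let T := FractionRing R
  have hxT : IsUnit (algebraMap R T x) := by
    rw [isUnit_iff_ne_zero, Ne, FaithfulSMul.algebraMap_eq_zero_iff]
    exact hx.ne_zero
  letI : Algebra D T := (IsLocalization.Away.lift (S := D) x hxT).toAlgebra
  have htower : IsScalarTower R D T := IsScalarTower.of_algebraMap_eq fun r =>
    (IsLocalization.Away.lift_eq (S := D) x hxT r).symm
  have hfr : IsFractionRing D T :=
    IsFractionRing.isFractionRing_of_isDomain_of_isLocalization (Submonoid.powers x) D T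
  have : Module.IsTorsionFree R D := by
    rw [Module.isTorsionFree_iff_algebraMap_injective]
    exact hinj
  rw [isIntegrallyClosed_iff T]
  intro z hz
  have hzD : IsIntegral D z := hz.tower_top
  obtain ⟨d, hd⟩ := IsIntegrallyClosed.isIntegral_iff.1 hzD
  have hdi : IsIntegral R d := by
    rw [← hd] at hz
    exact (isIntegral_algebraMap_iff (IsFractionRing.injective D T)).1 hz
  have key : ∀ (n : ℕ) (r : R), x ^ n • d = algebraMap R D r → ∃ r', algebraMap R D r' = d := by
    intro n
    induction n with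
    | zero => intro r hr; exact ⟨r, by simpa using hr.symm⟩
    | succ n ih =>
      intro r hr
      obtain ⟨p, hp, hp0⟩ := hdi
      have h1 := Polynomial.dvd_pow_natDegree_of_aeval_eq_zero hp (x ^ (n + 1)) r d hp0
        (by rw [← hr, Algebra.smul_def, mul_comm])
      have h2 : x ∣ r := hx.dvd_of_dvd_pow ((dvd_pow_self x (Nat.succ_ne_zero n)).trans h1)
      obtain ⟨r', rfl⟩ := h2
      apply ih r'
      rw [pow_succ', mul_smul, Algebra.smul_def x, map_mul] at hr
      exact mul_left_cancel₀ (by rw [Ne, map_eq_zero_iff _ hinj]; exact hx.ne_zero) hr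
  obtain ⟨⟨r, ⟨_, n, rfl⟩⟩, hr⟩ := IsLocalization.surj (Submonoid.powers x) d
  obtain ⟨r', hr'⟩ := key n r (by rw [Algebra.smul_def, mul_comm]; exact hr)
  exact ⟨r', by rw [IsScalarTower.algebraMap_apply R D, hr', hd]⟩

end Pool.Agent.J4.H15
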