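import Pool.Agent.J4.H15.Minors
import Pool.Agent.J4.H15.Pivot

/-!
# The coordinate ring of the cone over `G(2, 6)` is a normal domain
-/

set_option autoImplicit false
set_option linter.unusedVariables false
set_option linter.unusedSimpArgs false
set_option linter.style.haveILetI false

universe u

namespace Pool.Agent.J4.H15

open MvPolynomial

/-- The coordinate ring of the cone over `G(2, 6)`. -/
def Cone (K : Type u) [CommRing K] : Type u :=
  QRing (X 0 : MvPolynomial (Fin 9) K) (X 1) (X 2) (X 3) (X 4) (X 5) (X 6) (X 7) (X 8)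

namespace Cone

variable (K : Type u) [CommRing K]

noncomputable instance : CommRing (Cone K) :=
  inferInstanceAs (CommRing (QRing (X 0 : MvPolynomial (Fin 9) K) (X 1) (X 2) (X 3) (X 4) (X 5) (X 6) (X 7) (X 8)))

noncomputable instance : Algebra (MvPolynomial (Fin 9) K) (Cone K) :=
  inferInstanceAs (Algebra (MvPolynomial (Fin 9) K) (QRing (X 0 : MvPolynomial (Fin 9) K) (X 1) (X 2) (X 3) (X 4) (X 5) (X 6) (X 7) (X 8)))

noncomputable instance : Algebra K (Cone K) :=
  ((algebraMap (MvPolynomial (Fin 9) K) (Cone K)).comp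
    (algebraMap K (MvPolynomial (Fin 9) K))).toAlgebra

instance : IsScalarTower K (MvPolynomial (Fin 9) K) (Cone K) :=
  IsScalarTower.of_algebraMap_eq fun _ => rfl

/-- the parameters -/
noncomputable def t (i : Fin 9) : Cone K := algebraMap (MvPolynomial (Fin 9) K) (Cone K) (X i)

/-- the remaining generators -/
noncomputable def y (i : Fin 6) : Cone K := QRing.y (X 0 : MvPolynomial (Fin 9) K) (X 1) (X 2) (X 3) (X 4) (X 5) (X 6) (X 7) (X 8) i

theorem rel : Rel (t K 0) (t K 1) (t K 2) (t K 3) (t K 4) (t K 5) (t K 6) (t K 7) (t K 8)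
    (y K 0) (y K 1) (y K 2) (y K 3) (y K 4) (y K 5) :=
  QRing.rel (X 0 : MvPolynomial (Fin 9) K) (X 1) (X 2) (X 3) (X 4) (X 5) (X 6) (X 7) (X 8)

/-- the fourteen monomials are a basis -/
noncomputable def basis : Module.Basis (Fin 14) (MvPolynomial (Fin 9) K) (Cone K) :=
  QRing.basis

instance : Module.Free (MvPolynomial (Fin 9) K) (Cone K) := Module.Free.of_basis (basis K)

instance : Module.Finite (MvPolynomial (Fin 9) K) (Cone K) := Module.Finite.of_basis (basis K)

variable {K}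

theorem exists_lift {S : Type*} [CommRing S] [Algebra K S] (t' : Fin 9 → S) (y' : Fin 6 → S)
    (h : Rel (t' 0) (t' 1) (t' 2) (t' 3) (t' 4) (t' 5) (t' 6) (t' 7) (t' 8)
      (y' 0) (y' 1) (y' 2) (y' 3) (y' 4) (y' 5)) :
    ∃ φ : Cone K →ₐ[K] S, (∀ i, φ (t K i) = t' i) ∧ ∀ i, φ (y K i) = y' i := by
  letI : Algebra (MvPolynomial (Fin 9) K) S := (aeval t' : MvPolynomial (Fin 9) K →ₐ[K] S).toRingHom.toAlgebra
  have ha : ∀ x, algebraMap (MvPolynomial (Fin 9) K) S x = aeval t' x := fun x => rfl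
  have hX : ∀ i, algebraMap (MvPolynomial (Fin 9) K) S (X i) = t' i := fun i => by
    rw [ha, aeval_X]
  have h' : Rel (algebraMap (MvPolynomial (Fin 9) K) S (X 0))
      (algebraMap (MvPolynomial (Fin 9) K) S (X 1)) (algebraMap (MvPolynomial (Fin 9) K) S (X 2))
      (algebraMap (MvPolynomial (Fin 9) K) S (X 3)) (algebraMap (MvPolynomial (Fin 9) K) S (X 4))
      (algebraMap (MvPolynomial (Fin 9) K) S (X 5)) (algebraMap (MvPolynomial (Fin 9) K) S (X 6))
      (algebraMap (MvPolynomial (Fin 9) K) S (X 7)) (algebraMap (MvPolynomial (Fin 9) K) S (X 8))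
      (y' 0) (y' 1) (y' 2) (y' 3) (y' 4) (y' 5) := by
    simpa only [hX] using h
  obtain ⟨φ, h0, h1, h2, h3, h4, h5⟩ := QRing.exists_lift h'
  let φ' : Cone K →ₐ[MvPolynomial (Fin 9) K] S := φ
  refine ⟨{ φ' with commutes' := fun r => ?_ }, fun i => ?_, fun i => ?_⟩
  · change φ' (algebraMap (MvPolynomial (Fin 9) K) (Cone K) (C r)) = _
    rw [AlgHom.commutes, ha, MvPolynomial.algHom_C]
  · change φ' (algebraMap (MvPolynomial (Fin 9) K) (Cone K) (X i)) = _
    rw [AlgHom.commutes, hX]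
  · fin_cases i
    · exact h0
    · exact h1
    · exact h2
    · exact h3
    · exact h4
    · exact h5

theorem adjoin_eq_top : Algebra.adjoin K (Set.range (t K) ∪ Set.range (y K)) = ⊤ := by
  rw [eq_top_iff]
  rintro z -
  have hz : z ∈ Algebra.adjoin (MvPolynomial (Fin 9) K)
      ({y K 0, y K 1, y K 2, y K 3, y K 4, y K 5} : Set (Cone K)) := by
    have key : ∀ z : QRing (X 0 : MvPolynomial (Fin 9) K) (X 1) (X 2) (X 3) (X 4) (X 5) (X 6) (X 7) (X 8), z ∈ Algebra.adjoin (MvPolynomial (Fin 9) K) _ := fun z => by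
      rw [QRing.adjoin_y]
      exact Algebra.mem_top
    exact key z
  induction hz using Algebra.adjoin_induction with
  | mem x hx =>
    refine Algebra.subset_adjoin (Or.inr ?_)
    simp only [Set.mem_insert_iff, Set.mem_singleton_iff] at hx
    rcases hx with rfl | rfl | rfl | rfl | rfl | rfl <;> exact ⟨_, rfl⟩
  | algebraMap a =>
    induction a using MvPolynomial.induction_on with
    | C a => exact Subalgebra.algebraMap_mem _ a
    | add p q hp hq => rw [map_add]; exact Subalgebra.add_mem _ hp hq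
    | mul_X p i hp =>
      rw [map_mul]
      exact Subalgebra.mul_mem _ hp (Algebra.subset_adjoin (Or.inl ⟨i, rfl⟩))
  | add x y _ _ hx hy => exact Subalgebra.add_mem _ hx hy
  | mul x y _ _ hx hy => exact Subalgebra.mul_mem _ hx hy

theorem algHom_ext {S : Type*} [CommRing S] [Algebra K S] {φ ψ : Cone K →ₐ[K] S}
    (ht : ∀ i, φ (t K i) = ψ (t K i)) (hy : ∀ i, φ (y K i) = ψ (y K i)) : φ = ψ := by
  apply AlgHom.ext_of_adjoin_eq_top adjoin_eq_top
  rintro _ (⟨i, rfl⟩ | ⟨i, rfl⟩)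
  · exact ht i
  · exact hy i

variable (K)

/-- a Plücker coordinate -/
noncomputable def p12 : Cone K := t K 0

/-- a Plücker coordinate -/
noncomputable def p13 : Cone K := t K 1

/-- a Plücker coordinate -/
noncomputable def p14 : Cone K := t K 2 - y K 0

/-- a Plücker coordinate -/
noncomputable def p15 : Cone K := t K 3 - y K 1

/-- a Plücker coordinate -/
noncomputable def p16 : Cone K := t K 4 - y K 2 - y K 3

/-- a Plücker coordinate -/
noncomputable def p23 : Cone K := y K 0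

/-- a Plücker coordinate -/
noncomputable def p24 : Cone K := y K 1

/-- a Plücker coordinate -/
noncomputable def p25 : Cone K := y K 2

/-- a Plücker coordinate -/
noncomputable def p26 : Cone K := t K 5 - y K 4

/-- a Plücker coordinate -/
noncomputable def p34 : Cone K := y K 3

/-- a Plücker coordinate -/
noncomputable def p35 : Cone K := y K 4

/-- a Plücker coordinate -/
noncomputable def p36 : Cone K := t K 6 - y K 5

/-- a Plücker coordinate -/
noncomputable def p45 : Cone K := y K 5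

/-- a Plücker coordinate -/
noncomputable def p46 : Cone K := t K 7

/-- a Plücker coordinate -/
noncomputable def p56 : Cone K := t K 8

/-- the Plücker coordinates -/
def pset : Set (Cone K) := {p12 K, p13 K, p14 K, p15 K, p16 K, p23 K, p24 K, p25 K, p26 K, p34 K, p35 K, p36 K, p45 K, p46 K, p56 K}

theorem t0_eq : t K 0 = p12 K := by
  simp only [p12]; try ring

theorem t1_eq : t K 1 = p13 K := by
  simp only [p13]; try ring

theorem t2_eq : t K 2 = p14 K + p23 K := by
  simp only [p14, p23]; try ring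

theorem t3_eq : t K 3 = p15 K + p24 K := by
  simp only [p15, p24]; try ring

theorem t4_eq : t K 4 = p16 K + p25 K + p34 K := by
  simp only [p16, p25, p34]; try ring

theorem t5_eq : t K 5 = p26 K + p35 K := by
  simp only [p26, p35]; try ring

theorem t6_eq : t K 6 = p36 K + p45 K := by
  simp only [p36, p45]; try ring

theorem t7_eq : t K 7 = p46 K := by
  simp only [p46]; try ring

theorem t8_eq : t K 8 = p56 K := by
  simp only [p56]; try ring

theorem y0_eq : y K 0 = p23 K := by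
  simp only [p23]; try ring

theorem y1_eq : y K 1 = p24 K := by
  simp only [p24]; try ring

theorem y2_eq : y K 2 = p25 K := by
  simp only [p25]; try ring

theorem y3_eq : y K 3 = p34 K := by
  simp only [p34]; try ring

theorem y4_eq : y K 4 = p35 K := by
  simp only [p35]; try ring

theorem y5_eq : y K 5 = p45 K := by
  simp only [p45]; try ring

theorem adjoin_pset : Algebra.adjoin K (pset K) = ⊤ := by
  rw [eq_top_iff, ← adjoin_eq_top]
  refine Algebra.adjoin_le ?_
  have hm : ∀ x ∈ pset K, x ∈ Algebra.adjoin K (pset K) := fun x hx => Algebra.subset_adjoin hx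
  have m12 : p12 K ∈ Algebra.adjoin K (pset K) := hm _ (by simp [pset])
  have m13 : p13 K ∈ Algebra.adjoin K (pset K) := hm _ (by simp [pset])
  have m14 : p14 K ∈ Algebra.adjoin K (pset K) := hm _ (by simp [pset])
  have m15 : p15 K ∈ Algebra.adjoin K (pset K) := hm _ (by simp [pset])
  have m16 : p16 K ∈ Algebra.adjoin K (pset K) := hm _ (by simp [pset])
  have m23 : p23 K ∈ Algebra.adjoin K (pset K) := hm _ (by simp [pset])
  have m24 : p24 K ∈ Algebra.adjoin K (pset K) := hm _ (by simp [pset])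
  have m25 : p25 K ∈ Algebra.adjoin K (pset K) := hm _ (by simp [pset])
  have m26 : p26 K ∈ Algebra.adjoin K (pset K) := hm _ (by simp [pset])
  have m34 : p34 K ∈ Algebra.adjoin K (pset K) := hm _ (by simp [pset])
  have m35 : p35 K ∈ Algebra.adjoin K (pset K) := hm _ (by simp [pset])
  have m36 : p36 K ∈ Algebra.adjoin K (pset K) := hm _ (by simp [pset])
  have m45 : p45 K ∈ Algebra.adjoin K (pset K) := hm _ (by simp [pset])
  have m46 : p46 K ∈ Algebra.adjoin K (pset K) := hm _ (by simp [pset])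
  have m56 : p56 K ∈ Algebra.adjoin K (pset K) := hm _ (by simp [pset])
  rintro _ (⟨i, rfl⟩ | ⟨i, rfl⟩)
  · fin_cases i
    · exact (t0_eq K).symm ▸ m12
    · exact (t1_eq K).symm ▸ m13
    · exact (t2_eq K).symm ▸ (Subalgebra.add_mem _ m14 m23)
    · exact (t3_eq K).symm ▸ (Subalgebra.add_mem _ m15 m24)
    · exact (t4_eq K).symm ▸ (Subalgebra.add_mem _ (Subalgebra.add_mem _ m16 m25) m34)
    · exact (t5_eq K).symm ▸ (Subalgebra.add_mem _ m26 m35)
    · exact (t6_eq K).symm ▸ (Subalgebra.add_mem _ m36 m45)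
    · exact (t7_eq K).symm ▸ m46
    · exact (t8_eq K).symm ▸ m56
  · fin_cases i
    · exact (y0_eq K).symm ▸ m23
    · exact (y1_eq K).symm ▸ m24
    · exact (y2_eq K).symm ▸ m25
    · exact (y3_eq K).symm ▸ m34
    · exact (y4_eq K).symm ▸ m35
    · exact (y5_eq K).symm ▸ m45

variable {K}

/-- the map to a ring given by two rows -/
theorem exists_minors {S : Type*} [CommRing S] [Algebra K S] (a b : Fin 7 → S) :
    ∃ φ : Cone K →ₐ[K] S, φ (p12 K) = a 1 * b 2 - a 2 * b 1 ∧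
      φ (p13 K) = a 1 * b 3 - a 3 * b 1 ∧
      φ (p14 K) = a 1 * b 4 - a 4 * b 1 ∧
      φ (p15 K) = a 1 * b 5 - a 5 * b 1 ∧
      φ (p16 K) = a 1 * b 6 - a 6 * b 1 ∧
      φ (p23 K) = a 2 * b 3 - a 3 * b 2 ∧
      φ (p24 K) = a 2 * b 4 - a 4 * b 2 ∧
      φ (p25 K) = a 2 * b 5 - a 5 * b 2 ∧
      φ (p26 K) = a 2 * b 6 - a 6 * b 2 ∧
      φ (p34 K) = a 3 * b 4 - a 4 * b 3 ∧
      φ (p35 K) = a 3 * b 5 - a 5 * b 3 ∧
      φ (p36 K) = a 3 * b 6 - a 6 * b 3 ∧
      φ (p45 K) = a 4 * b 5 - a 5 * b 4 ∧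
      φ (p46 K) = a 4 * b 6 - a 6 * b 4 ∧
      φ (p56 K) = a 5 * b 6 - a 6 * b 5 := by
  obtain ⟨φ, ht, hy⟩ := exists_lift (K := K) (S := S)
    ![(a 1 * b 2 - a 2 * b 1),
      (a 1 * b 3 - a 3 * b 1),
      (a 1 * b 4 - a 4 * b 1) + (a 2 * b 3 - a 3 * b 2),
      (a 1 * b 5 - a 5 * b 1) + (a 2 * b 4 - a 4 * b 2),
      (a 1 * b 6 - a 6 * b 1) + (a 2 * b 5 - a 5 * b 2) + (a 3 * b 4 - a 4 * b 3),
      (a 2 * b 6 - a 6 * b 2) + (a 3 * b 5 - a 5 * b 3),
      (a 3 * b 6 - a 6 * b 3) + (a 4 * b 5 - a 5 * b 4),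
      (a 4 * b 6 - a 6 * b 4),
      (a 5 * b 6 - a 6 * b 5)]
    ![(a 2 * b 3 - a 3 * b 2),
      (a 2 * b 4 - a 4 * b 2),
      (a 2 * b 5 - a 5 * b 2),
      (a 3 * b 4 - a 4 * b 3),
      (a 3 * b 5 - a 5 * b 3),
      (a 4 * b 5 - a 5 * b 4)] (by
      exact rel_minors (a 1) (a 2) (a 3) (a 4) (a 5) (a 6) (b 1) (b 2) (b 3) (b 4) (b 5) (b 6))
  have ht0 := ht 0
  have ht1 := ht 1
  have ht2 := ht 2
  have ht3 := ht 3
  have ht4 := ht 4
  have ht5 := ht 5
  have ht6 := ht 6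
  have ht7 := ht 7
  have ht8 := ht 8
  have hy0 := hy 0
  have hy1 := hy 1
  have hy2 := hy 2
  have hy3 := hy 3
  have hy4 := hy 4
  have hy5 := hy 5
  simp at ht0 ht1 ht2 ht3 ht4 ht5 ht6 ht7 ht8 hy0 hy1 hy2 hy3 hy4 hy5
  refine ⟨φ, ?_, ?_, ?_, ?_, ?_, ?_, ?_, ?_, ?_, ?_, ?_, ?_, ?_, ?_, ?_⟩
  · simp only [p12, map_sub, ht0, ht1, ht2, ht3, ht4, ht5, ht6, ht7, ht8, hy0, hy1, hy2, hy3,
      hy4, hy5]; try ring
  · simp only [p13, map_sub, ht0, ht1, ht2, ht3, ht4, ht5, ht6, ht7, ht8, hy0, hy1, hy2, hy3,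
      hy4, hy5]; try ring
  · simp only [p14, map_sub, ht0, ht1, ht2, ht3, ht4, ht5, ht6, ht7, ht8, hy0, hy1, hy2, hy3,
      hy4, hy5]; try ring
  · simp only [p15, map_sub, ht0, ht1, ht2, ht3, ht4, ht5, ht6, ht7, ht8, hy0, hy1, hy2, hy3,
      hy4, hy5]; try ring
  · simp only [p16, map_sub, ht0, ht1, ht2, ht3, ht4, ht5, ht6, ht7, ht8, hy0, hy1, hy2, hy3,
      hy4, hy5]; try ring
  · simp only [p23, map_sub, ht0, ht1, ht2, ht3, ht4, ht5, ht6, ht7, ht8, hy0, hy1, hy2, hy3,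
      hy4, hy5]; try ring
  · simp only [p24, map_sub, ht0, ht1, ht2, ht3, ht4, ht5, ht6, ht7, ht8, hy0, hy1, hy2, hy3,
      hy4, hy5]; try ring
  · simp only [p25, map_sub, ht0, ht1, ht2, ht3, ht4, ht5, ht6, ht7, ht8, hy0, hy1, hy2, hy3,
      hy4, hy5]; try ring
  · simp only [p26, map_sub, ht0, ht1, ht2, ht3, ht4, ht5, ht6, ht7, ht8, hy0, hy1, hy2, hy3,
      hy4, hy5]; try ring
  · simp only [p34, map_sub, ht0, ht1, ht2, ht3, ht4, ht5, ht6, ht7, ht8, hy0, hy1, hy2, hy3,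
      hy4, hy5]; try ring
  · simp only [p35, map_sub, ht0, ht1, ht2, ht3, ht4, ht5, ht6, ht7, ht8, hy0, hy1, hy2, hy3,
      hy4, hy5]; try ring
  · simp only [p36, map_sub, ht0, ht1, ht2, ht3, ht4, ht5, ht6, ht7, ht8, hy0, hy1, hy2, hy3,
      hy4, hy5]; try ring
  · simp only [p45, map_sub, ht0, ht1, ht2, ht3, ht4, ht5, ht6, ht7, ht8, hy0, hy1, hy2, hy3,
      hy4, hy5]; try ring
  · simp only [p46, map_sub, ht0, ht1, ht2, ht3, ht4, ht5, ht6, ht7, ht8, hy0, hy1, hy2, hy3,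
      hy4, hy5]; try ring
  · simp only [p56, map_sub, ht0, ht1, ht2, ht3, ht4, ht5, ht6, ht7, ht8, hy0, hy1, hy2, hy3,
      hy4, hy5]; try ring

end Cone

end Pool.Agent.J4.H15
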