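import Pool.Agent.J4.H15.Cone

/-!
# The coordinate ring of the cone over `G(2, 6)` is a normal domain
-/

set_option autoImplicit false
set_option linter.unusedVariables false
set_option linter.unusedSimpArgs false
set_option linter.style.haveILetI false

universe u

namespace Pool.Agent.J4.H15

open MvPolynomial

namespace Cone

variable {K : Type u} [CommRing K]

theorem pl1234 : p12 K * p34 K = p13 K * p24 K - p14 K * p23 K :=
  (rel K).pl1234

theorem pl1235 : p12 K * p35 K = p13 K * p25 K - p15 K * p23 K :=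
  (rel K).pl1235

theorem pl1236 : p12 K * p36 K = p13 K * p26 K - p16 K * p23 K :=
  (rel K).pl1236

theorem pl1245 : p12 K * p45 K = p14 K * p25 K - p15 K * p24 K :=
  (rel K).pl1245

theorem pl1246 : p12 K * p46 K = p14 K * p26 K - p16 K * p24 K :=
  (rel K).pl1246

theorem pl1256 : p12 K * p56 K = p15 K * p26 K - p16 K * p25 K :=
  (rel K).pl1256

theorem pl1345 : p13 K * p45 K = p14 K * p35 K - p15 K * p34 K :=
  (rel K).pl1345

theorem pl1346 : p13 K * p46 K = p14 K * p36 K - p16 K * p34 K :=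
  (rel K).pl1346

theorem pl1356 : p13 K * p56 K = p15 K * p36 K - p16 K * p35 K :=
  (rel K).pl1356

theorem pl1456 : p14 K * p56 K = p15 K * p46 K - p16 K * p45 K :=
  (rel K).pl1456

theorem pl2345 : p23 K * p45 K = p24 K * p35 K - p25 K * p34 K :=
  (rel K).pl2345

theorem pl2346 : p23 K * p46 K = p24 K * p36 K - p26 K * p34 K :=
  (rel K).pl2346

theorem pl2356 : p23 K * p56 K = p25 K * p36 K - p26 K * p35 K :=
  (rel K).pl2356

theorem pl2456 : p24 K * p56 K = p25 K * p46 K - p26 K * p45 K :=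
  (rel K).pl2456

theorem pl3456 : p34 K * p56 K = p35 K * p46 K - p36 K * p45 K :=
  (rel K).pl3456

/-- the parametrisation of the locus where `p12` is a unit -/
noncomputable def psi0 (K : Type u) [CommRing K] : MvPolynomial (Fin 9) K →ₐ[K] Cone K :=
  aeval ![p12 K, p13 K, p14 K, p15 K, p16 K, p23 K, p24 K, p25 K, p26 K]

theorem psi0_0 : psi0 K (X 0) = p12 K := by simp [psi0]

theorem psi0_1 : psi0 K (X 1) = p13 K := by simp [psi0]

theorem psi0_2 : psi0 K (X 2) = p14 K := by simp [psi0]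

theorem psi0_3 : psi0 K (X 3) = p15 K := by simp [psi0]

theorem psi0_4 : psi0 K (X 4) = p16 K := by simp [psi0]

theorem psi0_5 : psi0 K (X 5) = p23 K := by simp [psi0]

theorem psi0_6 : psi0 K (X 6) = p24 K := by simp [psi0]

theorem psi0_7 : psi0 K (X 7) = p25 K := by simp [psi0]

theorem psi0_8 : psi0 K (X 8) = p26 K := by simp [psi0]

theorem exists_phi0 (K : Type u) [CommRing K] :
    ∃ φ : Cone K →ₐ[K] Localization.Away (X 0 : MvPolynomial (Fin 9) K),
      ∀ g, φ (psi0 K g) = algebraMap (MvPolynomial (Fin 9) K) _ g := by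
  let D := Localization.Away (X 0 : MvPolynomial (Fin 9) K)
  let w : Fin 9 → D := fun i => algebraMap (MvPolynomial (Fin 9) K) D (X i)
  let v : D := IsLocalization.Away.invSelf (X 0 : MvPolynomial (Fin 9) K)
  have hv : w 0 * v = 1 := IsLocalization.Away.mul_invSelf (X 0 : MvPolynomial (Fin 9) K)
  obtain ⟨φ, h12, h13, h14, h15, h16, h23, h24, h25, h26, -⟩ := exists_minors (K := K)
    ![0, 1, 0, -v * w 5, -v * w 6, -v * w 7, -v * w 8] ![0, 0, w 0, w 1, w 2, w 3, w 4]
  refine ⟨φ, fun g => ?_⟩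
  have : φ.comp (psi0 K) = IsScalarTower.toAlgHom K (MvPolynomial (Fin 9) K) D := by
    refine MvPolynomial.algHom_ext fun i => ?_
    rw [AlgHom.comp_apply, IsScalarTower.toAlgHom_apply]
    fin_cases i
    · change φ (psi0 K (X 0)) = w 0
      rw [psi0_0, h12]
      change (1 : D) * w 0 - 0 * 0 = _
      linear_combination 0
    · change φ (psi0 K (X 1)) = w 1
      rw [psi0_1, h13]
      change (1 : D) * w 1 - (-v * w 5) * 0 = _
      linear_combination 0
    · change φ (psi0 K (X 2)) = w 2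
      rw [psi0_2, h14]
      change (1 : D) * w 2 - (-v * w 6) * 0 = _
      linear_combination 0
    · change φ (psi0 K (X 3)) = w 3
      rw [psi0_3, h15]
      change (1 : D) * w 3 - (-v * w 7) * 0 = _
      linear_combination 0
    · change φ (psi0 K (X 4)) = w 4
      rw [psi0_4, h16]
      change (1 : D) * w 4 - (-v * w 8) * 0 = _
      linear_combination 0
    · change φ (psi0 K (X 5)) = w 5
      rw [psi0_5, h23]
      change (0 : D) * w 1 - (-v * w 5) * w 0 = _
      linear_combination w 5 * hv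
    · change φ (psi0 K (X 6)) = w 6
      rw [psi0_6, h24]
      change (0 : D) * w 2 - (-v * w 6) * w 0 = _
      linear_combination w 6 * hv
    · change φ (psi0 K (X 7)) = w 7
      rw [psi0_7, h25]
      change (0 : D) * w 3 - (-v * w 7) * w 0 = _
      linear_combination w 7 * hv
    · change φ (psi0 K (X 8)) = w 8
      rw [psi0_8, h26]
      change (0 : D) * w 4 - (-v * w 8) * w 0 = _
      linear_combination w 8 * hv
  exact DFunLike.congr_fun this g

theorem gen0 : ∀ x ∈ pset K, ∃ (N : ℕ) (g : MvPolynomial (Fin 9) K),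
    psi0 K (X 0) ^ N * x = psi0 K g := by
  intro x hx
  simp only [pset, Set.mem_insert_iff, Set.mem_singleton_iff] at hx
  rcases hx with rfl | rfl | rfl | rfl | rfl | rfl | rfl | rfl | rfl | rfl | rfl | rfl | rfl | rfl | rfl
  · exact ⟨0, X 0, by rw [psi0_0, pow_zero, one_mul]⟩
  · exact ⟨0, X 1, by rw [psi0_1, pow_zero, one_mul]⟩
  · exact ⟨0, X 2, by rw [psi0_2, pow_zero, one_mul]⟩
  · exact ⟨0, X 3, by rw [psi0_3, pow_zero, one_mul]⟩
  · exact ⟨0, X 4, by rw [psi0_4, pow_zero, one_mul]⟩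
  · exact ⟨0, X 5, by rw [psi0_5, pow_zero, one_mul]⟩
  · exact ⟨0, X 6, by rw [psi0_6, pow_zero, one_mul]⟩
  · exact ⟨0, X 7, by rw [psi0_7, pow_zero, one_mul]⟩
  · exact ⟨0, X 8, by rw [psi0_8, pow_zero, one_mul]⟩
  · refine ⟨1, X 1 * X 6 - X 2 * X 5, ?_⟩
    rw [map_sub, map_mul, map_mul, psi0_0, psi0_1, psi0_6, psi0_2, psi0_5, pow_one]
    linear_combination pl1234 (K := K)
  · refine ⟨1, X 1 * X 7 - X 3 * X 5, ?_⟩
    rw [map_sub, map_mul, map_mul, psi0_0, psi0_1, psi0_7, psi0_3, psi0_5, pow_one]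
    linear_combination pl1235 (K := K)
  · refine ⟨1, X 1 * X 8 - X 4 * X 5, ?_⟩
    rw [map_sub, map_mul, map_mul, psi0_0, psi0_1, psi0_8, psi0_4, psi0_5, pow_one]
    linear_combination pl1236 (K := K)
  · refine ⟨1, X 2 * X 7 - X 3 * X 6, ?_⟩
    rw [map_sub, map_mul, map_mul, psi0_0, psi0_2, psi0_7, psi0_3, psi0_6, pow_one]
    linear_combination pl1245 (K := K)
  · refine ⟨1, X 2 * X 8 - X 4 * X 6, ?_⟩
    rw [map_sub, map_mul, map_mul, psi0_0, psi0_2, psi0_8, psi0_4, psi0_6, pow_one]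
    linear_combination pl1246 (K := K)
  · refine ⟨1, X 3 * X 8 - X 4 * X 7, ?_⟩
    rw [map_sub, map_mul, map_mul, psi0_0, psi0_3, psi0_8, psi0_4, psi0_7, pow_one]
    linear_combination pl1256 (K := K)

section domain

variable (K) [IsDomain K]

theorem p12_ne_zero : p12 K ≠ 0 := by
  intro h
  have h1 : (X 0 : MvPolynomial (Fin 9) K) • basis K 0 = 0 := by
    rw [Algebra.smul_def]
    change p12 K * _ = 0
    rw [h, zero_mul]
  rcases (basis K).smul_eq_zero.1 h1 with h2 | h2
  · exact X_ne_zero 0 h2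
  · exact (basis K).ne_zero 0 h2

theorem p12_mul_eq_zero (x : Cone K) (h : p12 K * x = 0) : x = 0 := by
  have h1 : (X 0 : MvPolynomial (Fin 9) K) • x = 0 := by rw [Algebra.smul_def]; exact h
  have h2 := congrArg (basis K).repr h1
  rw [map_smul, map_zero] at h2
  refine (basis K).repr.map_eq_zero_iff.1 (Finsupp.ext fun i => ?_)
  have h3 := DFunLike.congr_fun h2 i
  rw [Finsupp.smul_apply, smul_eq_mul, Finsupp.zero_apply] at h3
  exact (mul_eq_zero.1 h3).resolve_left (X_ne_zero 0)

theorem phi0_injective (φ : Cone K →ₐ[K] Localization.Away (X 0 : MvPolynomial (Fin 9) K))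
    (hφ : ∀ g, φ (psi0 K g) = algebraMap (MvPolynomial (Fin 9) K) _ g) :
    Function.Injective φ := by
  have hinj : Function.Injective (algebraMap (MvPolynomial (Fin 9) K)
      (Localization.Away (X 0 : MvPolynomial (Fin 9) K))) :=
    IsLocalization.injective _ (powers_le_nonZeroDivisors_of_noZeroDivisors (X_ne_zero 0))
  rw [injective_iff_map_eq_zero]
  intro x hx
  have := mem_of_pivot (⊥ : Ideal (Cone K)) (psi0 K) φ (X 0)
    (fun x hx => by rw [Ideal.mem_bot.1 hx, map_zero])
    (fun g hg => by rw [hφ] at hg; exact (map_eq_zero_iff _ hinj).1 hg) (pset K) (adjoin_pset K)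
    (fun x hx => by
      obtain ⟨N, g, h⟩ := gen0 x hx
      exact ⟨N, g, by rw [h, sub_self]; exact Ideal.zero_mem _⟩)
    (fun x hx => by
      rw [psi0_0] at hx
      exact Ideal.mem_bot.2 (p12_mul_eq_zero K x (Ideal.mem_bot.1 hx))) x hx
  exact Ideal.mem_bot.1 this

instance : IsDomain (Cone K) := by
  obtain ⟨φ, hφ⟩ := exists_phi0 K
  have : IsDomain (Localization.Away (X 0 : MvPolynomial (Fin 9) K)) :=
    IsLocalization.isDomain_localization
      (powers_le_nonZeroDivisors_of_noZeroDivisors (X_ne_zero 0))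
  exact (phi0_injective K φ hφ).isDomain φ.toRingHom

theorem gen0' (x : Cone K) : ∃ (N : ℕ) (g : MvPolynomial (Fin 9) K),
    psi0 K (X 0) ^ N * x = psi0 K g := by
  have hx : x ∈ Algebra.adjoin K (pset K) := adjoin_pset K ▸ Algebra.mem_top
  induction hx using Algebra.adjoin_induction with
  | mem x hx => exact gen0 x hx
  | algebraMap a => exact ⟨0, algebraMap K _ a, by simp⟩
  | add x y _ _ hx hy =>
    obtain ⟨N, g, h⟩ := hx
    obtain ⟨M, g', h'⟩ := hy
    refine ⟨N + M, X 0 ^ M * g + X 0 ^ N * g', ?_⟩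
    simp only [map_add, map_mul, map_pow]
    linear_combination (psi0 K (X 0) ^ M) * h + (psi0 K (X 0) ^ N) * h'
  | mul x y _ _ hx hy =>
    obtain ⟨N, g, h⟩ := hx
    obtain ⟨M, g', h'⟩ := hy
    refine ⟨N + M, g * g', ?_⟩
    simp only [map_mul]
    linear_combination (psi0 K (X 0) ^ M * y) * h + (psi0 K g) * h'

/-- the parametrisation of the locus where `p12` vanishes and `p13` is a unit -/
noncomputable def psi1 (K : Type u) [CommRing K] : MvPolynomial (Fin 8) K →ₐ[K] Cone K :=
  aeval ![p13 K, p14 K, p15 K, p16 K, p23 K, p34 K, p35 K, p36 K]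

omit [IsDomain K] in
theorem psi1_0 : psi1 K (X 0) = p13 K := by simp [psi1]

omit [IsDomain K] in
theorem psi1_1 : psi1 K (X 1) = p14 K := by simp [psi1]

omit [IsDomain K] in
theorem psi1_2 : psi1 K (X 2) = p15 K := by simp [psi1]

omit [IsDomain K] in
theorem psi1_3 : psi1 K (X 3) = p16 K := by simp [psi1]

omit [IsDomain K] in
theorem psi1_4 : psi1 K (X 4) = p23 K := by simp [psi1]

omit [IsDomain K] in
theorem psi1_5 : psi1 K (X 5) = p34 K := by simp [psi1]

omit [IsDomain K] in
theorem psi1_6 : psi1 K (X 6) = p35 K := by simp [psi1]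

omit [IsDomain K] in
theorem psi1_7 : psi1 K (X 7) = p36 K := by simp [psi1]

omit [IsDomain K] in
theorem exists_phi1 :
    ∃ φ : Cone K →ₐ[K] Localization.Away (X 0 : MvPolynomial (Fin 8) K), φ (p12 K) = 0 ∧
      ∀ g, φ (psi1 K g) = algebraMap (MvPolynomial (Fin 8) K) _ g := by
  let D := Localization.Away (X 0 : MvPolynomial (Fin 8) K)
  let w : Fin 8 → D := fun i => algebraMap (MvPolynomial (Fin 8) K) D (X i)
  let v : D := IsLocalization.Away.invSelf (X 0 : MvPolynomial (Fin 8) K)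
  have hv : w 0 * v = 1 := IsLocalization.Away.mul_invSelf (X 0 : MvPolynomial (Fin 8) K)
  obtain ⟨φ, h12, h13, h14, h15, h16, h23, -, -, -, h34, h35, h36, -⟩ := exists_minors (K := K)
    ![0, 1, v * w 4, 0, -v * w 5, -v * w 6, -v * w 7] ![0, 0, 0, w 0, w 1, w 2, w 3]
  refine ⟨φ, ?_, fun g => ?_⟩
  · rw [h12]
    change (1 : D) * 0 - (v * w 4) * 0 = 0
    ring
  have : φ.comp (psi1 K) = IsScalarTower.toAlgHom K (MvPolynomial (Fin 8) K) D := by
    refine MvPolynomial.algHom_ext fun i => ?_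
    rw [AlgHom.comp_apply, IsScalarTower.toAlgHom_apply]
    fin_cases i
    · change φ (psi1 K (X 0)) = w 0
      rw [psi1_0, h13]
      change (1 : D) * w 0 - (0 : D) * 0 = _
      linear_combination 0
    · change φ (psi1 K (X 1)) = w 1
      rw [psi1_1, h14]
      change (1 : D) * w 1 - (-v * w 5) * 0 = _
      linear_combination 0
    · change φ (psi1 K (X 2)) = w 2
      rw [psi1_2, h15]
      change (1 : D) * w 2 - (-v * w 6) * 0 = _
      linear_combination 0
    · change φ (psi1 K (X 3)) = w 3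
      rw [psi1_3, h16]
      change (1 : D) * w 3 - (-v * w 7) * 0 = _
      linear_combination 0
    · change φ (psi1 K (X 4)) = w 4
      rw [psi1_4, h23]
      change (v * w 4) * w 0 - (0 : D) * 0 = _
      linear_combination w 4 * hv
    · change φ (psi1 K (X 5)) = w 5
      rw [psi1_5, h34]
      change (0 : D) * w 1 - (-v * w 5) * w 0 = _
      linear_combination w 5 * hv
    · change φ (psi1 K (X 6)) = w 6
      rw [psi1_6, h35]
      change (0 : D) * w 2 - (-v * w 6) * w 0 = _
      linear_combination w 6 * hv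
    · change φ (psi1 K (X 7)) = w 7
      rw [psi1_7, h36]
      change (0 : D) * w 3 - (-v * w 7) * w 0 = _
      linear_combination w 7 * hv
  exact DFunLike.congr_fun this g

omit [IsDomain K] in
theorem gen1 : ∀ x ∈ pset K, ∃ (N : ℕ) (g : MvPolynomial (Fin 8) K),
    psi1 K (X 0) ^ N * x - psi1 K g ∈ Ideal.span {p12 K} := by
  intro x hx
  simp only [pset, Set.mem_insert_iff, Set.mem_singleton_iff] at hx
  rcases hx with rfl | rfl | rfl | rfl | rfl | rfl | rfl | rfl | rfl | rfl | rfl | rfl | rfl | rfl | rfl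
  · exact ⟨0, 0, by rw [map_zero, sub_zero, pow_zero, one_mul]; exact Ideal.mem_span_singleton_self _⟩
  · exact ⟨0, X 0, by rw [psi1_0, pow_zero, one_mul, sub_self]; exact Ideal.zero_mem _⟩
  · exact ⟨0, X 1, by rw [psi1_1, pow_zero, one_mul, sub_self]; exact Ideal.zero_mem _⟩
  · exact ⟨0, X 2, by rw [psi1_2, pow_zero, one_mul, sub_self]; exact Ideal.zero_mem _⟩
  · exact ⟨0, X 3, by rw [psi1_3, pow_zero, one_mul, sub_self]; exact Ideal.zero_mem _⟩
  · exact ⟨0, X 4, by rw [psi1_4, pow_zero, one_mul, sub_self]; exact Ideal.zero_mem _⟩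
  · refine ⟨1, X 1 * X 4, Ideal.mem_span_singleton.2 ⟨p34 K, ?_⟩⟩
    rw [map_mul, psi1_0, psi1_1, psi1_4, pow_one]
    linear_combination -pl1234 (K := K)
  · refine ⟨1, X 2 * X 4, Ideal.mem_span_singleton.2 ⟨p35 K, ?_⟩⟩
    rw [map_mul, psi1_0, psi1_2, psi1_4, pow_one]
    linear_combination -pl1235 (K := K)
  · refine ⟨1, X 3 * X 4, Ideal.mem_span_singleton.2 ⟨p36 K, ?_⟩⟩
    rw [map_mul, psi1_0, psi1_3, psi1_4, pow_one]
    linear_combination -pl1236 (K := K)
  · exact ⟨0, X 5, by rw [psi1_5, pow_zero, one_mul, sub_self]; exact Ideal.zero_mem _⟩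
  · exact ⟨0, X 6, by rw [psi1_6, pow_zero, one_mul, sub_self]; exact Ideal.zero_mem _⟩
  · exact ⟨0, X 7, by rw [psi1_7, pow_zero, one_mul, sub_self]; exact Ideal.zero_mem _⟩
  · refine ⟨1, X 1 * X 6 - X 2 * X 5, ?_⟩
    rw [map_sub, map_mul, map_mul, psi1_0, psi1_1, psi1_6, psi1_2, psi1_5, pow_one, pl1345,
      sub_self]
    exact Ideal.zero_mem _
  · refine ⟨1, X 1 * X 7 - X 3 * X 5, ?_⟩
    rw [map_sub, map_mul, map_mul, psi1_0, psi1_1, psi1_7, psi1_3, psi1_5, pow_one, pl1346,
      sub_self]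
    exact Ideal.zero_mem _
  · refine ⟨1, X 2 * X 7 - X 3 * X 6, ?_⟩
    rw [map_sub, map_mul, map_mul, psi1_0, psi1_2, psi1_7, psi1_3, psi1_6, pow_one, pl1356,
      sub_self]
    exact Ideal.zero_mem _

theorem p13_mul_mem (x : Cone K) (h : p13 K * x ∈ Ideal.span {p12 K}) :
    x ∈ Ideal.span {p12 K} := by
  obtain ⟨z, hz⟩ := Ideal.mem_span_singleton.1 h
  have h1 : (X 1 : MvPolynomial (Fin 9) K) • x = (X 0 : MvPolynomial (Fin 9) K) • z := by
    rw [Algebra.smul_def, Algebra.smul_def]; exact hz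
  have h2 := congrArg (basis K).repr h1
  rw [map_smul, map_smul] at h2
  have hX : Prime (X 0 : MvPolynomial (Fin 9) K) := MvPolynomial.X_prime
  have h4 : ∀ i, (X 0 : MvPolynomial (Fin 9) K) ∣ (basis K).repr x i := by
    intro i
    have h3 := DFunLike.congr_fun h2 i
    rw [Finsupp.smul_apply, smul_eq_mul, Finsupp.smul_apply, smul_eq_mul] at h3
    have h5 : (X 0 : MvPolynomial (Fin 9) K) ∣ X 1 * (basis K).repr x i := ⟨_, h3⟩
    refine (hX.dvd_or_dvd h5).resolve_left ?_
    intro hd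
    rw [MvPolynomial.X_dvd_X] at hd
    exact absurd hd (by decide)
  choose f hf using h4
  refine Ideal.mem_span_singleton.2 ⟨∑ i, f i • basis K i, ?_⟩
  conv_lhs => rw [← (basis K).sum_repr x]
  rw [Finset.mul_sum]
  refine Finset.sum_congr rfl fun i _ => ?_
  rw [hf i, mul_smul, Algebra.smul_def]
  rfl

theorem prime_p12 : Prime (p12 K) := by
  obtain ⟨φ, h12, hφ⟩ := exists_phi1 K
  have hinj : Function.Injective (algebraMap (MvPolynomial (Fin 8) K)
      (Localization.Away (X 0 : MvPolynomial (Fin 8) K))) :=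
    IsLocalization.injective _ (powers_le_nonZeroDivisors_of_noZeroDivisors (X_ne_zero 0))
  have hD : IsDomain (Localization.Away (X 0 : MvPolynomial (Fin 8) K)) :=
    IsLocalization.isDomain_localization
      (powers_le_nonZeroDivisors_of_noZeroDivisors (X_ne_zero 0))
  have hI : ∀ x ∈ Ideal.span {p12 K}, φ x = 0 := by
    intro x hx
    obtain ⟨z, rfl⟩ := Ideal.mem_span_singleton.1 hx
    rw [map_mul, h12, zero_mul]
  have key : ∀ x, φ x = 0 → x ∈ Ideal.span {p12 K} :=
    mem_of_pivot (Ideal.span {p12 K}) (psi1 K) φ (X 0) hI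
      (fun g hg => by rw [hφ] at hg; exact (map_eq_zero_iff _ hinj).1 hg) (pset K)
      (adjoin_pset K) (gen1 K)
      (fun x hx => by
        rw [psi1_0] at hx
        exact p13_mul_mem K x hx)
  refine ⟨p12_ne_zero K, ?_, ?_⟩
  · intro hu
    have := hu.map φ
    rw [h12] at this
    exact not_isUnit_zero this
  · intro a b hab
    have h1 := hI _ (Ideal.mem_span_singleton.2 hab)
    rw [map_mul] at h1
    rcases mul_eq_zero.1 h1 with h | h
    · exact Or.inl (Ideal.mem_span_singleton.1 (key a h))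
    · exact Or.inr (Ideal.mem_span_singleton.1 (key b h))

instance [UniqueFactorizationMonoid K] : IsIntegrallyClosed (Cone K) := by
  obtain ⟨φ, hφ⟩ := exists_phi0 K
  have hle : Submonoid.powers (X 0 : MvPolynomial (Fin 9) K) ≤ nonZeroDivisors _ :=
    powers_le_nonZeroDivisors_of_noZeroDivisors (X_ne_zero 0)
  have hD : IsDomain (Localization.Away (X 0 : MvPolynomial (Fin 9) K)) :=
    IsLocalization.isDomain_localization hle
  have hic : IsIntegrallyClosed (Localization.Away (X 0 : MvPolynomial (Fin 9) K)) :=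
    isIntegrallyClosed_of_isLocalization _ (Submonoid.powers (X 0 : MvPolynomial (Fin 9) K)) hle
  letI : Algebra (Cone K) (Localization.Away (X 0 : MvPolynomial (Fin 9) K)) :=
    φ.toRingHom.toAlgebra
  have hinj := phi0_injective K φ hφ
  have ha : ∀ x, algebraMap (Cone K) (Localization.Away (X 0 : MvPolynomial (Fin 9) K)) x = φ x :=
    fun _ => rfl
  have hp : φ (p12 K) = algebraMap (MvPolynomial (Fin 9) K) _ (X 0) := by
    rw [← psi0_0, hφ]
  have hloc : IsLocalization.Away (p12 K) (Localization.Away (X 0 : MvPolynomial (Fin 9) K)) := by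
    refine ⟨?_, ?_, ?_⟩
    · rintro ⟨_, n, rfl⟩
      change IsUnit (algebraMap (Cone K) _ (p12 K ^ n))
      rw [map_pow, ha, hp]
      exact (IsLocalization.Away.algebraMap_isUnit (X 0 : MvPolynomial (Fin 9) K)).pow n
    · intro z
      obtain ⟨⟨g, ⟨_, n, rfl⟩⟩, h⟩ := IsLocalization.surj
        (Submonoid.powers (X 0 : MvPolynomial (Fin 9) K)) z
      refine ⟨⟨psi0 K g, ⟨_, n, rfl⟩⟩, ?_⟩
      change z * algebraMap (Cone K) _ (p12 K ^ n) = _
      rw [map_pow, ha, hp, ha, hφ, ← map_pow]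
      exact h
    · intro x y hxy
      exact ⟨1, by rw [hinj hxy]⟩
  exact isIntegrallyClosed_of_prime (p12 K) (prime_p12 K)
    (Localization.Away (X 0 : MvPolynomial (Fin 9) K))

end domain

end Cone

end Pool.Agent.J4.H15
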