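import Pool.Agent.J4.H15.SmAsc

/-!
# Descent of normality and the Cohen–Macaulay property from a polynomial ring
-/

set_option autoImplicit false
set_option linter.style.haveILetI false

universe u

open scoped TensorProduct
open IsLocalRing

namespace Pool.Agent.J4.H15

theorem isIntegrallyClosed_of_retract {R S : Type u} [CommRing R] [CommRing S] [IsDomain R]
    [IsDomain S] [IsIntegrallyClosed S] (i : R →+* S) (r : S →+* R) (h : ∀ x, r (i x) = x) :
    IsIntegrallyClosed R := by
  have hinj : Function.Injective i := fun x y hxy => by rw [← h x, ← h y, hxy]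
  let K := FractionRing R
  let L := FractionRing S
  let g : R →+* L := (algebraMap S L).comp i
  have hinj2 : Function.Injective g := (IsFractionRing.injective S L).comp hinj
  let j : K →+* L := IsFractionRing.lift hinj2
  have hj : ∀ x : R, j (algebraMap R K x) = algebraMap S L (i x) := fun x =>
    IsFractionRing.lift_algebraMap hinj2 x
  rw [isIntegrallyClosed_iff K]
  intro z hz
  have h1 : IsIntegral S (j z) := by
    obtain ⟨p, hp, hp0⟩ := hz
    refine ⟨p.map i, hp.map i, ?_⟩
    rw [Polynomial.eval₂_map]
    have := congrArg j hp0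
    rw [Polynomial.hom_eval₂, map_zero] at this
    rw [← this]
    congr 1
    ext x
    exact (hj x).symm
  obtain ⟨s, hs⟩ := IsIntegrallyClosed.isIntegral_iff.1 h1
  obtain ⟨a, b, hb, hab⟩ := IsFractionRing.div_surjective (A := R) z
  refine ⟨r s, ?_⟩
  have hb0 : algebraMap R K b ≠ 0 := by
    rw [Ne, map_eq_zero_iff _ (IsFractionRing.injective R K)]
    exact nonZeroDivisors.ne_zero hb
  have h2 : z * algebraMap R K b = algebraMap R K a := by
    rw [← hab, div_mul_cancel₀ _ hb0]
  have h3 : s * i b = i a := by
    apply IsFractionRing.injective S L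
    rw [map_mul, hs, ← hj, ← hj, ← map_mul, h2]
  have h4 := congrArg r h3
  rw [map_mul, h, h] at h4
  rw [← hab, eq_div_iff hb0, ← map_mul, h4]

theorem ncm_descent_poly {A : Type u} [CommRing A] (p : Ideal A) [p.IsPrime] (c : A)
    (P : Ideal (Polynomial A)) [P.IsPrime] (hP : P = p.comap (Polynomial.evalRingHom c))
    (h : NCM (Localization.AtPrime P)) : NCM (Localization.AtPrime p) := by
  obtain ⟨hdom, hic, hcm⟩ := h
  have hp' : p = P.comap Polynomial.C := by
    rw [hP, Ideal.comap_comap]
    ext x
    rw [Ideal.mem_comap, RingHom.comp_apply, Polynomial.coe_evalRingHom, Polynomial.eval_C]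
  let S := Localization.AtPrime P
  let R := Localization.AtPrime p
  let ρ : S →+* R := Localization.localRingHom P p (Polynomial.evalRingHom c) hP
  let i : R →+* S := Localization.localRingHom p P Polynomial.C hp'
  have hρ : ∀ x, ρ (algebraMap _ S x) = algebraMap _ R (Polynomial.eval c x) := fun x =>
    Localization.localRingHom_to_map _ _ _ hP x
  have hi : ∀ x, i (algebraMap _ R x) = algebraMap _ S (Polynomial.C x) := fun x =>
    Localization.localRingHom_to_map _ _ _ hp' x
  have hri : ∀ x, ρ (i x) = x := by
    have : ρ.comp i = RingHom.id R := by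
      apply IsLocalization.ringHom_ext p.primeCompl
      ext x
      rw [RingHom.comp_apply, RingHom.comp_apply, hi, hρ, Polynomial.eval_C]
      rfl
    intro x
    exact DFunLike.congr_fun this x
  have hinj : Function.Injective i := fun x y hxy => by rw [← hri x, ← hri y, hxy]
  have hdomR : IsDomain R := hinj.isDomain i
  refine ⟨hdomR, isIntegrallyClosed_of_retract i ρ hri, ?_⟩
  let y : S := algebraMap _ S (Polynomial.X - Polynomial.C c)
  have hym : y ∈ maximalIdeal S := by
    rw [IsLocalization.AtPrime.to_map_mem_maximal_iff S P, hP, Ideal.mem_comap,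
      Polynomial.coe_evalRingHom, Polynomial.eval_sub, Polynomial.eval_X, Polynomial.eval_C,
      sub_self]
    exact p.zero_mem
  have hyr : IsSMulRegular S y := by
    intro a b hab
    have hy0 : y ≠ 0 := by
      intro h0
      obtain ⟨⟨t, ht⟩, ht2⟩ := (IsLocalization.map_eq_zero_iff P.primeCompl S _).1 h0
      have h1 : t * (Polynomial.X - Polynomial.C c) = 0 := ht2
      rw [(Polynomial.monic_X_sub_C c).mul_left_eq_zero_iff] at h1
      exact ht (h1 ▸ P.zero_mem)
    exact mul_left_cancel₀ hy0 hab
  have hloc := isLocalRing_quot hym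
  have hker : RingHom.ker ρ = Ideal.span {y} := by
    apply le_antisymm
    · intro x hx
      rw [RingHom.mem_ker] at hx
      obtain ⟨g, s, rfl⟩ := IsLocalization.exists_mk'_eq P.primeCompl x
      have h1 : algebraMap _ R (Polynomial.eval c g) = 0 := by
        rw [← hρ, ← IsLocalization.mk'_spec S g s, map_mul, hx, zero_mul]
      obtain ⟨⟨t, ht⟩, ht2⟩ := (IsLocalization.map_eq_zero_iff p.primeCompl R _).1 h1
      have h2 : t * Polynomial.eval c g = 0 := ht2
      have h3 : (Polynomial.X - Polynomial.C c) ∣ Polynomial.C t * g := by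
        rw [Polynomial.dvd_iff_isRoot, Polynomial.IsRoot, Polynomial.eval_mul, Polynomial.eval_C,
          h2]
      obtain ⟨w, hw⟩ := h3
      have h4 : Polynomial.C t ∈ P.primeCompl := by
        intro h5
        apply ht
        rw [hp']
        exact h5
      have h5 : IsUnit (algebraMap _ S (Polynomial.C t)) :=
        IsLocalization.map_units S (⟨_, h4⟩ : P.primeCompl)
      have h6 : algebraMap _ S (Polynomial.C t) * (algebraMap _ S (s : Polynomial A) *
          IsLocalization.mk' S g s) ∈ Ideal.span {y} := by
        rw [mul_comm (algebraMap _ S (s : Polynomial A)), IsLocalization.mk'_spec, ← map_mul, hw,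
          map_mul]
        exact Ideal.mul_mem_right _ _ (Ideal.mem_span_singleton_self _)
      rw [Ideal.unit_mul_mem_iff_mem _ h5,
        Ideal.unit_mul_mem_iff_mem _ (IsLocalization.map_units S s)] at h6
      exact h6
    · rw [Ideal.span_singleton_le_iff_mem, RingHom.mem_ker, hρ, Polynomial.eval_sub,
        Polynomial.eval_X, Polynomial.eval_C, sub_self, map_zero]
  have hsurj : Function.Surjective ρ := fun x => ⟨i x, hri x⟩
  have hq := hcm.quotient hym hyr
  let e1 : (S ⧸ Ideal.span {y}) ≃+* (S ⧸ RingHom.ker ρ) := Ideal.quotEquivOfEq hker.symm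
  exact hq.of_equiv (e1.trans (RingHom.quotientKerEquivOfSurjective hsurj))

theorem NCM.of_ringEquiv {R R' : Type u} [CommRing R] [CommRing R'] (e : R ≃+* R')
    (p : Ideal R) [p.IsPrime] (q : Ideal R') [q.IsPrime] (h : ∀ x, x ∈ p ↔ e x ∈ q)
    (hq : NCM (Localization.AtPrime q)) : NCM (Localization.AtPrime p) := by
  have h1 : p.primeCompl.map (e : R →* R') = q.primeCompl := by
    ext y
    constructor
    · rintro ⟨x, hx, rfl⟩
      intro h2
      exact hx ((h x).2 h2)
    · intro hy
      refine ⟨e.symm y, fun h2 => hy ?_, e.apply_symm_apply y⟩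
      have := (h _).1 h2
      rwa [e.apply_symm_apply] at this
  exact hq.of_equiv (IsLocalization.ringEquivOfRingEquiv (Localization.AtPrime p)
    (Localization.AtPrime q) e h1).symm

theorem ncm_descent (n : ℕ) : ∀ {A : Type u} [CommRing A] (p : Ideal A) [p.IsPrime]
    (c : Fin n → A) (P : Ideal (MvPolynomial (Fin n) A)) [P.IsPrime],
    P = p.comap (MvPolynomial.eval c) →
    NCM (Localization.AtPrime P) → NCM (Localization.AtPrime p) := by
  induction n with
  | zero =>
    intro A _ p _ c P _ hP h
    refine NCM.of_ringEquiv (MvPolynomial.isEmptyRingEquiv A (Fin 0)).symm p P ?_ h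
    intro x
    rw [hP, Ideal.mem_comap]
    have : MvPolynomial.eval c ((MvPolynomial.isEmptyRingEquiv A (Fin 0)).symm x) = x := by
      rw [MvPolynomial.isEmptyRingEquiv_symm_apply, MvPolynomial.eval_C]
    rw [this]
  | succ n ih =>
    intro A _ p _ c P _ hP h
    let P1 : Ideal (MvPolynomial (Fin n) A) := p.comap (MvPolynomial.eval (Fin.tail c))
    have hP1 : P1.IsPrime := Ideal.comap_isPrime _ _
    refine ih p (Fin.tail c) P1 rfl ?_
    let P2 : Ideal (Polynomial (MvPolynomial (Fin n) A)) :=
      P1.comap (Polynomial.evalRingHom (MvPolynomial.C (c 0)))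
    have hP2 : P2.IsPrime := Ideal.comap_isPrime _ _
    refine ncm_descent_poly P1 (MvPolynomial.C (c 0)) P2 rfl ?_
    refine NCM.of_ringEquiv (MvPolynomial.finSuccEquiv A n).toRingEquiv.symm P2 P ?_ h
    intro F
    obtain ⟨f, rfl⟩ := (MvPolynomial.finSuccEquiv A n).surjective F
    have h1 : (MvPolynomial.finSuccEquiv A n).toRingEquiv.symm
        ((MvPolynomial.finSuccEquiv A n) f) = f :=
      (MvPolynomial.finSuccEquiv A n).symm_apply_apply f
    rw [h1, hP, Ideal.mem_comap, Ideal.mem_comap, Ideal.mem_comap]
    have h2 := MvPolynomial.eval_eq_eval_mv_eval' (Fin.tail c) (c 0) f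
    have h3 : (Fin.cons (c 0) (Fin.tail c) : Fin (n + 1) → A) = c := Fin.cons_self_tail c
    rw [h3] at h2
    rw [h2, Polynomial.coe_evalRingHom]
    have h4 : Polynomial.eval (c 0) (Polynomial.map (MvPolynomial.eval (Fin.tail c))
        (MvPolynomial.finSuccEquiv A n f)) = MvPolynomial.eval (Fin.tail c)
        (Polynomial.eval (MvPolynomial.C (c 0)) (MvPolynomial.finSuccEquiv A n f)) := by
      rw [Polynomial.eval_map, Polynomial.eval, Polynomial.hom_eval₂]
      simp
    rw [h4]

end Pool.Agent.J4.H15
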