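import Pool.Agent.J4.H15.HilbDef

/-!
# Families of `n` points and the Hilbert scheme as a representing object
-/

set_option autoImplicit false
set_option linter.style.haveILetI false

universe u

open CategoryTheory CategoryTheory.Limits AlgebraicGeometry

namespace Pool.Agent.J4.H15

section

variable {S X T Z : Scheme.{u}} {a : X ⟶ S} {t : T ⟶ S} {q : Z ⟶ X} {p : Z ⟶ T} {n : ℕ}

theorem isClosedImmersion_lift [IsSeparated a] (w : q ≫ a = p ≫ t) [IsFinite p]
    (hm : ∀ {Y : Scheme.{u}} (u v : Y ⟶ Z), u ≫ q = v ≫ q → u ≫ p = v ≫ p → u = v) :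
    IsClosedImmersion (pullback.lift q p w) := by
  rw [IsClosedImmersion.iff_isFinite_and_mono]
  refine ⟨?_, ?_⟩
  · have : IsFinite (pullback.lift q p w ≫ pullback.snd a t) := by
      rw [pullback.lift_snd]; infer_instance
    exact IsFinite.of_comp _ (pullback.snd a t)
  · constructor
    intro Y u v huv
    apply hm
    · have h := congrArg (fun z => z ≫ pullback.fst a t) huv
      simp only [Category.assoc, pullback.lift_fst] at h
      exact h
    · have h := congrArg (fun z => z ≫ pullback.snd a t) huv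
      simp only [Category.assoc, pullback.lift_snd] at h
      exact h

theorem IsFam.hom_ext (hF : IsFam a t q p n) {Y : Scheme.{u}} {u v : Y ⟶ Z}
    (h1 : u ≫ q = v ≫ q) (h2 : u ≫ p = v ≫ p) : u = v := by
  have := hF.closed
  rw [← cancel_mono (pullback.lift q p hF.w)]
  apply pullback.hom_ext
  · rw [Category.assoc, Category.assoc, pullback.lift_fst]
    exact h1
  · rw [Category.assoc, Category.assoc, pullback.lift_snd]
    exact h2

theorem IsFam.baseChange [IsSeparated a] (hF : IsFam a t q p n) {T' Z' : Scheme.{u}} {f : T' ⟶ T}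
    {g : Z' ⟶ Z} {p' : Z' ⟶ T'} (hp : IsPullback g p' p f) :
    IsFam a (f ≫ t) (g ≫ q) p' n := by
  have h1 := hF.fin
  have h2 := hF.flat
  have h3 := hF.lfp
  have w : (g ≫ q) ≫ a = p' ≫ f ≫ t := by
    rw [Category.assoc, hF.w, hp.w_assoc]
  have hfin : IsFinite p' := MorphismProperty.of_isPullback hp h1
  refine ⟨w, ?_, hfin, MorphismProperty.of_isPullback hp h2,
    MorphismProperty.of_isPullback hp h3, ?_⟩
  · apply isClosedImmersion_lift
    intro Y u v e1 e2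
    apply hp.hom_ext
    · apply hF.hom_ext
      · simpa using e1
      · rw [Category.assoc, Category.assoc, hp.w, ← Category.assoc, e2, Category.assoc]
    · exact e2
  · intro x
    rw [Scheme.Hom.finrank_of_isPullback g p' p f hp x]
    exact hF.rank _

end

section

variable {S X H W : Scheme.{u}} {a : X ⟶ S} {h : H ⟶ S} {Q : W ⟶ X} {P : W ⟶ H} {n : ℕ}

/-- the family `(q, p)` over `T` is the pullback of `(Q, P)` along `f : T ⟶ H` -/
def Pulls (Q : W ⟶ X) (P : W ⟶ H) {T Z : Scheme.{u}} (f : T ⟶ H) (q : Z ⟶ X) (p : Z ⟶ T) : Prop :=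
  ∃ g : Z ⟶ W, g ≫ Q = q ∧ IsPullback g p P f

theorem Pulls.isFam [IsSeparated a] (hH : IsFam a h Q P n) {T Z : Scheme.{u}} {f : T ⟶ H}
    {q : Z ⟶ X} {p : Z ⟶ T} (hf : Pulls Q P f q p) : IsFam a (f ≫ h) q p n := by
  obtain ⟨g, rfl, hg⟩ := hf
  exact hH.baseChange hg

theorem Pulls.unique [IsSeparated a] (hH : IsHilb a h Q P n) {T Z : Scheme.{u}} {f f' : T ⟶ H}
    {q : Z ⟶ X} {p : Z ⟶ T} (hf : Pulls Q P f q p) (hf' : Pulls Q P f' q p)
    (e : f ≫ h = f' ≫ h) : f = f' := by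
  have h1 := hf.isFam hH.fam
  obtain ⟨f0, -, h0⟩ := hH.univ _ q p h1
  rw [h0 f ⟨rfl, hf⟩, h0 f' ⟨e.symm, hf'⟩]

theorem Pulls.comp {T Z : Scheme.{u}} {f : T ⟶ H} {q : Z ⟶ X} {p : Z ⟶ T} (hf : Pulls Q P f q p)
    {T' Z' : Scheme.{u}} {s : T' ⟶ T} {g' : Z' ⟶ Z} {p' : Z' ⟶ T'} (hp : IsPullback g' p' p s) :
    Pulls Q P (s ≫ f) (g' ≫ q) p' := by
  obtain ⟨g, rfl, hg⟩ := hf
  refine ⟨g' ≫ g, by rw [Category.assoc], ?_⟩
  exact hp.paste_horiz hg

theorem Pulls.exists_iso {T Z Z' : Scheme.{u}} {f : T ⟶ H} {q : Z ⟶ X} {p : Z ⟶ T} {q' : Z' ⟶ X}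
    {p' : Z' ⟶ T} (hf : Pulls Q P f q p) (hf' : Pulls Q P f q' p') :
    ∃ e : Z ≅ Z', e.hom ≫ q' = q ∧ e.hom ≫ p' = p := by
  obtain ⟨g, rfl, hg⟩ := hf
  obtain ⟨g', rfl, hg'⟩ := hf'
  refine ⟨hg.isoIsPullback _ _ hg', ?_, ?_⟩
  · rw [← Category.assoc, IsPullback.isoIsPullback_hom_fst]
  · rw [IsPullback.isoIsPullback_hom_snd]

theorem Pulls.of_iso {T Z Z' : Scheme.{u}} {f : T ⟶ H} {q : Z ⟶ X} {p : Z ⟶ T} {q' : Z' ⟶ X}
    {p' : Z' ⟶ T} (hf : Pulls Q P f q p) (e : Z' ≅ Z) (h1 : e.hom ≫ q = q') (h2 : e.hom ≫ p = p') :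
    Pulls Q P f q' p' := by
  obtain ⟨g, rfl, hg⟩ := hf
  refine ⟨e.hom ≫ g, by rw [Category.assoc, h1], ?_⟩
  refine hg.of_iso e.symm (Iso.refl _) (Iso.refl _) (Iso.refl _) ?_ ?_ ?_ ?_
  · simp
  · simp [← h2]
  · simp
  · simp

end

/-- `ι : Spec R ⟶ H` behaves like the canonical morphism from the spectrum of a local ring of `H` -/
structure IsLocalAt {H : Scheme.{u}} {R : Type u} [CommRing R] [IsLocalRing R]
    (ι : Spec (CommRingCat.of R) ⟶ H) : Prop where
  mono : Mono ι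
  lift : ∀ {A : Type u} [CommRing A] [IsLocalRing A] (f : Spec (CommRingCat.of A) ⟶ H),
    f (IsLocalRing.closedPoint A) = ι (IsLocalRing.closedPoint R) →
      ∃ ρ : R →+* A, IsLocalHom ρ ∧ Spec.map (CommRingCat.ofHom ρ) ≫ ι = f

theorem isLocalAt_fromSpecStalk {H : Scheme.{u}} (x : H) :
    @IsLocalAt H (H.presheaf.stalk x) _ inferInstance (H.fromSpecStalk x) := by
  refine ⟨inferInstanceAs (Mono (H.fromSpecStalk x)), ?_⟩
  intro A _ _ f hf
  have hx : (H.fromSpecStalk x) (IsLocalRing.closedPoint (H.presheaf.stalk x)) = x :=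
    Scheme.fromSpecStalk_closedPoint
  obtain rfl := hf.trans hx
  refine ⟨(Scheme.stalkClosedPointTo f).hom, inferInstance, ?_⟩
  exact Scheme.Spec_stalkClosedPointTo_fromSpecStalk f

end Pool.Agent.J4.H15
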