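import Pool.Agent.J4.H15.Fam
import Pool.Agent.Helper226.HilbFree

/-!
# Families of points inside an affine open subscheme
-/

set_option autoImplicit false
set_option linter.style.haveILetI false

universe u

open scoped TensorProduct
open CategoryTheory CategoryTheory.Limits AlgebraicGeometry

namespace Pool.Agent.J4.H15

open Helper226

variable (k : Type u) [Field k] {B : Type u} [CommRing B] [Algebra k B] {n : ℕ}

section

variable {R : Type u} [CommRing R] [Algebra k R] (I : Ideal (R ⊗[k] B))

/-- the map from `B` to the quotient -/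
noncomputable def qHom : B →+* (R ⊗[k] B) ⧸ I :=
  (Ideal.Quotient.mk I).comp
    ((Algebra.TensorProduct.includeRight : B →ₐ[k] R ⊗[k] B) : B →+* R ⊗[k] B)

theorem qHom_apply (b : B) : qHom k I b = Ideal.Quotient.mk I (1 ⊗ₜ b) := rfl

theorem pHom_apply (r : R) :
    algebraMap R ((R ⊗[k] B) ⧸ I) r = Ideal.Quotient.mk I (r ⊗ₜ 1) := rfl

/-- the closed subscheme of `Spec R × Spec B` defined by `I` -/
noncomputable abbrev famZ : Scheme.{u} := Spec (CommRingCat.of ((R ⊗[k] B) ⧸ I))

/-- its morphism to `X ⊇ Spec B` -/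
noncomputable def famq {X : Scheme.{u}} (j : Spec (CommRingCat.of B) ⟶ X) : famZ k I ⟶ X :=
  Spec.map (CommRingCat.ofHom (qHom k I)) ≫ j

/-- its morphism to `Spec R` -/
noncomputable def famp : famZ k I ⟶ Spec (CommRingCat.of R) :=
  Spec.map (CommRingCat.ofHom (algebraMap R ((R ⊗[k] B) ⧸ I)))

theorem quot_hom_ext {D : Type*} [CommRing D] {φ ψ : R ⊗[k] B →+* D}
    (h1 : ∀ r, φ (r ⊗ₜ 1) = ψ (r ⊗ₜ 1)) (h2 : ∀ b, φ (1 ⊗ₜ b) = ψ (1 ⊗ₜ b)) : φ = ψ := by
  refine RingHom.ext fun x => ?_
  induction x using TensorProduct.induction_on with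
  | zero => simp
  | add x y hx hy => rw [map_add, map_add, hx, hy]
  | tmul r b =>
    have : r ⊗ₜ[k] b = (r ⊗ₜ 1) * (1 ⊗ₜ b) := by simp
    rw [this, map_mul, map_mul, h1, h2]

theorem fam_w {X : Scheme.{u}} {a : X ⟶ Spec (CommRingCat.of k)}
    {j : Spec (CommRingCat.of B) ⟶ X}
    (hj : j ≫ a = Spec.map (CommRingCat.ofHom (algebraMap k B))) :
    famq k I j ≫ a = famp k I ≫ Spec.map (CommRingCat.ofHom (algebraMap k R)) := by
  rw [famq, famp, Category.assoc, hj, ← Spec.map_comp, ← Spec.map_comp, ← CommRingCat.ofHom_comp,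
    ← CommRingCat.ofHom_comp]
  congr 2
  ext c
  rw [RingHom.comp_apply, RingHom.comp_apply, qHom_apply, pHom_apply]
  congr 1
  rw [Algebra.algebraMap_eq_smul_one, Algebra.algebraMap_eq_smul_one, TensorProduct.smul_tmul]

/-- two morphisms to the closed subscheme agree if they agree in `Spec R` and in `Spec B` -/
theorem fam_hom_ext {Y : Scheme.{u}} {u v : Y ⟶ famZ k I}
    (h1 : u ≫ Spec.map (CommRingCat.ofHom (qHom k I)) = v ≫ Spec.map (CommRingCat.ofHom (qHom k I)))
    (h2 : u ≫ famp k I = v ≫ famp k I) : u = v := by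
  have hs : IsClosedImmersion (Spec.map (CommRingCat.ofHom (Ideal.Quotient.mk I))) :=
    IsClosedImmersion.spec_of_surjective _ Ideal.Quotient.mk_surjective
  have hpb := isPullback_SpecMap_of_isPushout _ _ _ _ (CommRingCat.isPushout_tensorProduct k R B)
  rw [← cancel_mono (Spec.map (CommRingCat.ofHom (Ideal.Quotient.mk I)))]
  apply hpb.hom_ext
  · rw [Category.assoc, Category.assoc, ← Spec.map_comp, ← CommRingCat.ofHom_comp]
    exact h2
  · rw [Category.assoc, Category.assoc, ← Spec.map_comp, ← CommRingCat.ofHom_comp]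
    exact h1

theorem isFam_of_locBas {X : Scheme.{u}} {a : X ⟶ Spec (CommRingCat.of k)} [IsSeparated a]
    {j : Spec (CommRingCat.of B) ⟶ X} [Mono j]
    (hj : j ≫ a = Spec.map (CommRingCat.ofHom (algebraMap k B))) (hI : LocBas k n I) :
    IsFam a (Spec.map (CommRingCat.ofHom (algebraMap k R))) (famq k I j) (famp k I) n := by
  obtain ⟨h1, h2, h3⟩ := hI.spec
  have hfin : IsFinite (famp k I) := by
    rw [famp, IsFinite.SpecMap_iff]
    exact RingHom.finite_algebraMap.2 h1
  have hflat : Flat (famp k I) := by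
    rw [famp, Flat.SpecMap_iff]
    exact RingHom.flat_algebraMap_iff.2 inferInstance
  have hfp : Module.FinitePresentation R ((R ⊗[k] B) ⧸ I) :=
    Module.finitePresentation_of_projective R _
  refine ⟨fam_w k I hj, ?_, hfin, hflat, ?_, ?_⟩
  · apply isClosedImmersion_lift
    intro Y u v e1 e2
    apply fam_hom_ext k I _ e2
    rw [← cancel_mono j]
    simpa [famq] using e1
  · rw [famp, LocallyOfFinitePresentation.SpecMap_iff]
    exact RingHom.finitePresentation_algebraMap.2 inferInstance
  · intro x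
    rw [famp, Scheme.Hom.finrank_SpecMap_algebraMap]
    exact h3 x

theorem locBas_of_props (hfin : IsFinite (famp k I)) (hflat : Flat (famp k I))
    (hlfp : LocallyOfFinitePresentation (famp k I)) (hr : ∀ x, (famp k I).finrank x = n) :
    LocBas k n I := by
  rw [famp, IsFinite.SpecMap_iff] at hfin
  rw [famp, Flat.SpecMap_iff] at hflat
  rw [famp, LocallyOfFinitePresentation.SpecMap_iff] at hlfp
  have h1 : Module.Finite R ((R ⊗[k] B) ⧸ I) := RingHom.finite_algebraMap.1 hfin
  have h2 : Module.Flat R ((R ⊗[k] B) ⧸ I) := RingHom.flat_algebraMap_iff.1 hflat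
  have h3 : Algebra.FinitePresentation R ((R ⊗[k] B) ⧸ I) :=
    RingHom.finitePresentation_algebraMap.1 hlfp
  have h4 : Module.FinitePresentation R ((R ⊗[k] B) ⧸ I) :=
    Module.FinitePresentation.of_finite_of_finitePresentation R _
  have h5 : Module.Projective R ((R ⊗[k] B) ⧸ I) := Module.Flat.projective_of_finitePresentation
  apply locBas_of_spec h1 h5
  intro x
  have := hr x
  rw [famp, Scheme.Hom.finrank_SpecMap_algebraMap] at this
  exact this

end

section

variable {R : Type u} [CommRing R] [Algebra k R] {R' : Type u} [CommRing R'] [Algebra k R']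
  (I : Ideal (R ⊗[k] B)) (g : R →ₐ[k] R')

/-- the map of quotients induced by base change -/
noncomputable def cHom : ((R ⊗[k] B) ⧸ I) →+* ((R' ⊗[k] B) ⧸ (I.map (bc B g))) :=
  Ideal.quotientMap (I.map (bc B g)) (bc B g : R ⊗[k] B →+* R' ⊗[k] B)
    (Ideal.map_le_iff_le_comap.1 le_rfl)

theorem cHom_mk (x : R ⊗[k] B) :
    cHom k I g (Ideal.Quotient.mk I x) = Ideal.Quotient.mk _ (bc B g x) := rfl

theorem exists_lift {D : Type*} [CommRing D] (φ : ((R ⊗[k] B) ⧸ I) →+* D) (ψ : R' →+* D)
    (h : φ.comp (algebraMap R _) = ψ.comp (g : R →+* R')) :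
    ∃ χ : ((R' ⊗[k] B) ⧸ (I.map (bc B g))) →+* D,
      χ.comp (cHom k I g) = φ ∧ χ.comp (algebraMap R' _) = ψ := by
  letI : Algebra k D := (ψ.comp (algebraMap k R')).toAlgebra
  have hk : algebraMap k D = ψ.comp (algebraMap k R') := rfl
  let ψa : R' →ₐ[k] D := { ψ with commutes' := fun c => rfl }
  let qa : B →ₐ[k] D :=
    { φ.comp (qHom k I) with
      commutes' := by
        intro c
        change φ (qHom k I (algebraMap k B c)) = _
        have h1 : qHom k I (algebraMap k B c) = algebraMap R _ (algebraMap k R c) := by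
          rw [qHom_apply, pHom_apply]
          congr 1
          rw [Algebra.algebraMap_eq_smul_one, Algebra.algebraMap_eq_smul_one,
            TensorProduct.smul_tmul]
        have h2 := congrArg (fun f => f (algebraMap k R c)) h
        simp only [RingHom.comp_apply] at h2
        rw [h1, h2, hk, RingHom.comp_apply]
        congr 1
        exact g.commutes c }
  let F : R' ⊗[k] B →ₐ[k] D := Algebra.TensorProduct.productMap ψa qa
  have hF : ((F : R' ⊗[k] B →+* D).comp (bc B g : R ⊗[k] B →+* R' ⊗[k] B)) =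
      φ.comp (Ideal.Quotient.mk I) := by
    apply quot_hom_ext
    · intro r
      have h2 := congrArg (fun f => f r) h
      simp only [RingHom.comp_apply] at h2
      change F (bc B g (r ⊗ₜ 1)) = φ (Ideal.Quotient.mk I (r ⊗ₜ 1))
      rw [← pHom_apply, h2]
      simp [F, ψa]
    · intro b
      change F (bc B g (1 ⊗ₜ b)) = φ (Ideal.Quotient.mk I (1 ⊗ₜ b))
      rw [← qHom_apply]
      simp [F, qa]
  have hker : ∀ x ∈ I.map (bc B g), (F : R' ⊗[k] B →+* D) x = 0 := by
    intro x hx
    have : I.map (bc B g) ≤ RingHom.ker (F : R' ⊗[k] B →+* D) := by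
      rw [Ideal.map_le_iff_le_comap]
      intro y hy
      have h3 := congrArg (fun f => f y) hF
      simp only [RingHom.comp_apply] at h3
      rw [Ideal.mem_comap, RingHom.mem_ker]
      refine h3.trans ?_
      rw [Ideal.Quotient.eq_zero_iff_mem.2 hy, map_zero]
    exact this hx
  refine ⟨Ideal.Quotient.lift _ (F : R' ⊗[k] B →+* D) hker, ?_, ?_⟩
  · apply Ideal.Quotient.ringHom_ext
    exact hF
  · ext r
    change F (r ⊗ₜ 1) = ψ r
    simp [F, ψa]

theorem lift_unique {D : Type*} [CommRing D] {χ χ' : ((R' ⊗[k] B) ⧸ (I.map (bc B g))) →+* D}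
    (h1 : χ.comp (cHom k I g) = χ'.comp (cHom k I g))
    (h2 : χ.comp (algebraMap R' _) = χ'.comp (algebraMap R' _)) : χ = χ' := by
  apply Ideal.Quotient.ringHom_ext
  apply quot_hom_ext
  · intro r
    exact congrArg (fun f => f r) h2
  · intro b
    have := congrArg (fun f => f (Ideal.Quotient.mk I (1 ⊗ₜ b))) h1
    simp only [RingHom.comp_apply, cHom_mk] at this
    simpa using this

theorem cHom_comp :
    (cHom k I g).comp (algebraMap R _) = (algebraMap R' _).comp (g : R →+* R') := by
  ext r
  rw [RingHom.comp_apply, RingHom.comp_apply, pHom_apply, cHom_mk]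
  simp [pHom_apply]

theorem cHom_qHom : (cHom k I g).comp (qHom k I) = qHom k (I.map (bc B g)) := by
  ext b
  rw [RingHom.comp_apply, qHom_apply, cHom_mk, qHom_apply]
  simp

theorem isPushout_cHom :
    IsPushout (CommRingCat.ofHom (algebraMap R ((R ⊗[k] B) ⧸ I)))
      (CommRingCat.ofHom (g : R →+* R')) (CommRingCat.ofHom (cHom k I g))
      (CommRingCat.ofHom (algebraMap R' ((R' ⊗[k] B) ⧸ (I.map (bc B g))))) := by
  refine ⟨⟨?_⟩, ⟨?_⟩⟩
  · rw [← CommRingCat.ofHom_comp, ← CommRingCat.ofHom_comp, cHom_comp]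
  · refine PushoutCocone.IsColimit.mk _
      (fun s => CommRingCat.ofHom (exists_lift k I g s.inl.hom s.inr.hom ?_).choose) ?_ ?_ ?_
    · have := congrArg CommRingCat.Hom.hom s.condition
      simpa using this
    · intro s
      have h := congrArg CommRingCat.Hom.hom s.condition
      apply CommRingCat.hom_ext
      exact (exists_lift k I g s.inl.hom s.inr.hom (by simpa using h)).choose_spec.1
    · intro s
      have h := congrArg CommRingCat.Hom.hom s.condition
      apply CommRingCat.hom_ext
      exact (exists_lift k I g s.inl.hom s.inr.hom (by simpa using h)).choose_spec.2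
    · intro s m h1 h2
      have h := congrArg CommRingCat.Hom.hom s.condition
      apply CommRingCat.hom_ext
      have h3 := exists_lift k I g s.inl.hom s.inr.hom (by simpa using h)
      apply lift_unique k I g
      · refine Eq.trans ?_ h3.choose_spec.1.symm
        exact congrArg CommRingCat.Hom.hom h1
      · refine Eq.trans ?_ h3.choose_spec.2.symm
        exact congrArg CommRingCat.Hom.hom h2

/-- the pullback square of a base change -/
theorem isPullback_fam :
    IsPullback (Spec.map (CommRingCat.ofHom (cHom k I g))) (famp k (I.map (bc B g))) (famp k I)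
      (Spec.map (CommRingCat.ofHom (g : R →+* R'))) :=
  isPullback_SpecMap_of_isPushout _ _ _ _ (isPushout_cHom k I g)

theorem famq_comp {X : Scheme.{u}} (j : Spec (CommRingCat.of B) ⟶ X) :
    Spec.map (CommRingCat.ofHom (cHom k I g)) ≫ famq k I j = famq k (I.map (bc B g)) j := by
  rw [famq, famq, ← Category.assoc, ← Spec.map_comp, ← CommRingCat.ofHom_comp, cHom_qHom]

end

section

variable {R : Type u} [CommRing R] [Algebra k R]

theorem le_of_famHom {X : Scheme.{u}} {j : Spec (CommRingCat.of B) ⟶ X} [Mono j]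
    {I I' : Ideal (R ⊗[k] B)} (e : famZ k I ⟶ famZ k I') (h1 : e ≫ famq k I' j = famq k I j)
    (h2 : e ≫ famp k I' = famp k I) : I' ≤ I := by
  let ε : CommRingCat.of ((R ⊗[k] B) ⧸ I') ⟶ CommRingCat.of ((R ⊗[k] B) ⧸ I) := Spec.preimage e
  have hε : Spec.map ε = e := Spec.map_preimage e
  have h3 : ε.hom.comp (algebraMap R ((R ⊗[k] B) ⧸ I')) = algebraMap R ((R ⊗[k] B) ⧸ I) := by
    rw [famp, famp, ← hε, ← Spec.map_comp] at h2
    have := congrArg CommRingCat.Hom.hom (Spec.map_injective h2)
    simpa using this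
  have h4 : ε.hom.comp (qHom k I') = qHom k I := by
    rw [famq, famq, ← Category.assoc, cancel_mono, ← hε, ← Spec.map_comp] at h1
    have := congrArg CommRingCat.Hom.hom (Spec.map_injective h1)
    simpa using this
  have h5 : ε.hom.comp (Ideal.Quotient.mk I') = Ideal.Quotient.mk I := by
    apply quot_hom_ext
    · intro r
      exact congrArg (fun f => f r) h3
    · intro b
      exact congrArg (fun f => f b) h4
  intro x hx
  have h6 := congrArg (fun f => f x) h5
  simp only [RingHom.comp_apply] at h6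
  rw [Ideal.Quotient.eq_zero_iff_mem.2 hx, map_zero] at h6
  exact Ideal.Quotient.eq_zero_iff_mem.1 h6.symm

theorem eq_of_famIso {X : Scheme.{u}} {j : Spec (CommRingCat.of B) ⟶ X} [Mono j]
    {I I' : Ideal (R ⊗[k] B)} (e : famZ k I ≅ famZ k I') (h1 : e.hom ≫ famq k I' j = famq k I j)
    (h2 : e.hom ≫ famp k I' = famp k I) : I = I' := by
  apply le_antisymm
  · refine le_of_famHom k (j := j) e.inv ?_ ?_
    · rw [← h1, e.inv_hom_id_assoc]
    · rw [← h2, e.inv_hom_id_assoc]
  · exact le_of_famHom k e.hom h1 h2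

end

end Pool.Agent.J4.H15
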