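import Pool.Agent.J4.H15.FamAff

/-!
# Local comparison of the Hilbert scheme with the affine Hilbert scheme
-/

set_option autoImplicit false
set_option linter.style.haveILetI false

universe u

open scoped TensorProduct
open CategoryTheory CategoryTheory.Limits AlgebraicGeometry

namespace Pool.Agent.J4.H15

open Helper226

variable (k : Type u) [Field k] {B : Type u} [CommRing B] [Algebra k B] {n : ℕ}

/-- a family whose points lie in an affine open is given by an ideal -/
theorem exists_ideal_of_fam {X Z : Scheme.{u}} {a : X ⟶ Spec (CommRingCat.of k)}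
    {j : Spec (CommRingCat.of B) ⟶ X} [IsOpenImmersion j]
    (hj : j ≫ a = Spec.map (CommRingCat.ofHom (algebraMap k B)))
    {R : Type u} [CommRing R] [Algebra k R] {q : Z ⟶ X} {p : Z ⟶ Spec (CommRingCat.of R)}
    (hF : IsFam a (Spec.map (CommRingCat.ofHom (algebraMap k R))) q p n)
    (hq : Set.range q ⊆ Set.range j) :
    ∃ I : Ideal (R ⊗[k] B), LocBas k n I ∧
      ∃ e : Z ≅ famZ k I, e.hom ≫ famq k I j = q ∧ e.hom ≫ famp k I = p := by
  have hfin := hF.fin
  have hflat := hF.flat
  have hlfp := hF.lfp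
  let q0 : Z ⟶ Spec (CommRingCat.of B) := IsOpenImmersion.lift j q hq
  have hq0 : q0 ≫ j = q := IsOpenImmersion.lift_fac _ _ _
  have hpb := isPullback_SpecMap_of_isPushout _ _ _ _ (CommRingCat.isPushout_tensorProduct k R B)
  have hw : p ≫ Spec.map (CommRingCat.ofHom (algebraMap k R)) =
      q0 ≫ Spec.map (CommRingCat.ofHom (algebraMap k B)) := by
    rw [← hF.w, ← hq0, Category.assoc, hj]
  let f : Z ⟶ Spec (CommRingCat.of (R ⊗[k] B)) := hpb.lift p q0 hw
  have hf1 := hpb.lift_fst p q0 hw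
  have hf2 := hpb.lift_snd p q0 hw
  have hcl : IsClosedImmersion f := by
    rw [IsClosedImmersion.iff_isFinite_and_mono]
    refine ⟨?_, ?_⟩
    · have : IsFinite (f ≫ Spec.map
          (CommRingCat.ofHom (S := R ⊗[k] B) Algebra.TensorProduct.includeLeftRingHom)) := by
        rw [hf1]; exact hfin
      exact IsFinite.of_comp _ (Spec.map
        (CommRingCat.ofHom (S := R ⊗[k] B) Algebra.TensorProduct.includeLeftRingHom))
    · constructor
      intro Y u v huv
      have e1 : u ≫ p = v ≫ p := by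
        rw [← hf1, ← Category.assoc, ← Category.assoc]
        exact congrArg (fun z => z ≫ _) huv
      have e2 : u ≫ q0 = v ≫ q0 := by
        rw [← hf2, ← Category.assoc, ← Category.assoc]
        exact congrArg (fun z => z ≫ _) huv
      apply hF.hom_ext _ e1
      rw [← hq0, ← Category.assoc, ← Category.assoc, e2]
  obtain ⟨I, e, he⟩ := IsClosedImmersion.Spec_iff.1 hcl
  have h1 : e.hom ≫ famp k I = p := by
    rw [← hf1]
    change _ = f ≫ _
    rw [he, Category.assoc, ← Spec.map_comp, ← CommRingCat.ofHom_comp]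
    rfl
  have h2 : e.hom ≫ famq k I j = q := by
    rw [← hq0, ← hf2]
    change _ = (f ≫ _) ≫ j
    rw [he, Category.assoc, Category.assoc, famq, qHom, CommRingCat.ofHom_comp, Spec.map_comp,
      Category.assoc]
    rfl
  refine ⟨I, ?_, e, h2, h1⟩
  have h3 : famp k I = e.inv ≫ p := by
    rw [← h1, e.inv_hom_id_assoc]
  apply locBas_of_props
  · rw [h3]; infer_instance
  · rw [h3]; infer_instance
  · rw [h3]; infer_instance
  · intro x
    rw [h3, Scheme.Hom.finrank_comp_left_of_isIso]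
    exact hF.rank x

/-- over a local base, a family lies in an open as soon as its closed fibre does -/
theorem mem_of_closedFibre {X Z : Scheme.{u}} {R : Type u} [CommRing R] [IsLocalRing R]
    {p : Z ⟶ Spec (CommRingCat.of R)} [IsFinite p] (q : Z ⟶ X) (U : X.Opens)
    (h : ∀ z : Z, p z = IsLocalRing.closedPoint R → q z ∈ U) (z : Z) : q z ∈ U := by
  by_contra hz
  have hcl : IsClosed (p '' ((q ⁻¹ᵁ U : Z.Opens) : Set Z)ᶜ) :=
    p.isClosedMap _ (q ⁻¹ᵁ U).isOpen.isClosed_compl
  have h1 : IsLocalRing.closedPoint R ∈ p '' ((q ⁻¹ᵁ U : Z.Opens) : Set Z)ᶜ :=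
    (IsLocalRing.specializes_closedPoint (p z)).mem_closed hcl ⟨z, hz, rfl⟩
  obtain ⟨z', hz', h2⟩ := h1
  exact hz' (h z' h2)

/-- the local comparison -/
theorem local_equiv_aux {X H W : Scheme.{u}} {a : X ⟶ Spec (CommRingCat.of k)} [IsSeparated a]
    {h : H ⟶ Spec (CommRingCat.of k)} {Q : W ⟶ X} {P : W ⟶ H} (hH : IsHilb a h Q P n)
    {j : Spec (CommRingCat.of B) ⟶ X} [IsOpenImmersion j]
    (hj : j ≫ a = Spec.map (CommRingCat.ofHom (algebraMap k B)))
    {R : Type u} [CommRing R] [IsLocalRing R] [Algebra k R] {ι : Spec (CommRingCat.of R) ⟶ H}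
    (hι : IsLocalAt ι) (hk : ι ≫ h = Spec.map (CommRingCat.ofHom (algebraMap k R)))
    {I : Ideal (R ⊗[k] B)} (hI : LocBas k n I) (hP : Pulls Q P ι (famq k I j) (famp k I))
    {φ : Spec (CommRingCat.of R) ⟶ HilbS k B n} (hφ : Classifies k φ I)
    {R' : Type u} [CommRing R'] [IsLocalRing R'] {ι' : Spec (CommRingCat.of R') ⟶ HilbS k B n}
    (hι' : IsLocalAt ι')
    (hy : φ (IsLocalRing.closedPoint R) = ι' (IsLocalRing.closedPoint R')) :
    Nonempty (R ≃+* R') := by
  have hm := hι.mono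
  have hm' := hι'.mono
  have hφs := Classifies.str k hI hφ
  letI : Algebra k R' := (Spec.preimage (ι' ≫ HilbS.str k B n)).hom.toAlgebra
  have hk' : ι' ≫ HilbS.str k B n = Spec.map (CommRingCat.ofHom (algebraMap k R')) :=
    (Spec.map_preimage (ι' ≫ HilbS.str k B n)).symm
  have hI' := locBas_idealOf k ι' hk'
  have hc' := classifies_idealOf k ι' hk'
  set I' : Ideal (R' ⊗[k] B) := idealOf k ι' hk'
  -- the map from the affine side
  obtain ⟨α, hα, hαφ⟩ := hι'.lift φ hy
  have hαk : α.comp (algebraMap k R') = algebraMap k R := by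
    have h1 : Spec.map (CommRingCat.ofHom α) ≫ Spec.map (CommRingCat.ofHom (algebraMap k R')) =
        Spec.map (CommRingCat.ofHom (algebraMap k R)) := by
      rw [← hk', ← Category.assoc, hαφ, hφs]
    rw [← Spec.map_comp, ← CommRingCat.ofHom_comp] at h1
    exact congrArg CommRingCat.Hom.hom (Spec.map_injective h1)
  let αa : R' →ₐ[k] R := { α with commutes' := fun c => congrArg (fun f => f c) hαk }
  have hαa : Spec.map (CommRingCat.ofHom αa.toRingHom) ≫ ι' = φ := hαφ
  have hmap : I'.map (bc B αa) = I := by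
    apply Classifies.injective k (hI'.map k αa) hI _ hφ
    rw [← hαa]
    exact hc'.map k αa
  obtain ⟨ψ, ⟨hψ1, hψ2'⟩, -⟩ := hH.univ _ _ _ (isFam_of_locBas k I' hj hI')
  have hψ2 : Pulls Q P ψ (famq k I' j) (famp k I') := hψ2'
  have hαψ : Spec.map (CommRingCat.ofHom αa.toRingHom) ≫ ψ = ι := by
    have h1 := hψ2.comp (isPullback_fam k I' αa)
    rw [famq_comp, hmap] at h1
    refine Pulls.unique hH h1 hP ?_
    rw [Category.assoc, hψ1, hk, ← Spec.map_comp, ← CommRingCat.ofHom_comp]
    congr 2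
  have hψc : ψ (IsLocalRing.closedPoint R') = ι (IsLocalRing.closedPoint R) := by
    rw [← hαψ, Scheme.Hom.comp_apply]
    congr 1
    exact (IsLocalRing.comap_closedPoint α).symm
  obtain ⟨β, hβ, hβψ⟩ := hι.lift ψ hψc
  have hβk : β.comp (algebraMap k R) = algebraMap k R' := by
    have h1 : Spec.map (CommRingCat.ofHom β) ≫ Spec.map (CommRingCat.ofHom (algebraMap k R)) =
        Spec.map (CommRingCat.ofHom (algebraMap k R')) := by
      rw [← hk, ← Category.assoc, hβψ, hψ1]
    rw [← Spec.map_comp, ← CommRingCat.ofHom_comp] at h1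
    exact congrArg CommRingCat.Hom.hom (Spec.map_injective h1)
  let βa : R →ₐ[k] R' := { β with commutes' := fun c => congrArg (fun f => f c) hβk }
  have hβa : Spec.map (CommRingCat.ofHom βa.toRingHom) ≫ ι = ψ := hβψ
  have h1 : α.comp β = RingHom.id R := by
    have h2 : Spec.map (CommRingCat.ofHom α) ≫ Spec.map (CommRingCat.ofHom β) = 𝟙 _ := by
      rw [← cancel_mono ι, Category.assoc, hβψ, Category.id_comp]
      exact hαψ
    rw [← Spec.map_comp, ← CommRingCat.ofHom_comp, ← Spec.map_id] at h2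
    exact congrArg CommRingCat.Hom.hom (Spec.map_injective h2)
  have hmap2 : I.map (bc B βa) = I' := by
    have h3 := hP.comp (isPullback_fam k I βa)
    rw [famq_comp] at h3
    have h4 : Spec.map (CommRingCat.ofHom (βa : R →+* R')) ≫ ι = ψ := hβψ
    rw [h4] at h3
    obtain ⟨e, he1, he2⟩ := h3.exists_iso hψ2
    exact eq_of_famIso k e he1 he2
  have h5 : Spec.map (CommRingCat.ofHom βa.toRingHom) ≫ φ = ι' := by
    have h6 := hφ.map k βa
    rw [hmap2] at h6
    exact Classifies.unique k hI' h6 hc'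
  have h7 : β.comp α = RingHom.id R' := by
    have h2 : Spec.map (CommRingCat.ofHom β) ≫ Spec.map (CommRingCat.ofHom α) = 𝟙 _ := by
      rw [← cancel_mono ι', Category.assoc, hαφ, Category.id_comp]
      exact h5
    rw [← Spec.map_comp, ← CommRingCat.ofHom_comp, ← Spec.map_id] at h2
    exact congrArg CommRingCat.Hom.hom (Spec.map_injective h2)
  exact ⟨RingEquiv.ofRingHom β α h7 h1⟩

theorem local_equiv {X H W : Scheme.{u}} {a : X ⟶ Spec (CommRingCat.of k)} [IsSeparated a]
    {h : H ⟶ Spec (CommRingCat.of k)} {Q : W ⟶ X} {P : W ⟶ H} (hH : IsHilb a h Q P n)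
    {j : Spec (CommRingCat.of B) ⟶ X} [IsOpenImmersion j]
    (hj : j ≫ a = Spec.map (CommRingCat.ofHom (algebraMap k B)))
    {R : Type u} [CommRing R] [IsLocalRing R] (ι : Spec (CommRingCat.of R) ⟶ H)
    (hι : IsLocalAt ι)
    (hx : ∀ w : W, P w = ι (IsLocalRing.closedPoint R) → Q w ∈ j.opensRange) :
    ∃ y : HilbS k B n, Nonempty (R ≃+* (HilbS k B n).presheaf.stalk y) := by
  letI : Algebra k R := (Spec.preimage (ι ≫ h)).hom.toAlgebra
  have hk : ι ≫ h = Spec.map (CommRingCat.ofHom (algebraMap k R)) :=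
    (Spec.map_preimage (ι ≫ h)).symm
  have hfamfin := hH.fam.fin
  have hpb := IsPullback.of_hasPullback P ι
  have hF := hH.fam.baseChange hpb
  rw [hk] at hF
  have hr : ∀ z : (pullback P ι : Scheme.{u}), (pullback.fst P ι ≫ Q) z ∈ j.opensRange := by
    have := hF.fin
    apply mem_of_closedFibre (p := pullback.snd P ι)
    intro z hz
    rw [Scheme.Hom.comp_apply]
    apply hx
    rw [← hz, ← Scheme.Hom.comp_apply, ← Scheme.Hom.comp_apply, pullback.condition]
  obtain ⟨I, hI, e, he1, he2⟩ := exists_ideal_of_fam k hj hF (by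
    rintro _ ⟨z, rfl⟩
    exact hr z)
  have hP : Pulls Q P ι (famq k I j) (famp k I) := by
    refine Pulls.of_iso ⟨_, rfl, hpb⟩ e.symm ?_ ?_
    · rw [← he1]; exact e.inv_hom_id_assoc _
    · rw [← he2]; exact e.inv_hom_id_assoc _
  have hφ := classifies_morOf k I hI
  let y : HilbS k B n := (morOf k I hI) (IsLocalRing.closedPoint R)
  have hloc := isLocalAt_fromSpecStalk y
  refine ⟨y, @local_equiv_aux k _ B _ _ n X H W a _ h Q P hH j _ hj R _ _ _ ι hι hk I hI hP
    (morOf k I hI) hφ ((HilbS k B n).presheaf.stalk y) _ _ _ hloc ?_⟩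
  exact Scheme.fromSpecStalk_closedPoint.symm

theorem exists_stalk_equiv {X H W : Scheme.{u}} {a : X ⟶ Spec (CommRingCat.of k)} [IsSeparated a]
    {h : H ⟶ Spec (CommRingCat.of k)} {Q : W ⟶ X} {P : W ⟶ H} (hH : IsHilb a h Q P n)
    {j : Spec (CommRingCat.of B) ⟶ X} [IsOpenImmersion j]
    (hj : j ≫ a = Spec.map (CommRingCat.ofHom (algebraMap k B)))
    (x : H) (hx : ∀ w : W, P w = x → Q w ∈ j.opensRange) :
    ∃ y : HilbS k B n,
      Nonempty (H.presheaf.stalk x ≃+* (HilbS k B n).presheaf.stalk y) := by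
  refine @local_equiv k _ B _ _ n X H W a _ h Q P hH j _ hj (H.presheaf.stalk x) _ _
    (H.fromSpecStalk x) (isLocalAt_fromSpecStalk x) ?_
  intro w hw
  apply hx
  rw [hw]
  exact Scheme.fromSpecStalk_closedPoint

end Pool.Agent.J4.H15
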