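import Pool.Agent.J4.H15.WDesc
import Pool.Agent.Helper226.HilbRep

/-!
# Local rings of the Hilbert scheme of four points of a smooth affine scheme
-/

set_option autoImplicit false
set_option linter.style.haveILetI false

universe u

open scoped TensorProduct
open CategoryTheory AlgebraicGeometry

namespace Pool.Agent.J4.H15

open Helper226

theorem NCM.spec_stalk {A : Type u} [CommRing A] (y : Spec (CommRingCat.of A))
    (h : NCM (Localization.AtPrime y.asIdeal)) :
    NCM ((Spec (CommRingCat.of A)).presheaf.stalk y) :=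
  h.of_equiv (Spec.stalkIso (CommRingCat.of A) y).symm.commRingCatIsoToRingEquiv

theorem NCM.stalk_of_openImmersion {X Y : Scheme.{u}} (f : X ⟶ Y) [IsOpenImmersion f] (x : X)
    (h : NCM (X.presheaf.stalk x)) : NCM (Y.presheaf.stalk (f x)) :=
  h.of_equiv (asIso (f.stalkMap x)).symm.commRingCatIsoToRingEquiv

theorem ncm_univFor (k : Type u) [Field k] {B : Type u} [CommRing B] [Algebra k B]
    [Algebra.FormallySmooth k B] [Algebra.FiniteType k B] (L : Finset (Fin 4 → B))
    (hL : L.Nonempty) (U : UnivFor k (L : Set (Fin 4 → B))) (Q : Ideal U.A) [Q.IsPrime] :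
    NCM (Localization.AtPrime Q) := by
  obtain ⟨b, hb⟩ := hL
  obtain ⟨V, alg, hV⟩ := exists_loc k b L hb
  obtain ⟨e⟩ := exists_univEquiv k U V
  let Q2 : Ideal V.A := Q.comap (e.symm : V.A →+* U.A)
  have hQ2 : Q2.IsPrime := Ideal.comap_isPrime _ _
  refine NCM.of_ringEquiv e.toRingEquiv Q Q2 ?_ ?_
  · intro x
    change _ ↔ e.symm (e x) ∈ Q
    rw [e.symm_apply_apply]
  · exact NCM.to_loc (Submonoid.powers (locElt (univChart k b) L)) Q2 (ncm_chartRing k b _)

/-- every local ring of the Hilbert scheme of four points of a smooth affine scheme of finite type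
over a field is a normal Cohen–Macaulay domain -/
theorem ncm_hilb (k : Type u) [Field k] (B : Type u) [CommRing B] [Algebra k B]
    [Algebra.FormallySmooth k B] [Algebra.FiniteType k B] (x : HilbS k B 4) :
    NCM ((HilbS k B 4).presheaf.stalk x) := by
  obtain ⟨L, y, rfl⟩ := chartι_surj k x
  apply NCM.stalk_of_openImmersion
  apply NCM.spec_stalk
  exact ncm_univFor k L.s L.ne (univ k L) y.asIdeal

end Pool.Agent.J4.H15
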