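import Pool.Agent.J4.H15.FamLoc
import Pool.Agent.J4.H15.Stalk

/-!
# The Hilbert scheme of four points is normal and Cohen–Macaulay
-/

set_option autoImplicit false
set_option linter.style.haveILetI false

universe u

open scoped TensorProduct
open CategoryTheory CategoryTheory.Limits AlgebraicGeometry

namespace Pool.Agent.J4.H15

open Helper226

theorem ncm_of_affine (k : Type u) [Field k] {X H W : Scheme.{u}}
    {a : X ⟶ Spec (CommRingCat.of k)} [IsSeparated a] [Smooth a]
    {h : H ⟶ Spec (CommRingCat.of k)} {Q : W ⟶ X} {P : W ⟶ H} (hH : IsHilb a h Q P 4)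
    {B : Type u} [CommRing B] (j : Spec (CommRingCat.of B) ⟶ X) [IsOpenImmersion j]
    (x : H) (hx : ∀ w : W, P w = x → Q w ∈ j.opensRange) : NCM (H.presheaf.stalk x) := by
  letI : Algebra k B := (Spec.preimage (j ≫ a)).hom.toAlgebra
  have hj : j ≫ a = Spec.map (CommRingCat.ofHom (algebraMap k B)) :=
    (Spec.map_preimage (j ≫ a)).symm
  have hs : Smooth (Spec.map (CommRingCat.ofHom (algebraMap k B))) := by
    rw [← hj]; infer_instance
  rw [HasRingHomProperty.Spec_iff (P := @Smooth)] at hs
  have hs' : Algebra.Smooth k B := RingHom.smooth_algebraMap.1 hs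
  have h1 : Algebra.FormallySmooth k B := inferInstance
  have h2 : Algebra.FinitePresentation k B := inferInstance
  have h3 : Algebra.FiniteType k B := inferInstance
  obtain ⟨y, ⟨e⟩⟩ := exists_stalk_equiv k hH hj x hx
  exact (ncm_hilb k B y).of_equiv e.symm

/-- `X` smooth and separated over a field such that every finite set of points lies in an affine
open: every scheme representing the Hilbert functor of four points is normal and
Cohen–Macaulay -/
theorem ncm_hilb4 (k : Type u) [Field k] {X H W : Scheme.{u}}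
    {a : X ⟶ Spec (CommRingCat.of k)} [IsSeparated a] [Smooth a]
    (hX : ∀ s : Set X, s.Finite → ∃ U : X.Opens, IsAffineOpen U ∧ s ⊆ U)
    {h : H ⟶ Spec (CommRingCat.of k)} {Q : W ⟶ X} {P : W ⟶ H} (hH : IsHilb a h Q P 4)
    (x : H) : NCM (H.presheaf.stalk x) := by
  have hfin := hH.fam.fin
  obtain ⟨U, hU, hs⟩ := hX (Q '' (P ⁻¹' {x})) ((P.finite_preimage_singleton x).image _)
  refine ncm_of_affine k hH (B := Γ(X, U)) hU.fromSpec x ?_
  intro w hw
  rw [hU.opensRange_fromSpec]
  exact hs ⟨w, hw, rfl⟩

end Pool.Agent.J4.H15
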