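import Pool.Agent.J4.H15.QRing

/-!
# The Plücker relations and the minors
-/

set_option autoImplicit false
set_option linter.unusedVariables false
set_option linter.unusedSimpArgs false

universe u

namespace Pool.Agent.J4.H15

section

variable {R : Type*} [CommRing R] {t0 t1 t2 t3 t4 t5 t6 t7 t8 y1 y2 y3 y4 y5 y6 : R}

theorem Rel.pl1234 (h : Rel t0 t1 t2 t3 t4 t5 t6 t7 t8 y1 y2 y3 y4 y5 y6) :
    t0 * y4 = t1 * y2 - (t2 - y1) * y1 := by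
  linear_combination (-1) * h.r11

theorem Rel.pl1235 (h : Rel t0 t1 t2 t3 t4 t5 t6 t7 t8 y1 y2 y3 y4 y5 y6) :
    t0 * y5 = t1 * y3 - (t3 - y2) * y1 := by
  linear_combination (-1) * h.r12

theorem Rel.pl1236 (h : Rel t0 t1 t2 t3 t4 t5 t6 t7 t8 y1 y2 y3 y4 y5 y6) :
    t0 * (t6 - y6) = t1 * (t5 - y5) - (t4 - y3 - y4) * y1 := by
  linear_combination (-1) * h.r13

theorem Rel.pl1245 (h : Rel t0 t1 t2 t3 t4 t5 t6 t7 t8 y1 y2 y3 y4 y5 y6) :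
    t0 * y6 = (t2 - y1) * y3 - (t3 - y2) * y2 := by
  linear_combination (1) * h.r13 + (-1) * h.r22

theorem Rel.pl1246 (h : Rel t0 t1 t2 t3 t4 t5 t6 t7 t8 y1 y2 y3 y4 y5 y6) :
    t0 * t7 = (t2 - y1) * (t5 - y5) - (t4 - y3 - y4) * y2 := by
  linear_combination (-1) * h.r15 + (-1) * h.r23

theorem Rel.pl1256 (h : Rel t0 t1 t2 t3 t4 t5 t6 t7 t8 y1 y2 y3 y4 y5 y6) :
    t0 * t8 = (t3 - y2) * (t5 - y5) - (t4 - y3 - y4) * y3 := by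
  linear_combination (-1) * h.r25 + (-1) * h.r33

theorem Rel.pl1345 (h : Rel t0 t1 t2 t3 t4 t5 t6 t7 t8 y1 y2 y3 y4 y5 y6) :
    t1 * y6 = (t2 - y1) * y5 - (t3 - y2) * y4 := by
  linear_combination (1) * h.r15

theorem Rel.pl1346 (h : Rel t0 t1 t2 t3 t4 t5 t6 t7 t8 y1 y2 y3 y4 y5 y6) :
    t1 * t7 = (t2 - y1) * (t6 - y6) - (t4 - y3 - y4) * y4 := by
  linear_combination (-1) * h.r16

theorem Rel.pl1356 (h : Rel t0 t1 t2 t3 t4 t5 t6 t7 t8 y1 y2 y3 y4 y5 y6) :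
    t1 * t8 = (t3 - y2) * (t6 - y6) - (t4 - y3 - y4) * y5 := by
  linear_combination (-1) * h.r26 + (-1) * h.r35

theorem Rel.pl1456 (h : Rel t0 t1 t2 t3 t4 t5 t6 t7 t8 y1 y2 y3 y4 y5 y6) :
    (t2 - y1) * t8 = (t3 - y2) * t7 - (t4 - y3 - y4) * y6 := by
  linear_combination (-1) * h.r36

theorem Rel.pl2345 (h : Rel t0 t1 t2 t3 t4 t5 t6 t7 t8 y1 y2 y3 y4 y5 y6) :
    y1 * y6 = y2 * y5 - y3 * y4 := by
  linear_combination (1) * h.r16 + (-1) * h.r25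

theorem Rel.pl2346 (h : Rel t0 t1 t2 t3 t4 t5 t6 t7 t8 y1 y2 y3 y4 y5 y6) :
    y1 * t7 = y2 * (t6 - y6) - (t5 - y5) * y4 := by
  linear_combination (1) * h.r26

theorem Rel.pl2356 (h : Rel t0 t1 t2 t3 t4 t5 t6 t7 t8 y1 y2 y3 y4 y5 y6) :
    y1 * t8 = y3 * (t6 - y6) - (t5 - y5) * y5 := by
  linear_combination (1) * h.r36 + (-1) * h.r55

theorem Rel.pl2456 (h : Rel t0 t1 t2 t3 t4 t5 t6 t7 t8 y1 y2 y3 y4 y5 y6) :
    y2 * t8 = y3 * t7 - (t5 - y5) * y6 := by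
  linear_combination (-1) * h.r56

theorem Rel.pl3456 (h : Rel t0 t1 t2 t3 t4 t5 t6 t7 t8 y1 y2 y3 y4 y5 y6) :
    y4 * t8 = y5 * t7 - (t6 - y6) * y6 := by
  linear_combination (-1) * h.r66

theorem rel_minors (a1 a2 a3 a4 a5 a6 b1 b2 b3 b4 b5 b6 : R) :
    Rel ((a1 * b2 - a2 * b1)) ((a1 * b3 - a3 * b1)) ((a1 * b4 - a4 * b1) + (a2 * b3 - a3 * b2)) ((a1 * b5 - a5 * b1) + (a2 * b4 - a4 * b2)) ((a1 * b6 - a6 * b1) + (a2 * b5 - a5 * b2) + (a3 * b4 - a4 * b3)) ((a2 * b6 - a6 * b2) + (a3 * b5 - a5 * b3)) ((a3 * b6 - a6 * b3) + (a4 * b5 - a5 * b4)) ((a4 * b6 - a6 * b4)) ((a5 * b6 - a6 * b5)) (a2 * b3 - a3 * b2) (a2 * b4 - a4 * b2) (a2 * b5 - a5 * b2) (a3 * b4 - a4 * b3) (a3 * b5 - a5 * b3) (a4 * b5 - a5 * b4) := by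
  refine ⟨?_, ?_, ?_, ?_, ?_, ?_, ?_, ?_, ?_, ?_, ?_, ?_, ?_, ?_, ?_⟩ <;> ring

end

end Pool.Agent.J4.H15
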