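import Pool.Agent.J4.H15.OpComm

/-!
# A model: the relations define an algebra in which the fourteen monomials are independent
-/

set_option autoImplicit false
set_option linter.unusedVariables false
set_option linter.unusedSimpArgs false
set_option linter.deprecated false
set_option maxRecDepth 100000

universe u

namespace Pool.Agent.J4.H15

variable {A : Type u} [CommRing A]

/-- a commuting set of endomorphisms lies in the image of a commutative algebra -/
theorem exists_comm_of_commute {E : Type u} [Ring E] [Algebra A E] (s : Set E)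
    (hs : ∀ a ∈ s, ∀ b ∈ s, a * b = b * a) :
    ∃ (Q : Type u) (_ : CommRing Q) (_ : Algebra A Q) (ι : Q →ₐ[A] E),
      Function.Injective ι ∧ ∀ x ∈ s, ∃ y, ι y = x := by
  exact ⟨Algebra.adjoin A s, Algebra.adjoinCommRingOfComm A hs, inferInstance, (Algebra.adjoin A s).val,
    Subtype.val_injective, fun x hx => ⟨⟨x, Algebra.subset_adjoin hx⟩, rfl⟩⟩

theorem exists_model (t0 t1 t2 t3 t4 t5 t6 t7 t8 : A) :
    ∃ (Q : Type u) (_ : CommRing Q) (_ : Algebra A Q) (y1 y2 y3 y4 y5 y6 : Q),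
      Rel (algebraMap A Q t0) (algebraMap A Q t1) (algebraMap A Q t2) (algebraMap A Q t3)
        (algebraMap A Q t4) (algebraMap A Q t5) (algebraMap A Q t6) (algebraMap A Q t7)
        (algebraMap A Q t8) y1 y2 y3 y4 y5 y6 ∧
      LinearIndependent A (mon y1 y2 y3 y4 y5 y6) := by
  obtain ⟨Q, i1, i2, ι, hι, hs⟩ := exists_comm_of_commute (A := A)
    (E := Module.End A (Fin 14 → A))
    {L1 t0 t1 t2 t3 t4 t5 t6 t7 t8, L2 t0 t1 t2 t3 t4 t5 t6 t7 t8,
      L3 t0 t1 t2 t3 t4 t5 t6 t7 t8, L4 t0 t1 t2 t3 t4 t5 t6 t7 t8,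
      L5 t0 t1 t2 t3 t4 t5 t6 t7 t8, L6 t0 t1 t2 t3 t4 t5 t6 t7 t8} (by
    intro a ha b hb
    simp only [Set.mem_insert_iff, Set.mem_singleton_iff] at ha hb
    rcases ha with rfl | rfl | rfl | rfl | rfl | rfl <;>
    rcases hb with rfl | rfl | rfl | rfl | rfl | rfl
    · rfl
    · exact L1_L2 _ _ _ _ _ _ _ _ _
    · exact L1_L3 _ _ _ _ _ _ _ _ _
    · exact (L4_L1 _ _ _ _ _ _ _ _ _).symm
    · exact L1_L5 _ _ _ _ _ _ _ _ _
    · exact L1_L6 _ _ _ _ _ _ _ _ _
    · exact (L1_L2 _ _ _ _ _ _ _ _ _).symm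
    · rfl
    · exact L2_L3 _ _ _ _ _ _ _ _ _
    · exact (L4_L2 _ _ _ _ _ _ _ _ _).symm
    · exact L2_L5 _ _ _ _ _ _ _ _ _
    · exact L2_L6 _ _ _ _ _ _ _ _ _
    · exact (L1_L3 _ _ _ _ _ _ _ _ _).symm
    · exact (L2_L3 _ _ _ _ _ _ _ _ _).symm
    · rfl
    · exact (L4_L3 _ _ _ _ _ _ _ _ _).symm
    · exact L3_L5 _ _ _ _ _ _ _ _ _
    · exact L3_L6 _ _ _ _ _ _ _ _ _
    · exact L4_L1 _ _ _ _ _ _ _ _ _
    · exact L4_L2 _ _ _ _ _ _ _ _ _
    · exact L4_L3 _ _ _ _ _ _ _ _ _
    · rfl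
    · exact L4_L5 _ _ _ _ _ _ _ _ _
    · exact L4_L6 _ _ _ _ _ _ _ _ _
    · exact (L1_L5 _ _ _ _ _ _ _ _ _).symm
    · exact (L2_L5 _ _ _ _ _ _ _ _ _).symm
    · exact (L3_L5 _ _ _ _ _ _ _ _ _).symm
    · exact (L4_L5 _ _ _ _ _ _ _ _ _).symm
    · rfl
    · exact L5_L6 _ _ _ _ _ _ _ _ _
    · exact (L1_L6 _ _ _ _ _ _ _ _ _).symm
    · exact (L2_L6 _ _ _ _ _ _ _ _ _).symm
    · exact (L3_L6 _ _ _ _ _ _ _ _ _).symm
    · exact (L4_L6 _ _ _ _ _ _ _ _ _).symm
    · exact (L5_L6 _ _ _ _ _ _ _ _ _).symm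
    · rfl)
  obtain ⟨y1, h1⟩ := hs (L1 t0 t1 t2 t3 t4 t5 t6 t7 t8) (by simp)
  obtain ⟨y2, h2⟩ := hs (L2 t0 t1 t2 t3 t4 t5 t6 t7 t8) (by simp)
  obtain ⟨y3, h3⟩ := hs (L3 t0 t1 t2 t3 t4 t5 t6 t7 t8) (by simp)
  obtain ⟨y4, h4⟩ := hs (L4 t0 t1 t2 t3 t4 t5 t6 t7 t8) (by simp)
  obtain ⟨y5, h5⟩ := hs (L5 t0 t1 t2 t3 t4 t5 t6 t7 t8) (by simp)
  obtain ⟨y6, h6⟩ := hs (L6 t0 t1 t2 t3 t4 t5 t6 t7 t8) (by simp)
  have m0 : ι 1 (bb A 0) = bb A 0 := by rw [map_one]; rfl
  have m1 : ι y1 (bb A 0) = bb A 1 := by rw [h1, L1_bb]; rfl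
  have m2 : ι y2 (bb A 0) = bb A 2 := by rw [h2, L2_bb]; rfl
  have m3 : ι y3 (bb A 0) = bb A 3 := by rw [h3, L3_bb]; rfl
  have m4 : ι y4 (bb A 0) = bb A 4 := by rw [h4, L4_bb]; rfl
  have m5 : ι y5 (bb A 0) = bb A 5 := by rw [h5, L5_bb]; rfl
  have m6 : ι y6 (bb A 0) = bb A 6 := by rw [h6, L6_bb]; rfl
  have m7 : ι (y4 * y1) (bb A 0) = bb A 7 := by
    rw [map_mul, Module.End.mul_apply, m1, h4, L4_bb]; rfl
  have m8 : ι (y4 * y2) (bb A 0) = bb A 8 := by
    rw [map_mul, Module.End.mul_apply, m2, h4, L4_bb]; rfl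
  have m9 : ι (y4 * y3) (bb A 0) = bb A 9 := by
    rw [map_mul, Module.End.mul_apply, m3, h4, L4_bb]; rfl
  have m10 : ι (y4 * y4) (bb A 0) = bb A 10 := by
    rw [map_mul, Module.End.mul_apply, m4, h4, L4_bb]; rfl
  have m11 : ι (y4 * y5) (bb A 0) = bb A 11 := by
    rw [map_mul, Module.End.mul_apply, m5, h4, L4_bb]; rfl
  have m12 : ι (y4 * y6) (bb A 0) = bb A 12 := by
    rw [map_mul, Module.End.mul_apply, m6, h4, L4_bb]; rfl
  have m13 : ι (y4 * (y4 * y4)) (bb A 0) = bb A 13 := by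
    rw [map_mul, Module.End.mul_apply, m10, h4, L4_bb]; rfl
  have hm : ∀ b, ι (mon y1 y2 y3 y4 y5 y6 b) (bb A 0) = bb A b := by
    intro b
    fin_cases b
    · exact m0
    · exact m1
    · exact m2
    · exact m3
    · exact m4
    · exact m5
    · exact m6
    · exact m7
    · exact m8
    · exact m9
    · exact m10
    · exact m11
    · exact m12
    · exact m13
  have hinj : ∀ f g : Q, ι f (bb A 0) = ι g (bb A 0) → f = g := by
    intro f g h
    refine hι (end_ext fun b => ?_)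
    rw [← hm b, ← Module.End.mul_apply, ← Module.End.mul_apply, ← map_mul, ← map_mul,
      mul_comm f, mul_comm g, map_mul, map_mul, Module.End.mul_apply, Module.End.mul_apply, h]
  have ha : ∀ (a : A) (x : Fin 14 → A), ι (algebraMap A Q a) x = a • x := by
    intro a x
    rw [AlgHom.commutes, Module.algebraMap_end_apply]
  have n41 : ι y4 (bb A 1) = bb A 7 := by rw [h4, L4_bb]; rfl
  have n42 : ι y4 (bb A 2) = bb A 8 := by rw [h4, L4_bb]; rfl
  have n43 : ι y4 (bb A 3) = bb A 9 := by rw [h4, L4_bb]; rfl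
  have n44 : ι y4 (bb A 4) = bb A 10 := by rw [h4, L4_bb]; rfl
  have n45 : ι y4 (bb A 5) = bb A 11 := by rw [h4, L4_bb]; rfl
  have n46 : ι y4 (bb A 6) = bb A 12 := by rw [h4, L4_bb]; rfl
  have n14 : ι y1 (bb A 4) = bb A 7 := by rw [h1, L1_bb]; rfl
  have n24 : ι y2 (bb A 4) = bb A 8 := by rw [h2, L2_bb]; rfl
  have n34 : ι y3 (bb A 4) = bb A 9 := by rw [h3, L3_bb]; rfl
  have n54 : ι y5 (bb A 4) = bb A 11 := by rw [h5, L5_bb]; rfl
  refine ⟨Q, i1, i2, y1, y2, y3, y4, y5, y6, ⟨?_, ?_, ?_, ?_, ?_, ?_, ?_, ?_, ?_, ?_, ?_, ?_, ?_,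
    ?_, ?_⟩, ?_⟩
  · apply hinj
    rw [map_mul, Module.End.mul_apply, m1, h1, L1_bb]
    simp only [map_mul, map_add, map_sub, map_neg, map_pow, map_ofNat, Module.End.mul_apply,
      LinearMap.add_apply, LinearMap.sub_apply, LinearMap.neg_apply, ha, m1, m2, m3, m4, m5, m6,
      n41, n42, n43, n44, n45, n46, n14, n24, n34, n54, pow_two, Module.End.ofNat_apply]
    simp only [col1]
    module
  · apply hinj
    rw [map_mul, Module.End.mul_apply, m2, h1, L1_bb]
    simp only [map_mul, map_add, map_sub, map_neg, map_pow, map_ofNat, Module.End.mul_apply,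
      LinearMap.add_apply, LinearMap.sub_apply, LinearMap.neg_apply, ha, m1, m2, m3, m4, m5, m6,
      n41, n42, n43, n44, n45, n46, n14, n24, n34, n54, pow_two, Module.End.ofNat_apply]
    simp only [col1]
    module
  · apply hinj
    rw [map_mul, Module.End.mul_apply, m3, h1, L1_bb]
    simp only [map_mul, map_add, map_sub, map_neg, map_pow, map_ofNat, Module.End.mul_apply,
      LinearMap.add_apply, LinearMap.sub_apply, LinearMap.neg_apply, ha, m1, m2, m3, m4, m5, m6,
      n41, n42, n43, n44, n45, n46, n14, n24, n34, n54, pow_two, Module.End.ofNat_apply]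
    simp only [col1]
    module
  · apply hinj
    rw [map_mul, Module.End.mul_apply, m5, h1, L1_bb]
    simp only [map_mul, map_add, map_sub, map_neg, map_pow, map_ofNat, Module.End.mul_apply,
      LinearMap.add_apply, LinearMap.sub_apply, LinearMap.neg_apply, ha, m1, m2, m3, m4, m5, m6,
      n41, n42, n43, n44, n45, n46, n14, n24, n34, n54, pow_two, Module.End.ofNat_apply]
    simp only [col1]
    module
  · apply hinj
    rw [map_mul, Module.End.mul_apply, m6, h1, L1_bb]
    simp only [map_mul, map_add, map_sub, map_neg, map_pow, map_ofNat, Module.End.mul_apply,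
      LinearMap.add_apply, LinearMap.sub_apply, LinearMap.neg_apply, ha, m1, m2, m3, m4, m5, m6,
      n41, n42, n43, n44, n45, n46, n14, n24, n34, n54, pow_two, Module.End.ofNat_apply]
    simp only [col1]
    module
  · apply hinj
    rw [map_mul, Module.End.mul_apply, m2, h2, L2_bb]
    simp only [map_mul, map_add, map_sub, map_neg, map_pow, map_ofNat, Module.End.mul_apply,
      LinearMap.add_apply, LinearMap.sub_apply, LinearMap.neg_apply, ha, m1, m2, m3, m4, m5, m6,
      n41, n42, n43, n44, n45, n46, n14, n24, n34, n54, pow_two, Module.End.ofNat_apply]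
    simp only [col2]
    module
  · apply hinj
    rw [map_mul, Module.End.mul_apply, m3, h2, L2_bb]
    simp only [map_mul, map_add, map_sub, map_neg, map_pow, map_ofNat, Module.End.mul_apply,
      LinearMap.add_apply, LinearMap.sub_apply, LinearMap.neg_apply, ha, m1, m2, m3, m4, m5, m6,
      n41, n42, n43, n44, n45, n46, n14, n24, n34, n54, pow_two, Module.End.ofNat_apply]
    simp only [col2]
    module
  · apply hinj
    rw [map_mul, Module.End.mul_apply, m5, h2, L2_bb]
    simp only [map_mul, map_add, map_sub, map_neg, map_pow, map_ofNat, Module.End.mul_apply,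
      LinearMap.add_apply, LinearMap.sub_apply, LinearMap.neg_apply, ha, m1, m2, m3, m4, m5, m6,
      n41, n42, n43, n44, n45, n46, n14, n24, n34, n54, pow_two, Module.End.ofNat_apply]
    simp only [col2]
    module
  · apply hinj
    rw [map_mul, Module.End.mul_apply, m6, h2, L2_bb]
    simp only [map_mul, map_add, map_sub, map_neg, map_pow, map_ofNat, Module.End.mul_apply,
      LinearMap.add_apply, LinearMap.sub_apply, LinearMap.neg_apply, ha, m1, m2, m3, m4, m5, m6,
      n41, n42, n43, n44, n45, n46, n14, n24, n34, n54, pow_two, Module.End.ofNat_apply]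
    simp only [col2]
    module
  · apply hinj
    rw [map_mul, Module.End.mul_apply, m3, h3, L3_bb]
    simp only [map_mul, map_add, map_sub, map_neg, map_pow, map_ofNat, Module.End.mul_apply,
      LinearMap.add_apply, LinearMap.sub_apply, LinearMap.neg_apply, ha, m1, m2, m3, m4, m5, m6,
      n41, n42, n43, n44, n45, n46, n14, n24, n34, n54, pow_two, Module.End.ofNat_apply]
    simp only [col3]
    module
  · apply hinj
    rw [map_mul, Module.End.mul_apply, m5, h3, L3_bb]
    simp only [map_mul, map_add, map_sub, map_neg, map_pow, map_ofNat, Module.End.mul_apply,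
      LinearMap.add_apply, LinearMap.sub_apply, LinearMap.neg_apply, ha, m1, m2, m3, m4, m5, m6,
      n41, n42, n43, n44, n45, n46, n14, n24, n34, n54, pow_two, Module.End.ofNat_apply]
    simp only [col3]
    module
  · apply hinj
    rw [map_mul, Module.End.mul_apply, m6, h3, L3_bb]
    simp only [map_mul, map_add, map_sub, map_neg, map_pow, map_ofNat, Module.End.mul_apply,
      LinearMap.add_apply, LinearMap.sub_apply, LinearMap.neg_apply, ha, m1, m2, m3, m4, m5, m6,
      n41, n42, n43, n44, n45, n46, n14, n24, n34, n54, pow_two, Module.End.ofNat_apply]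
    simp only [col3]
    module
  · apply hinj
    rw [map_mul, Module.End.mul_apply, m5, h5, L5_bb]
    simp only [map_mul, map_add, map_sub, map_neg, map_pow, map_ofNat, Module.End.mul_apply,
      LinearMap.add_apply, LinearMap.sub_apply, LinearMap.neg_apply, ha, m1, m2, m3, m4, m5, m6,
      n41, n42, n43, n44, n45, n46, n14, n24, n34, n54, pow_two, Module.End.ofNat_apply]
    simp only [col5]
    module
  · apply hinj
    rw [map_mul, Module.End.mul_apply, m6, h5, L5_bb]
    simp only [map_mul, map_add, map_sub, map_neg, map_pow, map_ofNat, Module.End.mul_apply,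
      LinearMap.add_apply, LinearMap.sub_apply, LinearMap.neg_apply, ha, m1, m2, m3, m4, m5, m6,
      n41, n42, n43, n44, n45, n46, n14, n24, n34, n54, pow_two, Module.End.ofNat_apply]
    simp only [col5]
    module
  · apply hinj
    rw [map_mul, Module.End.mul_apply, m6, h6, L6_bb]
    simp only [map_mul, map_add, map_sub, map_neg, map_pow, map_ofNat, Module.End.mul_apply,
      LinearMap.add_apply, LinearMap.sub_apply, LinearMap.neg_apply, ha, m1, m2, m3, m4, m5, m6,
      n41, n42, n43, n44, n45, n46, n14, n24, n34, n54, pow_two, Module.End.ofNat_apply]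
    simp only [col6]
    module
  · refine LinearIndependent.of_comp ((LinearMap.applyₗ (bb A 0)).comp ι.toLinearMap) ?_
    have : ((LinearMap.applyₗ (bb A 0)).comp ι.toLinearMap : Q →ₗ[A] (Fin 14 → A)) ∘
        mon y1 y2 y3 y4 y5 y6 = Pi.basisFun A (Fin 14) := by
      funext b
      rw [Pi.basisFun_apply]
      exact hm b
    rw [this]
    exact (Pi.basisFun A (Fin 14)).linearIndependent

end Pool.Agent.J4.H15
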