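import Mathlib

/-!
# Étale algebras over normal domains have normal local rings
-/

set_option autoImplicit false
set_option linter.style.haveILetI false

universe u

open scoped TensorProduct

namespace Pool.Agent.J4.H15

theorem exists_of_integral_tensor {N S F : Type u} [CommRing N] [CommRing S] [Algebra N S]
    [CommRing F] [Algebra N F] [Algebra.Smooth N S] (hN : ∀ x : F, IsIntegral N x → ∃ n, algebraMap N F n = x)
    (x : S ⊗[N] F) (hx : IsIntegral S x) : ∃ s : S, x = s ⊗ₜ 1 := by
  obtain ⟨y, hy⟩ := (TensorProduct.toIntegralClosure_bijective_of_smooth (R := N) (S := S)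
    (B := F)).2 ⟨x, hx⟩
  have key : ∀ y : S ⊗[N] integralClosure N F, ∃ s : S,
      (TensorProduct.toIntegralClosure N S F y : S ⊗[N] F) = s ⊗ₜ 1 := by
    intro y
    induction y using TensorProduct.induction_on with
    | zero => exact ⟨0, by simp⟩
    | add y z hy hz =>
      obtain ⟨s, hs⟩ := hy
      obtain ⟨t, ht⟩ := hz
      exact ⟨s + t, by rw [map_add, Subalgebra.coe_add, hs, ht, TensorProduct.add_tmul]⟩
    | tmul s b =>
      obtain ⟨n, hn⟩ := hN b.1 b.2
      refine ⟨n • s, ?_⟩
      have h1 : (TensorProduct.toIntegralClosure N S F (s ⊗ₜ b) : S ⊗[N] F) = s ⊗ₜ b.1 := rfl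
      rw [h1, ← hn, TensorProduct.smul_tmul, Algebra.algebraMap_eq_smul_one]
  obtain ⟨s, hs⟩ := key y
  exact ⟨s, by rw [← hs, hy]⟩

theorem normal_of_etale {N S : Type u} [CommRing N] [IsDomain N] [IsIntegrallyClosed N]
    [CommRing S] [Algebra N S] [Algebra.Etale N S] (q : Ideal S) [q.IsPrime] :
    IsDomain (Localization.AtPrime q) ∧ IsIntegrallyClosed (Localization.AtPrime q) := by
  classical
  have hnt : Nontrivial S := ⟨⟨0, 1, fun h => (inferInstance : q.IsPrime).ne_top
    ((Ideal.eq_top_iff_one q).2 (h ▸ q.zero_mem))⟩⟩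
  let F := FractionRing N
  obtain ⟨I, hI, Ai, fi, ai, e, -⟩ :=
    (Algebra.Etale.iff_exists_algEquiv_prod F (F ⊗[N] S)).1 inferInstance
  letI := Fintype.ofFinite I
  have hflat : Module.Flat N S := inferInstance
  let ev : S →+* (Π i, Ai i) :=
    (e : F ⊗[N] S →+* Π i, Ai i).comp
      ((Algebra.TensorProduct.includeRight : S →ₐ[N] F ⊗[N] S) : S →+* F ⊗[N] S)
  have hev : ∀ s, ev s = e (1 ⊗ₜ s) := fun _ => rfl
  have hinj : Function.Injective ev := by
    refine e.injective.comp ?_
    exact Algebra.TensorProduct.includeRight_injective (IsFractionRing.injective N F)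
  have hF : ∀ x : F, IsIntegral N x → ∃ n, algebraMap N F n = x := fun x hx =>
    IsIntegrallyClosed.isIntegral_iff.1 hx
  -- integrally closed
  have hic : ∀ x : Π i, Ai i, ev.IsIntegralElem x → ∃ s, ev s = x := by
    intro x hx
    let c : S ⊗[N] F ≃ₐ[N] F ⊗[N] S := Algebra.TensorProduct.comm N S F
    let x' : S ⊗[N] F := c.symm (e.symm x)
    have hx' : IsIntegral S x' := by
      obtain ⟨p, hp, hp0⟩ := hx
      refine ⟨p, hp, ?_⟩
      apply c.injective
      apply e.injective
      rw [map_zero, map_zero, ← hp0]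
      change (e : F ⊗[N] S →+* Π i, Ai i) ((c : S ⊗[N] F →+* F ⊗[N] S)
        (Polynomial.eval₂ (algebraMap S (S ⊗[N] F)) x' p)) = _
      rw [Polynomial.hom_eval₂, Polynomial.hom_eval₂]
      congr 1
      · change e (c (c.symm (e.symm x))) = x
        rw [AlgEquiv.apply_symm_apply, AlgEquiv.apply_symm_apply]
    obtain ⟨s, hs⟩ := exists_of_integral_tensor hF x' hx'
    refine ⟨s, ?_⟩
    rw [hev]
    have h1 : c (s ⊗ₜ 1) = 1 ⊗ₜ s := rfl
    rw [← h1, ← hs]
    change e (c (c.symm (e.symm x))) = x
    rw [AlgEquiv.apply_symm_apply, AlgEquiv.apply_symm_apply]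
  -- denominators
  have hden : ∀ x : Π i, Ai i, ∃ (n : N) (s : S), n ≠ 0 ∧
      ev (algebraMap N S n) * x = ev s := by
    intro x
    obtain ⟨z, rfl⟩ := e.surjective x
    have : ∃ (n : N) (s : S), n ≠ 0 ∧ (1 ⊗ₜ (algebraMap N S n)) * z = (1 : F) ⊗ₜ[N] s := by
      induction z using TensorProduct.induction_on with
      | zero => exact ⟨1, 0, one_ne_zero, by simp⟩
      | add x y hx hy =>
        obtain ⟨n, s, hn, h⟩ := hx
        obtain ⟨m, t, hm, h'⟩ := hy
        refine ⟨n * m, m • s + n • t, mul_ne_zero hn hm, ?_⟩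
        have e1 : (1 : F) ⊗ₜ[N] (algebraMap N S (n * m)) =
          (1 ⊗ₜ (algebraMap N S n)) * (1 ⊗ₜ (algebraMap N S m)) := by
          rw [Algebra.TensorProduct.tmul_mul_tmul, one_mul, map_mul]
        have e2 : (1 : F) ⊗ₜ[N] (m • s + n • t) = (1 ⊗ₜ (algebraMap N S m)) * (1 ⊗ₜ s) +
            (1 ⊗ₜ (algebraMap N S n)) * (1 ⊗ₜ t) := by
          rw [Algebra.TensorProduct.tmul_mul_tmul, Algebra.TensorProduct.tmul_mul_tmul, one_mul,
            TensorProduct.tmul_add, Algebra.smul_def, Algebra.smul_def]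
        rw [e1, e2, ← h, ← h']
        ring
      | tmul a s =>
        obtain ⟨⟨b, ⟨c, hc⟩⟩, hbc⟩ := IsLocalization.surj (nonZeroDivisors N) a
        refine ⟨c, b • s, nonZeroDivisors.ne_zero hc, ?_⟩
        rw [Algebra.TensorProduct.tmul_mul_tmul, one_mul, ← Algebra.smul_def,
          ← TensorProduct.smul_tmul, ← TensorProduct.smul_tmul, Algebra.smul_def, mul_comm]
        change (a * algebraMap N F c) ⊗ₜ[N] s = _
        rw [show a * algebraMap N F c = algebraMap N F b from hbc,
          Algebra.algebraMap_eq_smul_one]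
    obtain ⟨n, s, hn, h⟩ := this
    exact ⟨n, s, hn, by rw [hev, hev, ← map_mul, h]⟩
  -- idempotents
  have hid : ∀ i, ∃ s, ev s = Pi.single i 1 := by
    intro i
    apply hic
    refine ⟨Polynomial.X ^ 2 - Polynomial.X, ?_, ?_⟩
    · exact Polynomial.monic_X_pow_sub (by rw [Polynomial.degree_X]; decide)
    · rw [Polynomial.eval₂_sub, Polynomial.eval₂_X_pow, Polynomial.eval₂_X, pow_two,
        ← Pi.single_mul, one_mul, sub_self]
  choose ε hε using hid
  have hsum : ∑ i, ε i = 1 := by
    apply hinj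
    rw [map_sum, map_one]
    simp only [hε]
    exact Finset.univ_sum_single (1 : Π i, Ai i)
  obtain ⟨i, hi⟩ : ∃ i, ε i ∉ q := by
    by_contra hc
    push Not at hc
    have : (1 : S) ∈ q := hsum ▸ q.sum_mem fun i _ => hc i
    exact (inferInstance : q.IsPrime).ne_top ((Ideal.eq_top_iff_one q).2 this)
  let f : S →+* Ai i := (Pi.evalRingHom _ i).comp ev
  have hf : ∀ s, f s = ev s i := fun _ => rfl
  have hf0 : ∀ s, f s = 0 → s * ε i = 0 := by
    intro s hs
    apply hinj
    rw [map_mul, hε, map_zero]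
    funext j
    by_cases h : j = i
    · subst h
      rw [Pi.mul_apply, ← hf, hs, zero_mul]; rfl
    · rw [Pi.mul_apply, Pi.single_eq_of_ne h, mul_zero]; rfl
  have hfu : ∀ s : q.primeCompl, IsUnit (f s) := by
    rintro ⟨s, hs⟩
    rw [isUnit_iff_ne_zero]
    intro h0
    have h1 := hf0 s h0
    exact ((inferInstance : q.IsPrime).mem_or_mem (h1 ▸ q.zero_mem : s * ε i ∈ q)).elim hs hi
  letI a1 : Algebra S (Ai i) := f.toAlgebra
  letI a2 : Algebra (Localization.AtPrime q) (Ai i) :=
    (IsLocalization.lift (M := q.primeCompl) hfu).toAlgebra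
  have htow : IsScalarTower S (Localization.AtPrime q) (Ai i) :=
    IsScalarTower.of_algebraMap_eq fun s =>
      (IsLocalization.lift_eq (M := q.primeCompl) hfu s).symm
  have haf : ∀ s, algebraMap S (Ai i) s = f s := fun _ => rfl
  have hinj2 : Function.Injective (algebraMap (Localization.AtPrime q) (Ai i)) := by
    rw [injective_iff_map_eq_zero]
    intro x hx
    obtain ⟨s, t, rfl⟩ := IsLocalization.exists_mk'_eq q.primeCompl x
    rw [IsLocalization.mk'_eq_zero_iff]
    refine ⟨⟨ε i, hi⟩, ?_⟩
    have h1 : algebraMap S (Ai i) s = 0 := by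
      have h2 := IsLocalization.mk'_spec (Localization.AtPrime q) s t
      have h3 := congrArg (algebraMap (Localization.AtPrime q) (Ai i)) h2
      rw [map_mul, hx, zero_mul] at h3
      rw [IsScalarTower.algebraMap_apply S (Localization.AtPrime q) (Ai i)]
      exact h3.symm
    rw [mul_comm]
    exact hf0 s h1
  have hdom : IsDomain (Localization.AtPrime q) := hinj2.isDomain _
  refine ⟨hdom, ?_⟩
  have hfaith : FaithfulSMul (Localization.AtPrime q) (Ai i) :=
    (faithfulSMul_iff_algebraMap_injective _ _).2 hinj2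
  have hfrac : IsFractionRing (Localization.AtPrime q) (Ai i) := by
    refine IsFractionRing.of_field _ _ fun z => ?_
    obtain ⟨n, s, hn, h⟩ := hden (Pi.single i z)
    refine ⟨algebraMap S _ s, algebraMap S _ (algebraMap N S n), ?_⟩
    rw [← IsScalarTower.algebraMap_apply, ← IsScalarTower.algebraMap_apply, haf, haf]
    have h1 := congrFun h i
    rw [Pi.mul_apply, Pi.single_eq_same, ← hf, ← hf] at h1
    have h2 : f (algebraMap N S n) ≠ 0 := by
      rw [hf, hev]
      have h3 : (1 : F) ⊗ₜ[N] (algebraMap N S n) = algebraMap F (F ⊗[N] S) (algebraMap N F n) := by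
        rw [Algebra.TensorProduct.algebraMap_apply, Algebra.algebraMap_self, RingHom.id_apply,
          Algebra.algebraMap_eq_smul_one, Algebra.algebraMap_eq_smul_one,
          TensorProduct.smul_tmul]
      rw [h3, AlgEquiv.commutes, Pi.algebraMap_apply]
      intro h4
      rw [map_eq_zero_iff _ (FaithfulSMul.algebraMap_injective F (Ai i)),
        map_eq_zero_iff _ (IsFractionRing.injective N F)] at h4
      exact hn h4
    rw [eq_div_iff h2, mul_comm]
    exact h1
  rw [isIntegrallyClosed_iff (Ai i)]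
  intro z hz
  obtain ⟨m, hm⟩ := IsIntegral.exists_multiple_integral_of_isLocalization q.primeCompl z hz
  obtain ⟨p, hp, hp0⟩ := hm
  have ht : ev.IsIntegralElem (Pi.single i (m • z)) := by
    refine ⟨Polynomial.X * p, Polynomial.monic_X.mul hp, ?_⟩
    rw [Polynomial.eval₂_mul, Polynomial.eval₂_X]
    funext j
    rw [Pi.mul_apply, Pi.zero_apply]
    by_cases h : j = i
    · subst h
      have : (Polynomial.eval₂ ev (Pi.single j (m • z)) p) j =
          Polynomial.eval₂ (algebraMap S (Ai j)) (m • z) p := by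
        change Pi.evalRingHom Ai j (Polynomial.eval₂ ev (Pi.single j (m • z)) p) = _
        rw [Polynomial.hom_eval₂]
        have e1 : (Pi.evalRingHom Ai j) (Pi.single j (m • z)) = m • z :=
          Pi.single_eq_same j (m • z)
        rw [e1]
        rfl
      rw [this, hp0, mul_zero]
    · rw [Pi.single_eq_of_ne h, zero_mul]
  obtain ⟨s, hs⟩ := hic _ ht
  refine ⟨IsLocalization.mk' _ s m, ?_⟩
  have h1 : f s = f m * z := by
    rw [hf, hs, Pi.single_eq_same]
    rfl
  have h2 : algebraMap (Localization.AtPrime q) (Ai i) (IsLocalization.mk' _ s m) * f m = f s := by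
    have h3 := congrArg (algebraMap (Localization.AtPrime q) (Ai i))
      (IsLocalization.mk'_spec (Localization.AtPrime q) s m)
    rw [map_mul, ← IsScalarTower.algebraMap_apply, ← IsScalarTower.algebraMap_apply, haf, haf]
      at h3
    exact h3
  rw [h1, mul_comm] at h2
  exact mul_left_cancel₀ (hfu m).ne_zero h2

end Pool.Agent.J4.H15
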