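import Pool.Agent.J4.H15.OpDefs

/-!
# Commutation of the multiplication tables (scalar components)
-/

set_option autoImplicit false
set_option linter.unusedVariables false
set_option maxRecDepth 100000

namespace Pool.Agent.J4.H15

variable {A : Type*} [CommRing A]

theorem comm41_0 (t0 t1 t2 t3 t4 t5 t6 t7 t8 : A) (e : Fin 14 → A) :
    col4 t0 t1 t2 t3 t4 t5 t6 t7 t8 (col1 t0 t1 t2 t3 t4 t5 t6 t7 t8 e) 0 = col1 t0 t1 t2 t3 t4 t5 t6 t7 t8 (col4 t0 t1 t2 t3 t4 t5 t6 t7 t8 e) 0 := by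
  simp only [col4, col1, smul_eq_mul]
  try ring

theorem comm41_1 (t0 t1 t2 t3 t4 t5 t6 t7 t8 : A) (e : Fin 14 → A) :
    col4 t0 t1 t2 t3 t4 t5 t6 t7 t8 (col1 t0 t1 t2 t3 t4 t5 t6 t7 t8 e) 1 = col1 t0 t1 t2 t3 t4 t5 t6 t7 t8 (col4 t0 t1 t2 t3 t4 t5 t6 t7 t8 e) 1 := by
  simp only [col4, col1, smul_eq_mul]
  try ring

theorem comm41_2 (t0 t1 t2 t3 t4 t5 t6 t7 t8 : A) (e : Fin 14 → A) :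
    col4 t0 t1 t2 t3 t4 t5 t6 t7 t8 (col1 t0 t1 t2 t3 t4 t5 t6 t7 t8 e) 2 = col1 t0 t1 t2 t3 t4 t5 t6 t7 t8 (col4 t0 t1 t2 t3 t4 t5 t6 t7 t8 e) 2 := by
  simp only [col4, col1, smul_eq_mul]
  try ring

theorem comm41_3 (t0 t1 t2 t3 t4 t5 t6 t7 t8 : A) (e : Fin 14 → A) :
    col4 t0 t1 t2 t3 t4 t5 t6 t7 t8 (col1 t0 t1 t2 t3 t4 t5 t6 t7 t8 e) 3 = col1 t0 t1 t2 t3 t4 t5 t6 t7 t8 (col4 t0 t1 t2 t3 t4 t5 t6 t7 t8 e) 3 := by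
  simp only [col4, col1, smul_eq_mul]
  try ring

theorem comm41_4 (t0 t1 t2 t3 t4 t5 t6 t7 t8 : A) (e : Fin 14 → A) :
    col4 t0 t1 t2 t3 t4 t5 t6 t7 t8 (col1 t0 t1 t2 t3 t4 t5 t6 t7 t8 e) 4 = col1 t0 t1 t2 t3 t4 t5 t6 t7 t8 (col4 t0 t1 t2 t3 t4 t5 t6 t7 t8 e) 4 := by
  simp only [col4, col1, smul_eq_mul]
  try ring

theorem comm41_5 (t0 t1 t2 t3 t4 t5 t6 t7 t8 : A) (e : Fin 14 → A) :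
    col4 t0 t1 t2 t3 t4 t5 t6 t7 t8 (col1 t0 t1 t2 t3 t4 t5 t6 t7 t8 e) 5 = col1 t0 t1 t2 t3 t4 t5 t6 t7 t8 (col4 t0 t1 t2 t3 t4 t5 t6 t7 t8 e) 5 := by
  simp only [col4, col1, smul_eq_mul]
  try ring

theorem comm41_6 (t0 t1 t2 t3 t4 t5 t6 t7 t8 : A) (e : Fin 14 → A) :
    col4 t0 t1 t2 t3 t4 t5 t6 t7 t8 (col1 t0 t1 t2 t3 t4 t5 t6 t7 t8 e) 6 = col1 t0 t1 t2 t3 t4 t5 t6 t7 t8 (col4 t0 t1 t2 t3 t4 t5 t6 t7 t8 e) 6 := by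
  simp only [col4, col1, smul_eq_mul]
  try ring

theorem comm41_7 (t0 t1 t2 t3 t4 t5 t6 t7 t8 : A) (e : Fin 14 → A) :
    col4 t0 t1 t2 t3 t4 t5 t6 t7 t8 (col1 t0 t1 t2 t3 t4 t5 t6 t7 t8 e) 7 = col1 t0 t1 t2 t3 t4 t5 t6 t7 t8 (col4 t0 t1 t2 t3 t4 t5 t6 t7 t8 e) 7 := by
  simp only [col4, col1, smul_eq_mul]
  try ring

theorem comm41_8 (t0 t1 t2 t3 t4 t5 t6 t7 t8 : A) (e : Fin 14 → A) :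
    col4 t0 t1 t2 t3 t4 t5 t6 t7 t8 (col1 t0 t1 t2 t3 t4 t5 t6 t7 t8 e) 8 = col1 t0 t1 t2 t3 t4 t5 t6 t7 t8 (col4 t0 t1 t2 t3 t4 t5 t6 t7 t8 e) 8 := by
  simp only [col4, col1, smul_eq_mul]
  try ring

theorem comm41_9 (t0 t1 t2 t3 t4 t5 t6 t7 t8 : A) (e : Fin 14 → A) :
    col4 t0 t1 t2 t3 t4 t5 t6 t7 t8 (col1 t0 t1 t2 t3 t4 t5 t6 t7 t8 e) 9 = col1 t0 t1 t2 t3 t4 t5 t6 t7 t8 (col4 t0 t1 t2 t3 t4 t5 t6 t7 t8 e) 9 := by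
  simp only [col4, col1, smul_eq_mul]
  try ring

theorem comm41_10 (t0 t1 t2 t3 t4 t5 t6 t7 t8 : A) (e : Fin 14 → A) :
    col4 t0 t1 t2 t3 t4 t5 t6 t7 t8 (col1 t0 t1 t2 t3 t4 t5 t6 t7 t8 e) 10 = col1 t0 t1 t2 t3 t4 t5 t6 t7 t8 (col4 t0 t1 t2 t3 t4 t5 t6 t7 t8 e) 10 := by
  simp only [col4, col1, smul_eq_mul]
  try ring

theorem comm41_11 (t0 t1 t2 t3 t4 t5 t6 t7 t8 : A) (e : Fin 14 → A) :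
    col4 t0 t1 t2 t3 t4 t5 t6 t7 t8 (col1 t0 t1 t2 t3 t4 t5 t6 t7 t8 e) 11 = col1 t0 t1 t2 t3 t4 t5 t6 t7 t8 (col4 t0 t1 t2 t3 t4 t5 t6 t7 t8 e) 11 := by
  simp only [col4, col1, smul_eq_mul]
  try ring

theorem comm41_12 (t0 t1 t2 t3 t4 t5 t6 t7 t8 : A) (e : Fin 14 → A) :
    col4 t0 t1 t2 t3 t4 t5 t6 t7 t8 (col1 t0 t1 t2 t3 t4 t5 t6 t7 t8 e) 12 = col1 t0 t1 t2 t3 t4 t5 t6 t7 t8 (col4 t0 t1 t2 t3 t4 t5 t6 t7 t8 e) 12 := by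
  simp only [col4, col1, smul_eq_mul]
  try ring

theorem comm41_13 (t0 t1 t2 t3 t4 t5 t6 t7 t8 : A) (e : Fin 14 → A) :
    col4 t0 t1 t2 t3 t4 t5 t6 t7 t8 (col1 t0 t1 t2 t3 t4 t5 t6 t7 t8 e) 13 = col1 t0 t1 t2 t3 t4 t5 t6 t7 t8 (col4 t0 t1 t2 t3 t4 t5 t6 t7 t8 e) 13 := by
  simp only [col4, col1, smul_eq_mul]
  try ring

theorem comm42_0 (t0 t1 t2 t3 t4 t5 t6 t7 t8 : A) (e : Fin 14 → A) :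
    col4 t0 t1 t2 t3 t4 t5 t6 t7 t8 (col2 t0 t1 t2 t3 t4 t5 t6 t7 t8 e) 0 = col2 t0 t1 t2 t3 t4 t5 t6 t7 t8 (col4 t0 t1 t2 t3 t4 t5 t6 t7 t8 e) 0 := by
  simp only [col4, col2, smul_eq_mul]
  try ring

theorem comm42_1 (t0 t1 t2 t3 t4 t5 t6 t7 t8 : A) (e : Fin 14 → A) :
    col4 t0 t1 t2 t3 t4 t5 t6 t7 t8 (col2 t0 t1 t2 t3 t4 t5 t6 t7 t8 e) 1 = col2 t0 t1 t2 t3 t4 t5 t6 t7 t8 (col4 t0 t1 t2 t3 t4 t5 t6 t7 t8 e) 1 := by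
  simp only [col4, col2, smul_eq_mul]
  try ring

theorem comm42_2 (t0 t1 t2 t3 t4 t5 t6 t7 t8 : A) (e : Fin 14 → A) :
    col4 t0 t1 t2 t3 t4 t5 t6 t7 t8 (col2 t0 t1 t2 t3 t4 t5 t6 t7 t8 e) 2 = col2 t0 t1 t2 t3 t4 t5 t6 t7 t8 (col4 t0 t1 t2 t3 t4 t5 t6 t7 t8 e) 2 := by
  simp only [col4, col2, smul_eq_mul]
  try ring

theorem comm42_3 (t0 t1 t2 t3 t4 t5 t6 t7 t8 : A) (e : Fin 14 → A) :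
    col4 t0 t1 t2 t3 t4 t5 t6 t7 t8 (col2 t0 t1 t2 t3 t4 t5 t6 t7 t8 e) 3 = col2 t0 t1 t2 t3 t4 t5 t6 t7 t8 (col4 t0 t1 t2 t3 t4 t5 t6 t7 t8 e) 3 := by
  simp only [col4, col2, smul_eq_mul]
  try ring

theorem comm42_4 (t0 t1 t2 t3 t4 t5 t6 t7 t8 : A) (e : Fin 14 → A) :
    col4 t0 t1 t2 t3 t4 t5 t6 t7 t8 (col2 t0 t1 t2 t3 t4 t5 t6 t7 t8 e) 4 = col2 t0 t1 t2 t3 t4 t5 t6 t7 t8 (col4 t0 t1 t2 t3 t4 t5 t6 t7 t8 e) 4 := by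
  simp only [col4, col2, smul_eq_mul]
  try ring

theorem comm42_5 (t0 t1 t2 t3 t4 t5 t6 t7 t8 : A) (e : Fin 14 → A) :
    col4 t0 t1 t2 t3 t4 t5 t6 t7 t8 (col2 t0 t1 t2 t3 t4 t5 t6 t7 t8 e) 5 = col2 t0 t1 t2 t3 t4 t5 t6 t7 t8 (col4 t0 t1 t2 t3 t4 t5 t6 t7 t8 e) 5 := by
  simp only [col4, col2, smul_eq_mul]
  try ring

theorem comm42_6 (t0 t1 t2 t3 t4 t5 t6 t7 t8 : A) (e : Fin 14 → A) :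
    col4 t0 t1 t2 t3 t4 t5 t6 t7 t8 (col2 t0 t1 t2 t3 t4 t5 t6 t7 t8 e) 6 = col2 t0 t1 t2 t3 t4 t5 t6 t7 t8 (col4 t0 t1 t2 t3 t4 t5 t6 t7 t8 e) 6 := by
  simp only [col4, col2, smul_eq_mul]
  try ring

theorem comm42_7 (t0 t1 t2 t3 t4 t5 t6 t7 t8 : A) (e : Fin 14 → A) :
    col4 t0 t1 t2 t3 t4 t5 t6 t7 t8 (col2 t0 t1 t2 t3 t4 t5 t6 t7 t8 e) 7 = col2 t0 t1 t2 t3 t4 t5 t6 t7 t8 (col4 t0 t1 t2 t3 t4 t5 t6 t7 t8 e) 7 := by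
  simp only [col4, col2, smul_eq_mul]
  try ring

theorem comm42_8 (t0 t1 t2 t3 t4 t5 t6 t7 t8 : A) (e : Fin 14 → A) :
    col4 t0 t1 t2 t3 t4 t5 t6 t7 t8 (col2 t0 t1 t2 t3 t4 t5 t6 t7 t8 e) 8 = col2 t0 t1 t2 t3 t4 t5 t6 t7 t8 (col4 t0 t1 t2 t3 t4 t5 t6 t7 t8 e) 8 := by
  simp only [col4, col2, smul_eq_mul]
  try ring

theorem comm42_9 (t0 t1 t2 t3 t4 t5 t6 t7 t8 : A) (e : Fin 14 → A) :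
    col4 t0 t1 t2 t3 t4 t5 t6 t7 t8 (col2 t0 t1 t2 t3 t4 t5 t6 t7 t8 e) 9 = col2 t0 t1 t2 t3 t4 t5 t6 t7 t8 (col4 t0 t1 t2 t3 t4 t5 t6 t7 t8 e) 9 := by
  simp only [col4, col2, smul_eq_mul]
  try ring

theorem comm42_10 (t0 t1 t2 t3 t4 t5 t6 t7 t8 : A) (e : Fin 14 → A) :
    col4 t0 t1 t2 t3 t4 t5 t6 t7 t8 (col2 t0 t1 t2 t3 t4 t5 t6 t7 t8 e) 10 = col2 t0 t1 t2 t3 t4 t5 t6 t7 t8 (col4 t0 t1 t2 t3 t4 t5 t6 t7 t8 e) 10 := by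
  simp only [col4, col2, smul_eq_mul]
  try ring

theorem comm42_11 (t0 t1 t2 t3 t4 t5 t6 t7 t8 : A) (e : Fin 14 → A) :
    col4 t0 t1 t2 t3 t4 t5 t6 t7 t8 (col2 t0 t1 t2 t3 t4 t5 t6 t7 t8 e) 11 = col2 t0 t1 t2 t3 t4 t5 t6 t7 t8 (col4 t0 t1 t2 t3 t4 t5 t6 t7 t8 e) 11 := by
  simp only [col4, col2, smul_eq_mul]
  try ring

theorem comm42_12 (t0 t1 t2 t3 t4 t5 t6 t7 t8 : A) (e : Fin 14 → A) :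
    col4 t0 t1 t2 t3 t4 t5 t6 t7 t8 (col2 t0 t1 t2 t3 t4 t5 t6 t7 t8 e) 12 = col2 t0 t1 t2 t3 t4 t5 t6 t7 t8 (col4 t0 t1 t2 t3 t4 t5 t6 t7 t8 e) 12 := by
  simp only [col4, col2, smul_eq_mul]
  try ring

theorem comm42_13 (t0 t1 t2 t3 t4 t5 t6 t7 t8 : A) (e : Fin 14 → A) :
    col4 t0 t1 t2 t3 t4 t5 t6 t7 t8 (col2 t0 t1 t2 t3 t4 t5 t6 t7 t8 e) 13 = col2 t0 t1 t2 t3 t4 t5 t6 t7 t8 (col4 t0 t1 t2 t3 t4 t5 t6 t7 t8 e) 13 := by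
  simp only [col4, col2, smul_eq_mul]
  try ring

theorem comm43_0 (t0 t1 t2 t3 t4 t5 t6 t7 t8 : A) (e : Fin 14 → A) :
    col4 t0 t1 t2 t3 t4 t5 t6 t7 t8 (col3 t0 t1 t2 t3 t4 t5 t6 t7 t8 e) 0 = col3 t0 t1 t2 t3 t4 t5 t6 t7 t8 (col4 t0 t1 t2 t3 t4 t5 t6 t7 t8 e) 0 := by
  simp only [col4, col3, smul_eq_mul]
  try ring

theorem comm43_1 (t0 t1 t2 t3 t4 t5 t6 t7 t8 : A) (e : Fin 14 → A) :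
    col4 t0 t1 t2 t3 t4 t5 t6 t7 t8 (col3 t0 t1 t2 t3 t4 t5 t6 t7 t8 e) 1 = col3 t0 t1 t2 t3 t4 t5 t6 t7 t8 (col4 t0 t1 t2 t3 t4 t5 t6 t7 t8 e) 1 := by
  simp only [col4, col3, smul_eq_mul]
  try ring

theorem comm43_2 (t0 t1 t2 t3 t4 t5 t6 t7 t8 : A) (e : Fin 14 → A) :
    col4 t0 t1 t2 t3 t4 t5 t6 t7 t8 (col3 t0 t1 t2 t3 t4 t5 t6 t7 t8 e) 2 = col3 t0 t1 t2 t3 t4 t5 t6 t7 t8 (col4 t0 t1 t2 t3 t4 t5 t6 t7 t8 e) 2 := by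
  simp only [col4, col3, smul_eq_mul]
  try ring

theorem comm43_3 (t0 t1 t2 t3 t4 t5 t6 t7 t8 : A) (e : Fin 14 → A) :
    col4 t0 t1 t2 t3 t4 t5 t6 t7 t8 (col3 t0 t1 t2 t3 t4 t5 t6 t7 t8 e) 3 = col3 t0 t1 t2 t3 t4 t5 t6 t7 t8 (col4 t0 t1 t2 t3 t4 t5 t6 t7 t8 e) 3 := by
  simp only [col4, col3, smul_eq_mul]
  try ring

theorem comm43_4 (t0 t1 t2 t3 t4 t5 t6 t7 t8 : A) (e : Fin 14 → A) :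
    col4 t0 t1 t2 t3 t4 t5 t6 t7 t8 (col3 t0 t1 t2 t3 t4 t5 t6 t7 t8 e) 4 = col3 t0 t1 t2 t3 t4 t5 t6 t7 t8 (col4 t0 t1 t2 t3 t4 t5 t6 t7 t8 e) 4 := by
  simp only [col4, col3, smul_eq_mul]
  try ring

theorem comm43_5 (t0 t1 t2 t3 t4 t5 t6 t7 t8 : A) (e : Fin 14 → A) :
    col4 t0 t1 t2 t3 t4 t5 t6 t7 t8 (col3 t0 t1 t2 t3 t4 t5 t6 t7 t8 e) 5 = col3 t0 t1 t2 t3 t4 t5 t6 t7 t8 (col4 t0 t1 t2 t3 t4 t5 t6 t7 t8 e) 5 := by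
  simp only [col4, col3, smul_eq_mul]
  try ring

theorem comm43_6 (t0 t1 t2 t3 t4 t5 t6 t7 t8 : A) (e : Fin 14 → A) :
    col4 t0 t1 t2 t3 t4 t5 t6 t7 t8 (col3 t0 t1 t2 t3 t4 t5 t6 t7 t8 e) 6 = col3 t0 t1 t2 t3 t4 t5 t6 t7 t8 (col4 t0 t1 t2 t3 t4 t5 t6 t7 t8 e) 6 := by
  simp only [col4, col3, smul_eq_mul]
  try ring

theorem comm43_7 (t0 t1 t2 t3 t4 t5 t6 t7 t8 : A) (e : Fin 14 → A) :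
    col4 t0 t1 t2 t3 t4 t5 t6 t7 t8 (col3 t0 t1 t2 t3 t4 t5 t6 t7 t8 e) 7 = col3 t0 t1 t2 t3 t4 t5 t6 t7 t8 (col4 t0 t1 t2 t3 t4 t5 t6 t7 t8 e) 7 := by
  simp only [col4, col3, smul_eq_mul]
  try ring

theorem comm43_8 (t0 t1 t2 t3 t4 t5 t6 t7 t8 : A) (e : Fin 14 → A) :
    col4 t0 t1 t2 t3 t4 t5 t6 t7 t8 (col3 t0 t1 t2 t3 t4 t5 t6 t7 t8 e) 8 = col3 t0 t1 t2 t3 t4 t5 t6 t7 t8 (col4 t0 t1 t2 t3 t4 t5 t6 t7 t8 e) 8 := by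
  simp only [col4, col3, smul_eq_mul]
  try ring

theorem comm43_9 (t0 t1 t2 t3 t4 t5 t6 t7 t8 : A) (e : Fin 14 → A) :
    col4 t0 t1 t2 t3 t4 t5 t6 t7 t8 (col3 t0 t1 t2 t3 t4 t5 t6 t7 t8 e) 9 = col3 t0 t1 t2 t3 t4 t5 t6 t7 t8 (col4 t0 t1 t2 t3 t4 t5 t6 t7 t8 e) 9 := by
  simp only [col4, col3, smul_eq_mul]
  try ring

theorem comm43_10 (t0 t1 t2 t3 t4 t5 t6 t7 t8 : A) (e : Fin 14 → A) :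
    col4 t0 t1 t2 t3 t4 t5 t6 t7 t8 (col3 t0 t1 t2 t3 t4 t5 t6 t7 t8 e) 10 = col3 t0 t1 t2 t3 t4 t5 t6 t7 t8 (col4 t0 t1 t2 t3 t4 t5 t6 t7 t8 e) 10 := by
  simp only [col4, col3, smul_eq_mul]
  try ring

theorem comm43_11 (t0 t1 t2 t3 t4 t5 t6 t7 t8 : A) (e : Fin 14 → A) :
    col4 t0 t1 t2 t3 t4 t5 t6 t7 t8 (col3 t0 t1 t2 t3 t4 t5 t6 t7 t8 e) 11 = col3 t0 t1 t2 t3 t4 t5 t6 t7 t8 (col4 t0 t1 t2 t3 t4 t5 t6 t7 t8 e) 11 := by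
  simp only [col4, col3, smul_eq_mul]
  try ring

theorem comm43_12 (t0 t1 t2 t3 t4 t5 t6 t7 t8 : A) (e : Fin 14 → A) :
    col4 t0 t1 t2 t3 t4 t5 t6 t7 t8 (col3 t0 t1 t2 t3 t4 t5 t6 t7 t8 e) 12 = col3 t0 t1 t2 t3 t4 t5 t6 t7 t8 (col4 t0 t1 t2 t3 t4 t5 t6 t7 t8 e) 12 := by
  simp only [col4, col3, smul_eq_mul]
  try ring

theorem comm43_13 (t0 t1 t2 t3 t4 t5 t6 t7 t8 : A) (e : Fin 14 → A) :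
    col4 t0 t1 t2 t3 t4 t5 t6 t7 t8 (col3 t0 t1 t2 t3 t4 t5 t6 t7 t8 e) 13 = col3 t0 t1 t2 t3 t4 t5 t6 t7 t8 (col4 t0 t1 t2 t3 t4 t5 t6 t7 t8 e) 13 := by
  simp only [col4, col3, smul_eq_mul]
  try ring

end Pool.Agent.J4.H15
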