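import Pool.Agent.J4.H15.OpDefs

/-!
# Commutation of the multiplication tables (scalar components)
-/

set_option autoImplicit false
set_option linter.unusedVariables false
set_option maxRecDepth 100000

namespace Pool.Agent.J4.H15

variable {A : Type*} [CommRing A]

theorem comm45_0 (t0 t1 t2 t3 t4 t5 t6 t7 t8 : A) (e : Fin 14 → A) :
    col4 t0 t1 t2 t3 t4 t5 t6 t7 t8 (col5 t0 t1 t2 t3 t4 t5 t6 t7 t8 e) 0 = col5 t0 t1 t2 t3 t4 t5 t6 t7 t8 (col4 t0 t1 t2 t3 t4 t5 t6 t7 t8 e) 0 := by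
  simp only [col4, col5, smul_eq_mul]
  try ring

theorem comm45_1 (t0 t1 t2 t3 t4 t5 t6 t7 t8 : A) (e : Fin 14 → A) :
    col4 t0 t1 t2 t3 t4 t5 t6 t7 t8 (col5 t0 t1 t2 t3 t4 t5 t6 t7 t8 e) 1 = col5 t0 t1 t2 t3 t4 t5 t6 t7 t8 (col4 t0 t1 t2 t3 t4 t5 t6 t7 t8 e) 1 := by
  simp only [col4, col5, smul_eq_mul]
  try ring

theorem comm45_2 (t0 t1 t2 t3 t4 t5 t6 t7 t8 : A) (e : Fin 14 → A) :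
    col4 t0 t1 t2 t3 t4 t5 t6 t7 t8 (col5 t0 t1 t2 t3 t4 t5 t6 t7 t8 e) 2 = col5 t0 t1 t2 t3 t4 t5 t6 t7 t8 (col4 t0 t1 t2 t3 t4 t5 t6 t7 t8 e) 2 := by
  simp only [col4, col5, smul_eq_mul]
  try ring

theorem comm45_3 (t0 t1 t2 t3 t4 t5 t6 t7 t8 : A) (e : Fin 14 → A) :
    col4 t0 t1 t2 t3 t4 t5 t6 t7 t8 (col5 t0 t1 t2 t3 t4 t5 t6 t7 t8 e) 3 = col5 t0 t1 t2 t3 t4 t5 t6 t7 t8 (col4 t0 t1 t2 t3 t4 t5 t6 t7 t8 e) 3 := by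
  simp only [col4, col5, smul_eq_mul]
  try ring

theorem comm45_4 (t0 t1 t2 t3 t4 t5 t6 t7 t8 : A) (e : Fin 14 → A) :
    col4 t0 t1 t2 t3 t4 t5 t6 t7 t8 (col5 t0 t1 t2 t3 t4 t5 t6 t7 t8 e) 4 = col5 t0 t1 t2 t3 t4 t5 t6 t7 t8 (col4 t0 t1 t2 t3 t4 t5 t6 t7 t8 e) 4 := by
  simp only [col4, col5, smul_eq_mul]
  try ring

theorem comm45_5 (t0 t1 t2 t3 t4 t5 t6 t7 t8 : A) (e : Fin 14 → A) :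
    col4 t0 t1 t2 t3 t4 t5 t6 t7 t8 (col5 t0 t1 t2 t3 t4 t5 t6 t7 t8 e) 5 = col5 t0 t1 t2 t3 t4 t5 t6 t7 t8 (col4 t0 t1 t2 t3 t4 t5 t6 t7 t8 e) 5 := by
  simp only [col4, col5, smul_eq_mul]
  try ring

theorem comm45_6 (t0 t1 t2 t3 t4 t5 t6 t7 t8 : A) (e : Fin 14 → A) :
    col4 t0 t1 t2 t3 t4 t5 t6 t7 t8 (col5 t0 t1 t2 t3 t4 t5 t6 t7 t8 e) 6 = col5 t0 t1 t2 t3 t4 t5 t6 t7 t8 (col4 t0 t1 t2 t3 t4 t5 t6 t7 t8 e) 6 := by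
  simp only [col4, col5, smul_eq_mul]
  try ring

theorem comm45_7 (t0 t1 t2 t3 t4 t5 t6 t7 t8 : A) (e : Fin 14 → A) :
    col4 t0 t1 t2 t3 t4 t5 t6 t7 t8 (col5 t0 t1 t2 t3 t4 t5 t6 t7 t8 e) 7 = col5 t0 t1 t2 t3 t4 t5 t6 t7 t8 (col4 t0 t1 t2 t3 t4 t5 t6 t7 t8 e) 7 := by
  simp only [col4, col5, smul_eq_mul]
  try ring

theorem comm45_8 (t0 t1 t2 t3 t4 t5 t6 t7 t8 : A) (e : Fin 14 → A) :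
    col4 t0 t1 t2 t3 t4 t5 t6 t7 t8 (col5 t0 t1 t2 t3 t4 t5 t6 t7 t8 e) 8 = col5 t0 t1 t2 t3 t4 t5 t6 t7 t8 (col4 t0 t1 t2 t3 t4 t5 t6 t7 t8 e) 8 := by
  simp only [col4, col5, smul_eq_mul]
  try ring

theorem comm45_9 (t0 t1 t2 t3 t4 t5 t6 t7 t8 : A) (e : Fin 14 → A) :
    col4 t0 t1 t2 t3 t4 t5 t6 t7 t8 (col5 t0 t1 t2 t3 t4 t5 t6 t7 t8 e) 9 = col5 t0 t1 t2 t3 t4 t5 t6 t7 t8 (col4 t0 t1 t2 t3 t4 t5 t6 t7 t8 e) 9 := by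
  simp only [col4, col5, smul_eq_mul]
  try ring

theorem comm45_10 (t0 t1 t2 t3 t4 t5 t6 t7 t8 : A) (e : Fin 14 → A) :
    col4 t0 t1 t2 t3 t4 t5 t6 t7 t8 (col5 t0 t1 t2 t3 t4 t5 t6 t7 t8 e) 10 = col5 t0 t1 t2 t3 t4 t5 t6 t7 t8 (col4 t0 t1 t2 t3 t4 t5 t6 t7 t8 e) 10 := by
  simp only [col4, col5, smul_eq_mul]
  try ring

theorem comm45_11 (t0 t1 t2 t3 t4 t5 t6 t7 t8 : A) (e : Fin 14 → A) :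
    col4 t0 t1 t2 t3 t4 t5 t6 t7 t8 (col5 t0 t1 t2 t3 t4 t5 t6 t7 t8 e) 11 = col5 t0 t1 t2 t3 t4 t5 t6 t7 t8 (col4 t0 t1 t2 t3 t4 t5 t6 t7 t8 e) 11 := by
  simp only [col4, col5, smul_eq_mul]
  try ring

theorem comm45_12 (t0 t1 t2 t3 t4 t5 t6 t7 t8 : A) (e : Fin 14 → A) :
    col4 t0 t1 t2 t3 t4 t5 t6 t7 t8 (col5 t0 t1 t2 t3 t4 t5 t6 t7 t8 e) 12 = col5 t0 t1 t2 t3 t4 t5 t6 t7 t8 (col4 t0 t1 t2 t3 t4 t5 t6 t7 t8 e) 12 := by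
  simp only [col4, col5, smul_eq_mul]
  try ring

theorem comm45_13 (t0 t1 t2 t3 t4 t5 t6 t7 t8 : A) (e : Fin 14 → A) :
    col4 t0 t1 t2 t3 t4 t5 t6 t7 t8 (col5 t0 t1 t2 t3 t4 t5 t6 t7 t8 e) 13 = col5 t0 t1 t2 t3 t4 t5 t6 t7 t8 (col4 t0 t1 t2 t3 t4 t5 t6 t7 t8 e) 13 := by
  simp only [col4, col5, smul_eq_mul]
  try ring

theorem comm46_0 (t0 t1 t2 t3 t4 t5 t6 t7 t8 : A) (e : Fin 14 → A) :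
    col4 t0 t1 t2 t3 t4 t5 t6 t7 t8 (col6 t0 t1 t2 t3 t4 t5 t6 t7 t8 e) 0 = col6 t0 t1 t2 t3 t4 t5 t6 t7 t8 (col4 t0 t1 t2 t3 t4 t5 t6 t7 t8 e) 0 := by
  simp only [col4, col6, smul_eq_mul]
  try ring

theorem comm46_1 (t0 t1 t2 t3 t4 t5 t6 t7 t8 : A) (e : Fin 14 → A) :
    col4 t0 t1 t2 t3 t4 t5 t6 t7 t8 (col6 t0 t1 t2 t3 t4 t5 t6 t7 t8 e) 1 = col6 t0 t1 t2 t3 t4 t5 t6 t7 t8 (col4 t0 t1 t2 t3 t4 t5 t6 t7 t8 e) 1 := by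
  simp only [col4, col6, smul_eq_mul]
  try ring

theorem comm46_2 (t0 t1 t2 t3 t4 t5 t6 t7 t8 : A) (e : Fin 14 → A) :
    col4 t0 t1 t2 t3 t4 t5 t6 t7 t8 (col6 t0 t1 t2 t3 t4 t5 t6 t7 t8 e) 2 = col6 t0 t1 t2 t3 t4 t5 t6 t7 t8 (col4 t0 t1 t2 t3 t4 t5 t6 t7 t8 e) 2 := by
  simp only [col4, col6, smul_eq_mul]
  try ring

theorem comm46_3 (t0 t1 t2 t3 t4 t5 t6 t7 t8 : A) (e : Fin 14 → A) :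
    col4 t0 t1 t2 t3 t4 t5 t6 t7 t8 (col6 t0 t1 t2 t3 t4 t5 t6 t7 t8 e) 3 = col6 t0 t1 t2 t3 t4 t5 t6 t7 t8 (col4 t0 t1 t2 t3 t4 t5 t6 t7 t8 e) 3 := by
  simp only [col4, col6, smul_eq_mul]
  try ring

theorem comm46_4 (t0 t1 t2 t3 t4 t5 t6 t7 t8 : A) (e : Fin 14 → A) :
    col4 t0 t1 t2 t3 t4 t5 t6 t7 t8 (col6 t0 t1 t2 t3 t4 t5 t6 t7 t8 e) 4 = col6 t0 t1 t2 t3 t4 t5 t6 t7 t8 (col4 t0 t1 t2 t3 t4 t5 t6 t7 t8 e) 4 := by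
  simp only [col4, col6, smul_eq_mul]
  try ring

theorem comm46_5 (t0 t1 t2 t3 t4 t5 t6 t7 t8 : A) (e : Fin 14 → A) :
    col4 t0 t1 t2 t3 t4 t5 t6 t7 t8 (col6 t0 t1 t2 t3 t4 t5 t6 t7 t8 e) 5 = col6 t0 t1 t2 t3 t4 t5 t6 t7 t8 (col4 t0 t1 t2 t3 t4 t5 t6 t7 t8 e) 5 := by
  simp only [col4, col6, smul_eq_mul]
  try ring

theorem comm46_6 (t0 t1 t2 t3 t4 t5 t6 t7 t8 : A) (e : Fin 14 → A) :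
    col4 t0 t1 t2 t3 t4 t5 t6 t7 t8 (col6 t0 t1 t2 t3 t4 t5 t6 t7 t8 e) 6 = col6 t0 t1 t2 t3 t4 t5 t6 t7 t8 (col4 t0 t1 t2 t3 t4 t5 t6 t7 t8 e) 6 := by
  simp only [col4, col6, smul_eq_mul]
  try ring

theorem comm46_7 (t0 t1 t2 t3 t4 t5 t6 t7 t8 : A) (e : Fin 14 → A) :
    col4 t0 t1 t2 t3 t4 t5 t6 t7 t8 (col6 t0 t1 t2 t3 t4 t5 t6 t7 t8 e) 7 = col6 t0 t1 t2 t3 t4 t5 t6 t7 t8 (col4 t0 t1 t2 t3 t4 t5 t6 t7 t8 e) 7 := by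
  simp only [col4, col6, smul_eq_mul]
  try ring

theorem comm46_8 (t0 t1 t2 t3 t4 t5 t6 t7 t8 : A) (e : Fin 14 → A) :
    col4 t0 t1 t2 t3 t4 t5 t6 t7 t8 (col6 t0 t1 t2 t3 t4 t5 t6 t7 t8 e) 8 = col6 t0 t1 t2 t3 t4 t5 t6 t7 t8 (col4 t0 t1 t2 t3 t4 t5 t6 t7 t8 e) 8 := by
  simp only [col4, col6, smul_eq_mul]
  try ring

theorem comm46_9 (t0 t1 t2 t3 t4 t5 t6 t7 t8 : A) (e : Fin 14 → A) :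
    col4 t0 t1 t2 t3 t4 t5 t6 t7 t8 (col6 t0 t1 t2 t3 t4 t5 t6 t7 t8 e) 9 = col6 t0 t1 t2 t3 t4 t5 t6 t7 t8 (col4 t0 t1 t2 t3 t4 t5 t6 t7 t8 e) 9 := by
  simp only [col4, col6, smul_eq_mul]
  try ring

theorem comm46_10 (t0 t1 t2 t3 t4 t5 t6 t7 t8 : A) (e : Fin 14 → A) :
    col4 t0 t1 t2 t3 t4 t5 t6 t7 t8 (col6 t0 t1 t2 t3 t4 t5 t6 t7 t8 e) 10 = col6 t0 t1 t2 t3 t4 t5 t6 t7 t8 (col4 t0 t1 t2 t3 t4 t5 t6 t7 t8 e) 10 := by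
  simp only [col4, col6, smul_eq_mul]
  try ring

theorem comm46_11 (t0 t1 t2 t3 t4 t5 t6 t7 t8 : A) (e : Fin 14 → A) :
    col4 t0 t1 t2 t3 t4 t5 t6 t7 t8 (col6 t0 t1 t2 t3 t4 t5 t6 t7 t8 e) 11 = col6 t0 t1 t2 t3 t4 t5 t6 t7 t8 (col4 t0 t1 t2 t3 t4 t5 t6 t7 t8 e) 11 := by
  simp only [col4, col6, smul_eq_mul]
  try ring

theorem comm46_12 (t0 t1 t2 t3 t4 t5 t6 t7 t8 : A) (e : Fin 14 → A) :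
    col4 t0 t1 t2 t3 t4 t5 t6 t7 t8 (col6 t0 t1 t2 t3 t4 t5 t6 t7 t8 e) 12 = col6 t0 t1 t2 t3 t4 t5 t6 t7 t8 (col4 t0 t1 t2 t3 t4 t5 t6 t7 t8 e) 12 := by
  simp only [col4, col6, smul_eq_mul]
  try ring

theorem comm46_13 (t0 t1 t2 t3 t4 t5 t6 t7 t8 : A) (e : Fin 14 → A) :
    col4 t0 t1 t2 t3 t4 t5 t6 t7 t8 (col6 t0 t1 t2 t3 t4 t5 t6 t7 t8 e) 13 = col6 t0 t1 t2 t3 t4 t5 t6 t7 t8 (col4 t0 t1 t2 t3 t4 t5 t6 t7 t8 e) 13 := by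
  simp only [col4, col6, smul_eq_mul]
  try ring

end Pool.Agent.J4.H15
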