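import Pool.Agent.J4.H15.OpDefs

/-!
# Commutation of the multiplication tables (scalar components)
-/

set_option autoImplicit false
set_option linter.unusedVariables false
set_option maxRecDepth 100000

namespace Pool.Agent.J4.H15

variable {A : Type*} [CommRing A]

theorem comm12_0 (t0 t1 t2 t3 t4 t5 t6 t7 t8 : A) (e : Fin 14 → A) :
    col1 t0 t1 t2 t3 t4 t5 t6 t7 t8 (col2 t0 t1 t2 t3 t4 t5 t6 t7 t8 e) 0 = col2 t0 t1 t2 t3 t4 t5 t6 t7 t8 (col1 t0 t1 t2 t3 t4 t5 t6 t7 t8 e) 0 := by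
  simp only [col1, col2, smul_eq_mul]
  try ring

theorem comm12_1 (t0 t1 t2 t3 t4 t5 t6 t7 t8 : A) (e : Fin 14 → A) :
    col1 t0 t1 t2 t3 t4 t5 t6 t7 t8 (col2 t0 t1 t2 t3 t4 t5 t6 t7 t8 e) 1 = col2 t0 t1 t2 t3 t4 t5 t6 t7 t8 (col1 t0 t1 t2 t3 t4 t5 t6 t7 t8 e) 1 := by
  simp only [col1, col2, smul_eq_mul]
  try ring

theorem comm12_2 (t0 t1 t2 t3 t4 t5 t6 t7 t8 : A) (e : Fin 14 → A) :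
    col1 t0 t1 t2 t3 t4 t5 t6 t7 t8 (col2 t0 t1 t2 t3 t4 t5 t6 t7 t8 e) 2 = col2 t0 t1 t2 t3 t4 t5 t6 t7 t8 (col1 t0 t1 t2 t3 t4 t5 t6 t7 t8 e) 2 := by
  simp only [col1, col2, smul_eq_mul]
  try ring

theorem comm12_3 (t0 t1 t2 t3 t4 t5 t6 t7 t8 : A) (e : Fin 14 → A) :
    col1 t0 t1 t2 t3 t4 t5 t6 t7 t8 (col2 t0 t1 t2 t3 t4 t5 t6 t7 t8 e) 3 = col2 t0 t1 t2 t3 t4 t5 t6 t7 t8 (col1 t0 t1 t2 t3 t4 t5 t6 t7 t8 e) 3 := by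
  simp only [col1, col2, smul_eq_mul]
  try ring

theorem comm12_4 (t0 t1 t2 t3 t4 t5 t6 t7 t8 : A) (e : Fin 14 → A) :
    col1 t0 t1 t2 t3 t4 t5 t6 t7 t8 (col2 t0 t1 t2 t3 t4 t5 t6 t7 t8 e) 4 = col2 t0 t1 t2 t3 t4 t5 t6 t7 t8 (col1 t0 t1 t2 t3 t4 t5 t6 t7 t8 e) 4 := by
  simp only [col1, col2, smul_eq_mul]
  try ring

theorem comm12_5 (t0 t1 t2 t3 t4 t5 t6 t7 t8 : A) (e : Fin 14 → A) :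
    col1 t0 t1 t2 t3 t4 t5 t6 t7 t8 (col2 t0 t1 t2 t3 t4 t5 t6 t7 t8 e) 5 = col2 t0 t1 t2 t3 t4 t5 t6 t7 t8 (col1 t0 t1 t2 t3 t4 t5 t6 t7 t8 e) 5 := by
  simp only [col1, col2, smul_eq_mul]
  try ring

theorem comm12_6 (t0 t1 t2 t3 t4 t5 t6 t7 t8 : A) (e : Fin 14 → A) :
    col1 t0 t1 t2 t3 t4 t5 t6 t7 t8 (col2 t0 t1 t2 t3 t4 t5 t6 t7 t8 e) 6 = col2 t0 t1 t2 t3 t4 t5 t6 t7 t8 (col1 t0 t1 t2 t3 t4 t5 t6 t7 t8 e) 6 := by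
  simp only [col1, col2, smul_eq_mul]
  try ring

theorem comm13_0 (t0 t1 t2 t3 t4 t5 t6 t7 t8 : A) (e : Fin 14 → A) :
    col1 t0 t1 t2 t3 t4 t5 t6 t7 t8 (col3 t0 t1 t2 t3 t4 t5 t6 t7 t8 e) 0 = col3 t0 t1 t2 t3 t4 t5 t6 t7 t8 (col1 t0 t1 t2 t3 t4 t5 t6 t7 t8 e) 0 := by
  simp only [col1, col3, smul_eq_mul]
  try ring

theorem comm13_1 (t0 t1 t2 t3 t4 t5 t6 t7 t8 : A) (e : Fin 14 → A) :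
    col1 t0 t1 t2 t3 t4 t5 t6 t7 t8 (col3 t0 t1 t2 t3 t4 t5 t6 t7 t8 e) 1 = col3 t0 t1 t2 t3 t4 t5 t6 t7 t8 (col1 t0 t1 t2 t3 t4 t5 t6 t7 t8 e) 1 := by
  simp only [col1, col3, smul_eq_mul]
  try ring

theorem comm13_2 (t0 t1 t2 t3 t4 t5 t6 t7 t8 : A) (e : Fin 14 → A) :
    col1 t0 t1 t2 t3 t4 t5 t6 t7 t8 (col3 t0 t1 t2 t3 t4 t5 t6 t7 t8 e) 2 = col3 t0 t1 t2 t3 t4 t5 t6 t7 t8 (col1 t0 t1 t2 t3 t4 t5 t6 t7 t8 e) 2 := by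
  simp only [col1, col3, smul_eq_mul]
  try ring

theorem comm13_3 (t0 t1 t2 t3 t4 t5 t6 t7 t8 : A) (e : Fin 14 → A) :
    col1 t0 t1 t2 t3 t4 t5 t6 t7 t8 (col3 t0 t1 t2 t3 t4 t5 t6 t7 t8 e) 3 = col3 t0 t1 t2 t3 t4 t5 t6 t7 t8 (col1 t0 t1 t2 t3 t4 t5 t6 t7 t8 e) 3 := by
  simp only [col1, col3, smul_eq_mul]
  try ring

theorem comm13_4 (t0 t1 t2 t3 t4 t5 t6 t7 t8 : A) (e : Fin 14 → A) :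
    col1 t0 t1 t2 t3 t4 t5 t6 t7 t8 (col3 t0 t1 t2 t3 t4 t5 t6 t7 t8 e) 4 = col3 t0 t1 t2 t3 t4 t5 t6 t7 t8 (col1 t0 t1 t2 t3 t4 t5 t6 t7 t8 e) 4 := by
  simp only [col1, col3, smul_eq_mul]
  try ring

theorem comm13_5 (t0 t1 t2 t3 t4 t5 t6 t7 t8 : A) (e : Fin 14 → A) :
    col1 t0 t1 t2 t3 t4 t5 t6 t7 t8 (col3 t0 t1 t2 t3 t4 t5 t6 t7 t8 e) 5 = col3 t0 t1 t2 t3 t4 t5 t6 t7 t8 (col1 t0 t1 t2 t3 t4 t5 t6 t7 t8 e) 5 := by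
  simp only [col1, col3, smul_eq_mul]
  try ring

theorem comm13_6 (t0 t1 t2 t3 t4 t5 t6 t7 t8 : A) (e : Fin 14 → A) :
    col1 t0 t1 t2 t3 t4 t5 t6 t7 t8 (col3 t0 t1 t2 t3 t4 t5 t6 t7 t8 e) 6 = col3 t0 t1 t2 t3 t4 t5 t6 t7 t8 (col1 t0 t1 t2 t3 t4 t5 t6 t7 t8 e) 6 := by
  simp only [col1, col3, smul_eq_mul]
  try ring

theorem comm15_0 (t0 t1 t2 t3 t4 t5 t6 t7 t8 : A) (e : Fin 14 → A) :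
    col1 t0 t1 t2 t3 t4 t5 t6 t7 t8 (col5 t0 t1 t2 t3 t4 t5 t6 t7 t8 e) 0 = col5 t0 t1 t2 t3 t4 t5 t6 t7 t8 (col1 t0 t1 t2 t3 t4 t5 t6 t7 t8 e) 0 := by
  simp only [col1, col5, smul_eq_mul]
  try ring

theorem comm15_1 (t0 t1 t2 t3 t4 t5 t6 t7 t8 : A) (e : Fin 14 → A) :
    col1 t0 t1 t2 t3 t4 t5 t6 t7 t8 (col5 t0 t1 t2 t3 t4 t5 t6 t7 t8 e) 1 = col5 t0 t1 t2 t3 t4 t5 t6 t7 t8 (col1 t0 t1 t2 t3 t4 t5 t6 t7 t8 e) 1 := by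
  simp only [col1, col5, smul_eq_mul]
  try ring

theorem comm15_2 (t0 t1 t2 t3 t4 t5 t6 t7 t8 : A) (e : Fin 14 → A) :
    col1 t0 t1 t2 t3 t4 t5 t6 t7 t8 (col5 t0 t1 t2 t3 t4 t5 t6 t7 t8 e) 2 = col5 t0 t1 t2 t3 t4 t5 t6 t7 t8 (col1 t0 t1 t2 t3 t4 t5 t6 t7 t8 e) 2 := by
  simp only [col1, col5, smul_eq_mul]
  try ring

theorem comm15_3 (t0 t1 t2 t3 t4 t5 t6 t7 t8 : A) (e : Fin 14 → A) :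
    col1 t0 t1 t2 t3 t4 t5 t6 t7 t8 (col5 t0 t1 t2 t3 t4 t5 t6 t7 t8 e) 3 = col5 t0 t1 t2 t3 t4 t5 t6 t7 t8 (col1 t0 t1 t2 t3 t4 t5 t6 t7 t8 e) 3 := by
  simp only [col1, col5, smul_eq_mul]
  try ring

theorem comm15_4 (t0 t1 t2 t3 t4 t5 t6 t7 t8 : A) (e : Fin 14 → A) :
    col1 t0 t1 t2 t3 t4 t5 t6 t7 t8 (col5 t0 t1 t2 t3 t4 t5 t6 t7 t8 e) 4 = col5 t0 t1 t2 t3 t4 t5 t6 t7 t8 (col1 t0 t1 t2 t3 t4 t5 t6 t7 t8 e) 4 := by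
  simp only [col1, col5, smul_eq_mul]
  try ring

theorem comm15_5 (t0 t1 t2 t3 t4 t5 t6 t7 t8 : A) (e : Fin 14 → A) :
    col1 t0 t1 t2 t3 t4 t5 t6 t7 t8 (col5 t0 t1 t2 t3 t4 t5 t6 t7 t8 e) 5 = col5 t0 t1 t2 t3 t4 t5 t6 t7 t8 (col1 t0 t1 t2 t3 t4 t5 t6 t7 t8 e) 5 := by
  simp only [col1, col5, smul_eq_mul]
  try ring

theorem comm15_6 (t0 t1 t2 t3 t4 t5 t6 t7 t8 : A) (e : Fin 14 → A) :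
    col1 t0 t1 t2 t3 t4 t5 t6 t7 t8 (col5 t0 t1 t2 t3 t4 t5 t6 t7 t8 e) 6 = col5 t0 t1 t2 t3 t4 t5 t6 t7 t8 (col1 t0 t1 t2 t3 t4 t5 t6 t7 t8 e) 6 := by
  simp only [col1, col5, smul_eq_mul]
  try ring

theorem comm16_0 (t0 t1 t2 t3 t4 t5 t6 t7 t8 : A) (e : Fin 14 → A) :
    col1 t0 t1 t2 t3 t4 t5 t6 t7 t8 (col6 t0 t1 t2 t3 t4 t5 t6 t7 t8 e) 0 = col6 t0 t1 t2 t3 t4 t5 t6 t7 t8 (col1 t0 t1 t2 t3 t4 t5 t6 t7 t8 e) 0 := by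
  simp only [col1, col6, smul_eq_mul]
  try ring

theorem comm16_1 (t0 t1 t2 t3 t4 t5 t6 t7 t8 : A) (e : Fin 14 → A) :
    col1 t0 t1 t2 t3 t4 t5 t6 t7 t8 (col6 t0 t1 t2 t3 t4 t5 t6 t7 t8 e) 1 = col6 t0 t1 t2 t3 t4 t5 t6 t7 t8 (col1 t0 t1 t2 t3 t4 t5 t6 t7 t8 e) 1 := by
  simp only [col1, col6, smul_eq_mul]
  try ring

theorem comm16_2 (t0 t1 t2 t3 t4 t5 t6 t7 t8 : A) (e : Fin 14 → A) :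
    col1 t0 t1 t2 t3 t4 t5 t6 t7 t8 (col6 t0 t1 t2 t3 t4 t5 t6 t7 t8 e) 2 = col6 t0 t1 t2 t3 t4 t5 t6 t7 t8 (col1 t0 t1 t2 t3 t4 t5 t6 t7 t8 e) 2 := by
  simp only [col1, col6, smul_eq_mul]
  try ring

theorem comm16_3 (t0 t1 t2 t3 t4 t5 t6 t7 t8 : A) (e : Fin 14 → A) :
    col1 t0 t1 t2 t3 t4 t5 t6 t7 t8 (col6 t0 t1 t2 t3 t4 t5 t6 t7 t8 e) 3 = col6 t0 t1 t2 t3 t4 t5 t6 t7 t8 (col1 t0 t1 t2 t3 t4 t5 t6 t7 t8 e) 3 := by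
  simp only [col1, col6, smul_eq_mul]
  try ring

theorem comm16_4 (t0 t1 t2 t3 t4 t5 t6 t7 t8 : A) (e : Fin 14 → A) :
    col1 t0 t1 t2 t3 t4 t5 t6 t7 t8 (col6 t0 t1 t2 t3 t4 t5 t6 t7 t8 e) 4 = col6 t0 t1 t2 t3 t4 t5 t6 t7 t8 (col1 t0 t1 t2 t3 t4 t5 t6 t7 t8 e) 4 := by
  simp only [col1, col6, smul_eq_mul]
  try ring

theorem comm16_5 (t0 t1 t2 t3 t4 t5 t6 t7 t8 : A) (e : Fin 14 → A) :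
    col1 t0 t1 t2 t3 t4 t5 t6 t7 t8 (col6 t0 t1 t2 t3 t4 t5 t6 t7 t8 e) 5 = col6 t0 t1 t2 t3 t4 t5 t6 t7 t8 (col1 t0 t1 t2 t3 t4 t5 t6 t7 t8 e) 5 := by
  simp only [col1, col6, smul_eq_mul]
  try ring

theorem comm16_6 (t0 t1 t2 t3 t4 t5 t6 t7 t8 : A) (e : Fin 14 → A) :
    col1 t0 t1 t2 t3 t4 t5 t6 t7 t8 (col6 t0 t1 t2 t3 t4 t5 t6 t7 t8 e) 6 = col6 t0 t1 t2 t3 t4 t5 t6 t7 t8 (col1 t0 t1 t2 t3 t4 t5 t6 t7 t8 e) 6 := by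
  simp only [col1, col6, smul_eq_mul]
  try ring

theorem comm23_0 (t0 t1 t2 t3 t4 t5 t6 t7 t8 : A) (e : Fin 14 → A) :
    col2 t0 t1 t2 t3 t4 t5 t6 t7 t8 (col3 t0 t1 t2 t3 t4 t5 t6 t7 t8 e) 0 = col3 t0 t1 t2 t3 t4 t5 t6 t7 t8 (col2 t0 t1 t2 t3 t4 t5 t6 t7 t8 e) 0 := by
  simp only [col2, col3, smul_eq_mul]
  try ring

theorem comm23_1 (t0 t1 t2 t3 t4 t5 t6 t7 t8 : A) (e : Fin 14 → A) :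
    col2 t0 t1 t2 t3 t4 t5 t6 t7 t8 (col3 t0 t1 t2 t3 t4 t5 t6 t7 t8 e) 1 = col3 t0 t1 t2 t3 t4 t5 t6 t7 t8 (col2 t0 t1 t2 t3 t4 t5 t6 t7 t8 e) 1 := by
  simp only [col2, col3, smul_eq_mul]
  try ring

theorem comm23_2 (t0 t1 t2 t3 t4 t5 t6 t7 t8 : A) (e : Fin 14 → A) :
    col2 t0 t1 t2 t3 t4 t5 t6 t7 t8 (col3 t0 t1 t2 t3 t4 t5 t6 t7 t8 e) 2 = col3 t0 t1 t2 t3 t4 t5 t6 t7 t8 (col2 t0 t1 t2 t3 t4 t5 t6 t7 t8 e) 2 := by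
  simp only [col2, col3, smul_eq_mul]
  try ring

theorem comm23_3 (t0 t1 t2 t3 t4 t5 t6 t7 t8 : A) (e : Fin 14 → A) :
    col2 t0 t1 t2 t3 t4 t5 t6 t7 t8 (col3 t0 t1 t2 t3 t4 t5 t6 t7 t8 e) 3 = col3 t0 t1 t2 t3 t4 t5 t6 t7 t8 (col2 t0 t1 t2 t3 t4 t5 t6 t7 t8 e) 3 := by
  simp only [col2, col3, smul_eq_mul]
  try ring

theorem comm23_4 (t0 t1 t2 t3 t4 t5 t6 t7 t8 : A) (e : Fin 14 → A) :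
    col2 t0 t1 t2 t3 t4 t5 t6 t7 t8 (col3 t0 t1 t2 t3 t4 t5 t6 t7 t8 e) 4 = col3 t0 t1 t2 t3 t4 t5 t6 t7 t8 (col2 t0 t1 t2 t3 t4 t5 t6 t7 t8 e) 4 := by
  simp only [col2, col3, smul_eq_mul]
  try ring

theorem comm23_5 (t0 t1 t2 t3 t4 t5 t6 t7 t8 : A) (e : Fin 14 → A) :
    col2 t0 t1 t2 t3 t4 t5 t6 t7 t8 (col3 t0 t1 t2 t3 t4 t5 t6 t7 t8 e) 5 = col3 t0 t1 t2 t3 t4 t5 t6 t7 t8 (col2 t0 t1 t2 t3 t4 t5 t6 t7 t8 e) 5 := by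
  simp only [col2, col3, smul_eq_mul]
  try ring

theorem comm23_6 (t0 t1 t2 t3 t4 t5 t6 t7 t8 : A) (e : Fin 14 → A) :
    col2 t0 t1 t2 t3 t4 t5 t6 t7 t8 (col3 t0 t1 t2 t3 t4 t5 t6 t7 t8 e) 6 = col3 t0 t1 t2 t3 t4 t5 t6 t7 t8 (col2 t0 t1 t2 t3 t4 t5 t6 t7 t8 e) 6 := by
  simp only [col2, col3, smul_eq_mul]
  try ring

end Pool.Agent.J4.H15
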