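import Pool.Agent.J4.H15.OpDefs

/-!
# Commutation of the multiplication tables (scalar components)
-/

set_option autoImplicit false
set_option linter.unusedVariables false
set_option maxRecDepth 100000

namespace Pool.Agent.J4.H15

variable {A : Type*} [CommRing A]

theorem comm25_0 (t0 t1 t2 t3 t4 t5 t6 t7 t8 : A) (e : Fin 14 → A) :
    col2 t0 t1 t2 t3 t4 t5 t6 t7 t8 (col5 t0 t1 t2 t3 t4 t5 t6 t7 t8 e) 0 = col5 t0 t1 t2 t3 t4 t5 t6 t7 t8 (col2 t0 t1 t2 t3 t4 t5 t6 t7 t8 e) 0 := by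
  simp only [col2, col5, smul_eq_mul]
  try ring

theorem comm25_1 (t0 t1 t2 t3 t4 t5 t6 t7 t8 : A) (e : Fin 14 → A) :
    col2 t0 t1 t2 t3 t4 t5 t6 t7 t8 (col5 t0 t1 t2 t3 t4 t5 t6 t7 t8 e) 1 = col5 t0 t1 t2 t3 t4 t5 t6 t7 t8 (col2 t0 t1 t2 t3 t4 t5 t6 t7 t8 e) 1 := by
  simp only [col2, col5, smul_eq_mul]
  try ring

theorem comm25_2 (t0 t1 t2 t3 t4 t5 t6 t7 t8 : A) (e : Fin 14 → A) :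
    col2 t0 t1 t2 t3 t4 t5 t6 t7 t8 (col5 t0 t1 t2 t3 t4 t5 t6 t7 t8 e) 2 = col5 t0 t1 t2 t3 t4 t5 t6 t7 t8 (col2 t0 t1 t2 t3 t4 t5 t6 t7 t8 e) 2 := by
  simp only [col2, col5, smul_eq_mul]
  try ring

theorem comm25_3 (t0 t1 t2 t3 t4 t5 t6 t7 t8 : A) (e : Fin 14 → A) :
    col2 t0 t1 t2 t3 t4 t5 t6 t7 t8 (col5 t0 t1 t2 t3 t4 t5 t6 t7 t8 e) 3 = col5 t0 t1 t2 t3 t4 t5 t6 t7 t8 (col2 t0 t1 t2 t3 t4 t5 t6 t7 t8 e) 3 := by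
  simp only [col2, col5, smul_eq_mul]
  try ring

theorem comm25_4 (t0 t1 t2 t3 t4 t5 t6 t7 t8 : A) (e : Fin 14 → A) :
    col2 t0 t1 t2 t3 t4 t5 t6 t7 t8 (col5 t0 t1 t2 t3 t4 t5 t6 t7 t8 e) 4 = col5 t0 t1 t2 t3 t4 t5 t6 t7 t8 (col2 t0 t1 t2 t3 t4 t5 t6 t7 t8 e) 4 := by
  simp only [col2, col5, smul_eq_mul]
  try ring

theorem comm25_5 (t0 t1 t2 t3 t4 t5 t6 t7 t8 : A) (e : Fin 14 → A) :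
    col2 t0 t1 t2 t3 t4 t5 t6 t7 t8 (col5 t0 t1 t2 t3 t4 t5 t6 t7 t8 e) 5 = col5 t0 t1 t2 t3 t4 t5 t6 t7 t8 (col2 t0 t1 t2 t3 t4 t5 t6 t7 t8 e) 5 := by
  simp only [col2, col5, smul_eq_mul]
  try ring

theorem comm25_6 (t0 t1 t2 t3 t4 t5 t6 t7 t8 : A) (e : Fin 14 → A) :
    col2 t0 t1 t2 t3 t4 t5 t6 t7 t8 (col5 t0 t1 t2 t3 t4 t5 t6 t7 t8 e) 6 = col5 t0 t1 t2 t3 t4 t5 t6 t7 t8 (col2 t0 t1 t2 t3 t4 t5 t6 t7 t8 e) 6 := by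
  simp only [col2, col5, smul_eq_mul]
  try ring

theorem comm26_0 (t0 t1 t2 t3 t4 t5 t6 t7 t8 : A) (e : Fin 14 → A) :
    col2 t0 t1 t2 t3 t4 t5 t6 t7 t8 (col6 t0 t1 t2 t3 t4 t5 t6 t7 t8 e) 0 = col6 t0 t1 t2 t3 t4 t5 t6 t7 t8 (col2 t0 t1 t2 t3 t4 t5 t6 t7 t8 e) 0 := by
  simp only [col2, col6, smul_eq_mul]
  try ring

theorem comm26_1 (t0 t1 t2 t3 t4 t5 t6 t7 t8 : A) (e : Fin 14 → A) :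
    col2 t0 t1 t2 t3 t4 t5 t6 t7 t8 (col6 t0 t1 t2 t3 t4 t5 t6 t7 t8 e) 1 = col6 t0 t1 t2 t3 t4 t5 t6 t7 t8 (col2 t0 t1 t2 t3 t4 t5 t6 t7 t8 e) 1 := by
  simp only [col2, col6, smul_eq_mul]
  try ring

theorem comm26_2 (t0 t1 t2 t3 t4 t5 t6 t7 t8 : A) (e : Fin 14 → A) :
    col2 t0 t1 t2 t3 t4 t5 t6 t7 t8 (col6 t0 t1 t2 t3 t4 t5 t6 t7 t8 e) 2 = col6 t0 t1 t2 t3 t4 t5 t6 t7 t8 (col2 t0 t1 t2 t3 t4 t5 t6 t7 t8 e) 2 := by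
  simp only [col2, col6, smul_eq_mul]
  try ring

theorem comm26_3 (t0 t1 t2 t3 t4 t5 t6 t7 t8 : A) (e : Fin 14 → A) :
    col2 t0 t1 t2 t3 t4 t5 t6 t7 t8 (col6 t0 t1 t2 t3 t4 t5 t6 t7 t8 e) 3 = col6 t0 t1 t2 t3 t4 t5 t6 t7 t8 (col2 t0 t1 t2 t3 t4 t5 t6 t7 t8 e) 3 := by
  simp only [col2, col6, smul_eq_mul]
  try ring

theorem comm26_4 (t0 t1 t2 t3 t4 t5 t6 t7 t8 : A) (e : Fin 14 → A) :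
    col2 t0 t1 t2 t3 t4 t5 t6 t7 t8 (col6 t0 t1 t2 t3 t4 t5 t6 t7 t8 e) 4 = col6 t0 t1 t2 t3 t4 t5 t6 t7 t8 (col2 t0 t1 t2 t3 t4 t5 t6 t7 t8 e) 4 := by
  simp only [col2, col6, smul_eq_mul]
  try ring

theorem comm26_5 (t0 t1 t2 t3 t4 t5 t6 t7 t8 : A) (e : Fin 14 → A) :
    col2 t0 t1 t2 t3 t4 t5 t6 t7 t8 (col6 t0 t1 t2 t3 t4 t5 t6 t7 t8 e) 5 = col6 t0 t1 t2 t3 t4 t5 t6 t7 t8 (col2 t0 t1 t2 t3 t4 t5 t6 t7 t8 e) 5 := by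
  simp only [col2, col6, smul_eq_mul]
  try ring

theorem comm26_6 (t0 t1 t2 t3 t4 t5 t6 t7 t8 : A) (e : Fin 14 → A) :
    col2 t0 t1 t2 t3 t4 t5 t6 t7 t8 (col6 t0 t1 t2 t3 t4 t5 t6 t7 t8 e) 6 = col6 t0 t1 t2 t3 t4 t5 t6 t7 t8 (col2 t0 t1 t2 t3 t4 t5 t6 t7 t8 e) 6 := by
  simp only [col2, col6, smul_eq_mul]
  try ring

theorem comm35_0 (t0 t1 t2 t3 t4 t5 t6 t7 t8 : A) (e : Fin 14 → A) :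
    col3 t0 t1 t2 t3 t4 t5 t6 t7 t8 (col5 t0 t1 t2 t3 t4 t5 t6 t7 t8 e) 0 = col5 t0 t1 t2 t3 t4 t5 t6 t7 t8 (col3 t0 t1 t2 t3 t4 t5 t6 t7 t8 e) 0 := by
  simp only [col3, col5, smul_eq_mul]
  try ring

theorem comm35_1 (t0 t1 t2 t3 t4 t5 t6 t7 t8 : A) (e : Fin 14 → A) :
    col3 t0 t1 t2 t3 t4 t5 t6 t7 t8 (col5 t0 t1 t2 t3 t4 t5 t6 t7 t8 e) 1 = col5 t0 t1 t2 t3 t4 t5 t6 t7 t8 (col3 t0 t1 t2 t3 t4 t5 t6 t7 t8 e) 1 := by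
  simp only [col3, col5, smul_eq_mul]
  try ring

theorem comm35_2 (t0 t1 t2 t3 t4 t5 t6 t7 t8 : A) (e : Fin 14 → A) :
    col3 t0 t1 t2 t3 t4 t5 t6 t7 t8 (col5 t0 t1 t2 t3 t4 t5 t6 t7 t8 e) 2 = col5 t0 t1 t2 t3 t4 t5 t6 t7 t8 (col3 t0 t1 t2 t3 t4 t5 t6 t7 t8 e) 2 := by
  simp only [col3, col5, smul_eq_mul]
  try ring

theorem comm35_3 (t0 t1 t2 t3 t4 t5 t6 t7 t8 : A) (e : Fin 14 → A) :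
    col3 t0 t1 t2 t3 t4 t5 t6 t7 t8 (col5 t0 t1 t2 t3 t4 t5 t6 t7 t8 e) 3 = col5 t0 t1 t2 t3 t4 t5 t6 t7 t8 (col3 t0 t1 t2 t3 t4 t5 t6 t7 t8 e) 3 := by
  simp only [col3, col5, smul_eq_mul]
  try ring

theorem comm35_4 (t0 t1 t2 t3 t4 t5 t6 t7 t8 : A) (e : Fin 14 → A) :
    col3 t0 t1 t2 t3 t4 t5 t6 t7 t8 (col5 t0 t1 t2 t3 t4 t5 t6 t7 t8 e) 4 = col5 t0 t1 t2 t3 t4 t5 t6 t7 t8 (col3 t0 t1 t2 t3 t4 t5 t6 t7 t8 e) 4 := by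
  simp only [col3, col5, smul_eq_mul]
  try ring

theorem comm35_5 (t0 t1 t2 t3 t4 t5 t6 t7 t8 : A) (e : Fin 14 → A) :
    col3 t0 t1 t2 t3 t4 t5 t6 t7 t8 (col5 t0 t1 t2 t3 t4 t5 t6 t7 t8 e) 5 = col5 t0 t1 t2 t3 t4 t5 t6 t7 t8 (col3 t0 t1 t2 t3 t4 t5 t6 t7 t8 e) 5 := by
  simp only [col3, col5, smul_eq_mul]
  try ring

theorem comm35_6 (t0 t1 t2 t3 t4 t5 t6 t7 t8 : A) (e : Fin 14 → A) :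
    col3 t0 t1 t2 t3 t4 t5 t6 t7 t8 (col5 t0 t1 t2 t3 t4 t5 t6 t7 t8 e) 6 = col5 t0 t1 t2 t3 t4 t5 t6 t7 t8 (col3 t0 t1 t2 t3 t4 t5 t6 t7 t8 e) 6 := by
  simp only [col3, col5, smul_eq_mul]
  try ring

theorem comm36_0 (t0 t1 t2 t3 t4 t5 t6 t7 t8 : A) (e : Fin 14 → A) :
    col3 t0 t1 t2 t3 t4 t5 t6 t7 t8 (col6 t0 t1 t2 t3 t4 t5 t6 t7 t8 e) 0 = col6 t0 t1 t2 t3 t4 t5 t6 t7 t8 (col3 t0 t1 t2 t3 t4 t5 t6 t7 t8 e) 0 := by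
  simp only [col3, col6, smul_eq_mul]
  try ring

theorem comm36_1 (t0 t1 t2 t3 t4 t5 t6 t7 t8 : A) (e : Fin 14 → A) :
    col3 t0 t1 t2 t3 t4 t5 t6 t7 t8 (col6 t0 t1 t2 t3 t4 t5 t6 t7 t8 e) 1 = col6 t0 t1 t2 t3 t4 t5 t6 t7 t8 (col3 t0 t1 t2 t3 t4 t5 t6 t7 t8 e) 1 := by
  simp only [col3, col6, smul_eq_mul]
  try ring

theorem comm36_2 (t0 t1 t2 t3 t4 t5 t6 t7 t8 : A) (e : Fin 14 → A) :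
    col3 t0 t1 t2 t3 t4 t5 t6 t7 t8 (col6 t0 t1 t2 t3 t4 t5 t6 t7 t8 e) 2 = col6 t0 t1 t2 t3 t4 t5 t6 t7 t8 (col3 t0 t1 t2 t3 t4 t5 t6 t7 t8 e) 2 := by
  simp only [col3, col6, smul_eq_mul]
  try ring

theorem comm36_3 (t0 t1 t2 t3 t4 t5 t6 t7 t8 : A) (e : Fin 14 → A) :
    col3 t0 t1 t2 t3 t4 t5 t6 t7 t8 (col6 t0 t1 t2 t3 t4 t5 t6 t7 t8 e) 3 = col6 t0 t1 t2 t3 t4 t5 t6 t7 t8 (col3 t0 t1 t2 t3 t4 t5 t6 t7 t8 e) 3 := by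
  simp only [col3, col6, smul_eq_mul]
  try ring

theorem comm36_4 (t0 t1 t2 t3 t4 t5 t6 t7 t8 : A) (e : Fin 14 → A) :
    col3 t0 t1 t2 t3 t4 t5 t6 t7 t8 (col6 t0 t1 t2 t3 t4 t5 t6 t7 t8 e) 4 = col6 t0 t1 t2 t3 t4 t5 t6 t7 t8 (col3 t0 t1 t2 t3 t4 t5 t6 t7 t8 e) 4 := by
  simp only [col3, col6, smul_eq_mul]
  try ring

theorem comm36_5 (t0 t1 t2 t3 t4 t5 t6 t7 t8 : A) (e : Fin 14 → A) :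
    col3 t0 t1 t2 t3 t4 t5 t6 t7 t8 (col6 t0 t1 t2 t3 t4 t5 t6 t7 t8 e) 5 = col6 t0 t1 t2 t3 t4 t5 t6 t7 t8 (col3 t0 t1 t2 t3 t4 t5 t6 t7 t8 e) 5 := by
  simp only [col3, col6, smul_eq_mul]
  try ring

theorem comm36_6 (t0 t1 t2 t3 t4 t5 t6 t7 t8 : A) (e : Fin 14 → A) :
    col3 t0 t1 t2 t3 t4 t5 t6 t7 t8 (col6 t0 t1 t2 t3 t4 t5 t6 t7 t8 e) 6 = col6 t0 t1 t2 t3 t4 t5 t6 t7 t8 (col3 t0 t1 t2 t3 t4 t5 t6 t7 t8 e) 6 := by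
  simp only [col3, col6, smul_eq_mul]
  try ring

theorem comm56_0 (t0 t1 t2 t3 t4 t5 t6 t7 t8 : A) (e : Fin 14 → A) :
    col5 t0 t1 t2 t3 t4 t5 t6 t7 t8 (col6 t0 t1 t2 t3 t4 t5 t6 t7 t8 e) 0 = col6 t0 t1 t2 t3 t4 t5 t6 t7 t8 (col5 t0 t1 t2 t3 t4 t5 t6 t7 t8 e) 0 := by
  simp only [col5, col6, smul_eq_mul]
  try ring

theorem comm56_1 (t0 t1 t2 t3 t4 t5 t6 t7 t8 : A) (e : Fin 14 → A) :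
    col5 t0 t1 t2 t3 t4 t5 t6 t7 t8 (col6 t0 t1 t2 t3 t4 t5 t6 t7 t8 e) 1 = col6 t0 t1 t2 t3 t4 t5 t6 t7 t8 (col5 t0 t1 t2 t3 t4 t5 t6 t7 t8 e) 1 := by
  simp only [col5, col6, smul_eq_mul]
  try ring

theorem comm56_2 (t0 t1 t2 t3 t4 t5 t6 t7 t8 : A) (e : Fin 14 → A) :
    col5 t0 t1 t2 t3 t4 t5 t6 t7 t8 (col6 t0 t1 t2 t3 t4 t5 t6 t7 t8 e) 2 = col6 t0 t1 t2 t3 t4 t5 t6 t7 t8 (col5 t0 t1 t2 t3 t4 t5 t6 t7 t8 e) 2 := by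
  simp only [col5, col6, smul_eq_mul]
  try ring

theorem comm56_3 (t0 t1 t2 t3 t4 t5 t6 t7 t8 : A) (e : Fin 14 → A) :
    col5 t0 t1 t2 t3 t4 t5 t6 t7 t8 (col6 t0 t1 t2 t3 t4 t5 t6 t7 t8 e) 3 = col6 t0 t1 t2 t3 t4 t5 t6 t7 t8 (col5 t0 t1 t2 t3 t4 t5 t6 t7 t8 e) 3 := by
  simp only [col5, col6, smul_eq_mul]
  try ring

theorem comm56_4 (t0 t1 t2 t3 t4 t5 t6 t7 t8 : A) (e : Fin 14 → A) :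
    col5 t0 t1 t2 t3 t4 t5 t6 t7 t8 (col6 t0 t1 t2 t3 t4 t5 t6 t7 t8 e) 4 = col6 t0 t1 t2 t3 t4 t5 t6 t7 t8 (col5 t0 t1 t2 t3 t4 t5 t6 t7 t8 e) 4 := by
  simp only [col5, col6, smul_eq_mul]
  try ring

theorem comm56_5 (t0 t1 t2 t3 t4 t5 t6 t7 t8 : A) (e : Fin 14 → A) :
    col5 t0 t1 t2 t3 t4 t5 t6 t7 t8 (col6 t0 t1 t2 t3 t4 t5 t6 t7 t8 e) 5 = col6 t0 t1 t2 t3 t4 t5 t6 t7 t8 (col5 t0 t1 t2 t3 t4 t5 t6 t7 t8 e) 5 := by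
  simp only [col5, col6, smul_eq_mul]
  try ring

theorem comm56_6 (t0 t1 t2 t3 t4 t5 t6 t7 t8 : A) (e : Fin 14 → A) :
    col5 t0 t1 t2 t3 t4 t5 t6 t7 t8 (col6 t0 t1 t2 t3 t4 t5 t6 t7 t8 e) 6 = col6 t0 t1 t2 t3 t4 t5 t6 t7 t8 (col5 t0 t1 t2 t3 t4 t5 t6 t7 t8 e) 6 := by
  simp only [col5, col6, smul_eq_mul]
  try ring

end Pool.Agent.J4.H15
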