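import Mathlib.Tactic.Ring
import Mathlib.Tactic.LinearCombination

/-!
# The relations of the Plücker algebra of `G(2, 6)` over a system of parameters

The coordinates are `p12 = t0`, `p13 = t1`, `p23 = y1`, `p14 = t2 - y1`, `p24 = y2`, `p15 = t3 - y2`,
`p25 = y3`, `p34 = y4`, `p16 = t4 - y3 - y4`, `p35 = y5`, `p26 = t5 - y5`, `p45 = y6`, `p36 = t6 - y6`,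
`p46 = t7`, `p56 = t8`. The fifteen Plücker relations are equivalent to the relations below
for the products of the `y i`, and imply that the span of the fourteen elements
`1`, `y i`, `y4 y i`, `y4 ^ 3` is closed under multiplication.
-/

set_option autoImplicit false
set_option linter.unusedVariables false

namespace Pool.Agent.J4.H15

variable {R : Type*} [CommRing R]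

/-- the relations for the products of the `y i` -/
structure Rel (t0 t1 t2 t3 t4 t5 t6 t7 t8 y1 y2 y3 y4 y5 y6 : R) : Prop where
  r11 : y1 * y1 = t0*y4 - t1*y2 + t2*y1
  r12 : y1 * y2 = t0*y5 - t1*y3 + t3*y1
  r13 : y1 * y3 = t0*t6 - t0*y6 - t1*t5 + t1*y5 + t4*y1 - y1*y4
  r15 : y1 * y5 = -t1*y6 + t2*y5 - t3*y4 + y2*y4
  r16 : y1 * y6 = t1*t7 - t2*t6 + t2*y6 + t4*y4 + t6*y1 - y3*y4 - y4^2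
  r22 : y2 * y2 = t0*t6 - t1*t5 + t1*y5 - t2*y3 + t3*y2 + t4*y1 - y1*y4
  r23 : y2 * y3 = t0*t7 + t1*y6 - t2*t5 + t3*y4 + t4*y2 + t5*y1 - 2*y2*y4
  r25 : y2 * y5 = t1*t7 - t2*t6 + t2*y6 + t4*y4 + t6*y1 - y4^2
  r26 : y2 * y6 = -t5*y4 + t6*y2 - t7*y1 + y4*y5
  r33 : y3 * y3 = t0*t8 - t1*t7 + t2*t6 - t2*y6 - t3*t5 + t3*y5 + t4*y3 - t4*y4 + t5*y2 - t6*y1 - y3*y4 + y4^2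
  r35 : y3 * y5 = t1*t8 - t3*t6 + t3*y6 + t4*y5 + t5*y4 + t7*y1 - 2*y4*y5
  r36 : y3 * y6 = t2*t8 - t3*t7 + t4*y6 + t7*y2 - t8*y1 - y4*y6
  r55 : y5 * y5 = t2*t8 - t3*t7 + t4*y6 + t5*y5 - t6*y3 + t7*y2 - y4*y6
  r56 : y5 * y6 = t5*y6 - t7*y3 + t8*y2
  r66 : y6 * y6 = t6*y6 - t7*y5 + t8*y4

variable {t0 t1 t2 t3 t4 t5 t6 t7 t8 y1 y2 y3 y4 y5 y6 : R}

theorem Rel.q41 (h : Rel t0 t1 t2 t3 t4 t5 t6 t7 t8 y1 y2 y3 y4 y5 y6) :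
    y4 * (y4 * y1) = ( - t0*t2*t8 + t0*t3*t7 + t1^2*t8 + t1*t2*t7 - t1*t3*t6 - t2^2*t6) + (2*t1*t7 + t2*t6)*y1 + ( - t0*t7 - t1*t6)*y2 + (t0*t6)*y3 + (t0*t6 + t1*t5 + t2*t4 + t3^2)*y4 + ( - t0*t5 + t1*t4 - t2*t3)*y5 + ( - t0*t4 + 2*t1*t3 + t2^2)*y6 + (t4)*(y4*y1) + ( - t3)*(y4*y2) + ( - t2)*(y4*y3) + ( - t2)*(y4*y4) + ( - 2*t1)*(y4*y5) + (t0)*(y4*y6) := by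
  linear_combination (t6 - y6) * h.r11 + (-t5) * h.r12 + (t4 - 2*y4) * h.r13 + (y1) * h.r16 + (-t4 + y3 + 2*y4) * h.r22 + (t3 - y2) * h.r23 + (-t2) * h.r33 + (t1) * h.r35

theorem Rel.q42 (h : Rel t0 t1 t2 t3 t4 t5 t6 t7 t8 y1 y2 y3 y4 y5 y6) :
    y4 * (y4 * y2) = ( - t1*t2*t8 + 2*t1*t3*t7 - t2*t3*t6) + (t1*t8 + t2*t7)*y1 + (t0*t8 - 2*t1*t7)*y2 + ( - t0*t7 + t1*t6)*y3 + (t0*t7 + t3*t4)*y4 + ( - t0*t6)*y5 + (t0*t5 - t1*t4 + t2*t3)*y6 + (t5)*(y4*y1) + ( - t3)*(y4*y3) + ( - t2)*(y4*y5) + (2*t1)*(y4*y6) := by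
  linear_combination (t7) * h.r11 + (-t6) * h.r12 + (-t5) * h.r13 + (t4 - y3 - 2*y4) * h.r15 + (t3) * h.r16 + (t5) * h.r22 + (-y3) * h.r23 + (t3) * h.r25 + (-t2) * h.r26 + (y2) * h.r33 + (-t2 + y1) * h.r35

theorem Rel.q43 (h : Rel t0 t1 t2 t3 t4 t5 t6 t7 t8 y1 y2 y3 y4 y5 y6) :
    y4 * (y4 * y3) = (t0*t6^2 - t1*t4*t7 - t1*t5*t6 + t2^2*t8 - t2*t3*t7 + t2*t4*t6) + ( - t2*t8)*y1 + ( - t1*t8 + t2*t7)*y2 + (2*t1*t7 - t2*t6)*y3 + (2*t1*t7 - 2*t2*t6 + t3*t5 - t4^2)*y4 + ( - t0*t7 + t1*t6)*y5 + ( - t0*t6)*y6 + (t6)*(y4*y1) + ( - t5)*(y4*y2) + (t4)*(y4*y3) + (3*t4)*(y4*y4) + ( - t3)*(y4*y5) + (t2)*(y4*y6) + ( - 2)*(y4*(y4*y4)) := by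
  linear_combination (-t7) * h.r12 + (t6) * h.r13 + (-t4 + y3 + 2*y4) * h.r25 + (-t3) * h.r26 + (-y2) * h.r35 + (t2) * h.r36

theorem Rel.q45 (h : Rel t0 t1 t2 t3 t4 t5 t6 t7 t8 y1 y2 y3 y4 y5 y6) :
    y4 * (y4 * y5) = ( - t0*t6*t7 + 2*t1*t5*t7 - t2*t5*t6) + (t3*t8 - t4*t7 + t5*t6)*y1 + ( - t2*t8)*y2 + ( - t1*t8 + t2*t7)*y3 + (t1*t8 + t4*t5)*y4 + (t0*t8 - 2*t1*t7)*y5 + (t0*t7 + t1*t6)*y6 + (2*t7)*(y4*y1) + ( - t6)*(y4*y2) + ( - t5)*(y4*y3) + (t3)*(y4*y6) := by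
  linear_combination (t8) * h.r12 + (-t6 + y6) * h.r15 + (t5 - y5) * h.r16 + (-t7) * h.r22 + (y6) * h.r23 + (y4) * h.r35 + (-y2) * h.r36

theorem Rel.q46 (h : Rel t0 t1 t2 t3 t4 t5 t6 t7 t8 y1 y2 y3 y4 y5 y6) :
    y4 * (y4 * y6) = ( - t0*t6*t8 + t0*t7^2 + t1*t5*t8 + t1*t6*t7 - t2*t5*t7 - t2*t6^2) + ( - t4*t8 + 2*t5*t7 + t6^2)*y1 + ( - t3*t8 + t4*t7 - t5*t6)*y2 + (t2*t8)*y3 + (t2*t8 + t3*t7 + t4*t6 + t5^2)*y4 + ( - t1*t8 - t2*t7)*y5 + (2*t1*t7 + t2*t6)*y6 + (t8)*(y4*y1) + ( - 2*t7)*(y4*y2) + ( - t6)*(y4*y3) + ( - t6)*(y4*y4) + ( - t5)*(y4*y5) + (t4)*(y4*y6) := by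
  linear_combination (-2*t8) * h.r13 + (-t7) * h.r15 + (t7) * h.r23 + (2*t6 - 2*y6) * h.r25 + (-2*t5 + 2*y5) * h.r26 + (t6 - 2*y6) * h.r33 + (-t5 + y5) * h.r35 + (-t4 + 2*y3 + y4) * h.r36 + (t4 - y3) * h.r55 + (-t3) * h.r56

theorem Rel.q11 (h : Rel t0 t1 t2 t3 t4 t5 t6 t7 t8 y1 y2 y3 y4 y5 y6) :
    y1 * (y4 * y1) = (t2)*(y4*y1) + ( - t1)*(y4*y2) + (t0)*(y4*y4) := by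
  linear_combination y4 * h.r11

theorem Rel.q12 (h : Rel t0 t1 t2 t3 t4 t5 t6 t7 t8 y1 y2 y3 y4 y5 y6) :
    y1 * (y4 * y2) = (t3)*(y4*y1) + ( - t1)*(y4*y3) + (t0)*(y4*y5) := by
  linear_combination y4 * h.r12

theorem Rel.q13 (h : Rel t0 t1 t2 t3 t4 t5 t6 t7 t8 y1 y2 y3 y4 y5 y6) :
    y1 * (y4 * y3) = (t0*t2*t8 - t0*t3*t7 - t1^2*t8 - t1*t2*t7 + t1*t3*t6 + t2^2*t6) + ( - 2*t1*t7 - t2*t6)*y1 + (t0*t7 + t1*t6)*y2 + ( - t0*t6)*y3 + ( - 2*t1*t5 - t2*t4 - t3^2)*y4 + (t0*t5 - t1*t4 + t2*t3)*y5 + (t0*t4 - 2*t1*t3 - t2^2)*y6 + (t3)*(y4*y2) + (t2)*(y4*y3) + (t2)*(y4*y4) + (3*t1)*(y4*y5) + ( - 2*t0)*(y4*y6) := by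
  linear_combination y4 * h.r13 + (-1) * h.q41

theorem Rel.q14 (h : Rel t0 t1 t2 t3 t4 t5 t6 t7 t8 y1 y2 y3 y4 y5 y6) :
    y1 * (y4 * y4) = ( - t0*t2*t8 + t0*t3*t7 + t1^2*t8 + t1*t2*t7 - t1*t3*t6 - t2^2*t6) + (2*t1*t7 + t2*t6)*y1 + ( - t0*t7 - t1*t6)*y2 + (t0*t6)*y3 + (t0*t6 + t1*t5 + t2*t4 + t3^2)*y4 + ( - t0*t5 + t1*t4 - t2*t3)*y5 + ( - t0*t4 + 2*t1*t3 + t2^2)*y6 + (t4)*(y4*y1) + ( - t3)*(y4*y2) + ( - t2)*(y4*y3) + ( - t2)*(y4*y4) + ( - 2*t1)*(y4*y5) + (t0)*(y4*y6) := by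
  linear_combination h.q41

theorem Rel.q15 (h : Rel t0 t1 t2 t3 t4 t5 t6 t7 t8 y1 y2 y3 y4 y5 y6) :
    y1 * (y4 * y5) = ( - t1*t2*t8 + 2*t1*t3*t7 - t2*t3*t6) + (t1*t8 + t2*t7)*y1 + (t0*t8 - 2*t1*t7)*y2 + ( - t0*t7 + t1*t6)*y3 + (t0*t7 + t3*t4)*y4 + ( - t0*t6)*y5 + (t0*t5 - t1*t4 + t2*t3)*y6 + (t5)*(y4*y1) + ( - t3)*(y4*y3) + ( - t3)*(y4*y4) + (t1)*(y4*y6) := by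
  linear_combination y4 * h.r15 + (1) * h.q42

theorem Rel.q16 (h : Rel t0 t1 t2 t3 t4 t5 t6 t7 t8 y1 y2 y3 y4 y5 y6) :
    y1 * (y4 * y6) = ( - t0*t6^2 + t1*t4*t7 + t1*t5*t6 - t2^2*t8 + t2*t3*t7 - t2*t4*t6) + (t2*t8)*y1 + (t1*t8 - t2*t7)*y2 + ( - 2*t1*t7 + t2*t6)*y3 + ( - t1*t7 + t2*t6 - t3*t5 + t4^2)*y4 + (t0*t7 - t1*t6)*y5 + (t0*t6)*y6 + (t5)*(y4*y2) + ( - t4)*(y4*y3) + ( - 2*t4)*(y4*y4) + (t3)*(y4*y5) + (y4*(y4*y4)) := by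
  linear_combination y4 * h.r16 + (-1) * h.q43

theorem Rel.q21 (h : Rel t0 t1 t2 t3 t4 t5 t6 t7 t8 y1 y2 y3 y4 y5 y6) :
    y2 * (y4 * y1) = (t3)*(y4*y1) + ( - t1)*(y4*y3) + (t0)*(y4*y5) := by
  linear_combination y4 * h.r12

theorem Rel.q22 (h : Rel t0 t1 t2 t3 t4 t5 t6 t7 t8 y1 y2 y3 y4 y5 y6) :
    y2 * (y4 * y2) = (t0*t2*t8 - t0*t3*t7 - t1^2*t8 - t1*t2*t7 + t1*t3*t6 + t2^2*t6) + ( - 2*t1*t7 - t2*t6)*y1 + (t0*t7 + t1*t6)*y2 + ( - t0*t6)*y3 + ( - 2*t1*t5 - t2*t4 - t3^2)*y4 + (t0*t5 - t1*t4 + t2*t3)*y5 + (t0*t4 - 2*t1*t3 - t2^2)*y6 + (2*t3)*(y4*y2) + (t2)*(y4*y4) + (3*t1)*(y4*y5) + ( - t0)*(y4*y6) := by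
  linear_combination y4 * h.r22 + (-1) * h.q41

theorem Rel.q23 (h : Rel t0 t1 t2 t3 t4 t5 t6 t7 t8 y1 y2 y3 y4 y5 y6) :
    y2 * (y4 * y3) = (2*t1*t2*t8 - 4*t1*t3*t7 + 2*t2*t3*t6) + ( - 2*t1*t8 - 2*t2*t7)*y1 + ( - 2*t0*t8 + 4*t1*t7)*y2 + (2*t0*t7 - 2*t1*t6)*y3 + ( - t0*t7 - t2*t5 - 2*t3*t4)*y4 + (2*t0*t6)*y5 + ( - 2*t0*t5 + 2*t1*t4 - 2*t2*t3)*y6 + ( - t5)*(y4*y1) + (t4)*(y4*y2) + (2*t3)*(y4*y3) + (t3)*(y4*y4) + (2*t2)*(y4*y5) + ( - 3*t1)*(y4*y6) := by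
  linear_combination y4 * h.r23 + (-2) * h.q42

theorem Rel.q24 (h : Rel t0 t1 t2 t3 t4 t5 t6 t7 t8 y1 y2 y3 y4 y5 y6) :
    y2 * (y4 * y4) = ( - t1*t2*t8 + 2*t1*t3*t7 - t2*t3*t6) + (t1*t8 + t2*t7)*y1 + (t0*t8 - 2*t1*t7)*y2 + ( - t0*t7 + t1*t6)*y3 + (t0*t7 + t3*t4)*y4 + ( - t0*t6)*y5 + (t0*t5 - t1*t4 + t2*t3)*y6 + (t5)*(y4*y1) + ( - t3)*(y4*y3) + ( - t2)*(y4*y5) + (2*t1)*(y4*y6) := by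
  linear_combination h.q42

theorem Rel.q25 (h : Rel t0 t1 t2 t3 t4 t5 t6 t7 t8 y1 y2 y3 y4 y5 y6) :
    y2 * (y4 * y5) = (t1*t7 - t2*t6)*y4 + (t6)*(y4*y1) + (t4)*(y4*y4) + (t2)*(y4*y6) + ( - 1)*(y4*(y4*y4)) := by
  linear_combination y4 * h.r25

theorem Rel.q26 (h : Rel t0 t1 t2 t3 t4 t5 t6 t7 t8 y1 y2 y3 y4 y5 y6) :
    y2 * (y4 * y6) = ( - t0*t6*t7 + 2*t1*t5*t7 - t2*t5*t6) + (t3*t8 - t4*t7 + t5*t6)*y1 + ( - t2*t8)*y2 + ( - t1*t8 + t2*t7)*y3 + (t1*t8 + t4*t5)*y4 + (t0*t8 - 2*t1*t7)*y5 + (t0*t7 + t1*t6)*y6 + (t7)*(y4*y1) + ( - t5)*(y4*y3) + ( - t5)*(y4*y4) + (t3)*(y4*y6) := by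
  linear_combination y4 * h.r26 + (1) * h.q45

theorem Rel.q31 (h : Rel t0 t1 t2 t3 t4 t5 t6 t7 t8 y1 y2 y3 y4 y5 y6) :
    y3 * (y4 * y1) = (t0*t2*t8 - t0*t3*t7 - t1^2*t8 - t1*t2*t7 + t1*t3*t6 + t2^2*t6) + ( - 2*t1*t7 - t2*t6)*y1 + (t0*t7 + t1*t6)*y2 + ( - t0*t6)*y3 + ( - 2*t1*t5 - t2*t4 - t3^2)*y4 + (t0*t5 - t1*t4 + t2*t3)*y5 + (t0*t4 - 2*t1*t3 - t2^2)*y6 + (t3)*(y4*y2) + (t2)*(y4*y3) + (t2)*(y4*y4) + (3*t1)*(y4*y5) + ( - 2*t0)*(y4*y6) := by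
  linear_combination y4 * h.r13 + (-1) * h.q41

theorem Rel.q32 (h : Rel t0 t1 t2 t3 t4 t5 t6 t7 t8 y1 y2 y3 y4 y5 y6) :
    y3 * (y4 * y2) = (2*t1*t2*t8 - 4*t1*t3*t7 + 2*t2*t3*t6) + ( - 2*t1*t8 - 2*t2*t7)*y1 + ( - 2*t0*t8 + 4*t1*t7)*y2 + (2*t0*t7 - 2*t1*t6)*y3 + ( - t0*t7 - t2*t5 - 2*t3*t4)*y4 + (2*t0*t6)*y5 + ( - 2*t0*t5 + 2*t1*t4 - 2*t2*t3)*y6 + ( - t5)*(y4*y1) + (t4)*(y4*y2) + (2*t3)*(y4*y3) + (t3)*(y4*y4) + (2*t2)*(y4*y5) + ( - 3*t1)*(y4*y6) := by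
  linear_combination y4 * h.r23 + (-2) * h.q42

theorem Rel.q33 (h : Rel t0 t1 t2 t3 t4 t5 t6 t7 t8 y1 y2 y3 y4 y5 y6) :
    y3 * (y4 * y3) = ( - t0*t6^2 + t1*t4*t7 + t1*t5*t6 - t2^2*t8 + t2*t3*t7 - t2*t4*t6) + (t2*t8)*y1 + (t1*t8 - t2*t7)*y2 + ( - 2*t1*t7 + t2*t6)*y3 + (t0*t8 - 3*t1*t7 + 3*t2*t6 - 2*t3*t5 + t4^2)*y4 + (t0*t7 - t1*t6)*y5 + (t0*t6)*y6 + ( - 2*t6)*(y4*y1) + (2*t5)*(y4*y2) + ( - 4*t4)*(y4*y4) + (2*t3)*(y4*y5) + ( - 2*t2)*(y4*y6) + (3)*(y4*(y4*y4)) := by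
  linear_combination y4 * h.r33 + (-1) * h.q43

theorem Rel.q34 (h : Rel t0 t1 t2 t3 t4 t5 t6 t7 t8 y1 y2 y3 y4 y5 y6) :
    y3 * (y4 * y4) = (t0*t6^2 - t1*t4*t7 - t1*t5*t6 + t2^2*t8 - t2*t3*t7 + t2*t4*t6) + ( - t2*t8)*y1 + ( - t1*t8 + t2*t7)*y2 + (2*t1*t7 - t2*t6)*y3 + (2*t1*t7 - 2*t2*t6 + t3*t5 - t4^2)*y4 + ( - t0*t7 + t1*t6)*y5 + ( - t0*t6)*y6 + (t6)*(y4*y1) + ( - t5)*(y4*y2) + (t4)*(y4*y3) + (3*t4)*(y4*y4) + ( - t3)*(y4*y5) + (t2)*(y4*y6) + ( - 2)*(y4*(y4*y4)) := by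
  linear_combination h.q43

theorem Rel.q35 (h : Rel t0 t1 t2 t3 t4 t5 t6 t7 t8 y1 y2 y3 y4 y5 y6) :
    y3 * (y4 * y5) = (2*t0*t6*t7 - 4*t1*t5*t7 + 2*t2*t5*t6) + ( - 2*t3*t8 + 2*t4*t7 - 2*t5*t6)*y1 + (2*t2*t8)*y2 + (2*t1*t8 - 2*t2*t7)*y3 + ( - t1*t8 - t3*t6 - 2*t4*t5)*y4 + ( - 2*t0*t8 + 4*t1*t7)*y5 + ( - 2*t0*t7 - 2*t1*t6)*y6 + ( - 3*t7)*(y4*y1) + (2*t6)*(y4*y2) + (2*t5)*(y4*y3) + (t5)*(y4*y4) + (t4)*(y4*y5) + ( - t3)*(y4*y6) := by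
  linear_combination y4 * h.r35 + (-2) * h.q45

theorem Rel.q36 (h : Rel t0 t1 t2 t3 t4 t5 t6 t7 t8 y1 y2 y3 y4 y5 y6) :
    y3 * (y4 * y6) = (t0*t6*t8 - t0*t7^2 - t1*t5*t8 - t1*t6*t7 + t2*t5*t7 + t2*t6^2) + (t4*t8 - 2*t5*t7 - t6^2)*y1 + (t3*t8 - t4*t7 + t5*t6)*y2 + ( - t2*t8)*y3 + ( - 2*t3*t7 - t4*t6 - t5^2)*y4 + (t1*t8 + t2*t7)*y5 + ( - 2*t1*t7 - t2*t6)*y6 + ( - 2*t8)*(y4*y1) + (3*t7)*(y4*y2) + (t6)*(y4*y3) + (t6)*(y4*y4) + (t5)*(y4*y5) := by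
  linear_combination y4 * h.r36 + (-1) * h.q46

theorem Rel.q51 (h : Rel t0 t1 t2 t3 t4 t5 t6 t7 t8 y1 y2 y3 y4 y5 y6) :
    y5 * (y4 * y1) = ( - t1*t2*t8 + 2*t1*t3*t7 - t2*t3*t6) + (t1*t8 + t2*t7)*y1 + (t0*t8 - 2*t1*t7)*y2 + ( - t0*t7 + t1*t6)*y3 + (t0*t7 + t3*t4)*y4 + ( - t0*t6)*y5 + (t0*t5 - t1*t4 + t2*t3)*y6 + (t5)*(y4*y1) + ( - t3)*(y4*y3) + ( - t3)*(y4*y4) + (t1)*(y4*y6) := by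
  linear_combination y4 * h.r15 + (1) * h.q42

theorem Rel.q52 (h : Rel t0 t1 t2 t3 t4 t5 t6 t7 t8 y1 y2 y3 y4 y5 y6) :
    y5 * (y4 * y2) = (t1*t7 - t2*t6)*y4 + (t6)*(y4*y1) + (t4)*(y4*y4) + (t2)*(y4*y6) + ( - 1)*(y4*(y4*y4)) := by
  linear_combination y4 * h.r25

theorem Rel.q53 (h : Rel t0 t1 t2 t3 t4 t5 t6 t7 t8 y1 y2 y3 y4 y5 y6) :
    y5 * (y4 * y3) = (2*t0*t6*t7 - 4*t1*t5*t7 + 2*t2*t5*t6) + ( - 2*t3*t8 + 2*t4*t7 - 2*t5*t6)*y1 + (2*t2*t8)*y2 + (2*t1*t8 - 2*t2*t7)*y3 + ( - t1*t8 - t3*t6 - 2*t4*t5)*y4 + ( - 2*t0*t8 + 4*t1*t7)*y5 + ( - 2*t0*t7 - 2*t1*t6)*y6 + ( - 3*t7)*(y4*y1) + (2*t6)*(y4*y2) + (2*t5)*(y4*y3) + (t5)*(y4*y4) + (t4)*(y4*y5) + ( - t3)*(y4*y6) := by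
  linear_combination y4 * h.r35 + (-2) * h.q45

theorem Rel.q54 (h : Rel t0 t1 t2 t3 t4 t5 t6 t7 t8 y1 y2 y3 y4 y5 y6) :
    y5 * (y4 * y4) = ( - t0*t6*t7 + 2*t1*t5*t7 - t2*t5*t6) + (t3*t8 - t4*t7 + t5*t6)*y1 + ( - t2*t8)*y2 + ( - t1*t8 + t2*t7)*y3 + (t1*t8 + t4*t5)*y4 + (t0*t8 - 2*t1*t7)*y5 + (t0*t7 + t1*t6)*y6 + (2*t7)*(y4*y1) + ( - t6)*(y4*y2) + ( - t5)*(y4*y3) + (t3)*(y4*y6) := by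
  linear_combination h.q45

theorem Rel.q55 (h : Rel t0 t1 t2 t3 t4 t5 t6 t7 t8 y1 y2 y3 y4 y5 y6) :
    y5 * (y4 * y5) = (t0*t6*t8 - t0*t7^2 - t1*t5*t8 - t1*t6*t7 + t2*t5*t7 + t2*t6^2) + (t4*t8 - 2*t5*t7 - t6^2)*y1 + (t3*t8 - t4*t7 + t5*t6)*y2 + ( - t2*t8)*y3 + ( - 2*t3*t7 - t4*t6 - t5^2)*y4 + (t1*t8 + t2*t7)*y5 + ( - 2*t1*t7 - t2*t6)*y6 + ( - t8)*(y4*y1) + (3*t7)*(y4*y2) + (t6)*(y4*y4) + (2*t5)*(y4*y5) := by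
  linear_combination y4 * h.r55 + (-1) * h.q46

theorem Rel.q56 (h : Rel t0 t1 t2 t3 t4 t5 t6 t7 t8 y1 y2 y3 y4 y5 y6) :
    y5 * (y4 * y6) = (t8)*(y4*y2) + ( - t7)*(y4*y3) + (t5)*(y4*y6) := by
  linear_combination y4 * h.r56

theorem Rel.q61 (h : Rel t0 t1 t2 t3 t4 t5 t6 t7 t8 y1 y2 y3 y4 y5 y6) :
    y6 * (y4 * y1) = ( - t0*t6^2 + t1*t4*t7 + t1*t5*t6 - t2^2*t8 + t2*t3*t7 - t2*t4*t6) + (t2*t8)*y1 + (t1*t8 - t2*t7)*y2 + ( - 2*t1*t7 + t2*t6)*y3 + ( - t1*t7 + t2*t6 - t3*t5 + t4^2)*y4 + (t0*t7 - t1*t6)*y5 + (t0*t6)*y6 + (t5)*(y4*y2) + ( - t4)*(y4*y3) + ( - 2*t4)*(y4*y4) + (t3)*(y4*y5) + (y4*(y4*y4)) := by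
  linear_combination y4 * h.r16 + (-1) * h.q43

theorem Rel.q62 (h : Rel t0 t1 t2 t3 t4 t5 t6 t7 t8 y1 y2 y3 y4 y5 y6) :
    y6 * (y4 * y2) = ( - t0*t6*t7 + 2*t1*t5*t7 - t2*t5*t6) + (t3*t8 - t4*t7 + t5*t6)*y1 + ( - t2*t8)*y2 + ( - t1*t8 + t2*t7)*y3 + (t1*t8 + t4*t5)*y4 + (t0*t8 - 2*t1*t7)*y5 + (t0*t7 + t1*t6)*y6 + (t7)*(y4*y1) + ( - t5)*(y4*y3) + ( - t5)*(y4*y4) + (t3)*(y4*y6) := by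
  linear_combination y4 * h.r26 + (1) * h.q45

theorem Rel.q63 (h : Rel t0 t1 t2 t3 t4 t5 t6 t7 t8 y1 y2 y3 y4 y5 y6) :
    y6 * (y4 * y3) = (t0*t6*t8 - t0*t7^2 - t1*t5*t8 - t1*t6*t7 + t2*t5*t7 + t2*t6^2) + (t4*t8 - 2*t5*t7 - t6^2)*y1 + (t3*t8 - t4*t7 + t5*t6)*y2 + ( - t2*t8)*y3 + ( - 2*t3*t7 - t4*t6 - t5^2)*y4 + (t1*t8 + t2*t7)*y5 + ( - 2*t1*t7 - t2*t6)*y6 + ( - 2*t8)*(y4*y1) + (3*t7)*(y4*y2) + (t6)*(y4*y3) + (t6)*(y4*y4) + (t5)*(y4*y5) := by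
  linear_combination y4 * h.r36 + (-1) * h.q46

theorem Rel.q64 (h : Rel t0 t1 t2 t3 t4 t5 t6 t7 t8 y1 y2 y3 y4 y5 y6) :
    y6 * (y4 * y4) = ( - t0*t6*t8 + t0*t7^2 + t1*t5*t8 + t1*t6*t7 - t2*t5*t7 - t2*t6^2) + ( - t4*t8 + 2*t5*t7 + t6^2)*y1 + ( - t3*t8 + t4*t7 - t5*t6)*y2 + (t2*t8)*y3 + (t2*t8 + t3*t7 + t4*t6 + t5^2)*y4 + ( - t1*t8 - t2*t7)*y5 + (2*t1*t7 + t2*t6)*y6 + (t8)*(y4*y1) + ( - 2*t7)*(y4*y2) + ( - t6)*(y4*y3) + ( - t6)*(y4*y4) + ( - t5)*(y4*y5) + (t4)*(y4*y6) := by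
  linear_combination h.q46

theorem Rel.q65 (h : Rel t0 t1 t2 t3 t4 t5 t6 t7 t8 y1 y2 y3 y4 y5 y6) :
    y6 * (y4 * y5) = (t8)*(y4*y2) + ( - t7)*(y4*y3) + (t5)*(y4*y6) := by
  linear_combination y4 * h.r56

theorem Rel.q66 (h : Rel t0 t1 t2 t3 t4 t5 t6 t7 t8 y1 y2 y3 y4 y5 y6) :
    y6 * (y4 * y6) = (t8)*(y4*y4) + ( - t7)*(y4*y5) + (t6)*(y4*y6) := by
  linear_combination y4 * h.r66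

theorem Rel.qc4 (h : Rel t0 t1 t2 t3 t4 t5 t6 t7 t8 y1 y2 y3 y4 y5 y6) :
    y4 * (y4 * (y4 * y4)) = (t0*t2*t6*t8 + t0*t3*t6*t7 + 2*t1^2*t7^2 + t1*t2*t5*t8 - t1*t2*t6*t7 - 6*t1*t3*t5*t7 - t2^2*t6^2 + 3*t2*t3*t5*t6) + ( - t0*t6*t8 + t0*t7^2 - t1*t5*t8 + 3*t1*t6*t7 - t2*t5*t7 + t2*t6^2 - 2*t3^2*t8 + 2*t3*t4*t7 - 2*t3*t5*t6)*y1 + ( - 2*t0*t5*t8 + t1*t4*t8 + 2*t1*t5*t7 - t1*t6^2 + t2*t3*t8)*y2 + (2*t0*t5*t7 + 2*t1*t3*t8 - t1*t4*t7 - t1*t5*t6 - t2*t3*t7)*y3 + ( - t0*t4*t8 + t0*t6^2 + 2*t1*t4*t7 + t2^2*t8 + t2*t4*t6 - 3*t3*t4*t5)*y4 + ( - 2*t0*t3*t8 + t0*t4*t7 + t0*t5*t6 + 2*t1*t3*t7 - t2^2*t7)*y5 + ( - t0*t2*t8 - t0*t3*t7 - 2*t0*t5^2 + t1^2*t8 + 3*t1*t2*t7 - t1*t3*t6 + 2*t1*t4*t5 + t2^2*t6 - 2*t2*t3*t5)*y6 + (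 - 3*t3*t7 + t4*t6 - t5^2)*(y4*y1) + ( - 3*t1*t8 + t3*t6)*(y4*y2) + (2*t1*t7 - 2*t2*t6 + 3*t3*t5)*(y4*y3) + (t0*t8 - t1*t7 - 2*t2*t6 + 2*t3*t5)*(y4*y4) + ( - 3*t0*t7 + t2*t5)*(y4*y5) + ( - 3*t1*t5 + t2*t4 - t3^2)*(y4*y6) + (t4)*(y4*(y4*y4)) := by
  linear_combination (y4) * h.q52 + (t6) * h.q41 + (t2) * h.q46 + (y5) * h.q42 * (-1) + (-( - t0*t6)) * h.r55 + (-( - t3)) * h.q53 + (-(t5)) * h.q51 + (-(t0*t5 - t1*t4 + t2*t3)) * h.r56 + (-(t0*t8 - 2*t1*t7)) * h.r25 + (-(2*t1)) * h.q56 + (-( - t0*t7 + t1*t6)) * h.r35 + (-( - t2)) * h.q55 + (-(t1*t8 + t2*t7)) * h.r15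

theorem Rel.qc1 (h : Rel t0 t1 t2 t3 t4 t5 t6 t7 t8 y1 y2 y3 y4 y5 y6) :
    y1 * (y4 * (y4 * y4)) = ( - t0^2*t6*t8 + t0^2*t7^2 + t0*t1*t5*t8 + 3*t0*t1*t6*t7 - t0*t2*t4*t8 - t0*t2*t5*t7 - 2*t0*t2*t6^2 + t0*t3*t4*t7 + t1^2*t4*t8 - 4*t1^2*t5*t7 + t1*t2*t3*t8 + 2*t1*t2*t4*t7 + 3*t1*t2*t5*t6 - 2*t1*t3^2*t7 - t1*t3*t4*t6 - t2^3*t8 + t2^2*t3*t7 - 2*t2^2*t4*t6 + t2*t3^2*t6) + ( - t0*t4*t8 + 2*t0*t5*t7 + t0*t6^2 - 3*t1*t3*t8 + 4*t1*t4*t7 - 2*t1*t5*t6 + t2^2*t8 - t2*t3*t7 + t2*t4*t6)*y1 + ( - 2*t0*t3*t8 - t0*t5*t6 + 3*t1*t2*t8 + 2*t1*t3*t7 - t1*t4*t6 - t2^2*t7)*y2 + (t0*t2*t8 + t0*t3*t7 + t0*t4*t6 + 2*t1^2*t8 - 4*t1*t2*t7 - t1*t3*t6 + t2^2*t6)*y3 + (t0*t3*t7 + 2*t0*t4*t6 + t0*t5^2 - t1^2*t8 - t1*t2*t7 - t1*t3*t6 -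 t1*t4*t5 + t2^2*t6 - t2*t3*t5 + 2*t2*t4^2)*y4 + ( - 3*t0*t1*t8 + t0*t3*t6 - t0*t4*t5 + 4*t1^2*t7 - t1*t2*t6 + t1*t4^2 - t2*t3*t4)*y5 + (2*t0*t2*t6 - t0*t3*t5 - t0*t4^2 - 2*t1^2*t6 + 3*t1*t3*t4 + t2^2*t4 - t2*t3^2)*y6 + (t0*t8 - 2*t1*t7 - t3*t5 + t4^2)*(y4*y1) + ( - 3*t0*t7 + t1*t6 + t2*t5 - t3*t4)*(y4*y2) + (2*t1*t5 - 2*t2*t4 + t3^2)*(y4*y3) + (t1*t5 - 3*t2*t4 + t3^2)*(y4*y4) + ( - 2*t0*t5 - t1*t4 + t2*t3)*(y4*y5) + (t0*t4 - 2*t1*t3)*(y4*y6) + (t2)*(y4*(y4*y4)) := by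
  linear_combination y4 * h.q41 + (t0) * h.q46 + ( - 2*t1) * h.q45 + ( - t2) * h.q43 + (t4) * h.q41 + ( - t3) * h.q42

theorem Rel.qc2 (h : Rel t0 t1 t2 t3 t4 t5 t6 t7 t8 y1 y2 y3 y4 y5 y6) :
    y2 * (y4 * (y4 * y4)) = ( - 2*t0*t1*t6*t8 + 2*t0*t1*t7^2 - t0*t2*t5*t8 + t0*t2*t6*t7 + t0*t3*t5*t7 - t0*t3*t6^2 + 3*t1^2*t5*t8 + 2*t1^2*t6*t7 - 3*t1*t2*t5*t7 - 2*t1*t2*t6^2 + t1*t3*t4*t7 - t2^2*t3*t8 + t2*t3^2*t7 - t2*t3*t4*t6) + ( - 2*t1*t4*t8 + 6*t1*t5*t7 + 2*t1*t6^2 + t2*t4*t7)*y1 + ( - t0*t5*t7 - t1*t3*t8 + 2*t1*t4*t7 - 3*t1*t5*t6 + t2^2*t8 - t2*t3*t7)*y2 + (t0*t5*t6 + 3*t1*t2*t8 - 2*t1*t3*t7 - t2^2*t7 + t2*t3*t6)*y3 + (t0*t5*t6 + 2*t1*t3*t7 + 2*t1*t4*t6 + 3*t1*t5^2 + t2*t3*t6 + t3*t4^2)*y4 + ( - t0*t2*t8 + t0*t3*t7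 - t0*t5^2 - 2*t1^2*t8 - t1*t3*t6 + t1*t4*t5 - t2*t3*t5)*y5 + ( - t0*t2*t7 + t0*t3*t6 - t0*t4*t5 + 4*t1^2*t7 + t1*t2*t6 + 2*t1*t3*t5 + t2^2*t5)*y6 + (3*t1*t8 - t2*t7 - t3*t6 + t4*t5)*(y4*y1) + (t0*t8 - 6*t1*t7 + t2*t6)*(y4*y2) + ( - t0*t7 - t1*t6 - t3*t4)*(y4*y3) + (t0*t7 - 2*t1*t6 - t2*t5 - 2*t3*t4)*(y4*y4) + ( - t0*t6 - 4*t1*t5 + t3^2)*(y4*y5) + (2*t0*t5 + t1*t4 - t2*t3)*(y4*y6) + (2*t3)*(y4*(y4*y4)) := by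
  linear_combination y4 * h.q42 + ( - t3) * h.q43 + (t5) * h.q41 + (2*t1) * h.q46 + ( - t2) * h.q45

theorem Rel.qc3 (h : Rel t0 t1 t2 t3 t4 t5 t6 t7 t8 y1 y2 y3 y4 y5 y6) :
    y3 * (y4 * (y4 * y4)) = ( - 4*t0*t2*t6*t8 + t0*t2*t7^2 + t0*t4*t6^2 + t1^2*t6*t8 - 4*t1^2*t7^2 + 4*t1*t2*t6*t7 + 8*t1*t3*t5*t7 - t1*t3*t6^2 - t1*t4^2*t7 - t1*t4*t5*t6 + t2^2*t4*t8 - t2^2*t5*t7 - t2*t3*t4*t7 - 4*t2*t3*t5*t6 + t2*t4^2*t6) + (2*t0*t6*t8 - 2*t0*t7^2 + t1*t5*t8 - 4*t1*t6*t7 - 2*t2*t4*t8 + 3*t2*t5*t7 + 3*t3^2*t8 - 3*t3*t4*t7 + 3*t3*t5*t6)*y1 + (3*t0*t5*t8 - t0*t6*t7 - 3*t1*t4*t8 - 2*t1*t5*t7 + t1*t6^2 - 2*t2*t3*t8 + 2*t2*t4*t7 - t2*t5*t6)*y2 + ( - 3*t0*t5*t7 + t0*t6^2 - 3*t1*t3*t8 + 4*t1*t4*t7 + t1*t5*t6 + t2^2*t8 + t2*t3*t7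 - t2*t4*t6)*y3 + (2*t0*t4*t8 - t0*t5*t7 - t1*t3*t8 - 3*t1*t4*t7 - t2*t4*t6 + t2*t5^2 + t3^2*t6 + 5*t3*t4*t5 - t4^3)*y4 + (3*t0*t3*t8 - 3*t0*t4*t7 - 2*t0*t5*t6 - t1*t2*t8 - 2*t1*t3*t7 + 2*t1*t4*t6 + t2^2*t7 - t2*t3*t6)*y5 + (2*t0*t2*t8 + t0*t3*t7 - 2*t0*t4*t6 + 3*t0*t5^2 - 2*t1^2*t8 - 4*t1*t2*t7 + 3*t1*t3*t6 - 3*t1*t4*t5 + 3*t2*t3*t5)*y6 + (4*t3*t7 + t5^2)*(y4*y1) + (5*t1*t8 - t2*t7 - 2*t3*t6 - t4*t5)*(y4*y2) + ( - 2*t1*t7 + t2*t6 - 4*t3*t5 + t4^2)*(y4*y3) + ( - 2*t0*t8 + 4*t1*t7 - 3*t3*t5 + 2*t4^2)*(y4*y4) + (5*t0*t7 - t1*t6 - 2*t2*t5 - t3*t4)*(y4*y5) + (4*t1*t5 + t3^2)*(y4*y6) + ( - t4)*(y4*(y4*y4)) := by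
  linear_combination y4 * h.q43 + ( - t5) * h.q42 + (t2) * h.q46 + (t6) * h.q41 + ( - 2) * h.qc4 + ( - t3) * h.q45 + (t4) * h.q43

theorem Rel.qc5 (h : Rel t0 t1 t2 t3 t4 t5 t6 t7 t8 y1 y2 y3 y4 y5 y6) :
    y5 * (y4 * (y4 * y4)) = ( - 2*t0*t2*t7*t8 - t0*t3*t6*t8 + 3*t0*t3*t7^2 - t0*t5*t6^2 + 2*t1^2*t7*t8 + t1*t2*t6*t8 + 2*t1*t2*t7^2 + t1*t3*t5*t8 - 3*t1*t3*t6*t7 + t1*t4*t5*t7 + t1*t5^2*t6 - t2^2*t5*t8 - 2*t2^2*t6*t7 - t2*t4*t5*t6) + ( - t1*t6*t8 + 4*t1*t7^2 + t2*t5*t8 + t2*t6*t7 - t3*t4*t8 + 2*t3*t5*t7 + t3*t6^2)*y1 + ( - t0*t6*t8 - 2*t0*t7^2 + t1*t5*t8 - t2*t5*t7 - t3^2*t8 + t3*t4*t7 - t3*t5*t6)*y2 + (3*t0*t6*t7 - 2*t1*t5*t7 - t1*t6^2 + t2*t3*t8 + t2*t5*t6)*y3 + (2*t1*t5*t7 + t2*t3*t8 + 2*t2*t4*t7 + t2*t5*t6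 + 3*t3^2*t7 + t4^2*t5)*y4 + ( - t0*t5*t7 + t0*t6^2 - t1*t3*t8 + 2*t1*t4*t7 - t1*t5*t6 - 3*t2*t3*t7)*y5 + ( - 2*t0*t4*t7 + 6*t1*t3*t7 + t1*t4*t6 + 2*t2^2*t7)*y6 + (2*t3*t8 + t4*t7 - t5*t6)*(y4*y1) + ( - t2*t8 - 4*t3*t7 + t5^2)*(y4*y2) + ( - t1*t8 - t2*t7 - t4*t5)*(y4*y3) + (t1*t8 - 2*t2*t7 - t3*t6 - 2*t4*t5)*(y4*y4) + (t0*t8 - 6*t1*t7 + t2*t6)*(y4*y5) + (3*t0*t7 - t1*t6 - t2*t5 + t3*t4)*(y4*y6) + (2*t5)*(y4*(y4*y4)) := by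
  linear_combination y4 * h.q45 + ( - t6) * h.q42 + ( - t5) * h.q43 + (2*t7) * h.q41 + (t3) * h.q46

theorem Rel.qc6 (h : Rel t0 t1 t2 t3 t4 t5 t6 t7 t8 y1 y2 y3 y4 y5 y6) :
    y6 * (y4 * (y4 * y4)) = ( - t0*t2*t8^2 + t0*t3*t7*t8 - t0*t4*t6*t8 + t0*t4*t7^2 + t0*t5*t6*t7 - t0*t6^3 + t1^2*t8^2 + 3*t1*t2*t7*t8 - t1*t3*t6*t8 - 4*t1*t3*t7^2 + t1*t4*t5*t8 + 2*t1*t4*t6*t7 - 2*t1*t5^2*t7 + t1*t5*t6^2 - 2*t2^2*t6*t8 + 3*t2*t3*t6*t7 - t2*t4*t5*t7 - 2*t2*t4*t6^2 + t2*t5^2*t6) + (2*t2*t6*t8 - 2*t2*t7^2 - t3*t5*t8 - t4^2*t8 + 3*t4*t5*t7 + t4*t6^2 - t5^2*t6)*y1 + ( - 3*t0*t7*t8 + 4*t1*t7^2 + t2*t5*t8 - t2*t6*t7 - t3*t4*t8 + t4^2*t7 - t4*t5*t6)*y2 + (t0*t6*t8 + 2*t0*t7^2 + t1*t5*t8 - 4*t1*t6*t7 + t2*t4*t8 - t2*t5*t7 + t2*t6^2)*y3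 + ( - t0*t7^2 + t1*t5*t8 - t1*t6*t7 + 2*t2*t4*t8 - t2*t5*t7 + t2*t6^2 + t3^2*t8 - t3*t4*t7 - t3*t5*t6 + 2*t4^2*t6)*y4 + ( - 2*t0*t5*t8 + 3*t0*t6*t7 + 2*t1*t5*t7 - t1*t6^2 - t2*t3*t8 - t2*t4*t7)*y5 + ( - t0*t4*t8 - 3*t0*t5*t7 + t0*t6^2 + 2*t1*t3*t8 + 4*t1*t4*t7 - t1*t5*t6 + t2^2*t8 - 2*t2*t3*t7 + t2*t4*t6)*y6 + (t4*t8 - 2*t5*t7)*(y4*y1) + ( - 2*t3*t8 - t4*t7 + t5*t6)*(y4*y2) + (2*t3*t7 - 2*t4*t6 + t5^2)*(y4*y3) + (t3*t7 - 3*t4*t6 + t5^2)*(y4*y4) + ( - 3*t1*t8 + t2*t7 + t3*t6 - t4*t5)*(y4*y5) + (t0*t8 - 2*t1*t7 - t3*t5 + t4^2)*(y4*y6) + (t6)*(y4*(y4*y4)) := by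
  linear_combination y4 * h.q46 + (t8) * h.q41 + ( - 2*t7) * h.q42 + ( - t6) * h.q43 + ( - t5) * h.q45 + (t4) * h.q46

end Pool.Agent.J4.H15
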