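import Pool.Agent.J4.H15.OpA
import Pool.Agent.J4.H15.OpB
import Pool.Agent.J4.H15.OpC
import Pool.Agent.J4.H15.OpD
import Pool.Agent.J4.H15.PRel
import Mathlib

/-!
# A model: the relations define an algebra with fourteen independent elements
-/

set_option autoImplicit false
set_option linter.unusedVariables false
set_option maxRecDepth 100000

universe u

namespace Pool.Agent.J4.H15

variable {A : Type u} [CommRing A]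

/-- the fourteen monomials -/
def mon {R : Type*} [CommRing R] (y1 y2 y3 y4 y5 y6 : R) : Fin 14 → R :=
  ![1, y1, y2, y3, y4, y5, y6, y4 * y1, y4 * y2, y4 * y3, y4 * y4, y4 * y5, y4 * y6,
    y4 * (y4 * y4)]

/-- the standard basis -/
def bb (A : Type u) [CommRing A] (c : Fin 14) : Fin 14 → A := Pi.single c 1

theorem comm41 (t0 t1 t2 t3 t4 t5 t6 t7 t8 : A) (e : Fin 14 → Fin 14 → A) (b : Fin 14) :
    col4 t0 t1 t2 t3 t4 t5 t6 t7 t8 (col1 t0 t1 t2 t3 t4 t5 t6 t7 t8 e) b = col1 t0 t1 t2 t3 t4 t5 t6 t7 t8 (col4 t0 t1 t2 t3 t4 t5 t6 t7 t8 e) b := by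
  funext k
  have h1 := map_col4 (LinearMap.proj (R := A) (φ := fun _ : Fin 14 => A) k) t0 t1 t2 t3 t4 t5 t6 t7 t8
    (col1 t0 t1 t2 t3 t4 t5 t6 t7 t8 e) b
  have h2 := map_col1 (LinearMap.proj (R := A) (φ := fun _ : Fin 14 => A) k) t0 t1 t2 t3 t4 t5 t6 t7 t8
    (col4 t0 t1 t2 t3 t4 t5 t6 t7 t8 e) b
  have h3 := fun c => map_col1 (LinearMap.proj (R := A) (φ := fun _ : Fin 14 => A) k) t0 t1 t2 t3 t4 t5 t6 t7 t8 e c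
  have h4 := fun c => map_col4 (LinearMap.proj (R := A) (φ := fun _ : Fin 14 => A) k) t0 t1 t2 t3 t4 t5 t6 t7 t8 e c
  simp only [LinearMap.proj_apply] at h1 h2 h3 h4
  rw [h1, h2]
  simp only [h3, h4]
  fin_cases b
  · exact comm41_0 _ _ _ _ _ _ _ _ _ _
  · exact comm41_1 _ _ _ _ _ _ _ _ _ _
  · exact comm41_2 _ _ _ _ _ _ _ _ _ _
  · exact comm41_3 _ _ _ _ _ _ _ _ _ _
  · exact comm41_4 _ _ _ _ _ _ _ _ _ _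
  · exact comm41_5 _ _ _ _ _ _ _ _ _ _
  · exact comm41_6 _ _ _ _ _ _ _ _ _ _
  · exact comm41_7 _ _ _ _ _ _ _ _ _ _
  · exact comm41_8 _ _ _ _ _ _ _ _ _ _
  · exact comm41_9 _ _ _ _ _ _ _ _ _ _
  · exact comm41_10 _ _ _ _ _ _ _ _ _ _
  · exact comm41_11 _ _ _ _ _ _ _ _ _ _
  · exact comm41_12 _ _ _ _ _ _ _ _ _ _
  · exact comm41_13 _ _ _ _ _ _ _ _ _ _

theorem comm42 (t0 t1 t2 t3 t4 t5 t6 t7 t8 : A) (e : Fin 14 → Fin 14 → A) (b : Fin 14) :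
    col4 t0 t1 t2 t3 t4 t5 t6 t7 t8 (col2 t0 t1 t2 t3 t4 t5 t6 t7 t8 e) b = col2 t0 t1 t2 t3 t4 t5 t6 t7 t8 (col4 t0 t1 t2 t3 t4 t5 t6 t7 t8 e) b := by
  funext k
  have h1 := map_col4 (LinearMap.proj (R := A) (φ := fun _ : Fin 14 => A) k) t0 t1 t2 t3 t4 t5 t6 t7 t8
    (col2 t0 t1 t2 t3 t4 t5 t6 t7 t8 e) b
  have h2 := map_col2 (LinearMap.proj (R := A) (φ := fun _ : Fin 14 => A) k) t0 t1 t2 t3 t4 t5 t6 t7 t8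
    (col4 t0 t1 t2 t3 t4 t5 t6 t7 t8 e) b
  have h3 := fun c => map_col2 (LinearMap.proj (R := A) (φ := fun _ : Fin 14 => A) k) t0 t1 t2 t3 t4 t5 t6 t7 t8 e c
  have h4 := fun c => map_col4 (LinearMap.proj (R := A) (φ := fun _ : Fin 14 => A) k) t0 t1 t2 t3 t4 t5 t6 t7 t8 e c
  simp only [LinearMap.proj_apply] at h1 h2 h3 h4
  rw [h1, h2]
  simp only [h3, h4]
  fin_cases b
  · exact comm42_0 _ _ _ _ _ _ _ _ _ _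
  · exact comm42_1 _ _ _ _ _ _ _ _ _ _
  · exact comm42_2 _ _ _ _ _ _ _ _ _ _
  · exact comm42_3 _ _ _ _ _ _ _ _ _ _
  · exact comm42_4 _ _ _ _ _ _ _ _ _ _
  · exact comm42_5 _ _ _ _ _ _ _ _ _ _
  · exact comm42_6 _ _ _ _ _ _ _ _ _ _
  · exact comm42_7 _ _ _ _ _ _ _ _ _ _
  · exact comm42_8 _ _ _ _ _ _ _ _ _ _
  · exact comm42_9 _ _ _ _ _ _ _ _ _ _
  · exact comm42_10 _ _ _ _ _ _ _ _ _ _
  · exact comm42_11 _ _ _ _ _ _ _ _ _ _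
  · exact comm42_12 _ _ _ _ _ _ _ _ _ _
  · exact comm42_13 _ _ _ _ _ _ _ _ _ _

theorem comm43 (t0 t1 t2 t3 t4 t5 t6 t7 t8 : A) (e : Fin 14 → Fin 14 → A) (b : Fin 14) :
    col4 t0 t1 t2 t3 t4 t5 t6 t7 t8 (col3 t0 t1 t2 t3 t4 t5 t6 t7 t8 e) b = col3 t0 t1 t2 t3 t4 t5 t6 t7 t8 (col4 t0 t1 t2 t3 t4 t5 t6 t7 t8 e) b := by
  funext k
  have h1 := map_col4 (LinearMap.proj (R := A) (φ := fun _ : Fin 14 => A) k) t0 t1 t2 t3 t4 t5 t6 t7 t8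
    (col3 t0 t1 t2 t3 t4 t5 t6 t7 t8 e) b
  have h2 := map_col3 (LinearMap.proj (R := A) (φ := fun _ : Fin 14 => A) k) t0 t1 t2 t3 t4 t5 t6 t7 t8
    (col4 t0 t1 t2 t3 t4 t5 t6 t7 t8 e) b
  have h3 := fun c => map_col3 (LinearMap.proj (R := A) (φ := fun _ : Fin 14 => A) k) t0 t1 t2 t3 t4 t5 t6 t7 t8 e c
  have h4 := fun c => map_col4 (LinearMap.proj (R := A) (φ := fun _ : Fin 14 => A) k) t0 t1 t2 t3 t4 t5 t6 t7 t8 e c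
  simp only [LinearMap.proj_apply] at h1 h2 h3 h4
  rw [h1, h2]
  simp only [h3, h4]
  fin_cases b
  · exact comm43_0 _ _ _ _ _ _ _ _ _ _
  · exact comm43_1 _ _ _ _ _ _ _ _ _ _
  · exact comm43_2 _ _ _ _ _ _ _ _ _ _
  · exact comm43_3 _ _ _ _ _ _ _ _ _ _
  · exact comm43_4 _ _ _ _ _ _ _ _ _ _
  · exact comm43_5 _ _ _ _ _ _ _ _ _ _
  · exact comm43_6 _ _ _ _ _ _ _ _ _ _
  · exact comm43_7 _ _ _ _ _ _ _ _ _ _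
  · exact comm43_8 _ _ _ _ _ _ _ _ _ _
  · exact comm43_9 _ _ _ _ _ _ _ _ _ _
  · exact comm43_10 _ _ _ _ _ _ _ _ _ _
  · exact comm43_11 _ _ _ _ _ _ _ _ _ _
  · exact comm43_12 _ _ _ _ _ _ _ _ _ _
  · exact comm43_13 _ _ _ _ _ _ _ _ _ _

theorem comm45 (t0 t1 t2 t3 t4 t5 t6 t7 t8 : A) (e : Fin 14 → Fin 14 → A) (b : Fin 14) :
    col4 t0 t1 t2 t3 t4 t5 t6 t7 t8 (col5 t0 t1 t2 t3 t4 t5 t6 t7 t8 e) b = col5 t0 t1 t2 t3 t4 t5 t6 t7 t8 (col4 t0 t1 t2 t3 t4 t5 t6 t7 t8 e) b := by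
  funext k
  have h1 := map_col4 (LinearMap.proj (R := A) (φ := fun _ : Fin 14 => A) k) t0 t1 t2 t3 t4 t5 t6 t7 t8
    (col5 t0 t1 t2 t3 t4 t5 t6 t7 t8 e) b
  have h2 := map_col5 (LinearMap.proj (R := A) (φ := fun _ : Fin 14 => A) k) t0 t1 t2 t3 t4 t5 t6 t7 t8
    (col4 t0 t1 t2 t3 t4 t5 t6 t7 t8 e) b
  have h3 := fun c => map_col5 (LinearMap.proj (R := A) (φ := fun _ : Fin 14 => A) k) t0 t1 t2 t3 t4 t5 t6 t7 t8 e c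
  have h4 := fun c => map_col4 (LinearMap.proj (R := A) (φ := fun _ : Fin 14 => A) k) t0 t1 t2 t3 t4 t5 t6 t7 t8 e c
  simp only [LinearMap.proj_apply] at h1 h2 h3 h4
  rw [h1, h2]
  simp only [h3, h4]
  fin_cases b
  · exact comm45_0 _ _ _ _ _ _ _ _ _ _
  · exact comm45_1 _ _ _ _ _ _ _ _ _ _
  · exact comm45_2 _ _ _ _ _ _ _ _ _ _
  · exact comm45_3 _ _ _ _ _ _ _ _ _ _
  · exact comm45_4 _ _ _ _ _ _ _ _ _ _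
  · exact comm45_5 _ _ _ _ _ _ _ _ _ _
  · exact comm45_6 _ _ _ _ _ _ _ _ _ _
  · exact comm45_7 _ _ _ _ _ _ _ _ _ _
  · exact comm45_8 _ _ _ _ _ _ _ _ _ _
  · exact comm45_9 _ _ _ _ _ _ _ _ _ _
  · exact comm45_10 _ _ _ _ _ _ _ _ _ _
  · exact comm45_11 _ _ _ _ _ _ _ _ _ _
  · exact comm45_12 _ _ _ _ _ _ _ _ _ _
  · exact comm45_13 _ _ _ _ _ _ _ _ _ _

theorem comm46 (t0 t1 t2 t3 t4 t5 t6 t7 t8 : A) (e : Fin 14 → Fin 14 → A) (b : Fin 14) :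
    col4 t0 t1 t2 t3 t4 t5 t6 t7 t8 (col6 t0 t1 t2 t3 t4 t5 t6 t7 t8 e) b = col6 t0 t1 t2 t3 t4 t5 t6 t7 t8 (col4 t0 t1 t2 t3 t4 t5 t6 t7 t8 e) b := by
  funext k
  have h1 := map_col4 (LinearMap.proj (R := A) (φ := fun _ : Fin 14 => A) k) t0 t1 t2 t3 t4 t5 t6 t7 t8
    (col6 t0 t1 t2 t3 t4 t5 t6 t7 t8 e) b
  have h2 := map_col6 (LinearMap.proj (R := A) (φ := fun _ : Fin 14 => A) k) t0 t1 t2 t3 t4 t5 t6 t7 t8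
    (col4 t0 t1 t2 t3 t4 t5 t6 t7 t8 e) b
  have h3 := fun c => map_col6 (LinearMap.proj (R := A) (φ := fun _ : Fin 14 => A) k) t0 t1 t2 t3 t4 t5 t6 t7 t8 e c
  have h4 := fun c => map_col4 (LinearMap.proj (R := A) (φ := fun _ : Fin 14 => A) k) t0 t1 t2 t3 t4 t5 t6 t7 t8 e c
  simp only [LinearMap.proj_apply] at h1 h2 h3 h4
  rw [h1, h2]
  simp only [h3, h4]
  fin_cases b
  · exact comm46_0 _ _ _ _ _ _ _ _ _ _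
  · exact comm46_1 _ _ _ _ _ _ _ _ _ _
  · exact comm46_2 _ _ _ _ _ _ _ _ _ _
  · exact comm46_3 _ _ _ _ _ _ _ _ _ _
  · exact comm46_4 _ _ _ _ _ _ _ _ _ _
  · exact comm46_5 _ _ _ _ _ _ _ _ _ _
  · exact comm46_6 _ _ _ _ _ _ _ _ _ _
  · exact comm46_7 _ _ _ _ _ _ _ _ _ _
  · exact comm46_8 _ _ _ _ _ _ _ _ _ _
  · exact comm46_9 _ _ _ _ _ _ _ _ _ _
  · exact comm46_10 _ _ _ _ _ _ _ _ _ _
  · exact comm46_11 _ _ _ _ _ _ _ _ _ _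
  · exact comm46_12 _ _ _ _ _ _ _ _ _ _
  · exact comm46_13 _ _ _ _ _ _ _ _ _ _

theorem comm12 (t0 t1 t2 t3 t4 t5 t6 t7 t8 : A) (e : Fin 14 → Fin 14 → A) (b : Fin 14) (hb : b.val < 7) :
    col1 t0 t1 t2 t3 t4 t5 t6 t7 t8 (col2 t0 t1 t2 t3 t4 t5 t6 t7 t8 e) b = col2 t0 t1 t2 t3 t4 t5 t6 t7 t8 (col1 t0 t1 t2 t3 t4 t5 t6 t7 t8 e) b := by
  funext k
  have h1 := map_col1 (LinearMap.proj (R := A) (φ := fun _ : Fin 14 => A) k) t0 t1 t2 t3 t4 t5 t6 t7 t8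
    (col2 t0 t1 t2 t3 t4 t5 t6 t7 t8 e) b
  have h2 := map_col2 (LinearMap.proj (R := A) (φ := fun _ : Fin 14 => A) k) t0 t1 t2 t3 t4 t5 t6 t7 t8
    (col1 t0 t1 t2 t3 t4 t5 t6 t7 t8 e) b
  have h3 := fun c => map_col2 (LinearMap.proj (R := A) (φ := fun _ : Fin 14 => A) k) t0 t1 t2 t3 t4 t5 t6 t7 t8 e c
  have h4 := fun c => map_col1 (LinearMap.proj (R := A) (φ := fun _ : Fin 14 => A) k) t0 t1 t2 t3 t4 t5 t6 t7 t8 e c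
  simp only [LinearMap.proj_apply] at h1 h2 h3 h4
  rw [h1, h2]
  simp only [h3, h4]
  fin_cases b
  · exact comm12_0 _ _ _ _ _ _ _ _ _ _
  · exact comm12_1 _ _ _ _ _ _ _ _ _ _
  · exact comm12_2 _ _ _ _ _ _ _ _ _ _
  · exact comm12_3 _ _ _ _ _ _ _ _ _ _
  · exact comm12_4 _ _ _ _ _ _ _ _ _ _
  · exact comm12_5 _ _ _ _ _ _ _ _ _ _
  · exact comm12_6 _ _ _ _ _ _ _ _ _ _
  · exact absurd hb (by decide)
  · exact absurd hb (by decide)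
  · exact absurd hb (by decide)
  · exact absurd hb (by decide)
  · exact absurd hb (by decide)
  · exact absurd hb (by decide)
  · exact absurd hb (by decide)

theorem comm13 (t0 t1 t2 t3 t4 t5 t6 t7 t8 : A) (e : Fin 14 → Fin 14 → A) (b : Fin 14) (hb : b.val < 7) :
    col1 t0 t1 t2 t3 t4 t5 t6 t7 t8 (col3 t0 t1 t2 t3 t4 t5 t6 t7 t8 e) b = col3 t0 t1 t2 t3 t4 t5 t6 t7 t8 (col1 t0 t1 t2 t3 t4 t5 t6 t7 t8 e) b := by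
  funext k
  have h1 := map_col1 (LinearMap.proj (R := A) (φ := fun _ : Fin 14 => A) k) t0 t1 t2 t3 t4 t5 t6 t7 t8
    (col3 t0 t1 t2 t3 t4 t5 t6 t7 t8 e) b
  have h2 := map_col3 (LinearMap.proj (R := A) (φ := fun _ : Fin 14 => A) k) t0 t1 t2 t3 t4 t5 t6 t7 t8
    (col1 t0 t1 t2 t3 t4 t5 t6 t7 t8 e) b
  have h3 := fun c => map_col3 (LinearMap.proj (R := A) (φ := fun _ : Fin 14 => A) k) t0 t1 t2 t3 t4 t5 t6 t7 t8 e c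
  have h4 := fun c => map_col1 (LinearMap.proj (R := A) (φ := fun _ : Fin 14 => A) k) t0 t1 t2 t3 t4 t5 t6 t7 t8 e c
  simp only [LinearMap.proj_apply] at h1 h2 h3 h4
  rw [h1, h2]
  simp only [h3, h4]
  fin_cases b
  · exact comm13_0 _ _ _ _ _ _ _ _ _ _
  · exact comm13_1 _ _ _ _ _ _ _ _ _ _
  · exact comm13_2 _ _ _ _ _ _ _ _ _ _
  · exact comm13_3 _ _ _ _ _ _ _ _ _ _
  · exact comm13_4 _ _ _ _ _ _ _ _ _ _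
  · exact comm13_5 _ _ _ _ _ _ _ _ _ _
  · exact comm13_6 _ _ _ _ _ _ _ _ _ _
  · exact absurd hb (by decide)
  · exact absurd hb (by decide)
  · exact absurd hb (by decide)
  · exact absurd hb (by decide)
  · exact absurd hb (by decide)
  · exact absurd hb (by decide)
  · exact absurd hb (by decide)

theorem comm15 (t0 t1 t2 t3 t4 t5 t6 t7 t8 : A) (e : Fin 14 → Fin 14 → A) (b : Fin 14) (hb : b.val < 7) :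
    col1 t0 t1 t2 t3 t4 t5 t6 t7 t8 (col5 t0 t1 t2 t3 t4 t5 t6 t7 t8 e) b = col5 t0 t1 t2 t3 t4 t5 t6 t7 t8 (col1 t0 t1 t2 t3 t4 t5 t6 t7 t8 e) b := by
  funext k
  have h1 := map_col1 (LinearMap.proj (R := A) (φ := fun _ : Fin 14 => A) k) t0 t1 t2 t3 t4 t5 t6 t7 t8
    (col5 t0 t1 t2 t3 t4 t5 t6 t7 t8 e) b
  have h2 := map_col5 (LinearMap.proj (R := A) (φ := fun _ : Fin 14 => A) k) t0 t1 t2 t3 t4 t5 t6 t7 t8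
    (col1 t0 t1 t2 t3 t4 t5 t6 t7 t8 e) b
  have h3 := fun c => map_col5 (LinearMap.proj (R := A) (φ := fun _ : Fin 14 => A) k) t0 t1 t2 t3 t4 t5 t6 t7 t8 e c
  have h4 := fun c => map_col1 (LinearMap.proj (R := A) (φ := fun _ : Fin 14 => A) k) t0 t1 t2 t3 t4 t5 t6 t7 t8 e c
  simp only [LinearMap.proj_apply] at h1 h2 h3 h4
  rw [h1, h2]
  simp only [h3, h4]
  fin_cases b
  · exact comm15_0 _ _ _ _ _ _ _ _ _ _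
  · exact comm15_1 _ _ _ _ _ _ _ _ _ _
  · exact comm15_2 _ _ _ _ _ _ _ _ _ _
  · exact comm15_3 _ _ _ _ _ _ _ _ _ _
  · exact comm15_4 _ _ _ _ _ _ _ _ _ _
  · exact comm15_5 _ _ _ _ _ _ _ _ _ _
  · exact comm15_6 _ _ _ _ _ _ _ _ _ _
  · exact absurd hb (by decide)
  · exact absurd hb (by decide)
  · exact absurd hb (by decide)
  · exact absurd hb (by decide)
  · exact absurd hb (by decide)
  · exact absurd hb (by decide)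
  · exact absurd hb (by decide)

theorem comm16 (t0 t1 t2 t3 t4 t5 t6 t7 t8 : A) (e : Fin 14 → Fin 14 → A) (b : Fin 14) (hb : b.val < 7) :
    col1 t0 t1 t2 t3 t4 t5 t6 t7 t8 (col6 t0 t1 t2 t3 t4 t5 t6 t7 t8 e) b = col6 t0 t1 t2 t3 t4 t5 t6 t7 t8 (col1 t0 t1 t2 t3 t4 t5 t6 t7 t8 e) b := by
  funext k
  have h1 := map_col1 (LinearMap.proj (R := A) (φ := fun _ : Fin 14 => A) k) t0 t1 t2 t3 t4 t5 t6 t7 t8
    (col6 t0 t1 t2 t3 t4 t5 t6 t7 t8 e) b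
  have h2 := map_col6 (LinearMap.proj (R := A) (φ := fun _ : Fin 14 => A) k) t0 t1 t2 t3 t4 t5 t6 t7 t8
    (col1 t0 t1 t2 t3 t4 t5 t6 t7 t8 e) b
  have h3 := fun c => map_col6 (LinearMap.proj (R := A) (φ := fun _ : Fin 14 => A) k) t0 t1 t2 t3 t4 t5 t6 t7 t8 e c
  have h4 := fun c => map_col1 (LinearMap.proj (R := A) (φ := fun _ : Fin 14 => A) k) t0 t1 t2 t3 t4 t5 t6 t7 t8 e c
  simp only [LinearMap.proj_apply] at h1 h2 h3 h4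
  rw [h1, h2]
  simp only [h3, h4]
  fin_cases b
  · exact comm16_0 _ _ _ _ _ _ _ _ _ _
  · exact comm16_1 _ _ _ _ _ _ _ _ _ _
  · exact comm16_2 _ _ _ _ _ _ _ _ _ _
  · exact comm16_3 _ _ _ _ _ _ _ _ _ _
  · exact comm16_4 _ _ _ _ _ _ _ _ _ _
  · exact comm16_5 _ _ _ _ _ _ _ _ _ _
  · exact comm16_6 _ _ _ _ _ _ _ _ _ _
  · exact absurd hb (by decide)
  · exact absurd hb (by decide)
  · exact absurd hb (by decide)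
  · exact absurd hb (by decide)
  · exact absurd hb (by decide)
  · exact absurd hb (by decide)
  · exact absurd hb (by decide)

theorem comm23 (t0 t1 t2 t3 t4 t5 t6 t7 t8 : A) (e : Fin 14 → Fin 14 → A) (b : Fin 14) (hb : b.val < 7) :
    col2 t0 t1 t2 t3 t4 t5 t6 t7 t8 (col3 t0 t1 t2 t3 t4 t5 t6 t7 t8 e) b = col3 t0 t1 t2 t3 t4 t5 t6 t7 t8 (col2 t0 t1 t2 t3 t4 t5 t6 t7 t8 e) b := by
  funext k
  have h1 := map_col2 (LinearMap.proj (R := A) (φ := fun _ : Fin 14 => A) k) t0 t1 t2 t3 t4 t5 t6 t7 t8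
    (col3 t0 t1 t2 t3 t4 t5 t6 t7 t8 e) b
  have h2 := map_col3 (LinearMap.proj (R := A) (φ := fun _ : Fin 14 => A) k) t0 t1 t2 t3 t4 t5 t6 t7 t8
    (col2 t0 t1 t2 t3 t4 t5 t6 t7 t8 e) b
  have h3 := fun c => map_col3 (LinearMap.proj (R := A) (φ := fun _ : Fin 14 => A) k) t0 t1 t2 t3 t4 t5 t6 t7 t8 e c
  have h4 := fun c => map_col2 (LinearMap.proj (R := A) (φ := fun _ : Fin 14 => A) k) t0 t1 t2 t3 t4 t5 t6 t7 t8 e c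
  simp only [LinearMap.proj_apply] at h1 h2 h3 h4
  rw [h1, h2]
  simp only [h3, h4]
  fin_cases b
  · exact comm23_0 _ _ _ _ _ _ _ _ _ _
  · exact comm23_1 _ _ _ _ _ _ _ _ _ _
  · exact comm23_2 _ _ _ _ _ _ _ _ _ _
  · exact comm23_3 _ _ _ _ _ _ _ _ _ _
  · exact comm23_4 _ _ _ _ _ _ _ _ _ _
  · exact comm23_5 _ _ _ _ _ _ _ _ _ _
  · exact comm23_6 _ _ _ _ _ _ _ _ _ _
  · exact absurd hb (by decide)
  · exact absurd hb (by decide)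
  · exact absurd hb (by decide)
  · exact absurd hb (by decide)
  · exact absurd hb (by decide)
  · exact absurd hb (by decide)
  · exact absurd hb (by decide)

theorem comm25 (t0 t1 t2 t3 t4 t5 t6 t7 t8 : A) (e : Fin 14 → Fin 14 → A) (b : Fin 14) (hb : b.val < 7) :
    col2 t0 t1 t2 t3 t4 t5 t6 t7 t8 (col5 t0 t1 t2 t3 t4 t5 t6 t7 t8 e) b = col5 t0 t1 t2 t3 t4 t5 t6 t7 t8 (col2 t0 t1 t2 t3 t4 t5 t6 t7 t8 e) b := by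
  funext k
  have h1 := map_col2 (LinearMap.proj (R := A) (φ := fun _ : Fin 14 => A) k) t0 t1 t2 t3 t4 t5 t6 t7 t8
    (col5 t0 t1 t2 t3 t4 t5 t6 t7 t8 e) b
  have h2 := map_col5 (LinearMap.proj (R := A) (φ := fun _ : Fin 14 => A) k) t0 t1 t2 t3 t4 t5 t6 t7 t8
    (col2 t0 t1 t2 t3 t4 t5 t6 t7 t8 e) b
  have h3 := fun c => map_col5 (LinearMap.proj (R := A) (φ := fun _ : Fin 14 => A) k) t0 t1 t2 t3 t4 t5 t6 t7 t8 e c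
  have h4 := fun c => map_col2 (LinearMap.proj (R := A) (φ := fun _ : Fin 14 => A) k) t0 t1 t2 t3 t4 t5 t6 t7 t8 e c
  simp only [LinearMap.proj_apply] at h1 h2 h3 h4
  rw [h1, h2]
  simp only [h3, h4]
  fin_cases b
  · exact comm25_0 _ _ _ _ _ _ _ _ _ _
  · exact comm25_1 _ _ _ _ _ _ _ _ _ _
  · exact comm25_2 _ _ _ _ _ _ _ _ _ _
  · exact comm25_3 _ _ _ _ _ _ _ _ _ _
  · exact comm25_4 _ _ _ _ _ _ _ _ _ _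
  · exact comm25_5 _ _ _ _ _ _ _ _ _ _
  · exact comm25_6 _ _ _ _ _ _ _ _ _ _
  · exact absurd hb (by decide)
  · exact absurd hb (by decide)
  · exact absurd hb (by decide)
  · exact absurd hb (by decide)
  · exact absurd hb (by decide)
  · exact absurd hb (by decide)
  · exact absurd hb (by decide)

theorem comm26 (t0 t1 t2 t3 t4 t5 t6 t7 t8 : A) (e : Fin 14 → Fin 14 → A) (b : Fin 14) (hb : b.val < 7) :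
    col2 t0 t1 t2 t3 t4 t5 t6 t7 t8 (col6 t0 t1 t2 t3 t4 t5 t6 t7 t8 e) b = col6 t0 t1 t2 t3 t4 t5 t6 t7 t8 (col2 t0 t1 t2 t3 t4 t5 t6 t7 t8 e) b := by
  funext k
  have h1 := map_col2 (LinearMap.proj (R := A) (φ := fun _ : Fin 14 => A) k) t0 t1 t2 t3 t4 t5 t6 t7 t8
    (col6 t0 t1 t2 t3 t4 t5 t6 t7 t8 e) b
  have h2 := map_col6 (LinearMap.proj (R := A) (φ := fun _ : Fin 14 => A) k) t0 t1 t2 t3 t4 t5 t6 t7 t8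
    (col2 t0 t1 t2 t3 t4 t5 t6 t7 t8 e) b
  have h3 := fun c => map_col6 (LinearMap.proj (R := A) (φ := fun _ : Fin 14 => A) k) t0 t1 t2 t3 t4 t5 t6 t7 t8 e c
  have h4 := fun c => map_col2 (LinearMap.proj (R := A) (φ := fun _ : Fin 14 => A) k) t0 t1 t2 t3 t4 t5 t6 t7 t8 e c
  simp only [LinearMap.proj_apply] at h1 h2 h3 h4
  rw [h1, h2]
  simp only [h3, h4]
  fin_cases b
  · exact comm26_0 _ _ _ _ _ _ _ _ _ _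
  · exact comm26_1 _ _ _ _ _ _ _ _ _ _
  · exact comm26_2 _ _ _ _ _ _ _ _ _ _
  · exact comm26_3 _ _ _ _ _ _ _ _ _ _
  · exact comm26_4 _ _ _ _ _ _ _ _ _ _
  · exact comm26_5 _ _ _ _ _ _ _ _ _ _
  · exact comm26_6 _ _ _ _ _ _ _ _ _ _
  · exact absurd hb (by decide)
  · exact absurd hb (by decide)
  · exact absurd hb (by decide)
  · exact absurd hb (by decide)
  · exact absurd hb (by decide)
  · exact absurd hb (by decide)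
  · exact absurd hb (by decide)

theorem comm35 (t0 t1 t2 t3 t4 t5 t6 t7 t8 : A) (e : Fin 14 → Fin 14 → A) (b : Fin 14) (hb : b.val < 7) :
    col3 t0 t1 t2 t3 t4 t5 t6 t7 t8 (col5 t0 t1 t2 t3 t4 t5 t6 t7 t8 e) b = col5 t0 t1 t2 t3 t4 t5 t6 t7 t8 (col3 t0 t1 t2 t3 t4 t5 t6 t7 t8 e) b := by
  funext k
  have h1 := map_col3 (LinearMap.proj (R := A) (φ := fun _ : Fin 14 => A) k) t0 t1 t2 t3 t4 t5 t6 t7 t8
    (col5 t0 t1 t2 t3 t4 t5 t6 t7 t8 e) b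
  have h2 := map_col5 (LinearMap.proj (R := A) (φ := fun _ : Fin 14 => A) k) t0 t1 t2 t3 t4 t5 t6 t7 t8
    (col3 t0 t1 t2 t3 t4 t5 t6 t7 t8 e) b
  have h3 := fun c => map_col5 (LinearMap.proj (R := A) (φ := fun _ : Fin 14 => A) k) t0 t1 t2 t3 t4 t5 t6 t7 t8 e c
  have h4 := fun c => map_col3 (LinearMap.proj (R := A) (φ := fun _ : Fin 14 => A) k) t0 t1 t2 t3 t4 t5 t6 t7 t8 e c
  simp only [LinearMap.proj_apply] at h1 h2 h3 h4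
  rw [h1, h2]
  simp only [h3, h4]
  fin_cases b
  · exact comm35_0 _ _ _ _ _ _ _ _ _ _
  · exact comm35_1 _ _ _ _ _ _ _ _ _ _
  · exact comm35_2 _ _ _ _ _ _ _ _ _ _
  · exact comm35_3 _ _ _ _ _ _ _ _ _ _
  · exact comm35_4 _ _ _ _ _ _ _ _ _ _
  · exact comm35_5 _ _ _ _ _ _ _ _ _ _
  · exact comm35_6 _ _ _ _ _ _ _ _ _ _
  · exact absurd hb (by decide)
  · exact absurd hb (by decide)
  · exact absurd hb (by decide)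
  · exact absurd hb (by decide)
  · exact absurd hb (by decide)
  · exact absurd hb (by decide)
  · exact absurd hb (by decide)

theorem comm36 (t0 t1 t2 t3 t4 t5 t6 t7 t8 : A) (e : Fin 14 → Fin 14 → A) (b : Fin 14) (hb : b.val < 7) :
    col3 t0 t1 t2 t3 t4 t5 t6 t7 t8 (col6 t0 t1 t2 t3 t4 t5 t6 t7 t8 e) b = col6 t0 t1 t2 t3 t4 t5 t6 t7 t8 (col3 t0 t1 t2 t3 t4 t5 t6 t7 t8 e) b := by
  funext k
  have h1 := map_col3 (LinearMap.proj (R := A) (φ := fun _ : Fin 14 => A) k) t0 t1 t2 t3 t4 t5 t6 t7 t8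
    (col6 t0 t1 t2 t3 t4 t5 t6 t7 t8 e) b
  have h2 := map_col6 (LinearMap.proj (R := A) (φ := fun _ : Fin 14 => A) k) t0 t1 t2 t3 t4 t5 t6 t7 t8
    (col3 t0 t1 t2 t3 t4 t5 t6 t7 t8 e) b
  have h3 := fun c => map_col6 (LinearMap.proj (R := A) (φ := fun _ : Fin 14 => A) k) t0 t1 t2 t3 t4 t5 t6 t7 t8 e c
  have h4 := fun c => map_col3 (LinearMap.proj (R := A) (φ := fun _ : Fin 14 => A) k) t0 t1 t2 t3 t4 t5 t6 t7 t8 e c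
  simp only [LinearMap.proj_apply] at h1 h2 h3 h4
  rw [h1, h2]
  simp only [h3, h4]
  fin_cases b
  · exact comm36_0 _ _ _ _ _ _ _ _ _ _
  · exact comm36_1 _ _ _ _ _ _ _ _ _ _
  · exact comm36_2 _ _ _ _ _ _ _ _ _ _
  · exact comm36_3 _ _ _ _ _ _ _ _ _ _
  · exact comm36_4 _ _ _ _ _ _ _ _ _ _
  · exact comm36_5 _ _ _ _ _ _ _ _ _ _
  · exact comm36_6 _ _ _ _ _ _ _ _ _ _
  · exact absurd hb (by decide)
  · exact absurd hb (by decide)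
  · exact absurd hb (by decide)
  · exact absurd hb (by decide)
  · exact absurd hb (by decide)
  · exact absurd hb (by decide)
  · exact absurd hb (by decide)

theorem comm56 (t0 t1 t2 t3 t4 t5 t6 t7 t8 : A) (e : Fin 14 → Fin 14 → A) (b : Fin 14) (hb : b.val < 7) :
    col5 t0 t1 t2 t3 t4 t5 t6 t7 t8 (col6 t0 t1 t2 t3 t4 t5 t6 t7 t8 e) b = col6 t0 t1 t2 t3 t4 t5 t6 t7 t8 (col5 t0 t1 t2 t3 t4 t5 t6 t7 t8 e) b := by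
  funext k
  have h1 := map_col5 (LinearMap.proj (R := A) (φ := fun _ : Fin 14 => A) k) t0 t1 t2 t3 t4 t5 t6 t7 t8
    (col6 t0 t1 t2 t3 t4 t5 t6 t7 t8 e) b
  have h2 := map_col6 (LinearMap.proj (R := A) (φ := fun _ : Fin 14 => A) k) t0 t1 t2 t3 t4 t5 t6 t7 t8
    (col5 t0 t1 t2 t3 t4 t5 t6 t7 t8 e) b
  have h3 := fun c => map_col6 (LinearMap.proj (R := A) (φ := fun _ : Fin 14 => A) k) t0 t1 t2 t3 t4 t5 t6 t7 t8 e c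
  have h4 := fun c => map_col5 (LinearMap.proj (R := A) (φ := fun _ : Fin 14 => A) k) t0 t1 t2 t3 t4 t5 t6 t7 t8 e c
  simp only [LinearMap.proj_apply] at h1 h2 h3 h4
  rw [h1, h2]
  simp only [h3, h4]
  fin_cases b
  · exact comm56_0 _ _ _ _ _ _ _ _ _ _
  · exact comm56_1 _ _ _ _ _ _ _ _ _ _
  · exact comm56_2 _ _ _ _ _ _ _ _ _ _
  · exact comm56_3 _ _ _ _ _ _ _ _ _ _
  · exact comm56_4 _ _ _ _ _ _ _ _ _ _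
  · exact comm56_5 _ _ _ _ _ _ _ _ _ _
  · exact comm56_6 _ _ _ _ _ _ _ _ _ _
  · exact absurd hb (by decide)
  · exact absurd hb (by decide)
  · exact absurd hb (by decide)
  · exact absurd hb (by decide)
  · exact absurd hb (by decide)
  · exact absurd hb (by decide)
  · exact absurd hb (by decide)

/-- multiplication by `y1` -/
noncomputable def L1 (t0 t1 t2 t3 t4 t5 t6 t7 t8 : A) : Module.End A (Fin 14 → A) :=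
  Fintype.linearCombination A (col1 t0 t1 t2 t3 t4 t5 t6 t7 t8 (bb A))

theorem L1_bb (t0 t1 t2 t3 t4 t5 t6 t7 t8 : A) (b : Fin 14) :
    L1 t0 t1 t2 t3 t4 t5 t6 t7 t8 (bb A b) = col1 t0 t1 t2 t3 t4 t5 t6 t7 t8 (bb A) b := by
  rw [L1, bb, Fintype.linearCombination_apply_single, one_smul]

/-- multiplication by `y2` -/
noncomputable def L2 (t0 t1 t2 t3 t4 t5 t6 t7 t8 : A) : Module.End A (Fin 14 → A) :=
  Fintype.linearCombination A (col2 t0 t1 t2 t3 t4 t5 t6 t7 t8 (bb A))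

theorem L2_bb (t0 t1 t2 t3 t4 t5 t6 t7 t8 : A) (b : Fin 14) :
    L2 t0 t1 t2 t3 t4 t5 t6 t7 t8 (bb A b) = col2 t0 t1 t2 t3 t4 t5 t6 t7 t8 (bb A) b := by
  rw [L2, bb, Fintype.linearCombination_apply_single, one_smul]

/-- multiplication by `y3` -/
noncomputable def L3 (t0 t1 t2 t3 t4 t5 t6 t7 t8 : A) : Module.End A (Fin 14 → A) :=
  Fintype.linearCombination A (col3 t0 t1 t2 t3 t4 t5 t6 t7 t8 (bb A))

theorem L3_bb (t0 t1 t2 t3 t4 t5 t6 t7 t8 : A) (b : Fin 14) :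
    L3 t0 t1 t2 t3 t4 t5 t6 t7 t8 (bb A b) = col3 t0 t1 t2 t3 t4 t5 t6 t7 t8 (bb A) b := by
  rw [L3, bb, Fintype.linearCombination_apply_single, one_smul]

/-- multiplication by `y4` -/
noncomputable def L4 (t0 t1 t2 t3 t4 t5 t6 t7 t8 : A) : Module.End A (Fin 14 → A) :=
  Fintype.linearCombination A (col4 t0 t1 t2 t3 t4 t5 t6 t7 t8 (bb A))

theorem L4_bb (t0 t1 t2 t3 t4 t5 t6 t7 t8 : A) (b : Fin 14) :
    L4 t0 t1 t2 t3 t4 t5 t6 t7 t8 (bb A b) = col4 t0 t1 t2 t3 t4 t5 t6 t7 t8 (bb A) b := by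
  rw [L4, bb, Fintype.linearCombination_apply_single, one_smul]

/-- multiplication by `y5` -/
noncomputable def L5 (t0 t1 t2 t3 t4 t5 t6 t7 t8 : A) : Module.End A (Fin 14 → A) :=
  Fintype.linearCombination A (col5 t0 t1 t2 t3 t4 t5 t6 t7 t8 (bb A))

theorem L5_bb (t0 t1 t2 t3 t4 t5 t6 t7 t8 : A) (b : Fin 14) :
    L5 t0 t1 t2 t3 t4 t5 t6 t7 t8 (bb A b) = col5 t0 t1 t2 t3 t4 t5 t6 t7 t8 (bb A) b := by
  rw [L5, bb, Fintype.linearCombination_apply_single, one_smul]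

/-- multiplication by `y6` -/
noncomputable def L6 (t0 t1 t2 t3 t4 t5 t6 t7 t8 : A) : Module.End A (Fin 14 → A) :=
  Fintype.linearCombination A (col6 t0 t1 t2 t3 t4 t5 t6 t7 t8 (bb A))

theorem L6_bb (t0 t1 t2 t3 t4 t5 t6 t7 t8 : A) (b : Fin 14) :
    L6 t0 t1 t2 t3 t4 t5 t6 t7 t8 (bb A b) = col6 t0 t1 t2 t3 t4 t5 t6 t7 t8 (bb A) b := by
  rw [L6, bb, Fintype.linearCombination_apply_single, one_smul]

theorem end_ext {f g : Module.End A (Fin 14 → A)} (h : ∀ b, f (bb A b) = g (bb A b)) : f = g := by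
  refine (Pi.basisFun A (Fin 14)).ext fun b => ?_
  have := h b
  rwa [bb, ← Pi.basisFun_apply] at this

theorem L4_L1 (t0 t1 t2 t3 t4 t5 t6 t7 t8 : A) :
    L4 t0 t1 t2 t3 t4 t5 t6 t7 t8 * L1 t0 t1 t2 t3 t4 t5 t6 t7 t8 = L1 t0 t1 t2 t3 t4 t5 t6 t7 t8 * L4 t0 t1 t2 t3 t4 t5 t6 t7 t8 := by
  refine end_ext fun b => ?_
  rw [Module.End.mul_apply, Module.End.mul_apply, L4_bb, L1_bb, map_col1, map_col4]
  simp only [L4_bb, L1_bb]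
  exact (comm41 _ _ _ _ _ _ _ _ _ _ _).symm

theorem L4_L2 (t0 t1 t2 t3 t4 t5 t6 t7 t8 : A) :
    L4 t0 t1 t2 t3 t4 t5 t6 t7 t8 * L2 t0 t1 t2 t3 t4 t5 t6 t7 t8 = L2 t0 t1 t2 t3 t4 t5 t6 t7 t8 * L4 t0 t1 t2 t3 t4 t5 t6 t7 t8 := by
  refine end_ext fun b => ?_
  rw [Module.End.mul_apply, Module.End.mul_apply, L4_bb, L2_bb, map_col2, map_col4]
  simp only [L4_bb, L2_bb]
  exact (comm42 _ _ _ _ _ _ _ _ _ _ _).symm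

theorem L4_L3 (t0 t1 t2 t3 t4 t5 t6 t7 t8 : A) :
    L4 t0 t1 t2 t3 t4 t5 t6 t7 t8 * L3 t0 t1 t2 t3 t4 t5 t6 t7 t8 = L3 t0 t1 t2 t3 t4 t5 t6 t7 t8 * L4 t0 t1 t2 t3 t4 t5 t6 t7 t8 := by
  refine end_ext fun b => ?_
  rw [Module.End.mul_apply, Module.End.mul_apply, L4_bb, L3_bb, map_col3, map_col4]
  simp only [L4_bb, L3_bb]
  exact (comm43 _ _ _ _ _ _ _ _ _ _ _).symm

theorem L4_L5 (t0 t1 t2 t3 t4 t5 t6 t7 t8 : A) :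
    L4 t0 t1 t2 t3 t4 t5 t6 t7 t8 * L5 t0 t1 t2 t3 t4 t5 t6 t7 t8 = L5 t0 t1 t2 t3 t4 t5 t6 t7 t8 * L4 t0 t1 t2 t3 t4 t5 t6 t7 t8 := by
  refine end_ext fun b => ?_
  rw [Module.End.mul_apply, Module.End.mul_apply, L4_bb, L5_bb, map_col5, map_col4]
  simp only [L4_bb, L5_bb]
  exact (comm45 _ _ _ _ _ _ _ _ _ _ _).symm

theorem L4_L6 (t0 t1 t2 t3 t4 t5 t6 t7 t8 : A) :
    L4 t0 t1 t2 t3 t4 t5 t6 t7 t8 * L6 t0 t1 t2 t3 t4 t5 t6 t7 t8 = L6 t0 t1 t2 t3 t4 t5 t6 t7 t8 * L4 t0 t1 t2 t3 t4 t5 t6 t7 t8 := by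
  refine end_ext fun b => ?_
  rw [Module.End.mul_apply, Module.End.mul_apply, L4_bb, L6_bb, map_col6, map_col4]
  simp only [L4_bb, L6_bb]
  exact (comm46 _ _ _ _ _ _ _ _ _ _ _).symm

theorem le_7_cases (b : Fin 14) (hb : ¬ b.val < 7) :
    (∃ c : Fin 14, c.val < 7 ∧ ((b = 7 ∧ c = 1) ∨ (b = 8 ∧ c = 2) ∨ (b = 9 ∧ c = 3) ∨
      (b = 10 ∧ c = 4) ∨ (b = 11 ∧ c = 5) ∨ (b = 12 ∧ c = 6))) ∨ b = 13 := by
  revert b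
  decide

theorem L1_L2 (t0 t1 t2 t3 t4 t5 t6 t7 t8 : A) :
    L1 t0 t1 t2 t3 t4 t5 t6 t7 t8 * L2 t0 t1 t2 t3 t4 t5 t6 t7 t8 = L2 t0 t1 t2 t3 t4 t5 t6 t7 t8 * L1 t0 t1 t2 t3 t4 t5 t6 t7 t8 := by
  have key : ∀ b : Fin 14, b.val < 7 → L1 t0 t1 t2 t3 t4 t5 t6 t7 t8 (L2 t0 t1 t2 t3 t4 t5 t6 t7 t8 (bb A b)) =
      L2 t0 t1 t2 t3 t4 t5 t6 t7 t8 (L1 t0 t1 t2 t3 t4 t5 t6 t7 t8 (bb A b)) := by
    intro b hb
    rw [L2_bb, L1_bb, map_col2, map_col1]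
    simp only [L2_bb, L1_bb]
    exact (comm12 _ _ _ _ _ _ _ _ _ _ _ hb).symm
  have h4 : ∀ x, L1 t0 t1 t2 t3 t4 t5 t6 t7 t8 (L2 t0 t1 t2 t3 t4 t5 t6 t7 t8 x) = L2 t0 t1 t2 t3 t4 t5 t6 t7 t8 (L1 t0 t1 t2 t3 t4 t5 t6 t7 t8 x) →
      L1 t0 t1 t2 t3 t4 t5 t6 t7 t8 (L2 t0 t1 t2 t3 t4 t5 t6 t7 t8 (L4 t0 t1 t2 t3 t4 t5 t6 t7 t8 x)) = L2 t0 t1 t2 t3 t4 t5 t6 t7 t8 (L1 t0 t1 t2 t3 t4 t5 t6 t7 t8 (L4 t0 t1 t2 t3 t4 t5 t6 t7 t8 x)) := by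
    intro x hx
    have e1 := fun z => LinearMap.congr_fun (L4_L1 t0 t1 t2 t3 t4 t5 t6 t7 t8) z
    have e2 := fun z => LinearMap.congr_fun (L4_L2 t0 t1 t2 t3 t4 t5 t6 t7 t8) z
    simp only [Module.End.mul_apply] at e1 e2
    rw [← e1, ← e2, ← e2, ← e1, hx]
  refine end_ext fun b => ?_
  rw [Module.End.mul_apply, Module.End.mul_apply]
  by_cases hb : b.val < 7
  · exact key b hb
  · rcases le_7_cases b hb with ⟨c, hc, h⟩ | h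
    · have h' : bb A b = L4 t0 t1 t2 t3 t4 t5 t6 t7 t8 (bb A c) := by
        rw [L4_bb]; rcases h with ⟨rfl, rfl⟩ | ⟨rfl, rfl⟩ | ⟨rfl, rfl⟩ | ⟨rfl, rfl⟩ | ⟨rfl, rfl⟩ | ⟨rfl, rfl⟩ <;> rfl
      rw [h']
      exact h4 _ (key c hc)
    · subst h
      have h' : bb A 13 = L4 t0 t1 t2 t3 t4 t5 t6 t7 t8 (L4 t0 t1 t2 t3 t4 t5 t6 t7 t8 (bb A 4)) := by
        rw [L4_bb]
        change _ = L4 _ _ _ _ _ _ _ _ _ (bb A 10)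
        rw [L4_bb]; rfl
      rw [h']
      exact h4 _ (h4 _ (key 4 (by decide)))

theorem L1_L3 (t0 t1 t2 t3 t4 t5 t6 t7 t8 : A) :
    L1 t0 t1 t2 t3 t4 t5 t6 t7 t8 * L3 t0 t1 t2 t3 t4 t5 t6 t7 t8 = L3 t0 t1 t2 t3 t4 t5 t6 t7 t8 * L1 t0 t1 t2 t3 t4 t5 t6 t7 t8 := by
  have key : ∀ b : Fin 14, b.val < 7 → L1 t0 t1 t2 t3 t4 t5 t6 t7 t8 (L3 t0 t1 t2 t3 t4 t5 t6 t7 t8 (bb A b)) =
      L3 t0 t1 t2 t3 t4 t5 t6 t7 t8 (L1 t0 t1 t2 t3 t4 t5 t6 t7 t8 (bb A b)) := by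
    intro b hb
    rw [L3_bb, L1_bb, map_col3, map_col1]
    simp only [L3_bb, L1_bb]
    exact (comm13 _ _ _ _ _ _ _ _ _ _ _ hb).symm
  have h4 : ∀ x, L1 t0 t1 t2 t3 t4 t5 t6 t7 t8 (L3 t0 t1 t2 t3 t4 t5 t6 t7 t8 x) = L3 t0 t1 t2 t3 t4 t5 t6 t7 t8 (L1 t0 t1 t2 t3 t4 t5 t6 t7 t8 x) →
      L1 t0 t1 t2 t3 t4 t5 t6 t7 t8 (L3 t0 t1 t2 t3 t4 t5 t6 t7 t8 (L4 t0 t1 t2 t3 t4 t5 t6 t7 t8 x)) = L3 t0 t1 t2 t3 t4 t5 t6 t7 t8 (L1 t0 t1 t2 t3 t4 t5 t6 t7 t8 (L4 t0 t1 t2 t3 t4 t5 t6 t7 t8 x)) := by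
    intro x hx
    have e1 := fun z => LinearMap.congr_fun (L4_L1 t0 t1 t2 t3 t4 t5 t6 t7 t8) z
    have e2 := fun z => LinearMap.congr_fun (L4_L3 t0 t1 t2 t3 t4 t5 t6 t7 t8) z
    simp only [Module.End.mul_apply] at e1 e2
    rw [← e1, ← e2, ← e2, ← e1, hx]
  refine end_ext fun b => ?_
  rw [Module.End.mul_apply, Module.End.mul_apply]
  by_cases hb : b.val < 7
  · exact key b hb
  · rcases le_7_cases b hb with ⟨c, hc, h⟩ | h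
    · have h' : bb A b = L4 t0 t1 t2 t3 t4 t5 t6 t7 t8 (bb A c) := by
        rw [L4_bb]; rcases h with ⟨rfl, rfl⟩ | ⟨rfl, rfl⟩ | ⟨rfl, rfl⟩ | ⟨rfl, rfl⟩ | ⟨rfl, rfl⟩ | ⟨rfl, rfl⟩ <;> rfl
      rw [h']
      exact h4 _ (key c hc)
    · subst h
      have h' : bb A 13 = L4 t0 t1 t2 t3 t4 t5 t6 t7 t8 (L4 t0 t1 t2 t3 t4 t5 t6 t7 t8 (bb A 4)) := by
        rw [L4_bb]
        change _ = L4 _ _ _ _ _ _ _ _ _ (bb A 10)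
        rw [L4_bb]; rfl
      rw [h']
      exact h4 _ (h4 _ (key 4 (by decide)))

theorem L1_L5 (t0 t1 t2 t3 t4 t5 t6 t7 t8 : A) :
    L1 t0 t1 t2 t3 t4 t5 t6 t7 t8 * L5 t0 t1 t2 t3 t4 t5 t6 t7 t8 = L5 t0 t1 t2 t3 t4 t5 t6 t7 t8 * L1 t0 t1 t2 t3 t4 t5 t6 t7 t8 := by
  have key : ∀ b : Fin 14, b.val < 7 → L1 t0 t1 t2 t3 t4 t5 t6 t7 t8 (L5 t0 t1 t2 t3 t4 t5 t6 t7 t8 (bb A b)) =
      L5 t0 t1 t2 t3 t4 t5 t6 t7 t8 (L1 t0 t1 t2 t3 t4 t5 t6 t7 t8 (bb A b)) := by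
    intro b hb
    rw [L5_bb, L1_bb, map_col5, map_col1]
    simp only [L5_bb, L1_bb]
    exact (comm15 _ _ _ _ _ _ _ _ _ _ _ hb).symm
  have h4 : ∀ x, L1 t0 t1 t2 t3 t4 t5 t6 t7 t8 (L5 t0 t1 t2 t3 t4 t5 t6 t7 t8 x) = L5 t0 t1 t2 t3 t4 t5 t6 t7 t8 (L1 t0 t1 t2 t3 t4 t5 t6 t7 t8 x) →
      L1 t0 t1 t2 t3 t4 t5 t6 t7 t8 (L5 t0 t1 t2 t3 t4 t5 t6 t7 t8 (L4 t0 t1 t2 t3 t4 t5 t6 t7 t8 x)) = L5 t0 t1 t2 t3 t4 t5 t6 t7 t8 (L1 t0 t1 t2 t3 t4 t5 t6 t7 t8 (L4 t0 t1 t2 t3 t4 t5 t6 t7 t8 x)) := by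
    intro x hx
    have e1 := fun z => LinearMap.congr_fun (L4_L1 t0 t1 t2 t3 t4 t5 t6 t7 t8) z
    have e2 := fun z => LinearMap.congr_fun (L4_L5 t0 t1 t2 t3 t4 t5 t6 t7 t8) z
    simp only [Module.End.mul_apply] at e1 e2
    rw [← e1, ← e2, ← e2, ← e1, hx]
  refine end_ext fun b => ?_
  rw [Module.End.mul_apply, Module.End.mul_apply]
  by_cases hb : b.val < 7
  · exact key b hb
  · rcases le_7_cases b hb with ⟨c, hc, h⟩ | h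
    · have h' : bb A b = L4 t0 t1 t2 t3 t4 t5 t6 t7 t8 (bb A c) := by
        rw [L4_bb]; rcases h with ⟨rfl, rfl⟩ | ⟨rfl, rfl⟩ | ⟨rfl, rfl⟩ | ⟨rfl, rfl⟩ | ⟨rfl, rfl⟩ | ⟨rfl, rfl⟩ <;> rfl
      rw [h']
      exact h4 _ (key c hc)
    · subst h
      have h' : bb A 13 = L4 t0 t1 t2 t3 t4 t5 t6 t7 t8 (L4 t0 t1 t2 t3 t4 t5 t6 t7 t8 (bb A 4)) := by
        rw [L4_bb]
        change _ = L4 _ _ _ _ _ _ _ _ _ (bb A 10)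
        rw [L4_bb]; rfl
      rw [h']
      exact h4 _ (h4 _ (key 4 (by decide)))

theorem L1_L6 (t0 t1 t2 t3 t4 t5 t6 t7 t8 : A) :
    L1 t0 t1 t2 t3 t4 t5 t6 t7 t8 * L6 t0 t1 t2 t3 t4 t5 t6 t7 t8 = L6 t0 t1 t2 t3 t4 t5 t6 t7 t8 * L1 t0 t1 t2 t3 t4 t5 t6 t7 t8 := by
  have key : ∀ b : Fin 14, b.val < 7 → L1 t0 t1 t2 t3 t4 t5 t6 t7 t8 (L6 t0 t1 t2 t3 t4 t5 t6 t7 t8 (bb A b)) =
      L6 t0 t1 t2 t3 t4 t5 t6 t7 t8 (L1 t0 t1 t2 t3 t4 t5 t6 t7 t8 (bb A b)) := by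
    intro b hb
    rw [L6_bb, L1_bb, map_col6, map_col1]
    simp only [L6_bb, L1_bb]
    exact (comm16 _ _ _ _ _ _ _ _ _ _ _ hb).symm
  have h4 : ∀ x, L1 t0 t1 t2 t3 t4 t5 t6 t7 t8 (L6 t0 t1 t2 t3 t4 t5 t6 t7 t8 x) = L6 t0 t1 t2 t3 t4 t5 t6 t7 t8 (L1 t0 t1 t2 t3 t4 t5 t6 t7 t8 x) →
      L1 t0 t1 t2 t3 t4 t5 t6 t7 t8 (L6 t0 t1 t2 t3 t4 t5 t6 t7 t8 (L4 t0 t1 t2 t3 t4 t5 t6 t7 t8 x)) = L6 t0 t1 t2 t3 t4 t5 t6 t7 t8 (L1 t0 t1 t2 t3 t4 t5 t6 t7 t8 (L4 t0 t1 t2 t3 t4 t5 t6 t7 t8 x)) := by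
    intro x hx
    have e1 := fun z => LinearMap.congr_fun (L4_L1 t0 t1 t2 t3 t4 t5 t6 t7 t8) z
    have e2 := fun z => LinearMap.congr_fun (L4_L6 t0 t1 t2 t3 t4 t5 t6 t7 t8) z
    simp only [Module.End.mul_apply] at e1 e2
    rw [← e1, ← e2, ← e2, ← e1, hx]
  refine end_ext fun b => ?_
  rw [Module.End.mul_apply, Module.End.mul_apply]
  by_cases hb : b.val < 7
  · exact key b hb
  · rcases le_7_cases b hb with ⟨c, hc, h⟩ | h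
    · have h' : bb A b = L4 t0 t1 t2 t3 t4 t5 t6 t7 t8 (bb A c) := by
        rw [L4_bb]; rcases h with ⟨rfl, rfl⟩ | ⟨rfl, rfl⟩ | ⟨rfl, rfl⟩ | ⟨rfl, rfl⟩ | ⟨rfl, rfl⟩ | ⟨rfl, rfl⟩ <;> rfl
      rw [h']
      exact h4 _ (key c hc)
    · subst h
      have h' : bb A 13 = L4 t0 t1 t2 t3 t4 t5 t6 t7 t8 (L4 t0 t1 t2 t3 t4 t5 t6 t7 t8 (bb A 4)) := by
        rw [L4_bb]
        change _ = L4 _ _ _ _ _ _ _ _ _ (bb A 10)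
        rw [L4_bb]; rfl
      rw [h']
      exact h4 _ (h4 _ (key 4 (by decide)))

theorem L2_L3 (t0 t1 t2 t3 t4 t5 t6 t7 t8 : A) :
    L2 t0 t1 t2 t3 t4 t5 t6 t7 t8 * L3 t0 t1 t2 t3 t4 t5 t6 t7 t8 = L3 t0 t1 t2 t3 t4 t5 t6 t7 t8 * L2 t0 t1 t2 t3 t4 t5 t6 t7 t8 := by
  have key : ∀ b : Fin 14, b.val < 7 → L2 t0 t1 t2 t3 t4 t5 t6 t7 t8 (L3 t0 t1 t2 t3 t4 t5 t6 t7 t8 (bb A b)) =
      L3 t0 t1 t2 t3 t4 t5 t6 t7 t8 (L2 t0 t1 t2 t3 t4 t5 t6 t7 t8 (bb A b)) := by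
    intro b hb
    rw [L3_bb, L2_bb, map_col3, map_col2]
    simp only [L3_bb, L2_bb]
    exact (comm23 _ _ _ _ _ _ _ _ _ _ _ hb).symm
  have h4 : ∀ x, L2 t0 t1 t2 t3 t4 t5 t6 t7 t8 (L3 t0 t1 t2 t3 t4 t5 t6 t7 t8 x) = L3 t0 t1 t2 t3 t4 t5 t6 t7 t8 (L2 t0 t1 t2 t3 t4 t5 t6 t7 t8 x) →
      L2 t0 t1 t2 t3 t4 t5 t6 t7 t8 (L3 t0 t1 t2 t3 t4 t5 t6 t7 t8 (L4 t0 t1 t2 t3 t4 t5 t6 t7 t8 x)) = L3 t0 t1 t2 t3 t4 t5 t6 t7 t8 (L2 t0 t1 t2 t3 t4 t5 t6 t7 t8 (L4 t0 t1 t2 t3 t4 t5 t6 t7 t8 x)) := by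
    intro x hx
    have e1 := fun z => LinearMap.congr_fun (L4_L2 t0 t1 t2 t3 t4 t5 t6 t7 t8) z
    have e2 := fun z => LinearMap.congr_fun (L4_L3 t0 t1 t2 t3 t4 t5 t6 t7 t8) z
    simp only [Module.End.mul_apply] at e1 e2
    rw [← e1, ← e2, ← e2, ← e1, hx]
  refine end_ext fun b => ?_
  rw [Module.End.mul_apply, Module.End.mul_apply]
  by_cases hb : b.val < 7
  · exact key b hb
  · rcases le_7_cases b hb with ⟨c, hc, h⟩ | h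
    · have h' : bb A b = L4 t0 t1 t2 t3 t4 t5 t6 t7 t8 (bb A c) := by
        rw [L4_bb]; rcases h with ⟨rfl, rfl⟩ | ⟨rfl, rfl⟩ | ⟨rfl, rfl⟩ | ⟨rfl, rfl⟩ | ⟨rfl, rfl⟩ | ⟨rfl, rfl⟩ <;> rfl
      rw [h']
      exact h4 _ (key c hc)
    · subst h
      have h' : bb A 13 = L4 t0 t1 t2 t3 t4 t5 t6 t7 t8 (L4 t0 t1 t2 t3 t4 t5 t6 t7 t8 (bb A 4)) := by
        rw [L4_bb]
        change _ = L4 _ _ _ _ _ _ _ _ _ (bb A 10)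
        rw [L4_bb]; rfl
      rw [h']
      exact h4 _ (h4 _ (key 4 (by decide)))

theorem L2_L5 (t0 t1 t2 t3 t4 t5 t6 t7 t8 : A) :
    L2 t0 t1 t2 t3 t4 t5 t6 t7 t8 * L5 t0 t1 t2 t3 t4 t5 t6 t7 t8 = L5 t0 t1 t2 t3 t4 t5 t6 t7 t8 * L2 t0 t1 t2 t3 t4 t5 t6 t7 t8 := by
  have key : ∀ b : Fin 14, b.val < 7 → L2 t0 t1 t2 t3 t4 t5 t6 t7 t8 (L5 t0 t1 t2 t3 t4 t5 t6 t7 t8 (bb A b)) =
      L5 t0 t1 t2 t3 t4 t5 t6 t7 t8 (L2 t0 t1 t2 t3 t4 t5 t6 t7 t8 (bb A b)) := by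
    intro b hb
    rw [L5_bb, L2_bb, map_col5, map_col2]
    simp only [L5_bb, L2_bb]
    exact (comm25 _ _ _ _ _ _ _ _ _ _ _ hb).symm
  have h4 : ∀ x, L2 t0 t1 t2 t3 t4 t5 t6 t7 t8 (L5 t0 t1 t2 t3 t4 t5 t6 t7 t8 x) = L5 t0 t1 t2 t3 t4 t5 t6 t7 t8 (L2 t0 t1 t2 t3 t4 t5 t6 t7 t8 x) →
      L2 t0 t1 t2 t3 t4 t5 t6 t7 t8 (L5 t0 t1 t2 t3 t4 t5 t6 t7 t8 (L4 t0 t1 t2 t3 t4 t5 t6 t7 t8 x)) = L5 t0 t1 t2 t3 t4 t5 t6 t7 t8 (L2 t0 t1 t2 t3 t4 t5 t6 t7 t8 (L4 t0 t1 t2 t3 t4 t5 t6 t7 t8 x)) := by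
    intro x hx
    have e1 := fun z => LinearMap.congr_fun (L4_L2 t0 t1 t2 t3 t4 t5 t6 t7 t8) z
    have e2 := fun z => LinearMap.congr_fun (L4_L5 t0 t1 t2 t3 t4 t5 t6 t7 t8) z
    simp only [Module.End.mul_apply] at e1 e2
    rw [← e1, ← e2, ← e2, ← e1, hx]
  refine end_ext fun b => ?_
  rw [Module.End.mul_apply, Module.End.mul_apply]
  by_cases hb : b.val < 7
  · exact key b hb
  · rcases le_7_cases b hb with ⟨c, hc, h⟩ | h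
    · have h' : bb A b = L4 t0 t1 t2 t3 t4 t5 t6 t7 t8 (bb A c) := by
        rw [L4_bb]; rcases h with ⟨rfl, rfl⟩ | ⟨rfl, rfl⟩ | ⟨rfl, rfl⟩ | ⟨rfl, rfl⟩ | ⟨rfl, rfl⟩ | ⟨rfl, rfl⟩ <;> rfl
      rw [h']
      exact h4 _ (key c hc)
    · subst h
      have h' : bb A 13 = L4 t0 t1 t2 t3 t4 t5 t6 t7 t8 (L4 t0 t1 t2 t3 t4 t5 t6 t7 t8 (bb A 4)) := by
        rw [L4_bb]
        change _ = L4 _ _ _ _ _ _ _ _ _ (bb A 10)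
        rw [L4_bb]; rfl
      rw [h']
      exact h4 _ (h4 _ (key 4 (by decide)))

theorem L2_L6 (t0 t1 t2 t3 t4 t5 t6 t7 t8 : A) :
    L2 t0 t1 t2 t3 t4 t5 t6 t7 t8 * L6 t0 t1 t2 t3 t4 t5 t6 t7 t8 = L6 t0 t1 t2 t3 t4 t5 t6 t7 t8 * L2 t0 t1 t2 t3 t4 t5 t6 t7 t8 := by
  have key : ∀ b : Fin 14, b.val < 7 → L2 t0 t1 t2 t3 t4 t5 t6 t7 t8 (L6 t0 t1 t2 t3 t4 t5 t6 t7 t8 (bb A b)) =
      L6 t0 t1 t2 t3 t4 t5 t6 t7 t8 (L2 t0 t1 t2 t3 t4 t5 t6 t7 t8 (bb A b)) := by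
    intro b hb
    rw [L6_bb, L2_bb, map_col6, map_col2]
    simp only [L6_bb, L2_bb]
    exact (comm26 _ _ _ _ _ _ _ _ _ _ _ hb).symm
  have h4 : ∀ x, L2 t0 t1 t2 t3 t4 t5 t6 t7 t8 (L6 t0 t1 t2 t3 t4 t5 t6 t7 t8 x) = L6 t0 t1 t2 t3 t4 t5 t6 t7 t8 (L2 t0 t1 t2 t3 t4 t5 t6 t7 t8 x) →
      L2 t0 t1 t2 t3 t4 t5 t6 t7 t8 (L6 t0 t1 t2 t3 t4 t5 t6 t7 t8 (L4 t0 t1 t2 t3 t4 t5 t6 t7 t8 x)) = L6 t0 t1 t2 t3 t4 t5 t6 t7 t8 (L2 t0 t1 t2 t3 t4 t5 t6 t7 t8 (L4 t0 t1 t2 t3 t4 t5 t6 t7 t8 x)) := by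
    intro x hx
    have e1 := fun z => LinearMap.congr_fun (L4_L2 t0 t1 t2 t3 t4 t5 t6 t7 t8) z
    have e2 := fun z => LinearMap.congr_fun (L4_L6 t0 t1 t2 t3 t4 t5 t6 t7 t8) z
    simp only [Module.End.mul_apply] at e1 e2
    rw [← e1, ← e2, ← e2, ← e1, hx]
  refine end_ext fun b => ?_
  rw [Module.End.mul_apply, Module.End.mul_apply]
  by_cases hb : b.val < 7
  · exact key b hb
  · rcases le_7_cases b hb with ⟨c, hc, h⟩ | h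
    · have h' : bb A b = L4 t0 t1 t2 t3 t4 t5 t6 t7 t8 (bb A c) := by
        rw [L4_bb]; rcases h with ⟨rfl, rfl⟩ | ⟨rfl, rfl⟩ | ⟨rfl, rfl⟩ | ⟨rfl, rfl⟩ | ⟨rfl, rfl⟩ | ⟨rfl, rfl⟩ <;> rfl
      rw [h']
      exact h4 _ (key c hc)
    · subst h
      have h' : bb A 13 = L4 t0 t1 t2 t3 t4 t5 t6 t7 t8 (L4 t0 t1 t2 t3 t4 t5 t6 t7 t8 (bb A 4)) := by
        rw [L4_bb]
        change _ = L4 _ _ _ _ _ _ _ _ _ (bb A 10)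
        rw [L4_bb]; rfl
      rw [h']
      exact h4 _ (h4 _ (key 4 (by decide)))

theorem L3_L5 (t0 t1 t2 t3 t4 t5 t6 t7 t8 : A) :
    L3 t0 t1 t2 t3 t4 t5 t6 t7 t8 * L5 t0 t1 t2 t3 t4 t5 t6 t7 t8 = L5 t0 t1 t2 t3 t4 t5 t6 t7 t8 * L3 t0 t1 t2 t3 t4 t5 t6 t7 t8 := by
  have key : ∀ b : Fin 14, b.val < 7 → L3 t0 t1 t2 t3 t4 t5 t6 t7 t8 (L5 t0 t1 t2 t3 t4 t5 t6 t7 t8 (bb A b)) =
      L5 t0 t1 t2 t3 t4 t5 t6 t7 t8 (L3 t0 t1 t2 t3 t4 t5 t6 t7 t8 (bb A b)) := by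
    intro b hb
    rw [L5_bb, L3_bb, map_col5, map_col3]
    simp only [L5_bb, L3_bb]
    exact (comm35 _ _ _ _ _ _ _ _ _ _ _ hb).symm
  have h4 : ∀ x, L3 t0 t1 t2 t3 t4 t5 t6 t7 t8 (L5 t0 t1 t2 t3 t4 t5 t6 t7 t8 x) = L5 t0 t1 t2 t3 t4 t5 t6 t7 t8 (L3 t0 t1 t2 t3 t4 t5 t6 t7 t8 x) →
      L3 t0 t1 t2 t3 t4 t5 t6 t7 t8 (L5 t0 t1 t2 t3 t4 t5 t6 t7 t8 (L4 t0 t1 t2 t3 t4 t5 t6 t7 t8 x)) = L5 t0 t1 t2 t3 t4 t5 t6 t7 t8 (L3 t0 t1 t2 t3 t4 t5 t6 t7 t8 (L4 t0 t1 t2 t3 t4 t5 t6 t7 t8 x)) := by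
    intro x hx
    have e1 := fun z => LinearMap.congr_fun (L4_L3 t0 t1 t2 t3 t4 t5 t6 t7 t8) z
    have e2 := fun z => LinearMap.congr_fun (L4_L5 t0 t1 t2 t3 t4 t5 t6 t7 t8) z
    simp only [Module.End.mul_apply] at e1 e2
    rw [← e1, ← e2, ← e2, ← e1, hx]
  refine end_ext fun b => ?_
  rw [Module.End.mul_apply, Module.End.mul_apply]
  by_cases hb : b.val < 7
  · exact key b hb
  · rcases le_7_cases b hb with ⟨c, hc, h⟩ | h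
    · have h' : bb A b = L4 t0 t1 t2 t3 t4 t5 t6 t7 t8 (bb A c) := by
        rw [L4_bb]; rcases h with ⟨rfl, rfl⟩ | ⟨rfl, rfl⟩ | ⟨rfl, rfl⟩ | ⟨rfl, rfl⟩ | ⟨rfl, rfl⟩ | ⟨rfl, rfl⟩ <;> rfl
      rw [h']
      exact h4 _ (key c hc)
    · subst h
      have h' : bb A 13 = L4 t0 t1 t2 t3 t4 t5 t6 t7 t8 (L4 t0 t1 t2 t3 t4 t5 t6 t7 t8 (bb A 4)) := by
        rw [L4_bb]
        change _ = L4 _ _ _ _ _ _ _ _ _ (bb A 10)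
        rw [L4_bb]; rfl
      rw [h']
      exact h4 _ (h4 _ (key 4 (by decide)))

theorem L3_L6 (t0 t1 t2 t3 t4 t5 t6 t7 t8 : A) :
    L3 t0 t1 t2 t3 t4 t5 t6 t7 t8 * L6 t0 t1 t2 t3 t4 t5 t6 t7 t8 = L6 t0 t1 t2 t3 t4 t5 t6 t7 t8 * L3 t0 t1 t2 t3 t4 t5 t6 t7 t8 := by
  have key : ∀ b : Fin 14, b.val < 7 → L3 t0 t1 t2 t3 t4 t5 t6 t7 t8 (L6 t0 t1 t2 t3 t4 t5 t6 t7 t8 (bb A b)) =
      L6 t0 t1 t2 t3 t4 t5 t6 t7 t8 (L3 t0 t1 t2 t3 t4 t5 t6 t7 t8 (bb A b)) := by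
    intro b hb
    rw [L6_bb, L3_bb, map_col6, map_col3]
    simp only [L6_bb, L3_bb]
    exact (comm36 _ _ _ _ _ _ _ _ _ _ _ hb).symm
  have h4 : ∀ x, L3 t0 t1 t2 t3 t4 t5 t6 t7 t8 (L6 t0 t1 t2 t3 t4 t5 t6 t7 t8 x) = L6 t0 t1 t2 t3 t4 t5 t6 t7 t8 (L3 t0 t1 t2 t3 t4 t5 t6 t7 t8 x) →
      L3 t0 t1 t2 t3 t4 t5 t6 t7 t8 (L6 t0 t1 t2 t3 t4 t5 t6 t7 t8 (L4 t0 t1 t2 t3 t4 t5 t6 t7 t8 x)) = L6 t0 t1 t2 t3 t4 t5 t6 t7 t8 (L3 t0 t1 t2 t3 t4 t5 t6 t7 t8 (L4 t0 t1 t2 t3 t4 t5 t6 t7 t8 x)) := by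
    intro x hx
    have e1 := fun z => LinearMap.congr_fun (L4_L3 t0 t1 t2 t3 t4 t5 t6 t7 t8) z
    have e2 := fun z => LinearMap.congr_fun (L4_L6 t0 t1 t2 t3 t4 t5 t6 t7 t8) z
    simp only [Module.End.mul_apply] at e1 e2
    rw [← e1, ← e2, ← e2, ← e1, hx]
  refine end_ext fun b => ?_
  rw [Module.End.mul_apply, Module.End.mul_apply]
  by_cases hb : b.val < 7
  · exact key b hb
  · rcases le_7_cases b hb with ⟨c, hc, h⟩ | h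
    · have h' : bb A b = L4 t0 t1 t2 t3 t4 t5 t6 t7 t8 (bb A c) := by
        rw [L4_bb]; rcases h with ⟨rfl, rfl⟩ | ⟨rfl, rfl⟩ | ⟨rfl, rfl⟩ | ⟨rfl, rfl⟩ | ⟨rfl, rfl⟩ | ⟨rfl, rfl⟩ <;> rfl
      rw [h']
      exact h4 _ (key c hc)
    · subst h
      have h' : bb A 13 = L4 t0 t1 t2 t3 t4 t5 t6 t7 t8 (L4 t0 t1 t2 t3 t4 t5 t6 t7 t8 (bb A 4)) := by
        rw [L4_bb]
        change _ = L4 _ _ _ _ _ _ _ _ _ (bb A 10)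
        rw [L4_bb]; rfl
      rw [h']
      exact h4 _ (h4 _ (key 4 (by decide)))

theorem L5_L6 (t0 t1 t2 t3 t4 t5 t6 t7 t8 : A) :
    L5 t0 t1 t2 t3 t4 t5 t6 t7 t8 * L6 t0 t1 t2 t3 t4 t5 t6 t7 t8 = L6 t0 t1 t2 t3 t4 t5 t6 t7 t8 * L5 t0 t1 t2 t3 t4 t5 t6 t7 t8 := by
  have key : ∀ b : Fin 14, b.val < 7 → L5 t0 t1 t2 t3 t4 t5 t6 t7 t8 (L6 t0 t1 t2 t3 t4 t5 t6 t7 t8 (bb A b)) =
      L6 t0 t1 t2 t3 t4 t5 t6 t7 t8 (L5 t0 t1 t2 t3 t4 t5 t6 t7 t8 (bb A b)) := by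
    intro b hb
    rw [L6_bb, L5_bb, map_col6, map_col5]
    simp only [L6_bb, L5_bb]
    exact (comm56 _ _ _ _ _ _ _ _ _ _ _ hb).symm
  have h4 : ∀ x, L5 t0 t1 t2 t3 t4 t5 t6 t7 t8 (L6 t0 t1 t2 t3 t4 t5 t6 t7 t8 x) = L6 t0 t1 t2 t3 t4 t5 t6 t7 t8 (L5 t0 t1 t2 t3 t4 t5 t6 t7 t8 x) →
      L5 t0 t1 t2 t3 t4 t5 t6 t7 t8 (L6 t0 t1 t2 t3 t4 t5 t6 t7 t8 (L4 t0 t1 t2 t3 t4 t5 t6 t7 t8 x)) = L6 t0 t1 t2 t3 t4 t5 t6 t7 t8 (L5 t0 t1 t2 t3 t4 t5 t6 t7 t8 (L4 t0 t1 t2 t3 t4 t5 t6 t7 t8 x)) := by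
    intro x hx
    have e1 := fun z => LinearMap.congr_fun (L4_L5 t0 t1 t2 t3 t4 t5 t6 t7 t8) z
    have e2 := fun z => LinearMap.congr_fun (L4_L6 t0 t1 t2 t3 t4 t5 t6 t7 t8) z
    simp only [Module.End.mul_apply] at e1 e2
    rw [← e1, ← e2, ← e2, ← e1, hx]
  refine end_ext fun b => ?_
  rw [Module.End.mul_apply, Module.End.mul_apply]
  by_cases hb : b.val < 7
  · exact key b hb
  · rcases le_7_cases b hb with ⟨c, hc, h⟩ | h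
    · have h' : bb A b = L4 t0 t1 t2 t3 t4 t5 t6 t7 t8 (bb A c) := by
        rw [L4_bb]; rcases h with ⟨rfl, rfl⟩ | ⟨rfl, rfl⟩ | ⟨rfl, rfl⟩ | ⟨rfl, rfl⟩ | ⟨rfl, rfl⟩ | ⟨rfl, rfl⟩ <;> rfl
      rw [h']
      exact h4 _ (key c hc)
    · subst h
      have h' : bb A 13 = L4 t0 t1 t2 t3 t4 t5 t6 t7 t8 (L4 t0 t1 t2 t3 t4 t5 t6 t7 t8 (bb A 4)) := by
        rw [L4_bb]
        change _ = L4 _ _ _ _ _ _ _ _ _ (bb A 10)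
        rw [L4_bb]; rfl
      rw [h']
      exact h4 _ (h4 _ (key 4 (by decide)))


end Pool.Agent.J4.H15
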