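import Mathlib.Tactic.Ring
import Mathlib.Tactic.FinCases
import Mathlib.Data.Fintype.Basic
import Mathlib.Algebra.Module.Pi
import Mathlib.Algebra.Module.LinearMap.Basic

/-!
# Tables for the multiplication by the `y i` on the fourteen basis elements

The basis elements are `1`, `y1`, ..., `y6`, `y4 y1`, ..., `y4 y6`, `y4 ^ 3`, in this order.
-/

set_option autoImplicit false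
set_option linter.unusedVariables false
set_option maxRecDepth 100000

namespace Pool.Agent.J4.H15

variable {A : Type*} [CommRing A] {M : Type*} [AddCommGroup M] [Module A M]

/-- the product of `y1` with the basis elements -/
def col1 (t0 t1 t2 t3 t4 t5 t6 t7 t8 : A) (e : Fin 14 → M) (b : Fin 14) : M :=
  match b with
  | 0 => e 1
  | 1 => (t2) • e 1 + ( - t1) • e 2 + (t0) • e 4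
  | 2 => (t3) • e 1 + ( - t1) • e 3 + (t0) • e 5
  | 3 => (t0*t6 - t1*t5) • e 0 + (t4) • e 1 + (t1) • e 5 + ( - t0) • e 6 + (( - 1 : A)) • e 7
  | 4 => e 7
  | 5 => ( - t3) • e 4 + (t2) • e 5 + ( - t1) • e 6 + e 8
  | 6 => (t1*t7 - t2*t6) • e 0 + (t6) • e 1 + (t4) • e 4 + (t2) • e 6 + (( - 1 : A)) • e 9 + (( - 1 : A)) • e 10
  | 7 => (t2) • e 7 + ( - t1) • e 8 + (t0) • e 10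
  | 8 => (t3) • e 7 + ( - t1) • e 9 + (t0) • e 11
  | 9 => (t0*t2*t8 - t0*t3*t7 - t1^2*t8 - t1*t2*t7 + t1*t3*t6 + t2^2*t6) • e 0 + ( - 2*t1*t7 - t2*t6) • e 1 + (t0*t7 + t1*t6) • e 2 + ( - t0*t6) • e 3 + ( - 2*t1*t5 - t2*t4 - t3^2) • e 4 + (t0*t5 - t1*t4 + t2*t3) • e 5 + (t0*t4 - 2*t1*t3 - t2^2) • e 6 + (t3) • e 8 + (t2) • e 9 + (t2) • e 10 + (3*t1) • e 11 + ( - 2*t0) • e 12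
  | 10 => ( - t0*t2*t8 + t0*t3*t7 + t1^2*t8 + t1*t2*t7 - t1*t3*t6 - t2^2*t6) • e 0 + (2*t1*t7 + t2*t6) • e 1 + ( - t0*t7 - t1*t6) • e 2 + (t0*t6) • e 3 + (t0*t6 + t1*t5 + t2*t4 + t3^2) • e 4 + ( - t0*t5 + t1*t4 - t2*t3) • e 5 + ( - t0*t4 + 2*t1*t3 + t2^2) • e 6 + (t4) • e 7 + ( - t3) • e 8 + ( - t2) • e 9 + ( - t2) • e 10 + ( - 2*t1) • e 11 + (t0) • e 12
  | 11 => ( - t1*t2*t8 + 2*t1*t3*t7 - t2*t3*t6) • e 0 + (t1*t8 + t2*t7) • e 1 + (t0*t8 - 2*t1*t7) • e 2 + ( - t0*t7 + t1*t6) • e 3 + (t0*t7 + t3*t4) • e 4 + ( - t0*t6) • e 5 + (t0*t5 - t1*t4 + t2*t3) • e 6 + (t5) • e 7 + ( - t3) • e 9 + ( - t3) • e 10 + (t1) • e 12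
  | 12 => ( - t0*t6^2 + t1*t4*t7 + t1*t5*t6 - t2^2*t8 + t2*t3*t7 - t2*t4*t6) • e 0 + (t2*t8) • e 1 + (t1*t8 - t2*t7) • e 2 + ( - 2*t1*t7 + t2*t6) • e 3 + ( - t1*t7 + t2*t6 - t3*t5 + t4^2) • e 4 + (t0*t7 - t1*t6) • e 5 + (t0*t6) • e 6 + (t5) • e 8 + ( - t4) • e 9 + ( - 2*t4) • e 10 + (t3) • e 11 + e 13
  | 13 => ( - t0^2*t6*t8 + t0^2*t7^2 + t0*t1*t5*t8 + 3*t0*t1*t6*t7 - t0*t2*t4*t8 - t0*t2*t5*t7 - 2*t0*t2*t6^2 + t0*t3*t4*t7 + t1^2*t4*t8 - 4*t1^2*t5*t7 + t1*t2*t3*t8 + 2*t1*t2*t4*t7 + 3*t1*t2*t5*t6 - 2*t1*t3^2*t7 - t1*t3*t4*t6 - t2^3*t8 + t2^2*t3*t7 - 2*t2^2*t4*t6 + t2*t3^2*t6) • e 0 + ( - t0*t4*t8 + 2*t0*t5*t7 + t0*t6^2 - 3*t1*t3*t8 + 4*t1*t4*t7 - 2*t1*t5*t6 + t2^2*t8 - t2*t3*t7 + t2*t4*t6) • e 1 + ( - 2*t0*t3*t8 - t0*t5*t6 + 3*t1*t2*t8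 + 2*t1*t3*t7 - t1*t4*t6 - t2^2*t7) • e 2 + (t0*t2*t8 + t0*t3*t7 + t0*t4*t6 + 2*t1^2*t8 - 4*t1*t2*t7 - t1*t3*t6 + t2^2*t6) • e 3 + (t0*t3*t7 + 2*t0*t4*t6 + t0*t5^2 - t1^2*t8 - t1*t2*t7 - t1*t3*t6 - t1*t4*t5 + t2^2*t6 - t2*t3*t5 + 2*t2*t4^2) • e 4 + ( - 3*t0*t1*t8 + t0*t3*t6 - t0*t4*t5 + 4*t1^2*t7 - t1*t2*t6 + t1*t4^2 - t2*t3*t4) • e 5 + (2*t0*t2*t6 - t0*t3*t5 - t0*t4^2 - 2*t1^2*t6 + 3*t1*t3*t4 + t2^2*t4 - t2*t3^2) • e 6 + (t0*t8 - 2*t1*t7 - t3*t5 + t4^2) • e 7 + ( - 3*t0*t7 + t1*t6 + t2*t5 - t3*t4) • e 8 + (2*t1*t5 - 2*t2*t4 + t3^2) • e 9 + (t1*t5 - 3*t2*t4 + t3^2) • e 10 + ( - 2*t0*t5 - t1*t4 + t2*t3) • e 11 + (t0*t4 - 2*t1*t3) • e 12 + (t2) • e 13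

/-- the product of `y2` with the basis elements -/
def col2 (t0 t1 t2 t3 t4 t5 t6 t7 t8 : A) (e : Fin 14 → M) (b : Fin 14) : M :=
  match b with
  | 0 => e 2
  | 1 => (t3) • e 1 + ( - t1) • e 3 + (t0) • e 5
  | 2 => (t0*t6 - t1*t5) • e 0 + (t4) • e 1 + (t3) • e 2 + ( - t2) • e 3 + (t1) • e 5 + (( - 1 : A)) • e 7
  | 3 => (t0*t7 - t2*t5) • e 0 + (t5) • e 1 + (t4) • e 2 + (t3) • e 4 + (t1) • e 6 + (( - 2 : A)) • e 8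
  | 4 => e 8
  | 5 => (t1*t7 - t2*t6) • e 0 + (t6) • e 1 + (t4) • e 4 + (t2) • e 6 + (( - 1 : A)) • e 10
  | 6 => ( - t7) • e 1 + (t6) • e 2 + ( - t5) • e 4 + e 11
  | 7 => (t3) • e 7 + ( - t1) • e 9 + (t0) • e 11
  | 8 => (t0*t2*t8 - t0*t3*t7 - t1^2*t8 - t1*t2*t7 + t1*t3*t6 + t2^2*t6) • e 0 + ( - 2*t1*t7 - t2*t6) • e 1 + (t0*t7 + t1*t6) • e 2 + ( - t0*t6) • e 3 + ( - 2*t1*t5 - t2*t4 - t3^2) • e 4 + (t0*t5 - t1*t4 + t2*t3) • e 5 + (t0*t4 - 2*t1*t3 - t2^2) • e 6 + (2*t3) • e 8 + (t2) • e 10 + (3*t1) • e 11 + ( - t0) • e 12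
  | 9 => (2*t1*t2*t8 - 4*t1*t3*t7 + 2*t2*t3*t6) • e 0 + ( - 2*t1*t8 - 2*t2*t7) • e 1 + ( - 2*t0*t8 + 4*t1*t7) • e 2 + (2*t0*t7 - 2*t1*t6) • e 3 + ( - t0*t7 - t2*t5 - 2*t3*t4) • e 4 + (2*t0*t6) • e 5 + ( - 2*t0*t5 + 2*t1*t4 - 2*t2*t3) • e 6 + ( - t5) • e 7 + (t4) • e 8 + (2*t3) • e 9 + (t3) • e 10 + (2*t2) • e 11 + ( - 3*t1) • e 12
  | 10 => ( - t1*t2*t8 + 2*t1*t3*t7 - t2*t3*t6) • e 0 + (t1*t8 + t2*t7) • e 1 + (t0*t8 - 2*t1*t7) • e 2 + ( - t0*t7 + t1*t6) • e 3 + (t0*t7 + t3*t4) • e 4 + ( - t0*t6) • e 5 + (t0*t5 - t1*t4 + t2*t3) • e 6 + (t5) • e 7 + ( - t3) • e 9 + ( - t2) • e 11 + (2*t1) • e 12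
  | 11 => (t1*t7 - t2*t6) • e 4 + (t6) • e 7 + (t4) • e 10 + (t2) • e 12 + (( - 1 : A)) • e 13
  | 12 => ( - t0*t6*t7 + 2*t1*t5*t7 - t2*t5*t6) • e 0 + (t3*t8 - t4*t7 + t5*t6) • e 1 + ( - t2*t8) • e 2 + ( - t1*t8 + t2*t7) • e 3 + (t1*t8 + t4*t5) • e 4 + (t0*t8 - 2*t1*t7) • e 5 + (t0*t7 + t1*t6) • e 6 + (t7) • e 7 + ( - t5) • e 9 + ( - t5) • e 10 + (t3) • e 12
  | 13 => ( - 2*t0*t1*t6*t8 + 2*t0*t1*t7^2 - t0*t2*t5*t8 + t0*t2*t6*t7 + t0*t3*t5*t7 - t0*t3*t6^2 + 3*t1^2*t5*t8 + 2*t1^2*t6*t7 - 3*t1*t2*t5*t7 - 2*t1*t2*t6^2 + t1*t3*t4*t7 - t2^2*t3*t8 + t2*t3^2*t7 - t2*t3*t4*t6) • e 0 + ( - 2*t1*t4*t8 + 6*t1*t5*t7 + 2*t1*t6^2 + t2*t4*t7) • e 1 + ( - t0*t5*t7 - t1*t3*t8 + 2*t1*t4*t7 - 3*t1*t5*t6 + t2^2*t8 - t2*t3*t7) • e 2 + (t0*t5*t6 + 3*t1*t2*t8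 - 2*t1*t3*t7 - t2^2*t7 + t2*t3*t6) • e 3 + (t0*t5*t6 + 2*t1*t3*t7 + 2*t1*t4*t6 + 3*t1*t5^2 + t2*t3*t6 + t3*t4^2) • e 4 + ( - t0*t2*t8 + t0*t3*t7 - t0*t5^2 - 2*t1^2*t8 - t1*t3*t6 + t1*t4*t5 - t2*t3*t5) • e 5 + ( - t0*t2*t7 + t0*t3*t6 - t0*t4*t5 + 4*t1^2*t7 + t1*t2*t6 + 2*t1*t3*t5 + t2^2*t5) • e 6 + (3*t1*t8 - t2*t7 - t3*t6 + t4*t5) • e 7 + (t0*t8 - 6*t1*t7 + t2*t6) • e 8 + ( - t0*t7 - t1*t6 - t3*t4) • e 9 + (t0*t7 - 2*t1*t6 - t2*t5 - 2*t3*t4) • e 10 + ( - t0*t6 - 4*t1*t5 + t3^2) • e 11 + (2*t0*t5 + t1*t4 - t2*t3) • e 12 + (2*t3) • e 13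

/-- the product of `y3` with the basis elements -/
def col3 (t0 t1 t2 t3 t4 t5 t6 t7 t8 : A) (e : Fin 14 → M) (b : Fin 14) : M :=
  match b with
  | 0 => e 3
  | 1 => (t0*t6 - t1*t5) • e 0 + (t4) • e 1 + (t1) • e 5 + ( - t0) • e 6 + (( - 1 : A)) • e 7
  | 2 => (t0*t7 - t2*t5) • e 0 + (t5) • e 1 + (t4) • e 2 + (t3) • e 4 + (t1) • e 6 + (( - 2 : A)) • e 8
  | 3 => (t0*t8 - t1*t7 + t2*t6 - t3*t5) • e 0 + ( - t6) • e 1 + (t5) • e 2 + (t4) • e 3 + ( - t4) • e 4 + (t3) • e 5 + ( - t2) • e 6 + (( - 1 : A)) • e 9 + e 10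
  | 4 => e 9
  | 5 => (t1*t8 - t3*t6) • e 0 + (t7) • e 1 + (t5) • e 4 + (t4) • e 5 + (t3) • e 6 + (( - 2 : A)) • e 11
  | 6 => (t2*t8 - t3*t7) • e 0 + ( - t8) • e 1 + (t7) • e 2 + (t4) • e 6 + (( - 1 : A)) • e 12
  | 7 => (t0*t2*t8 - t0*t3*t7 - t1^2*t8 - t1*t2*t7 + t1*t3*t6 + t2^2*t6) • e 0 + ( - 2*t1*t7 - t2*t6) • e 1 + (t0*t7 + t1*t6) • e 2 + ( - t0*t6) • e 3 + ( - 2*t1*t5 - t2*t4 - t3^2) • e 4 + (t0*t5 - t1*t4 + t2*t3) • e 5 + (t0*t4 - 2*t1*t3 - t2^2) • e 6 + (t3) • e 8 + (t2) • e 9 + (t2) • e 10 + (3*t1) • e 11 + ( - 2*t0) • e 12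
  | 8 => (2*t1*t2*t8 - 4*t1*t3*t7 + 2*t2*t3*t6) • e 0 + ( - 2*t1*t8 - 2*t2*t7) • e 1 + ( - 2*t0*t8 + 4*t1*t7) • e 2 + (2*t0*t7 - 2*t1*t6) • e 3 + ( - t0*t7 - t2*t5 - 2*t3*t4) • e 4 + (2*t0*t6) • e 5 + ( - 2*t0*t5 + 2*t1*t4 - 2*t2*t3) • e 6 + ( - t5) • e 7 + (t4) • e 8 + (2*t3) • e 9 + (t3) • e 10 + (2*t2) • e 11 + ( - 3*t1) • e 12
  | 9 => ( - t0*t6^2 + t1*t4*t7 + t1*t5*t6 - t2^2*t8 + t2*t3*t7 - t2*t4*t6) • e 0 + (t2*t8) • e 1 + (t1*t8 - t2*t7) • e 2 + ( - 2*t1*t7 + t2*t6) • e 3 + (t0*t8 - 3*t1*t7 + 3*t2*t6 - 2*t3*t5 + t4^2) • e 4 + (t0*t7 - t1*t6) • e 5 + (t0*t6) • e 6 + ( - 2*t6) • e 7 + (2*t5) • e 8 + ( - 4*t4) • e 10 + (2*t3) • e 11 + ( - 2*t2) • e 12 + ((3 : A)) • e 13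
  | 10 => (t0*t6^2 - t1*t4*t7 - t1*t5*t6 + t2^2*t8 - t2*t3*t7 + t2*t4*t6) • e 0 + ( - t2*t8) • e 1 + ( - t1*t8 + t2*t7) • e 2 + (2*t1*t7 - t2*t6) • e 3 + (2*t1*t7 - 2*t2*t6 + t3*t5 - t4^2) • e 4 + ( - t0*t7 + t1*t6) • e 5 + ( - t0*t6) • e 6 + (t6) • e 7 + ( - t5) • e 8 + (t4) • e 9 + (3*t4) • e 10 + ( - t3) • e 11 + (t2) • e 12 + (( - 2 : A)) • e 13
  | 11 => (2*t0*t6*t7 - 4*t1*t5*t7 + 2*t2*t5*t6) • e 0 + ( - 2*t3*t8 + 2*t4*t7 - 2*t5*t6) • e 1 + (2*t2*t8) • e 2 + (2*t1*t8 - 2*t2*t7) • e 3 + ( - t1*t8 - t3*t6 - 2*t4*t5) • e 4 + ( - 2*t0*t8 + 4*t1*t7) • e 5 + ( - 2*t0*t7 - 2*t1*t6) • e 6 + ( - 3*t7) • e 7 + (2*t6) • e 8 + (2*t5) • e 9 + (t5) • e 10 + (t4) • e 11 + ( - t3) • e 12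
  | 12 => (t0*t6*t8 - t0*t7^2 - t1*t5*t8 - t1*t6*t7 + t2*t5*t7 + t2*t6^2) • e 0 + (t4*t8 - 2*t5*t7 - t6^2) • e 1 + (t3*t8 - t4*t7 + t5*t6) • e 2 + ( - t2*t8) • e 3 + ( - 2*t3*t7 - t4*t6 - t5^2) • e 4 + (t1*t8 + t2*t7) • e 5 + ( - 2*t1*t7 - t2*t6) • e 6 + ( - 2*t8) • e 7 + (3*t7) • e 8 + (t6) • e 9 + (t6) • e 10 + (t5) • e 11
  | 13 => ( - 4*t0*t2*t6*t8 + t0*t2*t7^2 + t0*t4*t6^2 + t1^2*t6*t8 - 4*t1^2*t7^2 + 4*t1*t2*t6*t7 + 8*t1*t3*t5*t7 - t1*t3*t6^2 - t1*t4^2*t7 - t1*t4*t5*t6 + t2^2*t4*t8 - t2^2*t5*t7 - t2*t3*t4*t7 - 4*t2*t3*t5*t6 + t2*t4^2*t6) • e 0 + (2*t0*t6*t8 - 2*t0*t7^2 + t1*t5*t8 - 4*t1*t6*t7 - 2*t2*t4*t8 + 3*t2*t5*t7 + 3*t3^2*t8 - 3*t3*t4*t7 + 3*t3*t5*t6) • e 1 + (3*t0*t5*t8 - t0*t6*t7 - 3*t1*t4*t8 - 2*t1*t5*t7 + t1*t6^2 -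 2*t2*t3*t8 + 2*t2*t4*t7 - t2*t5*t6) • e 2 + ( - 3*t0*t5*t7 + t0*t6^2 - 3*t1*t3*t8 + 4*t1*t4*t7 + t1*t5*t6 + t2^2*t8 + t2*t3*t7 - t2*t4*t6) • e 3 + (2*t0*t4*t8 - t0*t5*t7 - t1*t3*t8 - 3*t1*t4*t7 - t2*t4*t6 + t2*t5^2 + t3^2*t6 + 5*t3*t4*t5 - t4^3) • e 4 + (3*t0*t3*t8 - 3*t0*t4*t7 - 2*t0*t5*t6 - t1*t2*t8 - 2*t1*t3*t7 + 2*t1*t4*t6 + t2^2*t7 - t2*t3*t6) • e 5 + (2*t0*t2*t8 + t0*t3*t7 - 2*t0*t4*t6 + 3*t0*t5^2 - 2*t1^2*t8 - 4*t1*t2*t7 + 3*t1*t3*t6 - 3*t1*t4*t5 + 3*t2*t3*t5) • e 6 + (4*t3*t7 + t5^2) • e 7 + (5*t1*t8 - t2*t7 - 2*t3*t6 - t4*t5) • e 8 + ( - 2*t1*t7 + t2*t6 - 4*t3*t5 + t4^2) • e 9 + ( - 2*t0*t8 + 4*t1*t7 - 3*t3*t5 + 2*t4^2) • e 10 + (5*t0*t7 - t1*t6 - 2*t2*t5 - t3*t4) • e 11 + (4*t1*t5 + t3^2) • e 12 + ( - t4) • e 13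

/-- the product of `y4` with the basis elements -/
def col4 (t0 t1 t2 t3 t4 t5 t6 t7 t8 : A) (e : Fin 14 → M) (b : Fin 14) : M :=
  match b with
  | 0 => e 4
  | 1 => e 7
  | 2 => e 8
  | 3 => e 9
  | 4 => e 10
  | 5 => e 11
  | 6 => e 12
  | 7 => ( - t0*t2*t8 + t0*t3*t7 + t1^2*t8 + t1*t2*t7 - t1*t3*t6 - t2^2*t6) • e 0 + (2*t1*t7 + t2*t6) • e 1 + ( - t0*t7 - t1*t6) • e 2 + (t0*t6) • e 3 + (t0*t6 + t1*t5 + t2*t4 + t3^2) • e 4 + ( - t0*t5 + t1*t4 - t2*t3) • e 5 + ( - t0*t4 + 2*t1*t3 + t2^2) • e 6 + (t4) • e 7 + ( - t3) • e 8 + ( - t2) • e 9 + ( - t2) • e 10 + ( - 2*t1) • e 11 + (t0) • e 12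
  | 8 => ( - t1*t2*t8 + 2*t1*t3*t7 - t2*t3*t6) • e 0 + (t1*t8 + t2*t7) • e 1 + (t0*t8 - 2*t1*t7) • e 2 + ( - t0*t7 + t1*t6) • e 3 + (t0*t7 + t3*t4) • e 4 + ( - t0*t6) • e 5 + (t0*t5 - t1*t4 + t2*t3) • e 6 + (t5) • e 7 + ( - t3) • e 9 + ( - t2) • e 11 + (2*t1) • e 12
  | 9 => (t0*t6^2 - t1*t4*t7 - t1*t5*t6 + t2^2*t8 - t2*t3*t7 + t2*t4*t6) • e 0 + ( - t2*t8) • e 1 + ( - t1*t8 + t2*t7) • e 2 + (2*t1*t7 - t2*t6) • e 3 + (2*t1*t7 - 2*t2*t6 + t3*t5 - t4^2) • e 4 + ( - t0*t7 + t1*t6) • e 5 + ( - t0*t6) • e 6 + (t6) • e 7 + ( - t5) • e 8 + (t4) • e 9 + (3*t4) • e 10 + ( - t3) • e 11 + (t2) • e 12 + (( - 2 : A)) • e 13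
  | 10 => e 13
  | 11 => ( - t0*t6*t7 + 2*t1*t5*t7 - t2*t5*t6) • e 0 + (t3*t8 - t4*t7 + t5*t6) • e 1 + ( - t2*t8) • e 2 + ( - t1*t8 + t2*t7) • e 3 + (t1*t8 + t4*t5) • e 4 + (t0*t8 - 2*t1*t7) • e 5 + (t0*t7 + t1*t6) • e 6 + (2*t7) • e 7 + ( - t6) • e 8 + ( - t5) • e 9 + (t3) • e 12
  | 12 => ( - t0*t6*t8 + t0*t7^2 + t1*t5*t8 + t1*t6*t7 - t2*t5*t7 - t2*t6^2) • e 0 + ( - t4*t8 + 2*t5*t7 + t6^2) • e 1 + ( - t3*t8 + t4*t7 - t5*t6) • e 2 + (t2*t8) • e 3 + (t2*t8 + t3*t7 + t4*t6 + t5^2) • e 4 + ( - t1*t8 - t2*t7) • e 5 + (2*t1*t7 + t2*t6) • e 6 + (t8) • e 7 + ( - 2*t7) • e 8 + ( - t6) • e 9 + ( - t6) • e 10 + ( - t5) • e 11 + (t4) • e 12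
  | 13 => (t0*t2*t6*t8 + t0*t3*t6*t7 + 2*t1^2*t7^2 + t1*t2*t5*t8 - t1*t2*t6*t7 - 6*t1*t3*t5*t7 - t2^2*t6^2 + 3*t2*t3*t5*t6) • e 0 + ( - t0*t6*t8 + t0*t7^2 - t1*t5*t8 + 3*t1*t6*t7 - t2*t5*t7 + t2*t6^2 - 2*t3^2*t8 + 2*t3*t4*t7 - 2*t3*t5*t6) • e 1 + ( - 2*t0*t5*t8 + t1*t4*t8 + 2*t1*t5*t7 - t1*t6^2 + t2*t3*t8) • e 2 + (2*t0*t5*t7 + 2*t1*t3*t8 - t1*t4*t7 - t1*t5*t6 - t2*t3*t7) • e 3 + ( - t0*t4*t8 + t0*t6^2 + 2*t1*t4*t7 + t2^2*t8 + t2*t4*t6 - 3*t3*t4*t5) • e 4 + ( - 2*t0*t3*t8 + t0*t4*t7 + t0*t5*t6 + 2*t1*t3*t7 - t2^2*t7) • e 5 + ( - t0*t2*t8 - t0*t3*t7 - 2*t0*t5^2 + t1^2*t8 + 3*t1*t2*t7 - t1*t3*t6 + 2*t1*t4*t5 + t2^2*t6 - 2*t2*t3*t5) • e 6 + ( - 3*t3*t7 + t4*t6 - t5^2) • e 7 + ( - 3*t1*t8 + t3*t6) • e 8 + (2*t1*t7 - 2*t2*t6 + 3*t3*t5)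 • e 9 + (t0*t8 - t1*t7 - 2*t2*t6 + 2*t3*t5) • e 10 + ( - 3*t0*t7 + t2*t5) • e 11 + ( - 3*t1*t5 + t2*t4 - t3^2) • e 12 + (t4) • e 13

/-- the product of `y5` with the basis elements -/
def col5 (t0 t1 t2 t3 t4 t5 t6 t7 t8 : A) (e : Fin 14 → M) (b : Fin 14) : M :=
  match b with
  | 0 => e 5
  | 1 => ( - t3) • e 4 + (t2) • e 5 + ( - t1) • e 6 + e 8
  | 2 => (t1*t7 - t2*t6) • e 0 + (t6) • e 1 + (t4) • e 4 + (t2) • e 6 + (( - 1 : A)) • e 10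
  | 3 => (t1*t8 - t3*t6) • e 0 + (t7) • e 1 + (t5) • e 4 + (t4) • e 5 + (t3) • e 6 + (( - 2 : A)) • e 11
  | 4 => e 11
  | 5 => (t2*t8 - t3*t7) • e 0 + (t7) • e 2 + ( - t6) • e 3 + (t5) • e 5 + (t4) • e 6 + (( - 1 : A)) • e 12
  | 6 => (t8) • e 2 + ( - t7) • e 3 + (t5) • e 6
  | 7 => ( - t1*t2*t8 + 2*t1*t3*t7 - t2*t3*t6) • e 0 + (t1*t8 + t2*t7) • e 1 + (t0*t8 - 2*t1*t7) • e 2 + ( - t0*t7 + t1*t6) • e 3 + (t0*t7 + t3*t4) • e 4 + ( - t0*t6) • e 5 + (t0*t5 - t1*t4 + t2*t3) • e 6 + (t5) • e 7 + ( - t3) • e 9 + ( - t3) • e 10 + (t1) • e 12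
  | 8 => (t1*t7 - t2*t6) • e 4 + (t6) • e 7 + (t4) • e 10 + (t2) • e 12 + (( - 1 : A)) • e 13
  | 9 => (2*t0*t6*t7 - 4*t1*t5*t7 + 2*t2*t5*t6) • e 0 + ( - 2*t3*t8 + 2*t4*t7 - 2*t5*t6) • e 1 + (2*t2*t8) • e 2 + (2*t1*t8 - 2*t2*t7) • e 3 + ( - t1*t8 - t3*t6 - 2*t4*t5) • e 4 + ( - 2*t0*t8 + 4*t1*t7) • e 5 + ( - 2*t0*t7 - 2*t1*t6) • e 6 + ( - 3*t7) • e 7 + (2*t6) • e 8 + (2*t5) • e 9 + (t5) • e 10 + (t4) • e 11 + ( - t3) • e 12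
  | 10 => ( - t0*t6*t7 + 2*t1*t5*t7 - t2*t5*t6) • e 0 + (t3*t8 - t4*t7 + t5*t6) • e 1 + ( - t2*t8) • e 2 + ( - t1*t8 + t2*t7) • e 3 + (t1*t8 + t4*t5) • e 4 + (t0*t8 - 2*t1*t7) • e 5 + (t0*t7 + t1*t6) • e 6 + (2*t7) • e 7 + ( - t6) • e 8 + ( - t5) • e 9 + (t3) • e 12
  | 11 => (t0*t6*t8 - t0*t7^2 - t1*t5*t8 - t1*t6*t7 + t2*t5*t7 + t2*t6^2) • e 0 + (t4*t8 - 2*t5*t7 - t6^2) • e 1 + (t3*t8 - t4*t7 + t5*t6) • e 2 + ( - t2*t8) • e 3 + ( - 2*t3*t7 - t4*t6 - t5^2) • e 4 + (t1*t8 + t2*t7) • e 5 + ( - 2*t1*t7 - t2*t6) • e 6 + ( - t8) • e 7 + (3*t7) • e 8 + (t6) • e 10 + (2*t5) • e 11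
  | 12 => (t8) • e 8 + ( - t7) • e 9 + (t5) • e 12
  | 13 => ( - 2*t0*t2*t7*t8 - t0*t3*t6*t8 + 3*t0*t3*t7^2 - t0*t5*t6^2 + 2*t1^2*t7*t8 + t1*t2*t6*t8 + 2*t1*t2*t7^2 + t1*t3*t5*t8 - 3*t1*t3*t6*t7 + t1*t4*t5*t7 + t1*t5^2*t6 - t2^2*t5*t8 - 2*t2^2*t6*t7 - t2*t4*t5*t6) • e 0 + ( - t1*t6*t8 + 4*t1*t7^2 + t2*t5*t8 + t2*t6*t7 - t3*t4*t8 + 2*t3*t5*t7 + t3*t6^2) • e 1 + ( - t0*t6*t8 - 2*t0*t7^2 + t1*t5*t8 - t2*t5*t7 - t3^2*t8 + t3*t4*t7 - t3*t5*t6) • e 2 + (3*t0*t6*t7 - 2*t1*t5*t7 - t1*t6^2 + t2*t3*t8 + t2*t5*t6) • e 3 + (2*t1*t5*t7 + t2*t3*t8 + 2*t2*t4*t7 + t2*t5*t6 + 3*t3^2*t7 + t4^2*t5) • e 4 + ( - t0*t5*t7 + t0*t6^2 - t1*t3*t8 + 2*t1*t4*t7 - t1*t5*t6 - 3*t2*t3*t7) • e 5 + ( - 2*t0*t4*t7 + 6*t1*t3*t7 + t1*t4*t6 + 2*t2^2*t7) • e 6 + (2*t3*t8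 + t4*t7 - t5*t6) • e 7 + ( - t2*t8 - 4*t3*t7 + t5^2) • e 8 + ( - t1*t8 - t2*t7 - t4*t5) • e 9 + (t1*t8 - 2*t2*t7 - t3*t6 - 2*t4*t5) • e 10 + (t0*t8 - 6*t1*t7 + t2*t6) • e 11 + (3*t0*t7 - t1*t6 - t2*t5 + t3*t4) • e 12 + (2*t5) • e 13

/-- the product of `y6` with the basis elements -/
def col6 (t0 t1 t2 t3 t4 t5 t6 t7 t8 : A) (e : Fin 14 → M) (b : Fin 14) : M :=
  match b with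
  | 0 => e 6
  | 1 => (t1*t7 - t2*t6) • e 0 + (t6) • e 1 + (t4) • e 4 + (t2) • e 6 + (( - 1 : A)) • e 9 + (( - 1 : A)) • e 10
  | 2 => ( - t7) • e 1 + (t6) • e 2 + ( - t5) • e 4 + e 11
  | 3 => (t2*t8 - t3*t7) • e 0 + ( - t8) • e 1 + (t7) • e 2 + (t4) • e 6 + (( - 1 : A)) • e 12
  | 4 => e 12
  | 5 => (t8) • e 2 + ( - t7) • e 3 + (t5) • e 6
  | 6 => (t8) • e 4 + ( - t7) • e 5 + (t6) • e 6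
  | 7 => ( - t0*t6^2 + t1*t4*t7 + t1*t5*t6 - t2^2*t8 + t2*t3*t7 - t2*t4*t6) • e 0 + (t2*t8) • e 1 + (t1*t8 - t2*t7) • e 2 + ( - 2*t1*t7 + t2*t6) • e 3 + ( - t1*t7 + t2*t6 - t3*t5 + t4^2) • e 4 + (t0*t7 - t1*t6) • e 5 + (t0*t6) • e 6 + (t5) • e 8 + ( - t4) • e 9 + ( - 2*t4) • e 10 + (t3) • e 11 + e 13
  | 8 => ( - t0*t6*t7 + 2*t1*t5*t7 - t2*t5*t6) • e 0 + (t3*t8 - t4*t7 + t5*t6) • e 1 + ( - t2*t8) • e 2 + ( - t1*t8 + t2*t7) • e 3 + (t1*t8 + t4*t5) • e 4 + (t0*t8 - 2*t1*t7) • e 5 + (t0*t7 + t1*t6) • e 6 + (t7) • e 7 + ( - t5) • e 9 + ( - t5) • e 10 + (t3) • e 12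
  | 9 => (t0*t6*t8 - t0*t7^2 - t1*t5*t8 - t1*t6*t7 + t2*t5*t7 + t2*t6^2) • e 0 + (t4*t8 - 2*t5*t7 - t6^2) • e 1 + (t3*t8 - t4*t7 + t5*t6) • e 2 + ( - t2*t8) • e 3 + ( - 2*t3*t7 - t4*t6 - t5^2) • e 4 + (t1*t8 + t2*t7) • e 5 + ( - 2*t1*t7 - t2*t6) • e 6 + ( - 2*t8) • e 7 + (3*t7) • e 8 + (t6) • e 9 + (t6) • e 10 + (t5) • e 11
  | 10 => ( - t0*t6*t8 + t0*t7^2 + t1*t5*t8 + t1*t6*t7 - t2*t5*t7 - t2*t6^2) • e 0 + ( - t4*t8 + 2*t5*t7 + t6^2) • e 1 + ( - t3*t8 + t4*t7 - t5*t6) • e 2 + (t2*t8) • e 3 + (t2*t8 + t3*t7 + t4*t6 + t5^2) • e 4 + ( - t1*t8 - t2*t7) • e 5 + (2*t1*t7 + t2*t6) • e 6 + (t8) • e 7 + ( - 2*t7) • e 8 + ( - t6) • e 9 + ( - t6) • e 10 + ( - t5) • e 11 + (t4) • e 12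
  | 11 => (t8) • e 8 + ( - t7) • e 9 + (t5) • e 12
  | 12 => (t8) • e 10 + ( - t7) • e 11 + (t6) • e 12
  | 13 => ( - t0*t2*t8^2 + t0*t3*t7*t8 - t0*t4*t6*t8 + t0*t4*t7^2 + t0*t5*t6*t7 - t0*t6^3 + t1^2*t8^2 + 3*t1*t2*t7*t8 - t1*t3*t6*t8 - 4*t1*t3*t7^2 + t1*t4*t5*t8 + 2*t1*t4*t6*t7 - 2*t1*t5^2*t7 + t1*t5*t6^2 - 2*t2^2*t6*t8 + 3*t2*t3*t6*t7 - t2*t4*t5*t7 - 2*t2*t4*t6^2 + t2*t5^2*t6) • e 0 + (2*t2*t6*t8 - 2*t2*t7^2 - t3*t5*t8 - t4^2*t8 + 3*t4*t5*t7 + t4*t6^2 - t5^2*t6) • e 1 + ( - 3*t0*t7*t8 + 4*t1*t7^2 + t2*t5*t8 - t2*t6*t7 - t3*t4*t8 + t4^2*t7 - t4*t5*t6) • e 2 + (t0*t6*t8 + 2*t0*t7^2 + t1*t5*t8 - 4*t1*t6*t7 + t2*t4*t8 - t2*t5*t7 + t2*t6^2) • e 3 + ( - t0*t7^2 + t1*t5*t8 - t1*t6*t7 + 2*t2*t4*t8 - t2*t5*t7 + t2*t6^2 + t3^2*t8 - t3*t4*t7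 - t3*t5*t6 + 2*t4^2*t6) • e 4 + ( - 2*t0*t5*t8 + 3*t0*t6*t7 + 2*t1*t5*t7 - t1*t6^2 - t2*t3*t8 - t2*t4*t7) • e 5 + ( - t0*t4*t8 - 3*t0*t5*t7 + t0*t6^2 + 2*t1*t3*t8 + 4*t1*t4*t7 - t1*t5*t6 + t2^2*t8 - 2*t2*t3*t7 + t2*t4*t6) • e 6 + (t4*t8 - 2*t5*t7) • e 7 + ( - 2*t3*t8 - t4*t7 + t5*t6) • e 8 + (2*t3*t7 - 2*t4*t6 + t5^2) • e 9 + (t3*t7 - 3*t4*t6 + t5^2) • e 10 + ( - 3*t1*t8 + t2*t7 + t3*t6 - t4*t5) • e 11 + (t0*t8 - 2*t1*t7 - t3*t5 + t4^2) • e 12 + (t6) • e 13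

theorem map_col1 {M' : Type*} [AddCommGroup M'] [Module A M'] (φ : M →ₗ[A] M')
    (t0 t1 t2 t3 t4 t5 t6 t7 t8 : A) (e : Fin 14 → M) (b : Fin 14) :
    φ (col1 t0 t1 t2 t3 t4 t5 t6 t7 t8 e b) = col1 t0 t1 t2 t3 t4 t5 t6 t7 t8 (fun c => φ (e c)) b := by
  fin_cases b <;> simp only [col1, map_add, map_smul]

theorem map_col2 {M' : Type*} [AddCommGroup M'] [Module A M'] (φ : M →ₗ[A] M')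
    (t0 t1 t2 t3 t4 t5 t6 t7 t8 : A) (e : Fin 14 → M) (b : Fin 14) :
    φ (col2 t0 t1 t2 t3 t4 t5 t6 t7 t8 e b) = col2 t0 t1 t2 t3 t4 t5 t6 t7 t8 (fun c => φ (e c)) b := by
  fin_cases b <;> simp only [col2, map_add, map_smul]

theorem map_col3 {M' : Type*} [AddCommGroup M'] [Module A M'] (φ : M →ₗ[A] M')
    (t0 t1 t2 t3 t4 t5 t6 t7 t8 : A) (e : Fin 14 → M) (b : Fin 14) :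
    φ (col3 t0 t1 t2 t3 t4 t5 t6 t7 t8 e b) = col3 t0 t1 t2 t3 t4 t5 t6 t7 t8 (fun c => φ (e c)) b := by
  fin_cases b <;> simp only [col3, map_add, map_smul]

theorem map_col4 {M' : Type*} [AddCommGroup M'] [Module A M'] (φ : M →ₗ[A] M')
    (t0 t1 t2 t3 t4 t5 t6 t7 t8 : A) (e : Fin 14 → M) (b : Fin 14) :
    φ (col4 t0 t1 t2 t3 t4 t5 t6 t7 t8 e b) = col4 t0 t1 t2 t3 t4 t5 t6 t7 t8 (fun c => φ (e c)) b := by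
  fin_cases b <;> simp only [col4, map_add, map_smul]

theorem map_col5 {M' : Type*} [AddCommGroup M'] [Module A M'] (φ : M →ₗ[A] M')
    (t0 t1 t2 t3 t4 t5 t6 t7 t8 : A) (e : Fin 14 → M) (b : Fin 14) :
    φ (col5 t0 t1 t2 t3 t4 t5 t6 t7 t8 e b) = col5 t0 t1 t2 t3 t4 t5 t6 t7 t8 (fun c => φ (e c)) b := by
  fin_cases b <;> simp only [col5, map_add, map_smul]

theorem map_col6 {M' : Type*} [AddCommGroup M'] [Module A M'] (φ : M →ₗ[A] M')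
    (t0 t1 t2 t3 t4 t5 t6 t7 t8 : A) (e : Fin 14 → M) (b : Fin 14) :
    φ (col6 t0 t1 t2 t3 t4 t5 t6 t7 t8 e b) = col6 t0 t1 t2 t3 t4 t5 t6 t7 t8 (fun c => φ (e c)) b := by
  fin_cases b <;> simp only [col6, map_add, map_smul]

end Pool.Agent.J4.H15
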