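import Pool.Agent.J4.H15.QMats

/-!
# The chart datum attached to a solution of the relations
-/

set_option autoImplicit false
set_option linter.unusedVariables false
set_option linter.unusedSimpArgs false
set_option linter.style.haveILetI false

universe u

namespace Pool.Agent.J4.H15

open Helper226

/-- a chart datum from a representation by matrices -/
noncomputable def chartOfMat {k : Type u} [CommRing k] {B : Type u} [CommRing B] [Algebra k B]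
    {d : ℕ} {b : Fin d → B} {R : Type u} [CommRing R] [Algebra k R]
    (π : B →ₐ[k] Matrix (Fin d) (Fin d) R) (e : Fin d → R) (κ : (Fin d → R) →ₗ[R] (Fin d → R))
    (h1 : ∀ i, κ ((π (b i)).mulVec e) = Pi.single i 1)
    (h2 : ∀ v, v = ∑ j, κ v j • (π (b j)).mulVec e) : Chart k b R where
  q :=
    { toFun := fun x => κ ((π x).mulVec e)
      map_add' := fun x y => by rw [map_add, Matrix.add_mulVec, map_add]
      map_smul' := fun c x => by
        rw [map_smul, Matrix.smul_mulVec, RingHom.id_apply]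
        exact map_smul (κ.restrictScalars k) c _ }
  q_b := h1
  q_mul := by
    intro x y
    have e1 : (π (x * y)).mulVec e = (π y).mulVec ((π x).mulVec e) := by
      rw [mul_comm, map_mul, Matrix.mulVec_mulVec]
    change κ _ = ∑ j, κ _ j • κ _
    rw [e1]
    conv_lhs => rw [h2 ((π x).mulVec e)]
    rw [Matrix.mulVec_sum, map_sum]
    refine Finset.sum_congr rfl fun j _ => ?_
    rw [Matrix.mulVec_smul, map_smul, Matrix.mulVec_mulVec, ← map_mul, mul_comm]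

theorem chartOfMat_q {k : Type u} [CommRing k] {B : Type u} [CommRing B] [Algebra k B]
    {d : ℕ} {b : Fin d → B} {R : Type u} [CommRing R] [Algebra k R]
    (π : B →ₐ[k] Matrix (Fin d) (Fin d) R) (e : Fin d → R) (κ : (Fin d → R) →ₗ[R] (Fin d → R))
    (h1 : ∀ i, κ ((π (b i)).mulVec e) = Pi.single i 1)
    (h2 : ∀ v, v = ∑ j, κ v j • (π (b j)).mulVec e) (x : B) :
    (chartOfMat π e κ h1 h2).q x = κ ((π x).mulVec e) := rfl

open MvPolynomial

/-- the standard frame -/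
noncomputable def stdFrame (k : Type u) [CommRing k] : Fin 4 → MvPolynomial (Fin 3) k :=
  ![1, X 0, X 1, X 2]

/-- structure constants in terms of the coordinates -/
structure SC {R : Type u} [CommRing R] (t0 t1 t2 t3 t4 t5 t6 t7 t8 y1 y2 y3 y4 y5 y6 s1 s2 s3 : R)
    (q : Fin 3 → Fin 3 → Fin 4 → R) : Prop where
  c111 : q 0 0 1 = -t3 - y1 + y2 + s1 + s1
  c112 : q 0 0 2 = t1
  c113 : q 0 0 3 = -t0
  c121 : q 0 1 1 = 0 + s2
  c122 : q 0 1 2 = 0 + s1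
  c123 : q 0 1 3 = -t2 + y1
  c131 : q 0 2 1 = 0 + s3
  c132 : q 0 2 2 = t4 - y3 - y4
  c133 : q 0 2 3 = -t3 + y2 + s1
  c221 : q 1 1 1 = -y6
  c222 : q 1 1 2 = y3 - y4 + s2 + s2
  c223 : q 1 1 3 = -y2
  c231 : q 1 2 1 = -t7
  c232 : q 1 2 2 = t5 - y5 + s3
  c233 : q 1 2 3 = -y4 + s2
  c331 : q 2 2 1 = -t8
  c332 : q 2 2 2 = t6 - y6
  c333 : q 2 2 3 = t5 - 2*y5 + s3 + s3

section

variable {k : Type u} [CommRing k] {R : Type u} [CommRing R] [Algebra k R]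

/-- the representation -/
theorem exists_rep (M : Fin 3 → Matrix (Fin 4) (Fin 4) R) (hM : ∀ i j, M i * M j = M j * M i) :
    ∃ π : MvPolynomial (Fin 3) k →ₐ[k] Matrix (Fin 4) (Fin 4) R, ∀ i, π (X i) = M i := by
  obtain ⟨Q, i1, i2, ι, hι, hs⟩ := exists_comm_of_commute (A := k)
    (E := Matrix (Fin 4) (Fin 4) R) (Set.range M) (by
      rintro _ ⟨i, rfl⟩ _ ⟨j, rfl⟩
      exact hM i j)
  choose f hf using fun i => hs (M i) ⟨i, rfl⟩
  exact ⟨ι.comp (aeval f), fun i => by rw [AlgHom.comp_apply, aeval_X, hf]⟩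

/-- coordinates in the shifted basis -/
noncomputable def kap (s1 s2 s3 : R) : (Fin 4 → R) →ₗ[R] (Fin 4 → R) where
  toFun v := ![v 0 - v 1 * s1 - v 2 * s2 - v 3 * s3, v 1, v 2, v 3]
  map_add' v w := by
    funext i
    fin_cases i
    · change (v 0 + w 0) - (v 1 + w 1) * s1 - (v 2 + w 2) * s2 - (v 3 + w 3) * s3 =
        (v 0 - v 1 * s1 - v 2 * s2 - v 3 * s3) + (w 0 - w 1 * s1 - w 2 * s2 - w 3 * s3)
      ring
    · rfl
    · rfl
    · rfl
  map_smul' c v := by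
    funext i
    fin_cases i
    · change (c * v 0) - (c * v 1) * s1 - (c * v 2) * s2 - (c * v 3) * s3 =
        c * (v 0 - v 1 * s1 - v 2 * s2 - v 3 * s3)
      ring
    · rfl
    · rfl
    · rfl

theorem exists_chart_of_rel {t0 t1 t2 t3 t4 t5 t6 t7 t8 y1 y2 y3 y4 y5 y6 : R}
    (h : Rel t0 t1 t2 t3 t4 t5 t6 t7 t8 y1 y2 y3 y4 y5 y6) (s1 s2 s3 : R) :
    ∃ c : Chart k (stdFrame k) R,
      SC t0 t1 t2 t3 t4 t5 t6 t7 t8 y1 y2 y3 y4 y5 y6 s1 s2 s3
        (fun i j l => c.q (X i * X j) l) := by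
  set N1' := N1 t0 t1 t2 t3 t4 t5 t6 t7 t8 y1 y2 y3 y4 y5 y6 with hN1
  set N2' := N2 t0 t1 t2 t3 t4 t5 t6 t7 t8 y1 y2 y3 y4 y5 y6 with hN2
  set N3' := N3 t0 t1 t2 t3 t4 t5 t6 t7 t8 y1 y2 y3 y4 y5 y6 with hN3
  have h12 : N1' * N2' = N2' * N1' := N1_N2 h
  have h13 : N1' * N3' = N3' * N1' := N1_N3 h
  have h23 : N2' * N3' = N3' * N2' := N2_N3 h
  have hsc : ∀ (A B : Matrix (Fin 4) (Fin 4) R) (a b : R), A * B = B * A →
      (A + a • (1 : Matrix (Fin 4) (Fin 4) R)) * (B + b • (1 : Matrix (Fin 4) (Fin 4) R)) =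
      (B + b • (1 : Matrix (Fin 4) (Fin 4) R)) * (A + a • (1 : Matrix (Fin 4) (Fin 4) R)) := by
    intro A B a b hAB
    simp only [add_mul, mul_add, hAB, Matrix.smul_mul, Matrix.mul_smul, one_mul, mul_one]
    rw [smul_comm a b]
    abel
  obtain ⟨π, hπ⟩ := exists_rep (k := k) (R := R)
    ![N1' + s1 • (1 : Matrix (Fin 4) (Fin 4) R), N2' + s2 • (1 : Matrix (Fin 4) (Fin 4) R),
      N3' + s3 • (1 : Matrix (Fin 4) (Fin 4) R)] (by
      intro i j
      fin_cases i <;> fin_cases j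
      · rfl
      · exact hsc _ _ _ _ h12
      · exact hsc _ _ _ _ h13
      · exact hsc _ _ _ _ h12.symm
      · rfl
      · exact hsc _ _ _ _ h23
      · exact hsc _ _ _ _ h13.symm
      · exact hsc _ _ _ _ h23.symm
      · rfl)
  have p0 : π (X 0) = N1' + s1 • (1 : Matrix (Fin 4) (Fin 4) R) := hπ 0
  have p1 : π (X 1) = N2' + s2 • (1 : Matrix (Fin 4) (Fin 4) R) := hπ 1
  have p2 : π (X 2) = N3' + s3 • (1 : Matrix (Fin 4) (Fin 4) R) := hπ 2
  let e : Fin 4 → R := ![1, 0, 0, 0]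
  have hmv : ∀ (A : Matrix (Fin 4) (Fin 4) R) (v : Fin 4 → R) (a : R),
      (A + a • (1 : Matrix (Fin 4) (Fin 4) R)).mulVec v = A.mulVec v + a • v := by
    intro A v a
    rw [Matrix.add_mulVec, Matrix.smul_mulVec, Matrix.one_mulVec]
  have mv : ∀ (A : Matrix (Fin 4) (Fin 4) R) (v : Fin 4 → R) (i : Fin 4),
      A.mulVec v i = A i 0 * v 0 + A i 1 * v 1 + A i 2 * v 2 + A i 3 * v 3 := by
    intro A v i
    rw [Matrix.mulVec, dotProduct, Fin.sum_univ_four]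
  have w0 : (π (stdFrame k 0)).mulVec e = ![1, 0, 0, 0] := by
    change (π 1).mulVec e = _
    rw [map_one, Matrix.one_mulVec]
  have w1 : (π (stdFrame k 1)).mulVec e = ![s1, 1, 0, 0] := by
    change (π (X 0)).mulVec e = _
    rw [p0, hmv]
    funext i
    rw [Pi.add_apply, mv]
    fin_cases i
    · change 0 * 1 + N1' 0 1 * 0 + N1' 0 2 * 0 + N1' 0 3 * 0 + s1 * 1 = s1
      ring
    · change 1 * 1 + N1' 1 1 * 0 + N1' 1 2 * 0 + N1' 1 3 * 0 + s1 * 0 = 1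
      ring
    · change 0 * 1 + N1' 2 1 * 0 + N1' 2 2 * 0 + N1' 2 3 * 0 + s1 * 0 = 0
      ring
    · change 0 * 1 + N1' 3 1 * 0 + N1' 3 2 * 0 + N1' 3 3 * 0 + s1 * 0 = 0
      ring
  have w2 : (π (stdFrame k 2)).mulVec e = ![s2, 0, 1, 0] := by
    change (π (X 1)).mulVec e = _
    rw [p1, hmv]
    funext i
    rw [Pi.add_apply, mv]
    fin_cases i
    · change 0 * 1 + N2' 0 1 * 0 + N2' 0 2 * 0 + N2' 0 3 * 0 + s2 * 1 = s2
      ring
    · change 0 * 1 + N2' 1 1 * 0 + N2' 1 2 * 0 + N2' 1 3 * 0 + s2 * 0 = 0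
      ring
    · change 1 * 1 + N2' 2 1 * 0 + N2' 2 2 * 0 + N2' 2 3 * 0 + s2 * 0 = 1
      ring
    · change 0 * 1 + N2' 3 1 * 0 + N2' 3 2 * 0 + N2' 3 3 * 0 + s2 * 0 = 0
      ring
  have w3 : (π (stdFrame k 3)).mulVec e = ![s3, 0, 0, 1] := by
    change (π (X 2)).mulVec e = _
    rw [p2, hmv]
    funext i
    rw [Pi.add_apply, mv]
    fin_cases i
    · change 0 * 1 + N3' 0 1 * 0 + N3' 0 2 * 0 + N3' 0 3 * 0 + s3 * 1 = s3
      ring
    · change 0 * 1 + N3' 1 1 * 0 + N3' 1 2 * 0 + N3' 1 3 * 0 + s3 * 0 = 0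
      ring
    · change 0 * 1 + N3' 2 1 * 0 + N3' 2 2 * 0 + N3' 2 3 * 0 + s3 * 0 = 0
      ring
    · change 1 * 1 + N3' 3 1 * 0 + N3' 3 2 * 0 + N3' 3 3 * 0 + s3 * 0 = 1
      ring
  have h1 : ∀ i, kap s1 s2 s3 ((π (stdFrame k i)).mulVec e) = Pi.single i 1 := by
    intro i
    fin_cases i
    · change kap s1 s2 s3 ((π (stdFrame k 0)).mulVec e) = _
      rw [w0]
      funext j
      fin_cases j
      · change (1 : R) - 0 * s1 - 0 * s2 - 0 * s3 = 1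
        ring
      · rfl
      · rfl
      · rfl
    · change kap s1 s2 s3 ((π (stdFrame k 1)).mulVec e) = _
      rw [w1]
      funext j
      fin_cases j
      · change s1 - 1 * s1 - 0 * s2 - 0 * s3 = 0
        ring
      · rfl
      · rfl
      · rfl
    · change kap s1 s2 s3 ((π (stdFrame k 2)).mulVec e) = _
      rw [w2]
      funext j
      fin_cases j
      · change s2 - 0 * s1 - 1 * s2 - 0 * s3 = 0
        ring
      · rfl
      · rfl
      · rfl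
    · change kap s1 s2 s3 ((π (stdFrame k 3)).mulVec e) = _
      rw [w3]
      funext j
      fin_cases j
      · change s3 - 0 * s1 - 0 * s2 - 1 * s3 = 0
        ring
      · rfl
      · rfl
      · rfl
  have h2 : ∀ v, v = ∑ j, kap s1 s2 s3 v j • (π (stdFrame k j)).mulVec e := by
    intro v
    rw [Fin.sum_univ_four, w0, w1, w2, w3]
    funext i
    fin_cases i
    · change v 0 = (v 0 - v 1 * s1 - v 2 * s2 - v 3 * s3) * 1 + v 1 * s1 + v 2 * s2 + v 3 * s3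
      ring
    · change v 1 = (v 0 - v 1 * s1 - v 2 * s2 - v 3 * s3) * 0 + v 1 * 1 + v 2 * 0 + v 3 * 0
      ring
    · change v 2 = (v 0 - v 1 * s1 - v 2 * s2 - v 3 * s3) * 0 + v 1 * 0 + v 2 * 1 + v 3 * 0
      ring
    · change v 3 = (v 0 - v 1 * s1 - v 2 * s2 - v 3 * s3) * 0 + v 1 * 0 + v 2 * 0 + v 3 * 1
      ring
  refine ⟨chartOfMat π e (kap s1 s2 s3) h1 h2, ?_⟩
  have hq : ∀ (i j : Fin 3) (l : Fin 4), (chartOfMat π e (kap s1 s2 s3) h1 h2).q (X i * X j) l =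
      kap s1 s2 s3 ((π (X i)).mulVec ((π (X j)).mulVec e)) l := by
    intro i j l
    rw [chartOfMat_q, map_mul, Matrix.mulVec_mulVec]
  have u0 : (π (X 0)).mulVec e = ![s1, 1, 0, 0] := w1
  have u1 : (π (X 1)).mulVec e = ![s2, 0, 1, 0] := w2
  have u2 : (π (X 2)).mulVec e = ![s3, 0, 0, 1] := w3
  refine ⟨?_, ?_, ?_, ?_, ?_, ?_, ?_, ?_, ?_, ?_, ?_, ?_, ?_, ?_, ?_, ?_, ?_, ?_⟩
  · change (chartOfMat π e (kap s1 s2 s3) h1 h2).q (X 0 * X 0) 1 = _
    rw [hq, u0, p0, hmv]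
    change ((N1'.mulVec _ + s1 • _ : Fin 4 → R)) 1 = _
    rw [Pi.add_apply, mv]
    change (1) * s1 + (-t3 - y1 + y2) * 1 + (0) * 0 + (0) * 0 + s1 * 1 = _
    ring
  · change (chartOfMat π e (kap s1 s2 s3) h1 h2).q (X 0 * X 0) 2 = _
    rw [hq, u0, p0, hmv]
    change ((N1'.mulVec _ + s1 • _ : Fin 4 → R)) 2 = _
    rw [Pi.add_apply, mv]
    change (0) * s1 + (t1) * 1 + (0) * 0 + (t4 - y3 - y4) * 0 + s1 * 0 = _
    ring
  · change (chartOfMat π e (kap s1 s2 s3) h1 h2).q (X 0 * X 0) 3 = _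
    rw [hq, u0, p0, hmv]
    change ((N1'.mulVec _ + s1 • _ : Fin 4 → R)) 3 = _
    rw [Pi.add_apply, mv]
    change (0) * s1 + (-t0) * 1 + (-t2 + y1) * 0 + (-t3 + y2) * 0 + s1 * 0 = _
    ring
  · change (chartOfMat π e (kap s1 s2 s3) h1 h2).q (X 0 * X 1) 1 = _
    rw [hq, u1, p0, hmv]
    change ((N1'.mulVec _ + s1 • _ : Fin 4 → R)) 1 = _
    rw [Pi.add_apply, mv]
    change (1) * s2 + (-t3 - y1 + y2) * 0 + (0) * 1 + (0) * 0 + s1 * 0 = _
    ring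
  · change (chartOfMat π e (kap s1 s2 s3) h1 h2).q (X 0 * X 1) 2 = _
    rw [hq, u1, p0, hmv]
    change ((N1'.mulVec _ + s1 • _ : Fin 4 → R)) 2 = _
    rw [Pi.add_apply, mv]
    change (0) * s2 + (t1) * 0 + (0) * 1 + (t4 - y3 - y4) * 0 + s1 * 1 = _
    ring
  · change (chartOfMat π e (kap s1 s2 s3) h1 h2).q (X 0 * X 1) 3 = _
    rw [hq, u1, p0, hmv]
    change ((N1'.mulVec _ + s1 • _ : Fin 4 → R)) 3 = _
    rw [Pi.add_apply, mv]
    change (0) * s2 + (-t0) * 0 + (-t2 + y1) * 1 + (-t3 + y2) * 0 + s1 * 0 = _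
    ring
  · change (chartOfMat π e (kap s1 s2 s3) h1 h2).q (X 0 * X 2) 1 = _
    rw [hq, u2, p0, hmv]
    change ((N1'.mulVec _ + s1 • _ : Fin 4 → R)) 1 = _
    rw [Pi.add_apply, mv]
    change (1) * s3 + (-t3 - y1 + y2) * 0 + (0) * 0 + (0) * 1 + s1 * 0 = _
    ring
  · change (chartOfMat π e (kap s1 s2 s3) h1 h2).q (X 0 * X 2) 2 = _
    rw [hq, u2, p0, hmv]
    change ((N1'.mulVec _ + s1 • _ : Fin 4 → R)) 2 = _
    rw [Pi.add_apply, mv]
    change (0) * s3 + (t1) * 0 + (0) * 0 + (t4 - y3 - y4) * 1 + s1 * 0 = _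
    ring
  · change (chartOfMat π e (kap s1 s2 s3) h1 h2).q (X 0 * X 2) 3 = _
    rw [hq, u2, p0, hmv]
    change ((N1'.mulVec _ + s1 • _ : Fin 4 → R)) 3 = _
    rw [Pi.add_apply, mv]
    change (0) * s3 + (-t0) * 0 + (-t2 + y1) * 0 + (-t3 + y2) * 1 + s1 * 1 = _
    ring
  · change (chartOfMat π e (kap s1 s2 s3) h1 h2).q (X 1 * X 1) 1 = _
    rw [hq, u1, p1, hmv]
    change ((N2'.mulVec _ + s2 • _ : Fin 4 → R)) 1 = _
    rw [Pi.add_apply, mv]
    change (0) * s2 + (0) * 0 + (-y6) * 1 + (-t7) * 0 + s2 * 0 = _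
    ring
  · change (chartOfMat π e (kap s1 s2 s3) h1 h2).q (X 1 * X 1) 2 = _
    rw [hq, u1, p1, hmv]
    change ((N2'.mulVec _ + s2 • _ : Fin 4 → R)) 2 = _
    rw [Pi.add_apply, mv]
    change (1) * s2 + (0) * 0 + (y3 - y4) * 1 + (t5 - y5) * 0 + s2 * 1 = _
    ring
  · change (chartOfMat π e (kap s1 s2 s3) h1 h2).q (X 1 * X 1) 3 = _
    rw [hq, u1, p1, hmv]
    change ((N2'.mulVec _ + s2 • _ : Fin 4 → R)) 3 = _
    rw [Pi.add_apply, mv]
    change (0) * s2 + (-t2 + y1) * 0 + (-y2) * 1 + (-y4) * 0 + s2 * 0 = _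
    ring
  · change (chartOfMat π e (kap s1 s2 s3) h1 h2).q (X 1 * X 2) 1 = _
    rw [hq, u2, p1, hmv]
    change ((N2'.mulVec _ + s2 • _ : Fin 4 → R)) 1 = _
    rw [Pi.add_apply, mv]
    change (0) * s3 + (0) * 0 + (-y6) * 0 + (-t7) * 1 + s2 * 0 = _
    ring
  · change (chartOfMat π e (kap s1 s2 s3) h1 h2).q (X 1 * X 2) 2 = _
    rw [hq, u2, p1, hmv]
    change ((N2'.mulVec _ + s2 • _ : Fin 4 → R)) 2 = _
    rw [Pi.add_apply, mv]
    change (1) * s3 + (0) * 0 + (y3 - y4) * 0 + (t5 - y5) * 1 + s2 * 0 = _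
    ring
  · change (chartOfMat π e (kap s1 s2 s3) h1 h2).q (X 1 * X 2) 3 = _
    rw [hq, u2, p1, hmv]
    change ((N2'.mulVec _ + s2 • _ : Fin 4 → R)) 3 = _
    rw [Pi.add_apply, mv]
    change (0) * s3 + (-t2 + y1) * 0 + (-y2) * 0 + (-y4) * 1 + s2 * 1 = _
    ring
  · change (chartOfMat π e (kap s1 s2 s3) h1 h2).q (X 2 * X 2) 1 = _
    rw [hq, u2, p2, hmv]
    change ((N3'.mulVec _ + s3 • _ : Fin 4 → R)) 1 = _
    rw [Pi.add_apply, mv]
    change (0) * s3 + (0) * 0 + (-t7) * 0 + (-t8) * 1 + s3 * 0 = _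
    ring
  · change (chartOfMat π e (kap s1 s2 s3) h1 h2).q (X 2 * X 2) 2 = _
    rw [hq, u2, p2, hmv]
    change ((N3'.mulVec _ + s3 • _ : Fin 4 → R)) 2 = _
    rw [Pi.add_apply, mv]
    change (0) * s3 + (t4 - y3 - y4) * 0 + (t5 - y5) * 0 + (t6 - y6) * 1 + s3 * 0 = _
    ring
  · change (chartOfMat π e (kap s1 s2 s3) h1 h2).q (X 2 * X 2) 3 = _
    rw [hq, u2, p2, hmv]
    change ((N3'.mulVec _ + s3 • _ : Fin 4 → R)) 3 = _
    rw [Pi.add_apply, mv]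
    change (1) * s3 + (-t3 + y2) * 0 + (-y4) * 0 + (t5 - 2*y5) * 1 + s3 * 1 = _
    ring

end

end Pool.Agent.J4.H15
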