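import Pool.Agent.J4.H15.QRel
import Pool.Agent.J4.H15.ConeNormal

/-!
# The chart ring of quartic algebras is a polynomial ring over the cone over `G(2, 6)`
-/

set_option autoImplicit false
set_option linter.unusedVariables false
set_option linter.unusedSimpArgs false
set_option linter.style.haveILetI false

universe u

namespace Pool.Agent.J4.H15

open Helper226 MvPolynomial

section nat

variable {R S : Type u} [CommRing R] [CommRing S] (G : R →+* S) (q : Fin 3 → Fin 3 → Fin 4 → R)

theorem map_tOf (i : Fin 9) : G (tOf q i) = tOf (fun i j l => G (q i j l)) i := by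
  have h2 : G 2 = 2 := map_ofNat G 2
  fin_cases i <;> simp [tOf, h2]

theorem map_yOf (i : Fin 6) : G (yOf q i) = yOf (fun i j l => G (q i j l)) i := by
  fin_cases i <;> simp [yOf]

theorem map_sOf (i : Fin 3) : G (sOf q i) = sOf (fun i j l => G (q i j l)) i := by
  fin_cases i <;> simp [sOf]

theorem sc_mem (S : Subring R) (ht : ∀ i, tOf q i ∈ S) (hy : ∀ i, yOf q i ∈ S)
    (hs : ∀ i, sOf q i ∈ S) (hq : ∀ i j l, q i j l = q j i l) (i j : Fin 3) (l : Fin 4)
    (hl : l ≠ 0) : q i j l ∈ S := by
  have h := sc_of q
  have h2 : (2 : R) ∈ S := by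
    have := S.add_mem S.one_mem S.one_mem
    rwa [one_add_one_eq_two] at this
  have key : ∀ i j l, l ≠ 0 → i ≤ j → q i j l ∈ S := by
    intro i j l hl hij
    fin_cases i <;> fin_cases j <;> fin_cases l <;>
    first
    | exact absurd rfl hl
    | exact absurd hij (by decide)
    | skip
    all_goals
      first
      | (change q 0 0 1 ∈ S; rw [h.c111])
      | (change q 0 0 2 ∈ S; rw [h.c112])
      | (change q 0 0 3 ∈ S; rw [h.c113])
      | (change q 0 1 1 ∈ S; rw [h.c121])
      | (change q 0 1 2 ∈ S; rw [h.c122])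
      | (change q 0 1 3 ∈ S; rw [h.c123])
      | (change q 0 2 1 ∈ S; rw [h.c131])
      | (change q 0 2 2 ∈ S; rw [h.c132])
      | (change q 0 2 3 ∈ S; rw [h.c133])
      | (change q 1 1 1 ∈ S; rw [h.c221])
      | (change q 1 1 2 ∈ S; rw [h.c222])
      | (change q 1 1 3 ∈ S; rw [h.c223])
      | (change q 1 2 1 ∈ S; rw [h.c231])
      | (change q 1 2 2 ∈ S; rw [h.c232])
      | (change q 1 2 3 ∈ S; rw [h.c233])
      | (change q 2 2 1 ∈ S; rw [h.c331])
      | (change q 2 2 2 ∈ S; rw [h.c332])
      | (change q 2 2 3 ∈ S; rw [h.c333])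
    all_goals
      repeat'
        first
        | exact ht _
        | exact hy _
        | exact hs _
        | exact h2
        | exact S.zero_mem
        | apply S.add_mem
        | apply S.sub_mem
        | apply S.neg_mem
        | apply S.mul_mem
  rcases le_total i j with h | h
  · exact key i j l hl h
  · rw [hq]; exact key j i l hl h

end nat

section iso

variable (k : Type u) [Field k]

theorem exists_coneEquiv :
    ∃ e : Cone (MvPolynomial (Fin 3) k) ≃+* ChartRing k (stdFrame k),
      ∀ r : k, e (algebraMap (MvPolynomial (Fin 3) k) _ (C r)) = algebraMap k _ r := by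
  classical
  let K := MvPolynomial (Fin 3) k
  let C0 := ChartRing k (stdFrame k)
  let c := univChart k (stdFrame k)
  let q := cc c
  letI algKC : Algebra K C0 := (aeval (sOf q) : K →ₐ[k] C0).toRingHom.toAlgebra
  have haK : ∀ x : K, algebraMap K C0 x = aeval (sOf q) x := fun _ => rfl
  obtain ⟨F, hFt, hFy⟩ := Cone.exists_lift (K := K) (S := C0) (tOf q) (yOf q) (rel_of_chart c)
  letI algk : Algebra k (Cone K) := ((algebraMap K (Cone K)).comp (C : k →+* K)).toAlgebra
  have hak : ∀ x : k, algebraMap k (Cone K) x = algebraMap K (Cone K) (C x) := fun _ => rfl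
  obtain ⟨c', hc'⟩ := exists_chart_of_rel (k := k) (Cone.rel K) (algebraMap K (Cone K) (X 0))
    (algebraMap K (Cone K) (X 1)) (algebraMap K (Cone K) (X 2))
  have hc'' := hc'.eqs
  let G : C0 →ₐ[k] Cone K := c'.lift
  have hG : ∀ i j l, G (q i j l) = cc c' i j l := by
    intro i j l
    have h1 := Chart.map_q (univChart k (stdFrame k)) c'.lift (X i * X j) l
    rw [Chart.map_lift] at h1
    exact h1.symm
  have hGq : (fun i j l => (G : C0 →+* Cone K) (q i j l)) = cc c' := by
    funext i j l
    exact hG i j l
  have hGt : ∀ i, G (tOf q i) = Cone.t K i := by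
    intro i
    have h1 := map_tOf (G : C0 →+* Cone K) q i
    rw [hGq] at h1
    refine h1.trans ((congrFun hc''.1 i).trans ?_)
    fin_cases i <;> rfl
  have hGy : ∀ i, G (yOf q i) = Cone.y K i := by
    intro i
    have h1 := map_yOf (G : C0 →+* Cone K) q i
    rw [hGq] at h1
    refine h1.trans ((congrFun hc''.2.1 i).trans ?_)
    fin_cases i <;> rfl
  have hGs : ∀ i, G (sOf q i) = algebraMap K (Cone K) (X i) := by
    intro i
    have h1 := map_sOf (G : C0 →+* Cone K) q i
    rw [hGq] at h1
    refine h1.trans ((congrFun hc''.2.2 i).trans ?_)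
    fin_cases i <;> rfl
  have hGK : ∀ x : K, G (algebraMap K C0 x) = algebraMap K (Cone K) x := by
    intro x
    rw [haK]
    induction x using MvPolynomial.induction_on with
    | C a => rw [algHom_C, AlgHom.commutes, hak]
    | add p q hp hq => rw [map_add, map_add, hp, hq, map_add]
    | mul_X p i hp => rw [map_mul, map_mul, hp, aeval_X, hGs, map_mul]
  have hGF : ∀ x, G (F x) = x := by
    let H : Cone K →ₐ[K] Cone K :=
      { (G : C0 →+* Cone K).comp (F : Cone K →+* C0) with
        commutes' := fun r => by
          change G (F (algebraMap K (Cone K) r)) = _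
          rw [AlgHom.commutes, hGK] }
    have hH : H = AlgHom.id K (Cone K) := Cone.algHom_ext
      (fun i => by change G (F (Cone.t K i)) = _; rw [hFt, hGt]; rfl)
      (fun i => by change G (F (Cone.y K i)) = _; rw [hFy, hGy]; rfl)
    intro x
    exact DFunLike.congr_fun hH x
  have hinj : Function.Injective F := fun x y h => by rw [← hGF x, ← hGF y, h]
  have hsurj : Function.Surjective F := by
    let T : Subalgebra k C0 :=
      { (F : Cone K →+* C0).range with
        algebraMap_mem' := fun r => ⟨algebraMap K (Cone K) (C r), by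
          change F _ = _
          rw [AlgHom.commutes, haK, algHom_C]⟩ }
    have hT : ∀ x, x ∈ T ↔ ∃ z, F z = x := fun x => Iff.rfl
    have hcc : ∀ i j l, l ≠ 0 → q i j l ∈ T := by
      intro i j l hl
      refine sc_mem q T.toSubring (fun i => ⟨Cone.t K i, hFt i⟩) (fun i => ⟨Cone.y K i, hFy i⟩)
        (fun i => ⟨algebraMap K (Cone K) (X i), ?_⟩) (cc_comm c) i j l hl
      change F _ = _
      rw [AlgHom.commutes, haK, aeval_X]
    have hcc0 : ∀ i j l, q i j l ∈ T := by
      intro i j l
      by_cases hl : l = 0
      · subst hl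
        exact cc_zero_mem c T hcc i j
      · exact hcc i j l hl
    have hs : Algebra.adjoin k ((Finset.univ.image (X : Fin 3 → MvPolynomial (Fin 3) k) :
        Finset (MvPolynomial (Fin 3) k)) : Set (MvPolynomial (Fin 3) k)) = ⊤ := by
      rw [Finset.coe_image, Finset.coe_univ, Set.image_univ]
      exact MvPolynomial.adjoin_range_X
    have htop := chartRing_adjoin (k := k) (stdFrame k) _ hs
    have hle : (⊤ : Subalgebra k C0) ≤ T := by
      rw [← htop]
      refine Algebra.adjoin_le ?_
      have hsingle : ∀ (i l : Fin 4), (Pi.single i 1 : Fin 4 → C0) l ∈ T := by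
        intro i l
        by_cases h : l = i
        · subst h; rw [Pi.single_eq_same]; exact T.one_mem
        · rw [Pi.single_eq_of_ne h]; exact T.zero_mem
      rintro x (⟨l, rfl⟩ | ⟨⟨y, j, l⟩, ⟨hy, -⟩, rfl⟩)
      · change c.q 1 l ∈ T
        rw [q_one]
        exact hsingle _ _
      · simp only [Finset.coe_image, Finset.coe_univ, Set.image_univ, Set.mem_range] at hy
        obtain ⟨m, rfl⟩ := hy
        change c.q (stdFrame k j * X m) l ∈ T
        refine Fin.cases ?_ (fun j => ?_) j
        · change c.q (1 * X m) l ∈ T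
          rw [one_mul, q_X]
          exact hsingle _ _
        · rw [stdFrame_succ]
          exact hcc0 j m l
    intro x
    exact (hT x).1 (hle Algebra.mem_top)
  refine ⟨RingEquiv.ofBijective F ⟨hinj, hsurj⟩, fun r => ?_⟩
  change F _ = _
  rw [AlgHom.commutes, haK, algHom_C]

end iso

end Pool.Agent.J4.H15
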