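import Pool.Agent.J4.H15.Cone
import Pool.Agent.Helper226.HilbUniv

/-!
# The quartic algebra attached to a solution of the relations
-/

set_option autoImplicit false
set_option linter.unusedVariables false
set_option linter.unusedSimpArgs false
set_option linter.style.haveILetI false

universe u

namespace Pool.Agent.J4.H15

section mats

variable {R : Type u} [CommRing R]

/-- multiplication by `e1` -/
def N1 (t0 t1 t2 t3 t4 t5 t6 t7 t8 y1 y2 y3 y4 y5 y6 : R) : Matrix (Fin 4) (Fin 4) R :=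
  !![0, t0*t5 - t0*y5 - t1*y3 + t1*y4 - t2*t4 + t2*y3 + t2*y4 + t4*y1 - y1*y3 - y1*y4, -t1*y6 + t2*t5 - t2*y5 - t4*y2 - t5*y1 + y1*y5 + y2*y3 + y2*y4, -t1*t7 + t3*t5 - t3*y5 - t4*y3 - t5*y2 + y2*y5 + y3^2 + y3*y4;
     1, -t3 - y1 + y2, 0, 0;
     0, t1, 0, t4 - y3 - y4;
     0, -t0, -t2 + y1, -t3 + y2]

/-- multiplication by `e2` -/
def N2 (t0 t1 t2 t3 t4 t5 t6 t7 t8 y1 y2 y3 y4 y5 y6 : R) : Matrix (Fin 4) (Fin 4) R :=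
  !![0, t0*t7 - t1*y6, t2*t7 - t3*y6 - t7*y1 - y1*y6 + y2*y6, -t4*y6 - t7*y1 + y3*y6 + y4*y6;
     0, 0, -y6, -t7;
     1, 0, y3 - y4, t5 - y5;
     0, -t2 + y1, -y2, -y4]

/-- multiplication by `e3` -/
def N3 (t0 t1 t2 t3 t4 t5 t6 t7 t8 y1 y2 y3 y4 y5 y6 : R) : Matrix (Fin 4) (Fin 4) R :=
  !![0, t0*t8 - t1*t7, t2*t8 - t3*t7 - t7*y1 + t7*y2 - t8*y1, -t4*t7 + t7*y3 + t7*y4 - t8*y1;
     0, 0, -t7, -t8;
     0, t4 - y3 - y4, t5 - y5, t6 - y6;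
     1, -t3 + y2, -y4, t5 - 2*y5]

theorem N1_N2 {t0 t1 t2 t3 t4 t5 t6 t7 t8 y1 y2 y3 y4 y5 y6 : R} (h : Rel t0 t1 t2 t3 t4 t5 t6 t7 t8 y1 y2 y3 y4 y5 y6) :
    N1 t0 t1 t2 t3 t4 t5 t6 t7 t8 y1 y2 y3 y4 y5 y6 * N2 t0 t1 t2 t3 t4 t5 t6 t7 t8 y1 y2 y3 y4 y5 y6 =
      N2 t0 t1 t2 t3 t4 t5 t6 t7 t8 y1 y2 y3 y4 y5 y6 * N1 t0 t1 t2 t3 t4 t5 t6 t7 t8 y1 y2 y3 y4 y5 y6 := by
  ext i j
  fin_cases i <;> fin_cases j
  · rw [Matrix.mul_apply, Matrix.mul_apply, Fin.sum_univ_four, Fin.sum_univ_four]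
    change (0) * (0) + (t0*t5 - t0*y5 - t1*y3 + t1*y4 - t2*t4 + t2*y3 + t2*y4 + t4*y1 - y1*y3 - y1*y4) * (0) + (-t1*y6 + t2*t5 - t2*y5 - t4*y2 - t5*y1 + y1*y5 + y2*y3 + y2*y4) * (1) + (-t1*t7 + t3*t5 - t3*y5 - t4*y3 - t5*y2 + y2*y5 + y3^2 + y3*y4) * (0) =
      (0) * (0) + (t0*t7 - t1*y6) * (1) + (t2*t7 - t3*y6 - t7*y1 - y1*y6 + y2*y6) * (0) + (-t4*y6 - t7*y1 + y3*y6 + y4*y6) * (0)
    linear_combination (1) * h.r15 + (1) * h.r23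
  · rw [Matrix.mul_apply, Matrix.mul_apply, Fin.sum_univ_four, Fin.sum_univ_four]
    change (0) * (t0*t7 - t1*y6) + (t0*t5 - t0*y5 - t1*y3 + t1*y4 - t2*t4 + t2*y3 + t2*y4 + t4*y1 - y1*y3 - y1*y4) * (0) + (-t1*y6 + t2*t5 - t2*y5 - t4*y2 - t5*y1 + y1*y5 + y2*y3 + y2*y4) * (0) + (-t1*t7 + t3*t5 - t3*y5 - t4*y3 - t5*y2 + y2*y5 + y3^2 + y3*y4) * (-t2 + y1) =
      (0) * (t0*t5 - t0*y5 - t1*y3 + t1*y4 - t2*t4 + t2*y3 + t2*y4 + t4*y1 - y1*y3 - y1*y4) + (t0*t7 - t1*y6) * (-t3 - y1 + y2) + (t2*t7 - t3*y6 - t7*y1 - y1*y6 + y2*y6) * (t1) + (-t4*y6 - t7*y1 + y3*y6 + y4*y6) * (-t0)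
    linear_combination (-t4 + y3 + y4) * h.r13 + (-t3 + y2) * h.r15 + (t4 - y3 - y4) * h.r22 + (-t3 + y2) * h.r23
  · rw [Matrix.mul_apply, Matrix.mul_apply, Fin.sum_univ_four, Fin.sum_univ_four]
    change (0) * (t2*t7 - t3*y6 - t7*y1 - y1*y6 + y2*y6) + (t0*t5 - t0*y5 - t1*y3 + t1*y4 - t2*t4 + t2*y3 + t2*y4 + t4*y1 - y1*y3 - y1*y4) * (-y6) + (-t1*y6 + t2*t5 - t2*y5 - t4*y2 - t5*y1 + y1*y5 + y2*y3 + y2*y4) * (y3 - y4) + (-t1*t7 + t3*t5 - t3*y5 - t4*y3 - t5*y2 + y2*y5 + y3^2 + y3*y4) * (-y2) =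
      (0) * (-t1*y6 + t2*t5 - t2*y5 - t4*y2 - t5*y1 + y1*y5 + y2*y3 + y2*y4) + (t0*t7 - t1*y6) * (0) + (t2*t7 - t3*y6 - t7*y1 - y1*y6 + y2*y6) * (0) + (-t4*y6 - t7*y1 + y3*y6 + y4*y6) * (-t2 + y1)
    linear_combination (t7) * h.r11 + (-t5 + y5) * h.r13 + (-y4) * h.r15 + (t5 - y5) * h.r22 + (-y4) * h.r23
  · rw [Matrix.mul_apply, Matrix.mul_apply, Fin.sum_univ_four, Fin.sum_univ_four]
    change (0) * (-t4*y6 - t7*y1 + y3*y6 + y4*y6) + (t0*t5 - t0*y5 - t1*y3 + t1*y4 - t2*t4 + t2*y3 + t2*y4 + t4*y1 - y1*y3 - y1*y4) * (-t7) + (-t1*y6 + t2*t5 - t2*y5 - t4*y2 - t5*y1 + y1*y5 + y2*y3 + y2*y4) * (t5 - y5) + (-t1*t7 + t3*t5 - t3*y5 - t4*y3 - t5*y2 + y2*y5 + y3^2 + y3*y4) * (-y4) =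
      (0) * (-t1*t7 + t3*t5 - t3*y5 - t4*y3 - t5*y2 + y2*y5 + y3^2 + y3*y4) + (t0*t7 - t1*y6) * (0) + (t2*t7 - t3*y6 - t7*y1 - y1*y6 + y2*y6) * (t4 - y3 - y4) + (-t4*y6 - t7*y1 + y3*y6 + y4*y6) * (-t3 + y2)
    linear_combination (t7) * h.r12 + (-y5) * h.r15 + (t4 - y3 - y4) * h.r16 + (t5 - 2*y5) * h.r23 + (-t4 + y3 + y4) * h.r25
  · rw [Matrix.mul_apply, Matrix.mul_apply, Fin.sum_univ_four, Fin.sum_univ_four]
    change (1) * (0) + (-t3 - y1 + y2) * (0) + (0) * (1) + (0) * (0) =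
      (0) * (0) + (0) * (1) + (-y6) * (0) + (-t7) * (0)
    linear_combination 0
  · rw [Matrix.mul_apply, Matrix.mul_apply, Fin.sum_univ_four, Fin.sum_univ_four]
    change (1) * (t0*t7 - t1*y6) + (-t3 - y1 + y2) * (0) + (0) * (0) + (0) * (-t2 + y1) =
      (0) * (t0*t5 - t0*y5 - t1*y3 + t1*y4 - t2*t4 + t2*y3 + t2*y4 + t4*y1 - y1*y3 - y1*y4) + (0) * (-t3 - y1 + y2) + (-y6) * (t1) + (-t7) * (-t0)
    linear_combination 0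
  · rw [Matrix.mul_apply, Matrix.mul_apply, Fin.sum_univ_four, Fin.sum_univ_four]
    change (1) * (t2*t7 - t3*y6 - t7*y1 - y1*y6 + y2*y6) + (-t3 - y1 + y2) * (-y6) + (0) * (y3 - y4) + (0) * (-y2) =
      (0) * (-t1*y6 + t2*t5 - t2*y5 - t4*y2 - t5*y1 + y1*y5 + y2*y3 + y2*y4) + (0) * (0) + (-y6) * (0) + (-t7) * (-t2 + y1)
    linear_combination 0
  · rw [Matrix.mul_apply, Matrix.mul_apply, Fin.sum_univ_four, Fin.sum_univ_four]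
    change (1) * (-t4*y6 - t7*y1 + y3*y6 + y4*y6) + (-t3 - y1 + y2) * (-t7) + (0) * (t5 - y5) + (0) * (-y4) =
      (0) * (-t1*t7 + t3*t5 - t3*y5 - t4*y3 - t5*y2 + y2*y5 + y3^2 + y3*y4) + (0) * (0) + (-y6) * (t4 - y3 - y4) + (-t7) * (-t3 + y2)
    linear_combination 0
  · rw [Matrix.mul_apply, Matrix.mul_apply, Fin.sum_univ_four, Fin.sum_univ_four]
    change (0) * (0) + (t1) * (0) + (0) * (1) + (t4 - y3 - y4) * (0) =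
      (1) * (0) + (0) * (1) + (y3 - y4) * (0) + (t5 - y5) * (0)
    linear_combination 0
  · rw [Matrix.mul_apply, Matrix.mul_apply, Fin.sum_univ_four, Fin.sum_univ_four]
    change (0) * (t0*t7 - t1*y6) + (t1) * (0) + (0) * (0) + (t4 - y3 - y4) * (-t2 + y1) =
      (1) * (t0*t5 - t0*y5 - t1*y3 + t1*y4 - t2*t4 + t2*y3 + t2*y4 + t4*y1 - y1*y3 - y1*y4) + (0) * (-t3 - y1 + y2) + (y3 - y4) * (t1) + (t5 - y5) * (-t0)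
    linear_combination 0
  · rw [Matrix.mul_apply, Matrix.mul_apply, Fin.sum_univ_four, Fin.sum_univ_four]
    change (0) * (t2*t7 - t3*y6 - t7*y1 - y1*y6 + y2*y6) + (t1) * (-y6) + (0) * (y3 - y4) + (t4 - y3 - y4) * (-y2) =
      (1) * (-t1*y6 + t2*t5 - t2*y5 - t4*y2 - t5*y1 + y1*y5 + y2*y3 + y2*y4) + (0) * (0) + (y3 - y4) * (0) + (t5 - y5) * (-t2 + y1)
    linear_combination 0
  · rw [Matrix.mul_apply, Matrix.mul_apply, Fin.sum_univ_four, Fin.sum_univ_four]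
    change (0) * (-t4*y6 - t7*y1 + y3*y6 + y4*y6) + (t1) * (-t7) + (0) * (t5 - y5) + (t4 - y3 - y4) * (-y4) =
      (1) * (-t1*t7 + t3*t5 - t3*y5 - t4*y3 - t5*y2 + y2*y5 + y3^2 + y3*y4) + (0) * (0) + (y3 - y4) * (t4 - y3 - y4) + (t5 - y5) * (-t3 + y2)
    linear_combination 0
  · rw [Matrix.mul_apply, Matrix.mul_apply, Fin.sum_univ_four, Fin.sum_univ_four]
    change (0) * (0) + (-t0) * (0) + (-t2 + y1) * (1) + (-t3 + y2) * (0) =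
      (0) * (0) + (-t2 + y1) * (1) + (-y2) * (0) + (-y4) * (0)
    linear_combination 0
  · rw [Matrix.mul_apply, Matrix.mul_apply, Fin.sum_univ_four, Fin.sum_univ_four]
    change (0) * (t0*t7 - t1*y6) + (-t0) * (0) + (-t2 + y1) * (0) + (-t3 + y2) * (-t2 + y1) =
      (0) * (t0*t5 - t0*y5 - t1*y3 + t1*y4 - t2*t4 + t2*y3 + t2*y4 + t4*y1 - y1*y3 - y1*y4) + (-t2 + y1) * (-t3 - y1 + y2) + (-y2) * (t1) + (-y4) * (-t0)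
    linear_combination (1) * h.r11
  · rw [Matrix.mul_apply, Matrix.mul_apply, Fin.sum_univ_four, Fin.sum_univ_four]
    change (0) * (t2*t7 - t3*y6 - t7*y1 - y1*y6 + y2*y6) + (-t0) * (-y6) + (-t2 + y1) * (y3 - y4) + (-t3 + y2) * (-y2) =
      (0) * (-t1*y6 + t2*t5 - t2*y5 - t4*y2 - t5*y1 + y1*y5 + y2*y3 + y2*y4) + (-t2 + y1) * (0) + (-y2) * (0) + (-y4) * (-t2 + y1)
    linear_combination (1) * h.r13 + (-1) * h.r22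
  · rw [Matrix.mul_apply, Matrix.mul_apply, Fin.sum_univ_four, Fin.sum_univ_four]
    change (0) * (-t4*y6 - t7*y1 + y3*y6 + y4*y6) + (-t0) * (-t7) + (-t2 + y1) * (t5 - y5) + (-t3 + y2) * (-y4) =
      (0) * (-t1*t7 + t3*t5 - t3*y5 - t4*y3 - t5*y2 + y2*y5 + y3^2 + y3*y4) + (-t2 + y1) * (0) + (-y2) * (t4 - y3 - y4) + (-y4) * (-t3 + y2)
    linear_combination (-1) * h.r15 + (-1) * h.r23

theorem N1_N3 {t0 t1 t2 t3 t4 t5 t6 t7 t8 y1 y2 y3 y4 y5 y6 : R} (h : Rel t0 t1 t2 t3 t4 t5 t6 t7 t8 y1 y2 y3 y4 y5 y6) :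
    N1 t0 t1 t2 t3 t4 t5 t6 t7 t8 y1 y2 y3 y4 y5 y6 * N3 t0 t1 t2 t3 t4 t5 t6 t7 t8 y1 y2 y3 y4 y5 y6 =
      N3 t0 t1 t2 t3 t4 t5 t6 t7 t8 y1 y2 y3 y4 y5 y6 * N1 t0 t1 t2 t3 t4 t5 t6 t7 t8 y1 y2 y3 y4 y5 y6 := by
  ext i j
  fin_cases i <;> fin_cases j
  · rw [Matrix.mul_apply, Matrix.mul_apply, Fin.sum_univ_four, Fin.sum_univ_four]
    change (0) * (0) + (t0*t5 - t0*y5 - t1*y3 + t1*y4 - t2*t4 + t2*y3 + t2*y4 + t4*y1 - y1*y3 - y1*y4) * (0) + (-t1*y6 + t2*t5 - t2*y5 - t4*y2 - t5*y1 + y1*y5 + y2*y3 + y2*y4) * (0) + (-t1*t7 + t3*t5 - t3*y5 - t4*y3 - t5*y2 + y2*y5 + y3^2 + y3*y4) * (1) =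
      (0) * (0) + (t0*t8 - t1*t7) * (1) + (t2*t8 - t3*t7 - t7*y1 + t7*y2 - t8*y1) * (0) + (-t4*t7 + t7*y3 + t7*y4 - t8*y1) * (0)
    linear_combination (1) * h.r25 + (1) * h.r33
  · rw [Matrix.mul_apply, Matrix.mul_apply, Fin.sum_univ_four, Fin.sum_univ_four]
    change (0) * (t0*t8 - t1*t7) + (t0*t5 - t0*y5 - t1*y3 + t1*y4 - t2*t4 + t2*y3 + t2*y4 + t4*y1 - y1*y3 - y1*y4) * (0) + (-t1*y6 + t2*t5 - t2*y5 - t4*y2 - t5*y1 + y1*y5 + y2*y3 + y2*y4) * (t4 - y3 - y4) + (-t1*t7 + t3*t5 - t3*y5 - t4*y3 - t5*y2 + y2*y5 + y3^2 + y3*y4) * (-t3 + y2) =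
      (0) * (t0*t5 - t0*y5 - t1*y3 + t1*y4 - t2*t4 + t2*y3 + t2*y4 + t4*y1 - y1*y3 - y1*y4) + (t0*t8 - t1*t7) * (-t3 - y1 + y2) + (t2*t8 - t3*t7 - t7*y1 + t7*y2 - t8*y1) * (t1) + (-t4*t7 + t7*y3 + t7*y4 - t8*y1) * (-t0)
    linear_combination (-t7) * h.r11 + (-y6) * h.r12 + (-y5) * h.r13 + (y3 + y4) * h.r15 + (-2*t3 + y2) * h.r16 + (y5) * h.r22 + (t4 - y3) * h.r23 + (-t3 + y2) * h.r33 + (t2 - y1) * h.r35
  · rw [Matrix.mul_apply, Matrix.mul_apply, Fin.sum_univ_four, Fin.sum_univ_four]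
    change (0) * (t2*t8 - t3*t7 - t7*y1 + t7*y2 - t8*y1) + (t0*t5 - t0*y5 - t1*y3 + t1*y4 - t2*t4 + t2*y3 + t2*y4 + t4*y1 - y1*y3 - y1*y4) * (-t7) + (-t1*y6 + t2*t5 - t2*y5 - t4*y2 - t5*y1 + y1*y5 + y2*y3 + y2*y4) * (t5 - y5) + (-t1*t7 + t3*t5 - t3*y5 - t4*y3 - t5*y2 + y2*y5 + y3^2 + y3*y4) * (-y4) =
      (0) * (-t1*y6 + t2*t5 - t2*y5 - t4*y2 - t5*y1 + y1*y5 + y2*y3 + y2*y4) + (t0*t8 - t1*t7) * (0) + (t2*t8 - t3*t7 - t7*y1 + t7*y2 - t8*y1) * (0) + (-t4*t7 + t7*y3 + t7*y4 - t8*y1) * (-t2 + y1)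
    linear_combination (t8) * h.r11 + (t7) * h.r12 + (-y5) * h.r15 + (t5 - 2*y5) * h.r23 + (-y4) * h.r25 + (t3) * h.r26 + (-y4) * h.r33 + (y2) * h.r35
  · rw [Matrix.mul_apply, Matrix.mul_apply, Fin.sum_univ_four, Fin.sum_univ_four]
    change (0) * (-t4*t7 + t7*y3 + t7*y4 - t8*y1) + (t0*t5 - t0*y5 - t1*y3 + t1*y4 - t2*t4 + t2*y3 + t2*y4 + t4*y1 - y1*y3 - y1*y4) * (-t8) + (-t1*y6 + t2*t5 - t2*y5 - t4*y2 - t5*y1 + y1*y5 + y2*y3 + y2*y4) * (t6 - y6) + (-t1*t7 + t3*t5 - t3*y5 - t4*y3 - t5*y2 + y2*y5 + y3^2 + y3*y4) * (t5 - 2*y5) =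
      (0) * (-t1*t7 + t3*t5 - t3*y5 - t4*y3 - t5*y2 + y2*y5 + y3^2 + y3*y4) + (t0*t8 - t1*t7) * (0) + (t2*t8 - t3*t7 - t7*y1 + t7*y2 - t8*y1) * (t4 - y3 - y4) + (-t4*t7 + t7*y3 + t7*y4 - t8*y1) * (-t3 + y2)
    linear_combination (t8) * h.r12 + (-t6 + y6) * h.r15 + (t5 - 2*y5) * h.r16 + (t5 - 2*y5) * h.r25 + (t4 - y3) * h.r26 + (t5 - 2*y5) * h.r33 + (y4) * h.r35
  · rw [Matrix.mul_apply, Matrix.mul_apply, Fin.sum_univ_four, Fin.sum_univ_four]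
    change (1) * (0) + (-t3 - y1 + y2) * (0) + (0) * (0) + (0) * (1) =
      (0) * (0) + (0) * (1) + (-t7) * (0) + (-t8) * (0)
    linear_combination 0
  · rw [Matrix.mul_apply, Matrix.mul_apply, Fin.sum_univ_four, Fin.sum_univ_four]
    change (1) * (t0*t8 - t1*t7) + (-t3 - y1 + y2) * (0) + (0) * (t4 - y3 - y4) + (0) * (-t3 + y2) =
      (0) * (t0*t5 - t0*y5 - t1*y3 + t1*y4 - t2*t4 + t2*y3 + t2*y4 + t4*y1 - y1*y3 - y1*y4) + (0) * (-t3 - y1 + y2) + (-t7) * (t1) + (-t8) * (-t0)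
    linear_combination 0
  · rw [Matrix.mul_apply, Matrix.mul_apply, Fin.sum_univ_four, Fin.sum_univ_four]
    change (1) * (t2*t8 - t3*t7 - t7*y1 + t7*y2 - t8*y1) + (-t3 - y1 + y2) * (-t7) + (0) * (t5 - y5) + (0) * (-y4) =
      (0) * (-t1*y6 + t2*t5 - t2*y5 - t4*y2 - t5*y1 + y1*y5 + y2*y3 + y2*y4) + (0) * (0) + (-t7) * (0) + (-t8) * (-t2 + y1)
    linear_combination 0
  · rw [Matrix.mul_apply, Matrix.mul_apply, Fin.sum_univ_four, Fin.sum_univ_four]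
    change (1) * (-t4*t7 + t7*y3 + t7*y4 - t8*y1) + (-t3 - y1 + y2) * (-t8) + (0) * (t6 - y6) + (0) * (t5 - 2*y5) =
      (0) * (-t1*t7 + t3*t5 - t3*y5 - t4*y3 - t5*y2 + y2*y5 + y3^2 + y3*y4) + (0) * (0) + (-t7) * (t4 - y3 - y4) + (-t8) * (-t3 + y2)
    linear_combination 0
  · rw [Matrix.mul_apply, Matrix.mul_apply, Fin.sum_univ_four, Fin.sum_univ_four]
    change (0) * (0) + (t1) * (0) + (0) * (0) + (t4 - y3 - y4) * (1) =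
      (0) * (0) + (t4 - y3 - y4) * (1) + (t5 - y5) * (0) + (t6 - y6) * (0)
    linear_combination 0
  · rw [Matrix.mul_apply, Matrix.mul_apply, Fin.sum_univ_four, Fin.sum_univ_four]
    change (0) * (t0*t8 - t1*t7) + (t1) * (0) + (0) * (t4 - y3 - y4) + (t4 - y3 - y4) * (-t3 + y2) =
      (0) * (t0*t5 - t0*y5 - t1*y3 + t1*y4 - t2*t4 + t2*y3 + t2*y4 + t4*y1 - y1*y3 - y1*y4) + (t4 - y3 - y4) * (-t3 - y1 + y2) + (t5 - y5) * (t1) + (t6 - y6) * (-t0)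
    linear_combination (-1) * h.r13
  · rw [Matrix.mul_apply, Matrix.mul_apply, Fin.sum_univ_four, Fin.sum_univ_four]
    change (0) * (t2*t8 - t3*t7 - t7*y1 + t7*y2 - t8*y1) + (t1) * (-t7) + (0) * (t5 - y5) + (t4 - y3 - y4) * (-y4) =
      (0) * (-t1*y6 + t2*t5 - t2*y5 - t4*y2 - t5*y1 + y1*y5 + y2*y3 + y2*y4) + (t4 - y3 - y4) * (0) + (t5 - y5) * (0) + (t6 - y6) * (-t2 + y1)
    linear_combination (1) * h.r16
  · rw [Matrix.mul_apply, Matrix.mul_apply, Fin.sum_univ_four, Fin.sum_univ_four]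
    change (0) * (-t4*t7 + t7*y3 + t7*y4 - t8*y1) + (t1) * (-t8) + (0) * (t6 - y6) + (t4 - y3 - y4) * (t5 - 2*y5) =
      (0) * (-t1*t7 + t3*t5 - t3*y5 - t4*y3 - t5*y2 + y2*y5 + y3^2 + y3*y4) + (t4 - y3 - y4) * (0) + (t5 - y5) * (t4 - y3 - y4) + (t6 - y6) * (-t3 + y2)
    linear_combination (1) * h.r26 + (1) * h.r35
  · rw [Matrix.mul_apply, Matrix.mul_apply, Fin.sum_univ_four, Fin.sum_univ_four]
    change (0) * (0) + (-t0) * (0) + (-t2 + y1) * (0) + (-t3 + y2) * (1) =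
      (1) * (0) + (-t3 + y2) * (1) + (-y4) * (0) + (t5 - 2*y5) * (0)
    linear_combination 0
  · rw [Matrix.mul_apply, Matrix.mul_apply, Fin.sum_univ_four, Fin.sum_univ_four]
    change (0) * (t0*t8 - t1*t7) + (-t0) * (0) + (-t2 + y1) * (t4 - y3 - y4) + (-t3 + y2) * (-t3 + y2) =
      (1) * (t0*t5 - t0*y5 - t1*y3 + t1*y4 - t2*t4 + t2*y3 + t2*y4 + t4*y1 - y1*y3 - y1*y4) + (-t3 + y2) * (-t3 - y1 + y2) + (-y4) * (t1) + (t5 - 2*y5) * (-t0)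
    linear_combination (1) * h.r12
  · rw [Matrix.mul_apply, Matrix.mul_apply, Fin.sum_univ_four, Fin.sum_univ_four]
    change (0) * (t2*t8 - t3*t7 - t7*y1 + t7*y2 - t8*y1) + (-t0) * (-t7) + (-t2 + y1) * (t5 - y5) + (-t3 + y2) * (-y4) =
      (1) * (-t1*y6 + t2*t5 - t2*y5 - t4*y2 - t5*y1 + y1*y5 + y2*y3 + y2*y4) + (-t3 + y2) * (0) + (-y4) * (0) + (t5 - 2*y5) * (-t2 + y1)
    linear_combination (-1) * h.r23
  · rw [Matrix.mul_apply, Matrix.mul_apply, Fin.sum_univ_four, Fin.sum_univ_four]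
    change (0) * (-t4*t7 + t7*y3 + t7*y4 - t8*y1) + (-t0) * (-t8) + (-t2 + y1) * (t6 - y6) + (-t3 + y2) * (t5 - 2*y5) =
      (1) * (-t1*t7 + t3*t5 - t3*y5 - t4*y3 - t5*y2 + y2*y5 + y3^2 + y3*y4) + (-t3 + y2) * (0) + (-y4) * (t4 - y3 - y4) + (t5 - 2*y5) * (-t3 + y2)
    linear_combination (-1) * h.r16 + (-1) * h.r25 + (-1) * h.r33

theorem N2_N3 {t0 t1 t2 t3 t4 t5 t6 t7 t8 y1 y2 y3 y4 y5 y6 : R} (h : Rel t0 t1 t2 t3 t4 t5 t6 t7 t8 y1 y2 y3 y4 y5 y6) :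
    N2 t0 t1 t2 t3 t4 t5 t6 t7 t8 y1 y2 y3 y4 y5 y6 * N3 t0 t1 t2 t3 t4 t5 t6 t7 t8 y1 y2 y3 y4 y5 y6 =
      N3 t0 t1 t2 t3 t4 t5 t6 t7 t8 y1 y2 y3 y4 y5 y6 * N2 t0 t1 t2 t3 t4 t5 t6 t7 t8 y1 y2 y3 y4 y5 y6 := by
  ext i j
  fin_cases i <;> fin_cases j
  · rw [Matrix.mul_apply, Matrix.mul_apply, Fin.sum_univ_four, Fin.sum_univ_four]
    change (0) * (0) + (t0*t7 - t1*y6) * (0) + (t2*t7 - t3*y6 - t7*y1 - y1*y6 + y2*y6) * (0) + (-t4*y6 - t7*y1 + y3*y6 + y4*y6) * (1) =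
      (0) * (0) + (t0*t8 - t1*t7) * (0) + (t2*t8 - t3*t7 - t7*y1 + t7*y2 - t8*y1) * (1) + (-t4*t7 + t7*y3 + t7*y4 - t8*y1) * (0)
    linear_combination (1) * h.r36
  · rw [Matrix.mul_apply, Matrix.mul_apply, Fin.sum_univ_four, Fin.sum_univ_four]
    change (0) * (t0*t8 - t1*t7) + (t0*t7 - t1*y6) * (0) + (t2*t7 - t3*y6 - t7*y1 - y1*y6 + y2*y6) * (t4 - y3 - y4) + (-t4*y6 - t7*y1 + y3*y6 + y4*y6) * (-t3 + y2) =
      (0) * (t0*t7 - t1*y6) + (t0*t8 - t1*t7) * (0) + (t2*t8 - t3*t7 - t7*y1 + t7*y2 - t8*y1) * (0) + (-t4*t7 + t7*y3 + t7*y4 - t8*y1) * (-t2 + y1)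
    linear_combination (t8) * h.r11 + (-t4 + y3 + y4) * h.r16 + (t4 - y3 - 2*y4) * h.r25 + (t3) * h.r26 + (-y4) * h.r33 + (y2) * h.r35
  · rw [Matrix.mul_apply, Matrix.mul_apply, Fin.sum_univ_four, Fin.sum_univ_four]
    change (0) * (t2*t8 - t3*t7 - t7*y1 + t7*y2 - t8*y1) + (t0*t7 - t1*y6) * (-t7) + (t2*t7 - t3*y6 - t7*y1 - y1*y6 + y2*y6) * (t5 - y5) + (-t4*y6 - t7*y1 + y3*y6 + y4*y6) * (-y4) =
      (0) * (t2*t7 - t3*y6 - t7*y1 - y1*y6 + y2*y6) + (t0*t8 - t1*t7) * (-y6) + (t2*t8 - t3*t7 - t7*y1 + t7*y2 - t8*y1) * (y3 - y4) + (-t4*t7 + t7*y3 + t7*y4 - t8*y1) * (-y2)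
    linear_combination (-t8) * h.r12 + (t7) * h.r15 + (-t5 + y5) * h.r16 + (t7) * h.r23 + (t5 - y6) * h.r25 + (y5 - y6) * h.r33 + (-y3) * h.r35 + (-t3 + y3 - y4) * h.r36 + (t3) * h.r55
  · rw [Matrix.mul_apply, Matrix.mul_apply, Fin.sum_univ_four, Fin.sum_univ_four]
    change (0) * (-t4*t7 + t7*y3 + t7*y4 - t8*y1) + (t0*t7 - t1*y6) * (-t8) + (t2*t7 - t3*y6 - t7*y1 - y1*y6 + y2*y6) * (t6 - y6) + (-t4*y6 - t7*y1 + y3*y6 + y4*y6) * (t5 - 2*y5) =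
      (0) * (-t4*y6 - t7*y1 + y3*y6 + y4*y6) + (t0*t8 - t1*t7) * (-t7) + (t2*t8 - t3*t7 - t7*y1 + t7*y2 - t8*y1) * (t5 - y5) + (-t4*t7 + t7*y3 + t7*y4 - t8*y1) * (-y4)
    linear_combination (-t8) * h.r13 + (-t6 + t7 + y6) * h.r16 + (2*t6 - 2*y6) * h.r25 + (-t5 + 2*y5 - y6) * h.r26 + (t6 - y6) * h.r33 + (-t5 + y5 - y6) * h.r35 + (-t4 + t5 + y3 - y5) * h.r36 + (t4 - y3) * h.r55
  · rw [Matrix.mul_apply, Matrix.mul_apply, Fin.sum_univ_four, Fin.sum_univ_four]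
    change (0) * (0) + (0) * (0) + (-y6) * (0) + (-t7) * (1) =
      (0) * (0) + (0) * (0) + (-t7) * (1) + (-t8) * (0)
    linear_combination 0
  · rw [Matrix.mul_apply, Matrix.mul_apply, Fin.sum_univ_four, Fin.sum_univ_four]
    change (0) * (t0*t8 - t1*t7) + (0) * (0) + (-y6) * (t4 - y3 - y4) + (-t7) * (-t3 + y2) =
      (0) * (t0*t7 - t1*y6) + (0) * (0) + (-t7) * (0) + (-t8) * (-t2 + y1)
    linear_combination (1) * h.r36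
  · rw [Matrix.mul_apply, Matrix.mul_apply, Fin.sum_univ_four, Fin.sum_univ_four]
    change (0) * (t2*t8 - t3*t7 - t7*y1 + t7*y2 - t8*y1) + (0) * (-t7) + (-y6) * (t5 - y5) + (-t7) * (-y4) =
      (0) * (t2*t7 - t3*y6 - t7*y1 - y1*y6 + y2*y6) + (0) * (-y6) + (-t7) * (y3 - y4) + (-t8) * (-y2)
    linear_combination (1) * h.r56
  · rw [Matrix.mul_apply, Matrix.mul_apply, Fin.sum_univ_four, Fin.sum_univ_four]
    change (0) * (-t4*t7 + t7*y3 + t7*y4 - t8*y1) + (0) * (-t8) + (-y6) * (t6 - y6) + (-t7) * (t5 - 2*y5) =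
      (0) * (-t4*y6 - t7*y1 + y3*y6 + y4*y6) + (0) * (-t7) + (-t7) * (t5 - y5) + (-t8) * (-y4)
    linear_combination (1) * h.r66
  · rw [Matrix.mul_apply, Matrix.mul_apply, Fin.sum_univ_four, Fin.sum_univ_four]
    change (1) * (0) + (0) * (0) + (y3 - y4) * (0) + (t5 - y5) * (1) =
      (0) * (0) + (t4 - y3 - y4) * (0) + (t5 - y5) * (1) + (t6 - y6) * (0)
    linear_combination 0
  · rw [Matrix.mul_apply, Matrix.mul_apply, Fin.sum_univ_four, Fin.sum_univ_four]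
    change (1) * (t0*t8 - t1*t7) + (0) * (0) + (y3 - y4) * (t4 - y3 - y4) + (t5 - y5) * (-t3 + y2) =
      (0) * (t0*t7 - t1*y6) + (t4 - y3 - y4) * (0) + (t5 - y5) * (0) + (t6 - y6) * (-t2 + y1)
    linear_combination (1) * h.r16 + (-1) * h.r25 + (-1) * h.r33
  · rw [Matrix.mul_apply, Matrix.mul_apply, Fin.sum_univ_four, Fin.sum_univ_four]
    change (1) * (t2*t8 - t3*t7 - t7*y1 + t7*y2 - t8*y1) + (0) * (-t7) + (y3 - y4) * (t5 - y5) + (t5 - y5) * (-y4) =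
      (0) * (t2*t7 - t3*y6 - t7*y1 - y1*y6 + y2*y6) + (t4 - y3 - y4) * (-y6) + (t5 - y5) * (y3 - y4) + (t6 - y6) * (-y2)
    linear_combination (-1) * h.r26 + (-1) * h.r36
  · rw [Matrix.mul_apply, Matrix.mul_apply, Fin.sum_univ_four, Fin.sum_univ_four]
    change (1) * (-t4*t7 + t7*y3 + t7*y4 - t8*y1) + (0) * (-t8) + (y3 - y4) * (t6 - y6) + (t5 - y5) * (t5 - 2*y5) =
      (0) * (-t4*y6 - t7*y1 + y3*y6 + y4*y6) + (t4 - y3 - y4) * (-t7) + (t5 - y5) * (t5 - y5) + (t6 - y6) * (-y4)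
    linear_combination (-1) * h.r36 + (1) * h.r55
  · rw [Matrix.mul_apply, Matrix.mul_apply, Fin.sum_univ_four, Fin.sum_univ_four]
    change (0) * (0) + (-t2 + y1) * (0) + (-y2) * (0) + (-y4) * (1) =
      (1) * (0) + (-t3 + y2) * (0) + (-y4) * (1) + (t5 - 2*y5) * (0)
    linear_combination 0
  · rw [Matrix.mul_apply, Matrix.mul_apply, Fin.sum_univ_four, Fin.sum_univ_four]
    change (0) * (t0*t8 - t1*t7) + (-t2 + y1) * (0) + (-y2) * (t4 - y3 - y4) + (-y4) * (-t3 + y2) =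
      (1) * (t0*t7 - t1*y6) + (-t3 + y2) * (0) + (-y4) * (0) + (t5 - 2*y5) * (-t2 + y1)
    linear_combination (2) * h.r15 + (1) * h.r23
  · rw [Matrix.mul_apply, Matrix.mul_apply, Fin.sum_univ_four, Fin.sum_univ_four]
    change (0) * (t2*t8 - t3*t7 - t7*y1 + t7*y2 - t8*y1) + (-t2 + y1) * (-t7) + (-y2) * (t5 - y5) + (-y4) * (-y4) =
      (1) * (t2*t7 - t3*y6 - t7*y1 - y1*y6 + y2*y6) + (-t3 + y2) * (-y6) + (-y4) * (y3 - y4) + (t5 - 2*y5) * (-y2)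
    linear_combination (1) * h.r16 + (-1) * h.r25
  · rw [Matrix.mul_apply, Matrix.mul_apply, Fin.sum_univ_four, Fin.sum_univ_four]
    change (0) * (-t4*t7 + t7*y3 + t7*y4 - t8*y1) + (-t2 + y1) * (-t8) + (-y2) * (t6 - y6) + (-y4) * (t5 - 2*y5) =
      (1) * (-t4*y6 - t7*y1 + y3*y6 + y4*y6) + (-t3 + y2) * (-t7) + (-y4) * (t5 - y5) + (t5 - 2*y5) * (-y4)
    linear_combination (1) * h.r26 + (-1) * h.r36

end mats

end Pool.Agent.J4.H15
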