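import Mathlib

/-!
# Finite sets of points of a quasi-projective scheme lie in affine opens
-/

set_option autoImplicit false
set_option linter.style.haveILetI false

universe u

open CategoryTheory AlgebraicGeometry TopologicalSpace

namespace Pool.Agent.J4.H15

section

variable {σ : Type*} {A : Type u} [CommRing A] [SetLike σ A] [AddSubgroupClass σ A] (𝒜 : ℕ → σ)
  [GradedRing 𝒜]

/-- a point of an open has a standard homogeneous neighbourhood -/
theorem exists_homog_nhd (U : (Proj 𝒜).Opens) (x : Proj 𝒜) (hx : x ∈ U) :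
    ∃ m : ℕ, 0 < m ∧ ∃ f ∈ 𝒜 m, x ∈ Proj.basicOpen 𝒜 f ∧ Proj.basicOpen 𝒜 f ≤ U := by
  classical
  obtain ⟨_, ⟨f, rfl⟩, hxf, hfU⟩ := (Opens.isBasis_iff_nbhd.1 (Proj.isBasis_basicOpen 𝒜)) hx
  rw [Proj.basicOpen_eq_iSup_proj] at hxf
  obtain ⟨i, hi⟩ := Opens.mem_iSup.1 hxf
  have hle : Proj.basicOpen 𝒜 (GradedRing.proj 𝒜 i f) ≤ U := by
    refine le_trans ?_ hfU
    rw [Proj.basicOpen_eq_iSup_proj 𝒜 f]
    exact le_iSup (fun i => Proj.basicOpen 𝒜 (GradedRing.proj 𝒜 i f)) i
  have hfi : GradedRing.proj 𝒜 i f ∈ 𝒜 i := by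
    rw [GradedRing.proj_apply]
    exact SetLike.coe_mem _
  -- a homogeneous element of positive degree outside `x`
  have hpos : ∃ m : ℕ, 0 < m ∧ ∃ g ∈ 𝒜 m, g ∉ x.asHomogeneousIdeal := by
    by_contra hcon
    push Not at hcon
    apply x.not_irrelevant_le
    intro a ha
    rw [← DirectSum.sum_support_decompose 𝒜 a]
    refine sum_mem fun m hm => ?_
    rcases Nat.eq_zero_or_pos m with rfl | hm0
    · have h0 : GradedRing.proj 𝒜 0 a = 0 := (HomogeneousIdeal.mem_irrelevant_iff 𝒜 a).1 ha
      rw [GradedRing.proj_apply] at h0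
      rw [h0]
      exact zero_mem _
    · exact hcon m hm0 _ (SetLike.coe_mem _)
  obtain ⟨m, hm, g, hg, hgx⟩ := hpos
  refine ⟨i + m, by omega, GradedRing.proj 𝒜 i f * g, SetLike.mul_mem_graded hfi hg, ?_, ?_⟩
  · rw [Proj.basicOpen_mul]
    exact ⟨hi, hgx⟩
  · rw [Proj.basicOpen_mul]
    exact inf_le_left.trans hle

/-- finitely many points of an open have a common standard homogeneous neighbourhood -/
theorem exists_homog_nhd_finset (U : (Proj 𝒜).Opens) (N : ℕ) (s : Finset (Proj 𝒜))
    (hN : s.card = N) (hs : ∀ x ∈ s, x ∈ U) :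
    ∃ m : ℕ, 0 < m ∧ ∃ f ∈ 𝒜 m, (∀ x ∈ s, x ∈ Proj.basicOpen 𝒜 f) ∧
      Proj.basicOpen 𝒜 f ≤ U := by
  classical
  induction N generalizing s with
  | zero =>
    rw [Finset.card_eq_zero] at hN
    subst hN
    refine ⟨1, one_pos, 0, zero_mem _, by simp, ?_⟩
    rw [Proj.basicOpen_zero]
    exact bot_le
  | succ N ih =>
    by_cases hA : ∃ x ∈ s, ∃ y ∈ s, x ≠ y ∧ x ⤳ y
    · obtain ⟨x, hx, y, hy, hxy, hsp⟩ := hA
      obtain ⟨m, hm, f, hf, h1, h2⟩ := ih (s.erase x)
        (by rw [Finset.card_erase_of_mem hx, hN]; rfl) (fun z hz => hs z (Finset.mem_of_mem_erase hz))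
      refine ⟨m, hm, f, hf, fun z hz => ?_, h2⟩
      by_cases hzx : z = x
      · subst hzx
        exact hsp.mem_open (Proj.basicOpen 𝒜 f).isOpen
          (h1 y (Finset.mem_erase.2 ⟨hxy.symm, hy⟩))
      · exact h1 z (Finset.mem_erase.2 ⟨hzx, hz⟩)
    · push Not at hA
      obtain ⟨x, hx⟩ : s.Nonempty := by
        rw [← Finset.card_pos, hN]; exact Nat.succ_pos N
      obtain ⟨m, hm, f, hf, h1, h2⟩ := ih (s.erase x)
        (by rw [Finset.card_erase_of_mem hx, hN]; rfl) (fun z hz => hs z (Finset.mem_of_mem_erase hz))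
      by_cases hxf : x ∈ Proj.basicOpen 𝒜 f
      · refine ⟨m, hm, f, hf, fun z hz => ?_, h2⟩
        by_cases hzx : z = x
        · subst hzx; exact hxf
        · exact h1 z (Finset.mem_erase.2 ⟨hzx, hz⟩)
      · -- an open containing `x` and no other point of `s`
        have hV : ∀ T : Finset (Proj 𝒜), T ⊆ s.erase x →
            ∃ V : (Proj 𝒜).Opens, x ∈ V ∧ V ≤ U ∧ ∀ y ∈ T, y ∉ V := by
          intro T
          induction T using Finset.induction_on with
          | empty => exact fun _ => ⟨U, hs x hx, le_rfl, by simp⟩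
          | insert y T hyT ihT =>
            intro hT
            obtain ⟨V, hV1, hV2, hV3⟩ := ihT (fun z hz => hT (Finset.mem_insert_of_mem hz))
            have hy := hT (Finset.mem_insert_self y T)
            have hns : ¬ (y ⤳ x) :=
              hA y (Finset.mem_of_mem_erase hy) x hx (Finset.ne_of_mem_erase hy)
            rw [not_specializes_iff_exists_open] at hns
            obtain ⟨S, hS, hxS, hyS⟩ := hns
            refine ⟨V ⊓ ⟨S, hS⟩, ⟨hV1, hxS⟩, inf_le_left.trans hV2, ?_⟩
            intro z hz hzV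
            rcases Finset.mem_insert.1 hz with rfl | hz
            · exact hyS hzV.2
            · exact hV3 z hz hzV.1
        obtain ⟨V, hV1, hV2, hV3⟩ := hV _ (Finset.Subset.refl _)
        obtain ⟨l, hl, g, hg, hgx, hgV⟩ := exists_homog_nhd 𝒜 V x hV1
        refine ⟨m * l, Nat.mul_pos hm hl, f ^ l + g ^ m, ?_, ?_, ?_⟩
        · apply add_mem
          · have := SetLike.pow_mem_graded l hf
            rwa [smul_eq_mul, mul_comm] at this
          · have := SetLike.pow_mem_graded m hg
            rwa [smul_eq_mul] at this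
        · intro z hz hmem
          have hprime := z.isPrime
          by_cases hzx : z = x
          · subst hzx
            have hfz : f ∈ z.asHomogeneousIdeal := by
              by_contra hcon
              exact hxf hcon
            have h3 : g ^ m ∈ z.asHomogeneousIdeal.toIdeal := by
              have h4 : f ^ l ∈ z.asHomogeneousIdeal.toIdeal := Ideal.pow_mem_of_mem _ hfz l hl
              have h5 : f ^ l + g ^ m ∈ z.asHomogeneousIdeal.toIdeal := hmem
              exact (Ideal.add_mem_iff_right _ h4).1 h5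
            exact hgx (hprime.mem_of_pow_mem m h3)
          · have hz' : z ∈ s.erase x := Finset.mem_erase.2 ⟨hzx, hz⟩
            have hgz : g ∈ z.asHomogeneousIdeal := by
              by_contra hcon
              exact hV3 z hz' (hgV hcon)
            have h3 : f ^ l ∈ z.asHomogeneousIdeal.toIdeal := by
              have h4 : g ^ m ∈ z.asHomogeneousIdeal.toIdeal := Ideal.pow_mem_of_mem _ hgz m hm
              have h5 : f ^ l + g ^ m ∈ z.asHomogeneousIdeal.toIdeal := hmem
              exact (Ideal.add_mem_iff_left _ h4).1 h5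
            exact h1 z hz' (hprime.mem_of_pow_mem l h3)
        · intro z hz
          by_cases hzf : z ∈ Proj.basicOpen 𝒜 f
          · exact h2 hzf
          · apply hV2
            apply hgV
            intro hgz
            apply hz
            have hfz : f ∈ z.asHomogeneousIdeal := by
              by_contra hcon
              exact hzf hcon
            have h4 : f ^ l ∈ z.asHomogeneousIdeal.toIdeal := Ideal.pow_mem_of_mem _ hfz l hl
            have h5 : g ^ m ∈ z.asHomogeneousIdeal.toIdeal := Ideal.pow_mem_of_mem _ hgz m hm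
            exact Ideal.add_mem _ h4 h5

end

/-- finite subsets of a scheme immersed in some `Proj` lie in affine opens -/
theorem exists_affine_of_immersion {σ : Type*} {A : Type u} [CommRing A] [SetLike σ A]
    [AddSubgroupClass σ A] (𝒜 : ℕ → σ) [GradedRing 𝒜] {X : Scheme.{u}} (i : X ⟶ Proj 𝒜)
    [IsImmersion i] (s : Set X) (hs : s.Finite) :
    ∃ U : X.Opens, IsAffineOpen U ∧ s ⊆ U := by
  classical
  have hfin : (i '' s).Finite := hs.image _
  obtain ⟨m, hm, f, hf, h1, h2⟩ := exists_homog_nhd_finset 𝒜 i.coborderRange _ hfin.toFinset rfl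
    (by
      intro x hx
      rw [Set.Finite.mem_toFinset] at hx
      obtain ⟨y, -, rfl⟩ := hx
      exact subset_coborder ⟨y, rfl⟩)
  have hV := Proj.isAffineOpen_basicOpen 𝒜 f hf hm
  have hV' : IsAffineOpen (i.coborderRange.ι ⁻¹ᵁ (Proj.basicOpen 𝒜 f)) :=
    hV.preimage_of_isOpenImmersion _ (by rw [Scheme.Opens.opensRange_ι]; exact h2)
  refine ⟨i.liftCoborder ⁻¹ᵁ (i.coborderRange.ι ⁻¹ᵁ (Proj.basicOpen 𝒜 f)),
    hV'.preimage i.liftCoborder, ?_⟩
  intro x hx
  rw [← Scheme.Hom.comp_preimage, i.liftCoborder_ι]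
  exact h1 (i x) (hfin.mem_toFinset.2 ⟨x, hx, rfl⟩)

end Pool.Agent.J4.H15
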