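import Pool.Agent.J4.H15.QChart
import Pool.Agent.Helper226.HilbFinite

/-!
# The relations for the structure constants of a chart, and the chart ring of quartic algebras
-/

set_option autoImplicit false
set_option linter.unusedVariables false
set_option linter.unusedSimpArgs false
set_option linter.style.haveILetI false

universe u

namespace Pool.Agent.J4.H15

open Helper226 MvPolynomial

section formulas

variable {R : Type u} [CommRing R]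

/-- the parameters from the structure constants -/
def tOf (q : Fin 3 → Fin 3 → Fin 4 → R) : Fin 9 → R :=
  ![ - q 0 0 3,
    q 0 0 2,
     - q 0 0 1 + q 0 1 2 - q 0 1 3 + q 0 2 3,
    q 0 1 2 - q 0 2 3 - q 1 1 3,
    q 0 2 2 + q 1 1 2 - 2 * q 1 2 3,
    2 * q 1 2 2 - q 2 2 3,
     - q 1 1 1 + q 2 2 2,
     - q 1 2 1,
     - q 2 2 1]

/-- the remaining coordinates from the structure constants -/
def yOf (q : Fin 3 → Fin 3 → Fin 4 → R) : Fin 6 → R :=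
  ![ - q 0 0 1 + q 0 1 2 + q 0 2 3,
     - q 1 1 3,
     - q 0 1 1 + q 1 1 2 - q 1 2 3,
    q 0 1 1 - q 1 2 3,
    q 0 2 1 + q 1 2 2 - q 2 2 3,
     - q 1 1 1]

/-- the shifts -/
def sOf (q : Fin 3 → Fin 3 → Fin 4 → R) : Fin 3 → R :=
  ![q 0 1 2, q 0 1 1, q 0 2 1]

theorem SC.eqs {t0 t1 t2 t3 t4 t5 t6 t7 t8 y1 y2 y3 y4 y5 y6 s1 s2 s3 : R}
    {q : Fin 3 → Fin 3 → Fin 4 → R}
    (h : SC t0 t1 t2 t3 t4 t5 t6 t7 t8 y1 y2 y3 y4 y5 y6 s1 s2 s3 q) :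
    tOf q = ![t0, t1, t2, t3, t4, t5, t6, t7, t8] ∧ yOf q = ![y1, y2, y3, y4, y5, y6] ∧
      sOf q = ![s1, s2, s3] := by
  refine ⟨?_, ?_, ?_⟩
  · funext i
    fin_cases i
    · change  - q 0 0 3 = t0
      linear_combination (-1) * h.c113
    · change q 0 0 2 = t1
      linear_combination (1) * h.c112
    · change  - q 0 0 1 + q 0 1 2 - q 0 1 3 + q 0 2 3 = t2
      linear_combination (-1) * h.c111 + (1) * h.c122 + (-1) * h.c123 + (1) * h.c133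
    · change q 0 1 2 - q 0 2 3 - q 1 1 3 = t3
      linear_combination (1) * h.c122 + (-1) * h.c133 + (-1) * h.c223
    · change q 0 2 2 + q 1 1 2 - 2 * q 1 2 3 = t4
      linear_combination (1) * h.c132 + (1) * h.c222 + (-2) * h.c233
    · change 2 * q 1 2 2 - q 2 2 3 = t5
      linear_combination (2) * h.c232 + (-1) * h.c333
    · change  - q 1 1 1 + q 2 2 2 = t6
      linear_combination (-1) * h.c221 + (1) * h.c332
    · change  - q 1 2 1 = t7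
      linear_combination (-1) * h.c231
    · change  - q 2 2 1 = t8
      linear_combination (-1) * h.c331
  · funext i
    fin_cases i
    · change  - q 0 0 1 + q 0 1 2 + q 0 2 3 = y1
      linear_combination (-1) * h.c111 + (1) * h.c122 + (1) * h.c133
    · change  - q 1 1 3 = y2
      linear_combination (-1) * h.c223
    · change  - q 0 1 1 + q 1 1 2 - q 1 2 3 = y3
      linear_combination (-1) * h.c121 + (1) * h.c222 + (-1) * h.c233
    · change q 0 1 1 - q 1 2 3 = y4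
      linear_combination (1) * h.c121 + (-1) * h.c233
    · change q 0 2 1 + q 1 2 2 - q 2 2 3 = y5
      linear_combination (1) * h.c131 + (1) * h.c232 + (-1) * h.c333
    · change  - q 1 1 1 = y6
      linear_combination (-1) * h.c221
  · funext i
    fin_cases i
    · change q 0 1 2 = s1
      linear_combination h.c122
    · change q 0 1 1 = s2
      linear_combination h.c121
    · change q 0 2 1 = s3
      linear_combination h.c131

theorem sc_of (q : Fin 3 → Fin 3 → Fin 4 → R) :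
    SC (tOf q 0) (tOf q 1) (tOf q 2) (tOf q 3) (tOf q 4) (tOf q 5) (tOf q 6) (tOf q 7) (tOf q 8)
      (yOf q 0) (yOf q 1) (yOf q 2) (yOf q 3) (yOf q 4) (yOf q 5) (sOf q 0) (sOf q 1) (sOf q 2)
      q := by
  have ht0 : tOf q 0 =  - q 0 0 3 := rfl
  have ht1 : tOf q 1 = q 0 0 2 := rfl
  have ht2 : tOf q 2 =  - q 0 0 1 + q 0 1 2 - q 0 1 3 + q 0 2 3 := rfl
  have ht3 : tOf q 3 = q 0 1 2 - q 0 2 3 - q 1 1 3 := rfl
  have ht4 : tOf q 4 = q 0 2 2 + q 1 1 2 - 2 * q 1 2 3 := rfl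
  have ht5 : tOf q 5 = 2 * q 1 2 2 - q 2 2 3 := rfl
  have ht6 : tOf q 6 =  - q 1 1 1 + q 2 2 2 := rfl
  have ht7 : tOf q 7 =  - q 1 2 1 := rfl
  have ht8 : tOf q 8 =  - q 2 2 1 := rfl
  have hy0 : yOf q 0 =  - q 0 0 1 + q 0 1 2 + q 0 2 3 := rfl
  have hy1 : yOf q 1 =  - q 1 1 3 := rfl
  have hy2 : yOf q 2 =  - q 0 1 1 + q 1 1 2 - q 1 2 3 := rfl
  have hy3 : yOf q 3 = q 0 1 1 - q 1 2 3 := rfl
  have hy4 : yOf q 4 = q 0 2 1 + q 1 2 2 - q 2 2 3 := rfl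
  have hy5 : yOf q 5 =  - q 1 1 1 := rfl
  have hs0 : sOf q 0 = q 0 1 2 := rfl
  have hs1 : sOf q 1 = q 0 1 1 := rfl
  have hs2 : sOf q 2 = q 0 2 1 := rfl
  refine ⟨?_, ?_, ?_, ?_, ?_, ?_, ?_, ?_, ?_, ?_, ?_, ?_, ?_, ?_, ?_, ?_, ?_, ?_⟩ <;>
    simp only [ht0, ht1, ht2, ht3, ht4, ht5, ht6, ht7, ht8, hy0, hy1, hy2, hy3, hy4, hy5, hs0, hs1, hs2] <;> ring

end formulas

section chart

variable {k : Type u} [CommRing k] {R : Type u} [CommRing R] [Algebra k R]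

/-- structure constants of a chart datum -/
noncomputable def cc (c : Chart k (stdFrame k) R) (i j : Fin 3) (l : Fin 4) : R :=
  c.q (X i * X j) l

variable (c : Chart k (stdFrame k) R)

theorem cc_comm (i j : Fin 3) (l : Fin 4) : cc c i j l = cc c j i l := by
  unfold cc
  rw [mul_comm]

theorem stdFrame_succ (i : Fin 3) : stdFrame k i.succ = X i := by
  fin_cases i <;> rfl

theorem q_X (i : Fin 3) : c.q (X i) = Pi.single i.succ 1 := by
  rw [← stdFrame_succ, c.q_b]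

theorem q_one : c.q 1 = Pi.single 0 1 := c.q_b 0

theorem q_three (i j l : Fin 3) (n : Fin 4) : c.q (X i * X j * X l) n =
    cc c i j 0 * (Pi.single l.succ 1 : Fin 4 → R) n + cc c i j 1 * cc c 0 l n +
      cc c i j 2 * cc c 1 l n + cc c i j 3 * cc c 2 l n := by
  rw [c.q_mul, Fin.sum_univ_four]
  have e0 : stdFrame k 0 * X l = X l := one_mul _
  have e1 : stdFrame k 1 * X l = X 0 * X l := rfl
  have e2 : stdFrame k 2 * X l = X 1 * X l := rfl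
  have e3 : stdFrame k 3 * X l = X 2 * X l := rfl
  rw [e0, e1, e2, e3, q_X]
  rfl

theorem rel_of_chart :
    Rel (tOf (cc c) 0) (tOf (cc c) 1) (tOf (cc c) 2) (tOf (cc c) 3) (tOf (cc c) 4) (tOf (cc c) 5)
      (tOf (cc c) 6) (tOf (cc c) 7) (tOf (cc c) 8)
      (yOf (cc c) 0) (yOf (cc c) 1) (yOf (cc c) 2) (yOf (cc c) 3) (yOf (cc c) 4)
      (yOf (cc c) 5) := by
  have s0 : ∀ l : Fin 3, ∀ n : Fin 4, l.succ = n → (Pi.single l.succ 1 : Fin 4 → R) n = 1 := by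
    rintro l n rfl; exact Pi.single_eq_same _ _
  have s1 : ∀ l : Fin 3, ∀ n : Fin 4, n ≠ l.succ → (Pi.single l.succ 1 : Fin 4 → R) n = 0 := by
    intro l n h; exact Pi.single_eq_of_ne h _
  have a0 : cc c 0 0 1 * cc c 0 1 1 + cc c 0 0 2 * cc c 1 1 1 + cc c 0 0 3 * cc c 1 2 1 = cc c 0 1 0 + cc c 0 1 1 * cc c 0 0 1 + cc c 0 1 2 * cc c 0 1 1 + cc c 0 1 3 * cc c 0 2 1 := by
    have h1 := q_three c 0 0 1 1
    have h2 := q_three c 0 1 0 1
    rw [show (X 0 * X 1 * X 0 : MvPolynomial (Fin 3) k) = X 0 * X 0 * X 1 by ring] at h2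
    rw [h2] at h1
    rw [s0 0 1 rfl, s1 1 1 (by decide)] at h1
    simp only [cc_comm c 1 0, cc_comm c 2 0, cc_comm c 2 1] at h1 ⊢
    linear_combination -h1
  have a1 : cc c 0 0 0 + cc c 0 0 1 * cc c 0 1 2 + cc c 0 0 2 * cc c 1 1 2 + cc c 0 0 3 * cc c 1 2 2 = cc c 0 1 1 * cc c 0 0 2 + cc c 0 1 2 * cc c 0 1 2 + cc c 0 1 3 * cc c 0 2 2 := by
    have h1 := q_three c 0 0 1 2
    have h2 := q_three c 0 1 0 2
    rw [show (X 0 * X 1 * X 0 : MvPolynomial (Fin 3) k) = X 0 * X 0 * X 1 by ring] at h2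
    rw [h2] at h1
    rw [s1 0 2 (by decide), s0 1 2 rfl] at h1
    simp only [cc_comm c 1 0, cc_comm c 2 0, cc_comm c 2 1] at h1 ⊢
    linear_combination -h1
  have a2 : cc c 0 0 1 * cc c 0 1 3 + cc c 0 0 2 * cc c 1 1 3 + cc c 0 0 3 * cc c 1 2 3 = cc c 0 1 1 * cc c 0 0 3 + cc c 0 1 2 * cc c 0 1 3 + cc c 0 1 3 * cc c 0 2 3 := by
    have h1 := q_three c 0 0 1 3
    have h2 := q_three c 0 1 0 3
    rw [show (X 0 * X 1 * X 0 : MvPolynomial (Fin 3) k) = X 0 * X 0 * X 1 by ring] at h2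
    rw [h2] at h1
    rw [s1 0 3 (by decide), s1 1 3 (by decide)] at h1
    simp only [cc_comm c 1 0, cc_comm c 2 0, cc_comm c 2 1] at h1 ⊢
    linear_combination -h1
  have a3 : cc c 0 0 1 * cc c 0 2 1 + cc c 0 0 2 * cc c 1 2 1 + cc c 0 0 3 * cc c 2 2 1 = cc c 0 2 0 + cc c 0 2 1 * cc c 0 0 1 + cc c 0 2 2 * cc c 0 1 1 + cc c 0 2 3 * cc c 0 2 1 := by
    have h1 := q_three c 0 0 2 1
    have h2 := q_three c 0 2 0 1
    rw [show (X 0 * X 2 * X 0 : MvPolynomial (Fin 3) k) = X 0 * X 0 * X 2 by ring] at h2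
    rw [h2] at h1
    rw [s0 0 1 rfl, s1 2 1 (by decide)] at h1
    simp only [cc_comm c 1 0, cc_comm c 2 0, cc_comm c 2 1] at h1 ⊢
    linear_combination -h1
  have a4 : cc c 0 0 1 * cc c 0 2 2 + cc c 0 0 2 * cc c 1 2 2 + cc c 0 0 3 * cc c 2 2 2 = cc c 0 2 1 * cc c 0 0 2 + cc c 0 2 2 * cc c 0 1 2 + cc c 0 2 3 * cc c 0 2 2 := by
    have h1 := q_three c 0 0 2 2
    have h2 := q_three c 0 2 0 2
    rw [show (X 0 * X 2 * X 0 : MvPolynomial (Fin 3) k) = X 0 * X 0 * X 2 by ring] at h2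
    rw [h2] at h1
    rw [s1 0 2 (by decide), s1 2 2 (by decide)] at h1
    simp only [cc_comm c 1 0, cc_comm c 2 0, cc_comm c 2 1] at h1 ⊢
    linear_combination -h1
  have a5 : cc c 0 0 0 + cc c 0 0 1 * cc c 0 2 3 + cc c 0 0 2 * cc c 1 2 3 + cc c 0 0 3 * cc c 2 2 3 = cc c 0 2 1 * cc c 0 0 3 + cc c 0 2 2 * cc c 0 1 3 + cc c 0 2 3 * cc c 0 2 3 := by
    have h1 := q_three c 0 0 2 3
    have h2 := q_three c 0 2 0 3
    rw [show (X 0 * X 2 * X 0 : MvPolynomial (Fin 3) k) = X 0 * X 0 * X 2 by ring] at h2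
    rw [h2] at h1
    rw [s1 0 3 (by decide), s0 2 3 rfl] at h1
    simp only [cc_comm c 1 0, cc_comm c 2 0, cc_comm c 2 1] at h1 ⊢
    linear_combination -h1
  have a6 : cc c 0 1 1 * cc c 0 1 1 + cc c 0 1 2 * cc c 1 1 1 + cc c 0 1 3 * cc c 1 2 1 = cc c 1 1 0 + cc c 1 1 1 * cc c 0 0 1 + cc c 1 1 2 * cc c 0 1 1 + cc c 1 1 3 * cc c 0 2 1 := by
    have h1 := q_three c 0 1 1 1
    have h2 := q_three c 1 1 0 1
    rw [show (X 1 * X 1 * X 0 : MvPolynomial (Fin 3) k) = X 0 * X 1 * X 1 by ring] at h2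
    rw [h2] at h1
    rw [s0 0 1 rfl, s1 1 1 (by decide)] at h1
    simp only [cc_comm c 1 0, cc_comm c 2 0, cc_comm c 2 1] at h1 ⊢
    linear_combination -h1
  have a7 : cc c 0 1 0 + cc c 0 1 1 * cc c 0 1 2 + cc c 0 1 2 * cc c 1 1 2 + cc c 0 1 3 * cc c 1 2 2 = cc c 1 1 1 * cc c 0 0 2 + cc c 1 1 2 * cc c 0 1 2 + cc c 1 1 3 * cc c 0 2 2 := by
    have h1 := q_three c 0 1 1 2
    have h2 := q_three c 1 1 0 2
    rw [show (X 1 * X 1 * X 0 : MvPolynomial (Fin 3) k) = X 0 * X 1 * X 1 by ring] at h2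
    rw [h2] at h1
    rw [s1 0 2 (by decide), s0 1 2 rfl] at h1
    simp only [cc_comm c 1 0, cc_comm c 2 0, cc_comm c 2 1] at h1 ⊢
    linear_combination -h1
  have a8 : cc c 0 1 1 * cc c 0 1 3 + cc c 0 1 2 * cc c 1 1 3 + cc c 0 1 3 * cc c 1 2 3 = cc c 1 1 1 * cc c 0 0 3 + cc c 1 1 2 * cc c 0 1 3 + cc c 1 1 3 * cc c 0 2 3 := by
    have h1 := q_three c 0 1 1 3
    have h2 := q_three c 1 1 0 3
    rw [show (X 1 * X 1 * X 0 : MvPolynomial (Fin 3) k) = X 0 * X 1 * X 1 by ring] at h2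
    rw [h2] at h1
    rw [s1 0 3 (by decide), s1 1 3 (by decide)] at h1
    simp only [cc_comm c 1 0, cc_comm c 2 0, cc_comm c 2 1] at h1 ⊢
    linear_combination -h1
  have a9 : cc c 0 1 1 * cc c 0 2 1 + cc c 0 1 2 * cc c 1 2 1 + cc c 0 1 3 * cc c 2 2 1 = cc c 0 2 1 * cc c 0 1 1 + cc c 0 2 2 * cc c 1 1 1 + cc c 0 2 3 * cc c 1 2 1 := by
    have h1 := q_three c 0 1 2 1
    have h2 := q_three c 0 2 1 1
    rw [show (X 0 * X 2 * X 1 : MvPolynomial (Fin 3) k) = X 0 * X 1 * X 2 by ring] at h2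
    rw [h2] at h1
    rw [s1 1 1 (by decide), s1 2 1 (by decide)] at h1
    simp only [cc_comm c 1 0, cc_comm c 2 0, cc_comm c 2 1] at h1 ⊢
    linear_combination -h1
  have a10 : cc c 0 1 1 * cc c 0 2 2 + cc c 0 1 2 * cc c 1 2 2 + cc c 0 1 3 * cc c 2 2 2 = cc c 0 2 0 + cc c 0 2 1 * cc c 0 1 2 + cc c 0 2 2 * cc c 1 1 2 + cc c 0 2 3 * cc c 1 2 2 := by
    have h1 := q_three c 0 1 2 2
    have h2 := q_three c 0 2 1 2
    rw [show (X 0 * X 2 * X 1 : MvPolynomial (Fin 3) k) = X 0 * X 1 * X 2 by ring] at h2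
    rw [h2] at h1
    rw [s0 1 2 rfl, s1 2 2 (by decide)] at h1
    simp only [cc_comm c 1 0, cc_comm c 2 0, cc_comm c 2 1] at h1 ⊢
    linear_combination -h1
  have a11 : cc c 0 1 0 + cc c 0 1 1 * cc c 0 2 3 + cc c 0 1 2 * cc c 1 2 3 + cc c 0 1 3 * cc c 2 2 3 = cc c 0 2 1 * cc c 0 1 3 + cc c 0 2 2 * cc c 1 1 3 + cc c 0 2 3 * cc c 1 2 3 := by
    have h1 := q_three c 0 1 2 3
    have h2 := q_three c 0 2 1 3
    rw [show (X 0 * X 2 * X 1 : MvPolynomial (Fin 3) k) = X 0 * X 1 * X 2 by ring] at h2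
    rw [h2] at h1
    rw [s1 1 3 (by decide), s0 2 3 rfl] at h1
    simp only [cc_comm c 1 0, cc_comm c 2 0, cc_comm c 2 1] at h1 ⊢
    linear_combination -h1
  have a12 : cc c 0 1 1 * cc c 0 2 1 + cc c 0 1 2 * cc c 1 2 1 + cc c 0 1 3 * cc c 2 2 1 = cc c 1 2 0 + cc c 1 2 1 * cc c 0 0 1 + cc c 1 2 2 * cc c 0 1 1 + cc c 1 2 3 * cc c 0 2 1 := by
    have h1 := q_three c 0 1 2 1
    have h2 := q_three c 1 2 0 1
    rw [show (X 1 * X 2 * X 0 : MvPolynomial (Fin 3) k) = X 0 * X 1 * X 2 by ring] at h2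
    rw [h2] at h1
    rw [s0 0 1 rfl, s1 2 1 (by decide)] at h1
    simp only [cc_comm c 1 0, cc_comm c 2 0, cc_comm c 2 1] at h1 ⊢
    linear_combination -h1
  have a13 : cc c 0 1 1 * cc c 0 2 2 + cc c 0 1 2 * cc c 1 2 2 + cc c 0 1 3 * cc c 2 2 2 = cc c 1 2 1 * cc c 0 0 2 + cc c 1 2 2 * cc c 0 1 2 + cc c 1 2 3 * cc c 0 2 2 := by
    have h1 := q_three c 0 1 2 2
    have h2 := q_three c 1 2 0 2
    rw [show (X 1 * X 2 * X 0 : MvPolynomial (Fin 3) k) = X 0 * X 1 * X 2 by ring] at h2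
    rw [h2] at h1
    rw [s1 0 2 (by decide), s1 2 2 (by decide)] at h1
    simp only [cc_comm c 1 0, cc_comm c 2 0, cc_comm c 2 1] at h1 ⊢
    linear_combination -h1
  have a14 : cc c 0 1 0 + cc c 0 1 1 * cc c 0 2 3 + cc c 0 1 2 * cc c 1 2 3 + cc c 0 1 3 * cc c 2 2 3 = cc c 1 2 1 * cc c 0 0 3 + cc c 1 2 2 * cc c 0 1 3 + cc c 1 2 3 * cc c 0 2 3 := by
    have h1 := q_three c 0 1 2 3
    have h2 := q_three c 1 2 0 3
    rw [show (X 1 * X 2 * X 0 : MvPolynomial (Fin 3) k) = X 0 * X 1 * X 2 by ring] at h2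
    rw [h2] at h1
    rw [s1 0 3 (by decide), s0 2 3 rfl] at h1
    simp only [cc_comm c 1 0, cc_comm c 2 0, cc_comm c 2 1] at h1 ⊢
    linear_combination -h1
  have a15 : cc c 0 2 1 * cc c 0 2 1 + cc c 0 2 2 * cc c 1 2 1 + cc c 0 2 3 * cc c 2 2 1 = cc c 2 2 0 + cc c 2 2 1 * cc c 0 0 1 + cc c 2 2 2 * cc c 0 1 1 + cc c 2 2 3 * cc c 0 2 1 := by
    have h1 := q_three c 0 2 2 1
    have h2 := q_three c 2 2 0 1
    rw [show (X 2 * X 2 * X 0 : MvPolynomial (Fin 3) k) = X 0 * X 2 * X 2 by ring] at h2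
    rw [h2] at h1
    rw [s0 0 1 rfl, s1 2 1 (by decide)] at h1
    simp only [cc_comm c 1 0, cc_comm c 2 0, cc_comm c 2 1] at h1 ⊢
    linear_combination -h1
  have a16 : cc c 0 2 1 * cc c 0 2 2 + cc c 0 2 2 * cc c 1 2 2 + cc c 0 2 3 * cc c 2 2 2 = cc c 2 2 1 * cc c 0 0 2 + cc c 2 2 2 * cc c 0 1 2 + cc c 2 2 3 * cc c 0 2 2 := by
    have h1 := q_three c 0 2 2 2
    have h2 := q_three c 2 2 0 2
    rw [show (X 2 * X 2 * X 0 : MvPolynomial (Fin 3) k) = X 0 * X 2 * X 2 by ring] at h2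
    rw [h2] at h1
    rw [s1 0 2 (by decide), s1 2 2 (by decide)] at h1
    simp only [cc_comm c 1 0, cc_comm c 2 0, cc_comm c 2 1] at h1 ⊢
    linear_combination -h1
  have a17 : cc c 0 2 0 + cc c 0 2 1 * cc c 0 2 3 + cc c 0 2 2 * cc c 1 2 3 + cc c 0 2 3 * cc c 2 2 3 = cc c 2 2 1 * cc c 0 0 3 + cc c 2 2 2 * cc c 0 1 3 + cc c 2 2 3 * cc c 0 2 3 := by
    have h1 := q_three c 0 2 2 3
    have h2 := q_three c 2 2 0 3
    rw [show (X 2 * X 2 * X 0 : MvPolynomial (Fin 3) k) = X 0 * X 2 * X 2 by ring] at h2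
    rw [h2] at h1
    rw [s1 0 3 (by decide), s0 2 3 rfl] at h1
    simp only [cc_comm c 1 0, cc_comm c 2 0, cc_comm c 2 1] at h1 ⊢
    linear_combination -h1
  have a18 : cc c 1 1 1 * cc c 0 2 1 + cc c 1 1 2 * cc c 1 2 1 + cc c 1 1 3 * cc c 2 2 1 = cc c 1 2 1 * cc c 0 1 1 + cc c 1 2 2 * cc c 1 1 1 + cc c 1 2 3 * cc c 1 2 1 := by
    have h1 := q_three c 1 1 2 1
    have h2 := q_three c 1 2 1 1
    rw [show (X 1 * X 2 * X 1 : MvPolynomial (Fin 3) k) = X 1 * X 1 * X 2 by ring] at h2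
    rw [h2] at h1
    rw [s1 1 1 (by decide), s1 2 1 (by decide)] at h1
    simp only [cc_comm c 1 0, cc_comm c 2 0, cc_comm c 2 1] at h1 ⊢
    linear_combination -h1
  have a19 : cc c 1 1 1 * cc c 0 2 2 + cc c 1 1 2 * cc c 1 2 2 + cc c 1 1 3 * cc c 2 2 2 = cc c 1 2 0 + cc c 1 2 1 * cc c 0 1 2 + cc c 1 2 2 * cc c 1 1 2 + cc c 1 2 3 * cc c 1 2 2 := by
    have h1 := q_three c 1 1 2 2
    have h2 := q_three c 1 2 1 2
    rw [show (X 1 * X 2 * X 1 : MvPolynomial (Fin 3) k) = X 1 * X 1 * X 2 by ring] at h2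
    rw [h2] at h1
    rw [s0 1 2 rfl, s1 2 2 (by decide)] at h1
    simp only [cc_comm c 1 0, cc_comm c 2 0, cc_comm c 2 1] at h1 ⊢
    linear_combination -h1
  have a20 : cc c 1 1 0 + cc c 1 1 1 * cc c 0 2 3 + cc c 1 1 2 * cc c 1 2 3 + cc c 1 1 3 * cc c 2 2 3 = cc c 1 2 1 * cc c 0 1 3 + cc c 1 2 2 * cc c 1 1 3 + cc c 1 2 3 * cc c 1 2 3 := by
    have h1 := q_three c 1 1 2 3
    have h2 := q_three c 1 2 1 3
    rw [show (X 1 * X 2 * X 1 : MvPolynomial (Fin 3) k) = X 1 * X 1 * X 2 by ring] at h2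
    rw [h2] at h1
    rw [s1 1 3 (by decide), s0 2 3 rfl] at h1
    simp only [cc_comm c 1 0, cc_comm c 2 0, cc_comm c 2 1] at h1 ⊢
    linear_combination -h1
  have a21 : cc c 1 2 1 * cc c 0 2 1 + cc c 1 2 2 * cc c 1 2 1 + cc c 1 2 3 * cc c 2 2 1 = cc c 2 2 1 * cc c 0 1 1 + cc c 2 2 2 * cc c 1 1 1 + cc c 2 2 3 * cc c 1 2 1 := by
    have h1 := q_three c 1 2 2 1
    have h2 := q_three c 2 2 1 1
    rw [show (X 2 * X 2 * X 1 : MvPolynomial (Fin 3) k) = X 1 * X 2 * X 2 by ring] at h2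
    rw [h2] at h1
    rw [s1 1 1 (by decide), s1 2 1 (by decide)] at h1
    simp only [cc_comm c 1 0, cc_comm c 2 0, cc_comm c 2 1] at h1 ⊢
    linear_combination -h1
  have a22 : cc c 1 2 1 * cc c 0 2 2 + cc c 1 2 2 * cc c 1 2 2 + cc c 1 2 3 * cc c 2 2 2 = cc c 2 2 0 + cc c 2 2 1 * cc c 0 1 2 + cc c 2 2 2 * cc c 1 1 2 + cc c 2 2 3 * cc c 1 2 2 := by
    have h1 := q_three c 1 2 2 2
    have h2 := q_three c 2 2 1 2
    rw [show (X 2 * X 2 * X 1 : MvPolynomial (Fin 3) k) = X 1 * X 2 * X 2 by ring] at h2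
    rw [h2] at h1
    rw [s0 1 2 rfl, s1 2 2 (by decide)] at h1
    simp only [cc_comm c 1 0, cc_comm c 2 0, cc_comm c 2 1] at h1 ⊢
    linear_combination -h1
  have a23 : cc c 1 2 0 + cc c 1 2 1 * cc c 0 2 3 + cc c 1 2 2 * cc c 1 2 3 + cc c 1 2 3 * cc c 2 2 3 = cc c 2 2 1 * cc c 0 1 3 + cc c 2 2 2 * cc c 1 1 3 + cc c 2 2 3 * cc c 1 2 3 := by
    have h1 := q_three c 1 2 2 3
    have h2 := q_three c 2 2 1 3
    rw [show (X 2 * X 2 * X 1 : MvPolynomial (Fin 3) k) = X 1 * X 2 * X 2 by ring] at h2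
    rw [h2] at h1
    rw [s1 1 3 (by decide), s0 2 3 rfl] at h1
    simp only [cc_comm c 1 0, cc_comm c 2 0, cc_comm c 2 1] at h1 ⊢
    linear_combination -h1
  have ht0 : tOf (cc c) 0 =  - cc c 0 0 3 := rfl
  have ht1 : tOf (cc c) 1 = cc c 0 0 2 := rfl
  have ht2 : tOf (cc c) 2 =  - cc c 0 0 1 + cc c 0 1 2 - cc c 0 1 3 + cc c 0 2 3 := rfl
  have ht3 : tOf (cc c) 3 = cc c 0 1 2 - cc c 0 2 3 - cc c 1 1 3 := rfl
  have ht4 : tOf (cc c) 4 = cc c 0 2 2 + cc c 1 1 2 - 2 * cc c 1 2 3 := rfl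
  have ht5 : tOf (cc c) 5 = 2 * cc c 1 2 2 - cc c 2 2 3 := rfl
  have ht6 : tOf (cc c) 6 =  - cc c 1 1 1 + cc c 2 2 2 := rfl
  have ht7 : tOf (cc c) 7 =  - cc c 1 2 1 := rfl
  have ht8 : tOf (cc c) 8 =  - cc c 2 2 1 := rfl
  have hy0 : yOf (cc c) 0 =  - cc c 0 0 1 + cc c 0 1 2 + cc c 0 2 3 := rfl
  have hy1 : yOf (cc c) 1 =  - cc c 1 1 3 := rfl
  have hy2 : yOf (cc c) 2 =  - cc c 0 1 1 + cc c 1 1 2 - cc c 1 2 3 := rfl
  have hy3 : yOf (cc c) 3 = cc c 0 1 1 - cc c 1 2 3 := rfl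
  have hy4 : yOf (cc c) 4 = cc c 0 2 1 + cc c 1 2 2 - cc c 2 2 3 := rfl
  have hy5 : yOf (cc c) 5 =  - cc c 1 1 1 := rfl
  refine ⟨?_, ?_, ?_, ?_, ?_, ?_, ?_, ?_, ?_, ?_, ?_, ?_, ?_, ?_, ?_⟩ <;>
    simp only [ht0, ht1, ht2, ht3, ht4, ht5, ht6, ht7, ht8, hy0, hy1, hy2, hy3, hy4, hy5]
  · linear_combination (-1) * a2
  · linear_combination (1) * a1 + (-1) * a5
  · linear_combination (1) * a4
  · linear_combination (1) * a7 + (-1) * a11
  · linear_combination (-1) * a13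
  · linear_combination (1) * a4 + (1) * a8
  · linear_combination (-1) * a0 + (-2) * a7 + (1) * a11
  · linear_combination (1) * a6 + (-1) * a13 + (1) * a20
  · linear_combination (1) * a9 + (-1) * a12 + (1) * a19
  · linear_combination (-1) * a3 + (-1) * a6 + (1) * a10 + (-1) * a20
  · linear_combination (-1) * a9 + (1) * a12 + (-1) * a16 + (-1) * a19
  · linear_combination (-1) * a9
  · linear_combination (-1) * a9 + (1) * a15 + (-1) * a22
  · linear_combination (-1) * a18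
  · linear_combination (-1) * a21

theorem cc_zero_mem (S : Subalgebra k R) (hS : ∀ i j l, l ≠ 0 → cc c i j l ∈ S) (i j : Fin 3) :
    cc c i j 0 ∈ S := by
  obtain ⟨l, hl⟩ : ∃ l : Fin 3, l ≠ i := ⟨i + 1, by revert i; decide⟩
  have h1 := q_three c i j l l.succ
  have h2 := q_three c l j i l.succ
  rw [show (X l * X j * X i : MvPolynomial (Fin 3) k) = X i * X j * X l by ring, h1,
    Pi.single_eq_same, Pi.single_eq_of_ne (fun h => hl (Fin.succ_injective _ h)), mul_one,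
    mul_zero, zero_add] at h2
  have e : cc c i j 0 = cc c l j 1 * cc c 0 i l.succ + cc c l j 2 * cc c 1 i l.succ +
      cc c l j 3 * cc c 2 i l.succ - (cc c i j 1 * cc c 0 l l.succ +
      cc c i j 2 * cc c 1 l l.succ + cc c i j 3 * cc c 2 l l.succ) := by
    linear_combination h2
  rw [e]
  have hne := Fin.succ_ne_zero l
  have h1 : (1 : Fin 4) ≠ 0 := by decide
  have h2 : (2 : Fin 4) ≠ 0 := by decide
  have h3 : (3 : Fin 4) ≠ 0 := by decide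
  exact S.sub_mem (S.add_mem (S.add_mem (S.mul_mem (hS _ _ _ h1) (hS _ _ _ hne))
    (S.mul_mem (hS _ _ _ h2) (hS _ _ _ hne))) (S.mul_mem (hS _ _ _ h3) (hS _ _ _ hne)))
    (S.add_mem (S.add_mem (S.mul_mem (hS _ _ _ h1) (hS _ _ _ hne))
    (S.mul_mem (hS _ _ _ h2) (hS _ _ _ hne))) (S.mul_mem (hS _ _ _ h3) (hS _ _ _ hne)))

end chart

section iso

variable {k : Type u} [Field k]

theorem chartRing_adjoin {B : Type u} [CommRing B] [Algebra k B] {d : ℕ} (b : Fin d → B)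
    (s : Finset B) (hs : Algebra.adjoin k (s : Set B) = ⊤) :
    Algebra.adjoin k (genFin (k := k) b s) = ⊤ := by
  rw [eq_top_iff]
  rintro z -
  obtain ⟨p, rfl⟩ := Ideal.Quotient.mk_surjective z
  induction p using MvPolynomial.induction_on with
  | C a => exact Subalgebra.algebraMap_mem _ a
  | add p q hp hq => rw [map_add]; exact Subalgebra.add_mem _ hp hq
  | mul_X p i hp =>
    rw [map_mul]
    refine Subalgebra.mul_mem _ hp ?_
    obtain ⟨x, j⟩ := i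
    have := q_mem_adjoin (k := k) b s hs x 1 (fun l => Algebra.subset_adjoin (Or.inl ⟨l, rfl⟩)) j
    rw [one_mul] at this
    exact this

end iso

end Pool.Agent.J4.H15
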