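import Pool.Agent.J4.H15.Model

/-!
# The algebra defined by the relations: spanning and independence of the fourteen monomials
-/

set_option autoImplicit false
set_option linter.unusedVariables false
set_option linter.unusedSimpArgs false
set_option maxRecDepth 100000

universe u

namespace Pool.Agent.J4.H15

section span

variable {A : Type*} [CommRing A] {C : Type*} [CommRing C] [Algebra A C]

theorem col1_alg (t0 t1 t2 t3 t4 t5 t6 t7 t8 : A) (e : Fin 14 → C) (b : Fin 14) :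
    col1 t0 t1 t2 t3 t4 t5 t6 t7 t8 e b = col1 (algebraMap A C t0) (algebraMap A C t1) (algebraMap A C t2)
      (algebraMap A C t3) (algebraMap A C t4) (algebraMap A C t5) (algebraMap A C t6)
      (algebraMap A C t7) (algebraMap A C t8) e b := by
  fin_cases b <;> simp only [col1, Algebra.smul_def, smul_eq_mul, map_add, map_sub, map_mul,
    map_neg, map_pow, map_ofNat, map_one, Algebra.algebraMap_self, RingHom.id_apply]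

theorem col1_mem {M : Type*} [AddCommGroup M] [Module A M] (t0 t1 t2 t3 t4 t5 t6 t7 t8 : A) (e : Fin 14 → M)
    (b : Fin 14) (N : Submodule A M) (he : ∀ c, e c ∈ N) : col1 t0 t1 t2 t3 t4 t5 t6 t7 t8 e b ∈ N := by
  fin_cases b <;> simp only [col1] <;>
    (repeat' apply Submodule.add_mem) <;>
    first
    | exact he _
    | exact Submodule.smul_mem _ _ (he _)

theorem col2_alg (t0 t1 t2 t3 t4 t5 t6 t7 t8 : A) (e : Fin 14 → C) (b : Fin 14) :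
    col2 t0 t1 t2 t3 t4 t5 t6 t7 t8 e b = col2 (algebraMap A C t0) (algebraMap A C t1) (algebraMap A C t2)
      (algebraMap A C t3) (algebraMap A C t4) (algebraMap A C t5) (algebraMap A C t6)
      (algebraMap A C t7) (algebraMap A C t8) e b := by
  fin_cases b <;> simp only [col2, Algebra.smul_def, smul_eq_mul, map_add, map_sub, map_mul,
    map_neg, map_pow, map_ofNat, map_one, Algebra.algebraMap_self, RingHom.id_apply]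

theorem col2_mem {M : Type*} [AddCommGroup M] [Module A M] (t0 t1 t2 t3 t4 t5 t6 t7 t8 : A) (e : Fin 14 → M)
    (b : Fin 14) (N : Submodule A M) (he : ∀ c, e c ∈ N) : col2 t0 t1 t2 t3 t4 t5 t6 t7 t8 e b ∈ N := by
  fin_cases b <;> simp only [col2] <;>
    (repeat' apply Submodule.add_mem) <;>
    first
    | exact he _
    | exact Submodule.smul_mem _ _ (he _)

theorem col3_alg (t0 t1 t2 t3 t4 t5 t6 t7 t8 : A) (e : Fin 14 → C) (b : Fin 14) :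
    col3 t0 t1 t2 t3 t4 t5 t6 t7 t8 e b = col3 (algebraMap A C t0) (algebraMap A C t1) (algebraMap A C t2)
      (algebraMap A C t3) (algebraMap A C t4) (algebraMap A C t5) (algebraMap A C t6)
      (algebraMap A C t7) (algebraMap A C t8) e b := by
  fin_cases b <;> simp only [col3, Algebra.smul_def, smul_eq_mul, map_add, map_sub, map_mul,
    map_neg, map_pow, map_ofNat, map_one, Algebra.algebraMap_self, RingHom.id_apply]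

theorem col3_mem {M : Type*} [AddCommGroup M] [Module A M] (t0 t1 t2 t3 t4 t5 t6 t7 t8 : A) (e : Fin 14 → M)
    (b : Fin 14) (N : Submodule A M) (he : ∀ c, e c ∈ N) : col3 t0 t1 t2 t3 t4 t5 t6 t7 t8 e b ∈ N := by
  fin_cases b <;> simp only [col3] <;>
    (repeat' apply Submodule.add_mem) <;>
    first
    | exact he _
    | exact Submodule.smul_mem _ _ (he _)

theorem col4_alg (t0 t1 t2 t3 t4 t5 t6 t7 t8 : A) (e : Fin 14 → C) (b : Fin 14) :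
    col4 t0 t1 t2 t3 t4 t5 t6 t7 t8 e b = col4 (algebraMap A C t0) (algebraMap A C t1) (algebraMap A C t2)
      (algebraMap A C t3) (algebraMap A C t4) (algebraMap A C t5) (algebraMap A C t6)
      (algebraMap A C t7) (algebraMap A C t8) e b := by
  fin_cases b <;> simp only [col4, Algebra.smul_def, smul_eq_mul, map_add, map_sub, map_mul,
    map_neg, map_pow, map_ofNat, map_one, Algebra.algebraMap_self, RingHom.id_apply]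

theorem col4_mem {M : Type*} [AddCommGroup M] [Module A M] (t0 t1 t2 t3 t4 t5 t6 t7 t8 : A) (e : Fin 14 → M)
    (b : Fin 14) (N : Submodule A M) (he : ∀ c, e c ∈ N) : col4 t0 t1 t2 t3 t4 t5 t6 t7 t8 e b ∈ N := by
  fin_cases b <;> simp only [col4] <;>
    (repeat' apply Submodule.add_mem) <;>
    first
    | exact he _
    | exact Submodule.smul_mem _ _ (he _)

theorem col5_alg (t0 t1 t2 t3 t4 t5 t6 t7 t8 : A) (e : Fin 14 → C) (b : Fin 14) :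
    col5 t0 t1 t2 t3 t4 t5 t6 t7 t8 e b = col5 (algebraMap A C t0) (algebraMap A C t1) (algebraMap A C t2)
      (algebraMap A C t3) (algebraMap A C t4) (algebraMap A C t5) (algebraMap A C t6)
      (algebraMap A C t7) (algebraMap A C t8) e b := by
  fin_cases b <;> simp only [col5, Algebra.smul_def, smul_eq_mul, map_add, map_sub, map_mul,
    map_neg, map_pow, map_ofNat, map_one, Algebra.algebraMap_self, RingHom.id_apply]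

theorem col5_mem {M : Type*} [AddCommGroup M] [Module A M] (t0 t1 t2 t3 t4 t5 t6 t7 t8 : A) (e : Fin 14 → M)
    (b : Fin 14) (N : Submodule A M) (he : ∀ c, e c ∈ N) : col5 t0 t1 t2 t3 t4 t5 t6 t7 t8 e b ∈ N := by
  fin_cases b <;> simp only [col5] <;>
    (repeat' apply Submodule.add_mem) <;>
    first
    | exact he _
    | exact Submodule.smul_mem _ _ (he _)

theorem col6_alg (t0 t1 t2 t3 t4 t5 t6 t7 t8 : A) (e : Fin 14 → C) (b : Fin 14) :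
    col6 t0 t1 t2 t3 t4 t5 t6 t7 t8 e b = col6 (algebraMap A C t0) (algebraMap A C t1) (algebraMap A C t2)
      (algebraMap A C t3) (algebraMap A C t4) (algebraMap A C t5) (algebraMap A C t6)
      (algebraMap A C t7) (algebraMap A C t8) e b := by
  fin_cases b <;> simp only [col6, Algebra.smul_def, smul_eq_mul, map_add, map_sub, map_mul,
    map_neg, map_pow, map_ofNat, map_one, Algebra.algebraMap_self, RingHom.id_apply]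

theorem col6_mem {M : Type*} [AddCommGroup M] [Module A M] (t0 t1 t2 t3 t4 t5 t6 t7 t8 : A) (e : Fin 14 → M)
    (b : Fin 14) (N : Submodule A M) (he : ∀ c, e c ∈ N) : col6 t0 t1 t2 t3 t4 t5 t6 t7 t8 e b ∈ N := by
  fin_cases b <;> simp only [col6] <;>
    (repeat' apply Submodule.add_mem) <;>
    first
    | exact he _
    | exact Submodule.smul_mem _ _ (he _)

theorem Rel.mul_mon1 {R : Type*} [CommRing R] {t0 t1 t2 t3 t4 t5 t6 t7 t8 y1 y2 y3 y4 y5 y6 : R}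
    (h : Rel t0 t1 t2 t3 t4 t5 t6 t7 t8 y1 y2 y3 y4 y5 y6) (b : Fin 14) :
    y1 * mon y1 y2 y3 y4 y5 y6 b = col1 t0 t1 t2 t3 t4 t5 t6 t7 t8 (mon y1 y2 y3 y4 y5 y6) b := by
  fin_cases b
  · change y1 * 1 = y1
    ring
  · change y1 * y1 = (t2) * y1 + ( - t1) * y2 + (t0) * y4
    linear_combination h.r11
  · change y1 * y2 = (t3) * y1 + ( - t1) * y3 + (t0) * y5
    linear_combination h.r12
  · change y1 * y3 = (t0*t6 - t1*t5) * 1 + (t4) * y1 + (t1) * y5 + ( - t0) * y6 + (( - 1 : R)) * (y4 * y1)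
    linear_combination h.r13
  · change y1 * y4 = (y4 * y1)
    ring
  · change y1 * y5 = ( - t3) * y4 + (t2) * y5 + ( - t1) * y6 + (y4 * y2)
    linear_combination h.r15
  · change y1 * y6 = (t1*t7 - t2*t6) * 1 + (t6) * y1 + (t4) * y4 + (t2) * y6 + (( - 1 : R)) * (y4 * y3) + (( - 1 : R)) * (y4 * y4)
    linear_combination h.r16
  · change y1 * (y4 * y1) = (t2) * (y4 * y1) + ( - t1) * (y4 * y2) + (t0) * (y4 * y4)
    linear_combination h.q11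
  · change y1 * (y4 * y2) = (t3) * (y4 * y1) + ( - t1) * (y4 * y3) + (t0) * (y4 * y5)
    linear_combination h.q12
  · change y1 * (y4 * y3) = (t0*t2*t8 - t0*t3*t7 - t1^2*t8 - t1*t2*t7 + t1*t3*t6 + t2^2*t6) * 1 + ( - 2*t1*t7 - t2*t6) * y1 + (t0*t7 + t1*t6) * y2 + ( - t0*t6) * y3 + ( - 2*t1*t5 - t2*t4 - t3^2) * y4 + (t0*t5 - t1*t4 + t2*t3) * y5 + (t0*t4 - 2*t1*t3 - t2^2) * y6 + (t3) * (y4 * y2) + (t2) * (y4 * y3) + (t2) * (y4 * y4) + (3*t1) * (y4 * y5) + ( - 2*t0) * (y4 * y6)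
    linear_combination h.q13
  · change y1 * (y4 * y4) = ( - t0*t2*t8 + t0*t3*t7 + t1^2*t8 + t1*t2*t7 - t1*t3*t6 - t2^2*t6) * 1 + (2*t1*t7 + t2*t6) * y1 + ( - t0*t7 - t1*t6) * y2 + (t0*t6) * y3 + (t0*t6 + t1*t5 + t2*t4 + t3^2) * y4 + ( - t0*t5 + t1*t4 - t2*t3) * y5 + ( - t0*t4 + 2*t1*t3 + t2^2) * y6 + (t4) * (y4 * y1) + ( - t3) * (y4 * y2) + ( - t2) * (y4 * y3) + ( - t2) * (y4 * y4) + ( - 2*t1) * (y4 * y5) + (t0) * (y4 * y6)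
    linear_combination h.q14
  · change y1 * (y4 * y5) = ( - t1*t2*t8 + 2*t1*t3*t7 - t2*t3*t6) * 1 + (t1*t8 + t2*t7) * y1 + (t0*t8 - 2*t1*t7) * y2 + ( - t0*t7 + t1*t6) * y3 + (t0*t7 + t3*t4) * y4 + ( - t0*t6) * y5 + (t0*t5 - t1*t4 + t2*t3) * y6 + (t5) * (y4 * y1) + ( - t3) * (y4 * y3) + ( - t3) * (y4 * y4) + (t1) * (y4 * y6)
    linear_combination h.q15
  · change y1 * (y4 * y6) = ( - t0*t6^2 + t1*t4*t7 + t1*t5*t6 - t2^2*t8 + t2*t3*t7 - t2*t4*t6) * 1 + (t2*t8) * y1 + (t1*t8 - t2*t7) * y2 + ( - 2*t1*t7 + t2*t6) * y3 + ( - t1*t7 + t2*t6 - t3*t5 + t4^2) * y4 + (t0*t7 - t1*t6) * y5 + (t0*t6) * y6 + (t5) * (y4 * y2) + ( - t4) * (y4 * y3) + ( - 2*t4) * (y4 * y4) + (t3) * (y4 * y5) + (y4 * (y4 * y4))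
    linear_combination h.q16
  · change y1 * (y4 * (y4 * y4)) = ( - t0^2*t6*t8 + t0^2*t7^2 + t0*t1*t5*t8 + 3*t0*t1*t6*t7 - t0*t2*t4*t8 - t0*t2*t5*t7 - 2*t0*t2*t6^2 + t0*t3*t4*t7 + t1^2*t4*t8 - 4*t1^2*t5*t7 + t1*t2*t3*t8 + 2*t1*t2*t4*t7 + 3*t1*t2*t5*t6 - 2*t1*t3^2*t7 - t1*t3*t4*t6 - t2^3*t8 + t2^2*t3*t7 - 2*t2^2*t4*t6 + t2*t3^2*t6) * 1 + ( - t0*t4*t8 + 2*t0*t5*t7 + t0*t6^2 - 3*t1*t3*t8 + 4*t1*t4*t7 - 2*t1*t5*t6 + t2^2*t8 - t2*t3*t7 + t2*t4*t6) * y1 + ( - 2*t0*t3*t8 - t0*t5*t6 + 3*t1*t2*t8 + 2*t1*t3*t7 - t1*t4*t6 - t2^2*t7) * y2 + (t0*t2*t8 + t0*t3*t7 + t0*t4*t6 + 2*t1^2*t8 - 4*t1*t2*t7 - t1*t3*t6 + t2^2*t6) * y3 + (t0*t3*t7 + 2*t0*t4*t6 + t0*t5^2 - t1^2*t8 - t1*t2*t7 - t1*t3*t6 - t1*t4*t5 + t2^2*t6 - t2*t3*t5 + 2*t2*t4^2) * y4 + ( - 3*t0*t1*t8 + t0*t3*t6 - t0*t4*t5 + 4*t1^2*t7 - t1*t2*t6 + t1*t4^2 - t2*t3*t4) * y5 + (2*t0*t2*t6 - t0*t3*t5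 - t0*t4^2 - 2*t1^2*t6 + 3*t1*t3*t4 + t2^2*t4 - t2*t3^2) * y6 + (t0*t8 - 2*t1*t7 - t3*t5 + t4^2) * (y4 * y1) + ( - 3*t0*t7 + t1*t6 + t2*t5 - t3*t4) * (y4 * y2) + (2*t1*t5 - 2*t2*t4 + t3^2) * (y4 * y3) + (t1*t5 - 3*t2*t4 + t3^2) * (y4 * y4) + ( - 2*t0*t5 - t1*t4 + t2*t3) * (y4 * y5) + (t0*t4 - 2*t1*t3) * (y4 * y6) + (t2) * (y4 * (y4 * y4))
    linear_combination h.qc1

theorem Rel.mul_mon2 {R : Type*} [CommRing R] {t0 t1 t2 t3 t4 t5 t6 t7 t8 y1 y2 y3 y4 y5 y6 : R}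
    (h : Rel t0 t1 t2 t3 t4 t5 t6 t7 t8 y1 y2 y3 y4 y5 y6) (b : Fin 14) :
    y2 * mon y1 y2 y3 y4 y5 y6 b = col2 t0 t1 t2 t3 t4 t5 t6 t7 t8 (mon y1 y2 y3 y4 y5 y6) b := by
  fin_cases b
  · change y2 * 1 = y2
    ring
  · change y2 * y1 = (t3) * y1 + ( - t1) * y3 + (t0) * y5
    linear_combination h.r12
  · change y2 * y2 = (t0*t6 - t1*t5) * 1 + (t4) * y1 + (t3) * y2 + ( - t2) * y3 + (t1) * y5 + (( - 1 : R)) * (y4 * y1)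
    linear_combination h.r22
  · change y2 * y3 = (t0*t7 - t2*t5) * 1 + (t5) * y1 + (t4) * y2 + (t3) * y4 + (t1) * y6 + (( - 2 : R)) * (y4 * y2)
    linear_combination h.r23
  · change y2 * y4 = (y4 * y2)
    ring
  · change y2 * y5 = (t1*t7 - t2*t6) * 1 + (t6) * y1 + (t4) * y4 + (t2) * y6 + (( - 1 : R)) * (y4 * y4)
    linear_combination h.r25
  · change y2 * y6 = ( - t7) * y1 + (t6) * y2 + ( - t5) * y4 + (y4 * y5)
    linear_combination h.r26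
  · change y2 * (y4 * y1) = (t3) * (y4 * y1) + ( - t1) * (y4 * y3) + (t0) * (y4 * y5)
    linear_combination h.q21
  · change y2 * (y4 * y2) = (t0*t2*t8 - t0*t3*t7 - t1^2*t8 - t1*t2*t7 + t1*t3*t6 + t2^2*t6) * 1 + ( - 2*t1*t7 - t2*t6) * y1 + (t0*t7 + t1*t6) * y2 + ( - t0*t6) * y3 + ( - 2*t1*t5 - t2*t4 - t3^2) * y4 + (t0*t5 - t1*t4 + t2*t3) * y5 + (t0*t4 - 2*t1*t3 - t2^2) * y6 + (2*t3) * (y4 * y2) + (t2) * (y4 * y4) + (3*t1) * (y4 * y5) + ( - t0) * (y4 * y6)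
    linear_combination h.q22
  · change y2 * (y4 * y3) = (2*t1*t2*t8 - 4*t1*t3*t7 + 2*t2*t3*t6) * 1 + ( - 2*t1*t8 - 2*t2*t7) * y1 + ( - 2*t0*t8 + 4*t1*t7) * y2 + (2*t0*t7 - 2*t1*t6) * y3 + ( - t0*t7 - t2*t5 - 2*t3*t4) * y4 + (2*t0*t6) * y5 + ( - 2*t0*t5 + 2*t1*t4 - 2*t2*t3) * y6 + ( - t5) * (y4 * y1) + (t4) * (y4 * y2) + (2*t3) * (y4 * y3) + (t3) * (y4 * y4) + (2*t2) * (y4 * y5) + ( - 3*t1) * (y4 * y6)
    linear_combination h.q23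
  · change y2 * (y4 * y4) = ( - t1*t2*t8 + 2*t1*t3*t7 - t2*t3*t6) * 1 + (t1*t8 + t2*t7) * y1 + (t0*t8 - 2*t1*t7) * y2 + ( - t0*t7 + t1*t6) * y3 + (t0*t7 + t3*t4) * y4 + ( - t0*t6) * y5 + (t0*t5 - t1*t4 + t2*t3) * y6 + (t5) * (y4 * y1) + ( - t3) * (y4 * y3) + ( - t2) * (y4 * y5) + (2*t1) * (y4 * y6)
    linear_combination h.q24
  · change y2 * (y4 * y5) = (t1*t7 - t2*t6) * y4 + (t6) * (y4 * y1) + (t4) * (y4 * y4) + (t2) * (y4 * y6) + (( - 1 : R)) * (y4 * (y4 * y4))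
    linear_combination h.q25
  · change y2 * (y4 * y6) = ( - t0*t6*t7 + 2*t1*t5*t7 - t2*t5*t6) * 1 + (t3*t8 - t4*t7 + t5*t6) * y1 + ( - t2*t8) * y2 + ( - t1*t8 + t2*t7) * y3 + (t1*t8 + t4*t5) * y4 + (t0*t8 - 2*t1*t7) * y5 + (t0*t7 + t1*t6) * y6 + (t7) * (y4 * y1) + ( - t5) * (y4 * y3) + ( - t5) * (y4 * y4) + (t3) * (y4 * y6)
    linear_combination h.q26
  · change y2 * (y4 * (y4 * y4)) = ( - 2*t0*t1*t6*t8 + 2*t0*t1*t7^2 - t0*t2*t5*t8 + t0*t2*t6*t7 + t0*t3*t5*t7 - t0*t3*t6^2 + 3*t1^2*t5*t8 + 2*t1^2*t6*t7 - 3*t1*t2*t5*t7 - 2*t1*t2*t6^2 + t1*t3*t4*t7 - t2^2*t3*t8 + t2*t3^2*t7 - t2*t3*t4*t6) * 1 + ( - 2*t1*t4*t8 + 6*t1*t5*t7 + 2*t1*t6^2 + t2*t4*t7) * y1 + ( - t0*t5*t7 - t1*t3*t8 + 2*t1*t4*t7 - 3*t1*t5*t6 + t2^2*t8 - t2*t3*t7) * y2 + (t0*t5*t6 + 3*t1*t2*t8 - 2*t1*t3*t7 - t2^2*t7 + t2*t3*t6) * y3 + (t0*t5*t6 + 2*t1*t3*t7 + 2*t1*t4*t6 + 3*t1*t5^2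 + t2*t3*t6 + t3*t4^2) * y4 + ( - t0*t2*t8 + t0*t3*t7 - t0*t5^2 - 2*t1^2*t8 - t1*t3*t6 + t1*t4*t5 - t2*t3*t5) * y5 + ( - t0*t2*t7 + t0*t3*t6 - t0*t4*t5 + 4*t1^2*t7 + t1*t2*t6 + 2*t1*t3*t5 + t2^2*t5) * y6 + (3*t1*t8 - t2*t7 - t3*t6 + t4*t5) * (y4 * y1) + (t0*t8 - 6*t1*t7 + t2*t6) * (y4 * y2) + ( - t0*t7 - t1*t6 - t3*t4) * (y4 * y3) + (t0*t7 - 2*t1*t6 - t2*t5 - 2*t3*t4) * (y4 * y4) + ( - t0*t6 - 4*t1*t5 + t3^2) * (y4 * y5) + (2*t0*t5 + t1*t4 - t2*t3) * (y4 * y6) + (2*t3) * (y4 * (y4 * y4))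
    linear_combination h.qc2

theorem Rel.mul_mon3 {R : Type*} [CommRing R] {t0 t1 t2 t3 t4 t5 t6 t7 t8 y1 y2 y3 y4 y5 y6 : R}
    (h : Rel t0 t1 t2 t3 t4 t5 t6 t7 t8 y1 y2 y3 y4 y5 y6) (b : Fin 14) :
    y3 * mon y1 y2 y3 y4 y5 y6 b = col3 t0 t1 t2 t3 t4 t5 t6 t7 t8 (mon y1 y2 y3 y4 y5 y6) b := by
  fin_cases b
  · change y3 * 1 = y3
    ring
  · change y3 * y1 = (t0*t6 - t1*t5) * 1 + (t4) * y1 + (t1) * y5 + ( - t0) * y6 + (( - 1 : R)) * (y4 * y1)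
    linear_combination h.r13
  · change y3 * y2 = (t0*t7 - t2*t5) * 1 + (t5) * y1 + (t4) * y2 + (t3) * y4 + (t1) * y6 + (( - 2 : R)) * (y4 * y2)
    linear_combination h.r23
  · change y3 * y3 = (t0*t8 - t1*t7 + t2*t6 - t3*t5) * 1 + ( - t6) * y1 + (t5) * y2 + (t4) * y3 + ( - t4) * y4 + (t3) * y5 + ( - t2) * y6 + (( - 1 : R)) * (y4 * y3) + (y4 * y4)
    linear_combination h.r33
  · change y3 * y4 = (y4 * y3)
    ring
  · change y3 * y5 = (t1*t8 - t3*t6) * 1 + (t7) * y1 + (t5) * y4 + (t4) * y5 + (t3) * y6 + (( - 2 : R)) * (y4 * y5)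
    linear_combination h.r35
  · change y3 * y6 = (t2*t8 - t3*t7) * 1 + ( - t8) * y1 + (t7) * y2 + (t4) * y6 + (( - 1 : R)) * (y4 * y6)
    linear_combination h.r36
  · change y3 * (y4 * y1) = (t0*t2*t8 - t0*t3*t7 - t1^2*t8 - t1*t2*t7 + t1*t3*t6 + t2^2*t6) * 1 + ( - 2*t1*t7 - t2*t6) * y1 + (t0*t7 + t1*t6) * y2 + ( - t0*t6) * y3 + ( - 2*t1*t5 - t2*t4 - t3^2) * y4 + (t0*t5 - t1*t4 + t2*t3) * y5 + (t0*t4 - 2*t1*t3 - t2^2) * y6 + (t3) * (y4 * y2) + (t2) * (y4 * y3) + (t2) * (y4 * y4) + (3*t1) * (y4 * y5) + ( - 2*t0) * (y4 * y6)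
    linear_combination h.q31
  · change y3 * (y4 * y2) = (2*t1*t2*t8 - 4*t1*t3*t7 + 2*t2*t3*t6) * 1 + ( - 2*t1*t8 - 2*t2*t7) * y1 + ( - 2*t0*t8 + 4*t1*t7) * y2 + (2*t0*t7 - 2*t1*t6) * y3 + ( - t0*t7 - t2*t5 - 2*t3*t4) * y4 + (2*t0*t6) * y5 + ( - 2*t0*t5 + 2*t1*t4 - 2*t2*t3) * y6 + ( - t5) * (y4 * y1) + (t4) * (y4 * y2) + (2*t3) * (y4 * y3) + (t3) * (y4 * y4) + (2*t2) * (y4 * y5) + ( - 3*t1) * (y4 * y6)
    linear_combination h.q32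
  · change y3 * (y4 * y3) = ( - t0*t6^2 + t1*t4*t7 + t1*t5*t6 - t2^2*t8 + t2*t3*t7 - t2*t4*t6) * 1 + (t2*t8) * y1 + (t1*t8 - t2*t7) * y2 + ( - 2*t1*t7 + t2*t6) * y3 + (t0*t8 - 3*t1*t7 + 3*t2*t6 - 2*t3*t5 + t4^2) * y4 + (t0*t7 - t1*t6) * y5 + (t0*t6) * y6 + ( - 2*t6) * (y4 * y1) + (2*t5) * (y4 * y2) + ( - 4*t4) * (y4 * y4) + (2*t3) * (y4 * y5) + ( - 2*t2) * (y4 * y6) + ((3 : R)) * (y4 * (y4 * y4))
    linear_combination h.q33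
  · change y3 * (y4 * y4) = (t0*t6^2 - t1*t4*t7 - t1*t5*t6 + t2^2*t8 - t2*t3*t7 + t2*t4*t6) * 1 + ( - t2*t8) * y1 + ( - t1*t8 + t2*t7) * y2 + (2*t1*t7 - t2*t6) * y3 + (2*t1*t7 - 2*t2*t6 + t3*t5 - t4^2) * y4 + ( - t0*t7 + t1*t6) * y5 + ( - t0*t6) * y6 + (t6) * (y4 * y1) + ( - t5) * (y4 * y2) + (t4) * (y4 * y3) + (3*t4) * (y4 * y4) + ( - t3) * (y4 * y5) + (t2) * (y4 * y6) + (( - 2 : R)) * (y4 * (y4 * y4))
    linear_combination h.q34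
  · change y3 * (y4 * y5) = (2*t0*t6*t7 - 4*t1*t5*t7 + 2*t2*t5*t6) * 1 + ( - 2*t3*t8 + 2*t4*t7 - 2*t5*t6) * y1 + (2*t2*t8) * y2 + (2*t1*t8 - 2*t2*t7) * y3 + ( - t1*t8 - t3*t6 - 2*t4*t5) * y4 + ( - 2*t0*t8 + 4*t1*t7) * y5 + ( - 2*t0*t7 - 2*t1*t6) * y6 + ( - 3*t7) * (y4 * y1) + (2*t6) * (y4 * y2) + (2*t5) * (y4 * y3) + (t5) * (y4 * y4) + (t4) * (y4 * y5) + ( - t3) * (y4 * y6)
    linear_combination h.q35
  · change y3 * (y4 * y6) = (t0*t6*t8 - t0*t7^2 - t1*t5*t8 - t1*t6*t7 + t2*t5*t7 + t2*t6^2) * 1 + (t4*t8 - 2*t5*t7 - t6^2) * y1 + (t3*t8 - t4*t7 + t5*t6) * y2 + ( - t2*t8) * y3 + ( - 2*t3*t7 - t4*t6 - t5^2) * y4 + (t1*t8 + t2*t7) * y5 + ( - 2*t1*t7 - t2*t6) * y6 + ( - 2*t8) * (y4 * y1) + (3*t7) * (y4 * y2) + (t6) * (y4 * y3) + (t6) * (y4 * y4) + (t5) * (y4 * y5)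
    linear_combination h.q36
  · change y3 * (y4 * (y4 * y4)) = ( - 4*t0*t2*t6*t8 + t0*t2*t7^2 + t0*t4*t6^2 + t1^2*t6*t8 - 4*t1^2*t7^2 + 4*t1*t2*t6*t7 + 8*t1*t3*t5*t7 - t1*t3*t6^2 - t1*t4^2*t7 - t1*t4*t5*t6 + t2^2*t4*t8 - t2^2*t5*t7 - t2*t3*t4*t7 - 4*t2*t3*t5*t6 + t2*t4^2*t6) * 1 + (2*t0*t6*t8 - 2*t0*t7^2 + t1*t5*t8 - 4*t1*t6*t7 - 2*t2*t4*t8 + 3*t2*t5*t7 + 3*t3^2*t8 - 3*t3*t4*t7 + 3*t3*t5*t6) * y1 + (3*t0*t5*t8 - t0*t6*t7 - 3*t1*t4*t8 - 2*t1*t5*t7 + t1*t6^2 - 2*t2*t3*t8 + 2*t2*t4*t7 - t2*t5*t6) * y2 + ( - 3*t0*t5*t7 + t0*t6^2 - 3*t1*t3*t8 + 4*t1*t4*t7 + t1*t5*t6 + t2^2*t8 + t2*t3*t7 - t2*t4*t6) * y3 + (2*t0*t4*t8 - t0*t5*t7 - t1*t3*t8 - 3*t1*t4*t7 - t2*t4*t6 + t2*t5^2 + t3^2*t6 + 5*t3*t4*t5 - t4^3) * y4 + (3*t0*t3*t8 - 3*t0*t4*t7 - 2*t0*t5*t6 - t1*t2*t8 - 2*t1*t3*t7 + 2*t1*t4*t6 + t2^2*t7 - t2*t3*t6) * y5 + (2*t0*t2*t8 + t0*t3*t7 -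 2*t0*t4*t6 + 3*t0*t5^2 - 2*t1^2*t8 - 4*t1*t2*t7 + 3*t1*t3*t6 - 3*t1*t4*t5 + 3*t2*t3*t5) * y6 + (4*t3*t7 + t5^2) * (y4 * y1) + (5*t1*t8 - t2*t7 - 2*t3*t6 - t4*t5) * (y4 * y2) + ( - 2*t1*t7 + t2*t6 - 4*t3*t5 + t4^2) * (y4 * y3) + ( - 2*t0*t8 + 4*t1*t7 - 3*t3*t5 + 2*t4^2) * (y4 * y4) + (5*t0*t7 - t1*t6 - 2*t2*t5 - t3*t4) * (y4 * y5) + (4*t1*t5 + t3^2) * (y4 * y6) + ( - t4) * (y4 * (y4 * y4))
    linear_combination h.qc3

theorem Rel.mul_mon4 {R : Type*} [CommRing R] {t0 t1 t2 t3 t4 t5 t6 t7 t8 y1 y2 y3 y4 y5 y6 : R}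
    (h : Rel t0 t1 t2 t3 t4 t5 t6 t7 t8 y1 y2 y3 y4 y5 y6) (b : Fin 14) :
    y4 * mon y1 y2 y3 y4 y5 y6 b = col4 t0 t1 t2 t3 t4 t5 t6 t7 t8 (mon y1 y2 y3 y4 y5 y6) b := by
  fin_cases b
  · change y4 * 1 = y4
    ring
  · change y4 * y1 = (y4 * y1)
    ring
  · change y4 * y2 = (y4 * y2)
    ring
  · change y4 * y3 = (y4 * y3)
    ring
  · change y4 * y4 = (y4 * y4)
    ring
  · change y4 * y5 = (y4 * y5)
    ring
  · change y4 * y6 = (y4 * y6)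
    ring
  · change y4 * (y4 * y1) = ( - t0*t2*t8 + t0*t3*t7 + t1^2*t8 + t1*t2*t7 - t1*t3*t6 - t2^2*t6) * 1 + (2*t1*t7 + t2*t6) * y1 + ( - t0*t7 - t1*t6) * y2 + (t0*t6) * y3 + (t0*t6 + t1*t5 + t2*t4 + t3^2) * y4 + ( - t0*t5 + t1*t4 - t2*t3) * y5 + ( - t0*t4 + 2*t1*t3 + t2^2) * y6 + (t4) * (y4 * y1) + ( - t3) * (y4 * y2) + ( - t2) * (y4 * y3) + ( - t2) * (y4 * y4) + ( - 2*t1) * (y4 * y5) + (t0) * (y4 * y6)
    linear_combination h.q41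
  · change y4 * (y4 * y2) = ( - t1*t2*t8 + 2*t1*t3*t7 - t2*t3*t6) * 1 + (t1*t8 + t2*t7) * y1 + (t0*t8 - 2*t1*t7) * y2 + ( - t0*t7 + t1*t6) * y3 + (t0*t7 + t3*t4) * y4 + ( - t0*t6) * y5 + (t0*t5 - t1*t4 + t2*t3) * y6 + (t5) * (y4 * y1) + ( - t3) * (y4 * y3) + ( - t2) * (y4 * y5) + (2*t1) * (y4 * y6)
    linear_combination h.q42
  · change y4 * (y4 * y3) = (t0*t6^2 - t1*t4*t7 - t1*t5*t6 + t2^2*t8 - t2*t3*t7 + t2*t4*t6) * 1 + ( - t2*t8) * y1 + ( - t1*t8 + t2*t7) * y2 + (2*t1*t7 - t2*t6) * y3 + (2*t1*t7 - 2*t2*t6 + t3*t5 - t4^2) * y4 + ( - t0*t7 + t1*t6) * y5 + ( - t0*t6) * y6 + (t6) * (y4 * y1) + ( - t5) * (y4 * y2) + (t4) * (y4 * y3) + (3*t4) * (y4 * y4) + ( - t3) * (y4 * y5) + (t2) * (y4 * y6) + (( - 2 : R)) * (y4 * (y4 * y4))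
    linear_combination h.q43
  · change y4 * (y4 * y4) = (y4 * (y4 * y4))
    ring
  · change y4 * (y4 * y5) = ( - t0*t6*t7 + 2*t1*t5*t7 - t2*t5*t6) * 1 + (t3*t8 - t4*t7 + t5*t6) * y1 + ( - t2*t8) * y2 + ( - t1*t8 + t2*t7) * y3 + (t1*t8 + t4*t5) * y4 + (t0*t8 - 2*t1*t7) * y5 + (t0*t7 + t1*t6) * y6 + (2*t7) * (y4 * y1) + ( - t6) * (y4 * y2) + ( - t5) * (y4 * y3) + (t3) * (y4 * y6)
    linear_combination h.q45
  · change y4 * (y4 * y6) = ( - t0*t6*t8 + t0*t7^2 + t1*t5*t8 + t1*t6*t7 - t2*t5*t7 - t2*t6^2) * 1 + ( - t4*t8 + 2*t5*t7 + t6^2) * y1 + ( - t3*t8 + t4*t7 - t5*t6) * y2 + (t2*t8) * y3 + (t2*t8 + t3*t7 + t4*t6 + t5^2) * y4 + ( - t1*t8 - t2*t7) * y5 + (2*t1*t7 + t2*t6) * y6 + (t8) * (y4 * y1) + ( - 2*t7) * (y4 * y2) + ( - t6) * (y4 * y3) + ( - t6) * (y4 * y4) + ( - t5) * (y4 * y5) + (t4) * (y4 * y6)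
    linear_combination h.q46
  · change y4 * (y4 * (y4 * y4)) = (t0*t2*t6*t8 + t0*t3*t6*t7 + 2*t1^2*t7^2 + t1*t2*t5*t8 - t1*t2*t6*t7 - 6*t1*t3*t5*t7 - t2^2*t6^2 + 3*t2*t3*t5*t6) * 1 + ( - t0*t6*t8 + t0*t7^2 - t1*t5*t8 + 3*t1*t6*t7 - t2*t5*t7 + t2*t6^2 - 2*t3^2*t8 + 2*t3*t4*t7 - 2*t3*t5*t6) * y1 + ( - 2*t0*t5*t8 + t1*t4*t8 + 2*t1*t5*t7 - t1*t6^2 + t2*t3*t8) * y2 + (2*t0*t5*t7 + 2*t1*t3*t8 - t1*t4*t7 - t1*t5*t6 - t2*t3*t7) * y3 + ( - t0*t4*t8 + t0*t6^2 + 2*t1*t4*t7 + t2^2*t8 + t2*t4*t6 - 3*t3*t4*t5) * y4 + ( - 2*t0*t3*t8 + t0*t4*t7 + t0*t5*t6 + 2*t1*t3*t7 - t2^2*t7) * y5 + ( - t0*t2*t8 - t0*t3*t7 - 2*t0*t5^2 + t1^2*t8 + 3*t1*t2*t7 - t1*t3*t6 + 2*t1*t4*t5 + t2^2*t6 - 2*t2*t3*t5) * y6 + ( - 3*t3*t7 + t4*t6 - t5^2) * (y4 * y1) + ( - 3*t1*t8 + t3*t6) * (y4 * y2) + (2*t1*t7 - 2*t2*t6 + 3*t3*t5) * (y4 * y3) + (t0*t8 - t1*t7 - 2*t2*t6 + 2*t3*t5)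 * (y4 * y4) + ( - 3*t0*t7 + t2*t5) * (y4 * y5) + ( - 3*t1*t5 + t2*t4 - t3^2) * (y4 * y6) + (t4) * (y4 * (y4 * y4))
    linear_combination h.qc4

theorem Rel.mul_mon5 {R : Type*} [CommRing R] {t0 t1 t2 t3 t4 t5 t6 t7 t8 y1 y2 y3 y4 y5 y6 : R}
    (h : Rel t0 t1 t2 t3 t4 t5 t6 t7 t8 y1 y2 y3 y4 y5 y6) (b : Fin 14) :
    y5 * mon y1 y2 y3 y4 y5 y6 b = col5 t0 t1 t2 t3 t4 t5 t6 t7 t8 (mon y1 y2 y3 y4 y5 y6) b := by
  fin_cases b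
  · change y5 * 1 = y5
    ring
  · change y5 * y1 = ( - t3) * y4 + (t2) * y5 + ( - t1) * y6 + (y4 * y2)
    linear_combination h.r15
  · change y5 * y2 = (t1*t7 - t2*t6) * 1 + (t6) * y1 + (t4) * y4 + (t2) * y6 + (( - 1 : R)) * (y4 * y4)
    linear_combination h.r25
  · change y5 * y3 = (t1*t8 - t3*t6) * 1 + (t7) * y1 + (t5) * y4 + (t4) * y5 + (t3) * y6 + (( - 2 : R)) * (y4 * y5)
    linear_combination h.r35
  · change y5 * y4 = (y4 * y5)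
    ring
  · change y5 * y5 = (t2*t8 - t3*t7) * 1 + (t7) * y2 + ( - t6) * y3 + (t5) * y5 + (t4) * y6 + (( - 1 : R)) * (y4 * y6)
    linear_combination h.r55
  · change y5 * y6 = (t8) * y2 + ( - t7) * y3 + (t5) * y6
    linear_combination h.r56
  · change y5 * (y4 * y1) = ( - t1*t2*t8 + 2*t1*t3*t7 - t2*t3*t6) * 1 + (t1*t8 + t2*t7) * y1 + (t0*t8 - 2*t1*t7) * y2 + ( - t0*t7 + t1*t6) * y3 + (t0*t7 + t3*t4) * y4 + ( - t0*t6) * y5 + (t0*t5 - t1*t4 + t2*t3) * y6 + (t5) * (y4 * y1) + ( - t3) * (y4 * y3) + ( - t3) * (y4 * y4) + (t1) * (y4 * y6)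
    linear_combination h.q51
  · change y5 * (y4 * y2) = (t1*t7 - t2*t6) * y4 + (t6) * (y4 * y1) + (t4) * (y4 * y4) + (t2) * (y4 * y6) + (( - 1 : R)) * (y4 * (y4 * y4))
    linear_combination h.q52
  · change y5 * (y4 * y3) = (2*t0*t6*t7 - 4*t1*t5*t7 + 2*t2*t5*t6) * 1 + ( - 2*t3*t8 + 2*t4*t7 - 2*t5*t6) * y1 + (2*t2*t8) * y2 + (2*t1*t8 - 2*t2*t7) * y3 + ( - t1*t8 - t3*t6 - 2*t4*t5) * y4 + ( - 2*t0*t8 + 4*t1*t7) * y5 + ( - 2*t0*t7 - 2*t1*t6) * y6 + ( - 3*t7) * (y4 * y1) + (2*t6) * (y4 * y2) + (2*t5) * (y4 * y3) + (t5) * (y4 * y4) + (t4) * (y4 * y5) + ( - t3) * (y4 * y6)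
    linear_combination h.q53
  · change y5 * (y4 * y4) = ( - t0*t6*t7 + 2*t1*t5*t7 - t2*t5*t6) * 1 + (t3*t8 - t4*t7 + t5*t6) * y1 + ( - t2*t8) * y2 + ( - t1*t8 + t2*t7) * y3 + (t1*t8 + t4*t5) * y4 + (t0*t8 - 2*t1*t7) * y5 + (t0*t7 + t1*t6) * y6 + (2*t7) * (y4 * y1) + ( - t6) * (y4 * y2) + ( - t5) * (y4 * y3) + (t3) * (y4 * y6)
    linear_combination h.q54
  · change y5 * (y4 * y5) = (t0*t6*t8 - t0*t7^2 - t1*t5*t8 - t1*t6*t7 + t2*t5*t7 + t2*t6^2) * 1 + (t4*t8 - 2*t5*t7 - t6^2) * y1 + (t3*t8 - t4*t7 + t5*t6) * y2 + ( - t2*t8) * y3 + ( - 2*t3*t7 - t4*t6 - t5^2) * y4 + (t1*t8 + t2*t7) * y5 + ( - 2*t1*t7 - t2*t6) * y6 + ( - t8) * (y4 * y1) + (3*t7) * (y4 * y2) + (t6) * (y4 * y4) + (2*t5) * (y4 * y5)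
    linear_combination h.q55
  · change y5 * (y4 * y6) = (t8) * (y4 * y2) + ( - t7) * (y4 * y3) + (t5) * (y4 * y6)
    linear_combination h.q56
  · change y5 * (y4 * (y4 * y4)) = ( - 2*t0*t2*t7*t8 - t0*t3*t6*t8 + 3*t0*t3*t7^2 - t0*t5*t6^2 + 2*t1^2*t7*t8 + t1*t2*t6*t8 + 2*t1*t2*t7^2 + t1*t3*t5*t8 - 3*t1*t3*t6*t7 + t1*t4*t5*t7 + t1*t5^2*t6 - t2^2*t5*t8 - 2*t2^2*t6*t7 - t2*t4*t5*t6) * 1 + ( - t1*t6*t8 + 4*t1*t7^2 + t2*t5*t8 + t2*t6*t7 - t3*t4*t8 + 2*t3*t5*t7 + t3*t6^2) * y1 + ( - t0*t6*t8 - 2*t0*t7^2 + t1*t5*t8 - t2*t5*t7 - t3^2*t8 + t3*t4*t7 - t3*t5*t6) * y2 + (3*t0*t6*t7 - 2*t1*t5*t7 - t1*t6^2 + t2*t3*t8 + t2*t5*t6) * y3 + (2*t1*t5*t7 + t2*t3*t8 + 2*t2*t4*t7 + t2*t5*t6 + 3*t3^2*t7 + t4^2*t5) * y4 + ( - t0*t5*t7 + t0*t6^2 - t1*t3*t8 + 2*t1*t4*t7 - t1*t5*t6 - 3*t2*t3*t7) * y5 + ( - 2*t0*t4*t7 + 6*t1*t3*t7 + t1*t4*t6 + 2*t2^2*t7) * y6 +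 (2*t3*t8 + t4*t7 - t5*t6) * (y4 * y1) + ( - t2*t8 - 4*t3*t7 + t5^2) * (y4 * y2) + ( - t1*t8 - t2*t7 - t4*t5) * (y4 * y3) + (t1*t8 - 2*t2*t7 - t3*t6 - 2*t4*t5) * (y4 * y4) + (t0*t8 - 6*t1*t7 + t2*t6) * (y4 * y5) + (3*t0*t7 - t1*t6 - t2*t5 + t3*t4) * (y4 * y6) + (2*t5) * (y4 * (y4 * y4))
    linear_combination h.qc5

theorem Rel.mul_mon6 {R : Type*} [CommRing R] {t0 t1 t2 t3 t4 t5 t6 t7 t8 y1 y2 y3 y4 y5 y6 : R}
    (h : Rel t0 t1 t2 t3 t4 t5 t6 t7 t8 y1 y2 y3 y4 y5 y6) (b : Fin 14) :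
    y6 * mon y1 y2 y3 y4 y5 y6 b = col6 t0 t1 t2 t3 t4 t5 t6 t7 t8 (mon y1 y2 y3 y4 y5 y6) b := by
  fin_cases b
  · change y6 * 1 = y6
    ring
  · change y6 * y1 = (t1*t7 - t2*t6) * 1 + (t6) * y1 + (t4) * y4 + (t2) * y6 + (( - 1 : R)) * (y4 * y3) + (( - 1 : R)) * (y4 * y4)
    linear_combination h.r16
  · change y6 * y2 = ( - t7) * y1 + (t6) * y2 + ( - t5) * y4 + (y4 * y5)
    linear_combination h.r26
  · change y6 * y3 = (t2*t8 - t3*t7) * 1 + ( - t8) * y1 + (t7) * y2 + (t4) * y6 + (( - 1 : R)) * (y4 * y6)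
    linear_combination h.r36
  · change y6 * y4 = (y4 * y6)
    ring
  · change y6 * y5 = (t8) * y2 + ( - t7) * y3 + (t5) * y6
    linear_combination h.r56
  · change y6 * y6 = (t8) * y4 + ( - t7) * y5 + (t6) * y6
    linear_combination h.r66
  · change y6 * (y4 * y1) = ( - t0*t6^2 + t1*t4*t7 + t1*t5*t6 - t2^2*t8 + t2*t3*t7 - t2*t4*t6) * 1 + (t2*t8) * y1 + (t1*t8 - t2*t7) * y2 + ( - 2*t1*t7 + t2*t6) * y3 + ( - t1*t7 + t2*t6 - t3*t5 + t4^2) * y4 + (t0*t7 - t1*t6) * y5 + (t0*t6) * y6 + (t5) * (y4 * y2) + ( - t4) * (y4 * y3) + ( - 2*t4) * (y4 * y4) + (t3) * (y4 * y5) + (y4 * (y4 * y4))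
    linear_combination h.q61
  · change y6 * (y4 * y2) = ( - t0*t6*t7 + 2*t1*t5*t7 - t2*t5*t6) * 1 + (t3*t8 - t4*t7 + t5*t6) * y1 + ( - t2*t8) * y2 + ( - t1*t8 + t2*t7) * y3 + (t1*t8 + t4*t5) * y4 + (t0*t8 - 2*t1*t7) * y5 + (t0*t7 + t1*t6) * y6 + (t7) * (y4 * y1) + ( - t5) * (y4 * y3) + ( - t5) * (y4 * y4) + (t3) * (y4 * y6)
    linear_combination h.q62
  · change y6 * (y4 * y3) = (t0*t6*t8 - t0*t7^2 - t1*t5*t8 - t1*t6*t7 + t2*t5*t7 + t2*t6^2) * 1 + (t4*t8 - 2*t5*t7 - t6^2) * y1 + (t3*t8 - t4*t7 + t5*t6) * y2 + ( - t2*t8) * y3 + ( - 2*t3*t7 - t4*t6 - t5^2) * y4 + (t1*t8 + t2*t7) * y5 + ( - 2*t1*t7 - t2*t6) * y6 + ( - 2*t8) * (y4 * y1) + (3*t7) * (y4 * y2) + (t6) * (y4 * y3) + (t6) * (y4 * y4) + (t5) * (y4 * y5)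
    linear_combination h.q63
  · change y6 * (y4 * y4) = ( - t0*t6*t8 + t0*t7^2 + t1*t5*t8 + t1*t6*t7 - t2*t5*t7 - t2*t6^2) * 1 + ( - t4*t8 + 2*t5*t7 + t6^2) * y1 + ( - t3*t8 + t4*t7 - t5*t6) * y2 + (t2*t8) * y3 + (t2*t8 + t3*t7 + t4*t6 + t5^2) * y4 + ( - t1*t8 - t2*t7) * y5 + (2*t1*t7 + t2*t6) * y6 + (t8) * (y4 * y1) + ( - 2*t7) * (y4 * y2) + ( - t6) * (y4 * y3) + ( - t6) * (y4 * y4) + ( - t5) * (y4 * y5) + (t4) * (y4 * y6)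
    linear_combination h.q64
  · change y6 * (y4 * y5) = (t8) * (y4 * y2) + ( - t7) * (y4 * y3) + (t5) * (y4 * y6)
    linear_combination h.q65
  · change y6 * (y4 * y6) = (t8) * (y4 * y4) + ( - t7) * (y4 * y5) + (t6) * (y4 * y6)
    linear_combination h.q66
  · change y6 * (y4 * (y4 * y4)) = ( - t0*t2*t8^2 + t0*t3*t7*t8 - t0*t4*t6*t8 + t0*t4*t7^2 + t0*t5*t6*t7 - t0*t6^3 + t1^2*t8^2 + 3*t1*t2*t7*t8 - t1*t3*t6*t8 - 4*t1*t3*t7^2 + t1*t4*t5*t8 + 2*t1*t4*t6*t7 - 2*t1*t5^2*t7 + t1*t5*t6^2 - 2*t2^2*t6*t8 + 3*t2*t3*t6*t7 - t2*t4*t5*t7 - 2*t2*t4*t6^2 + t2*t5^2*t6) * 1 + (2*t2*t6*t8 - 2*t2*t7^2 - t3*t5*t8 - t4^2*t8 + 3*t4*t5*t7 + t4*t6^2 - t5^2*t6) * y1 + ( - 3*t0*t7*t8 + 4*t1*t7^2 + t2*t5*t8 - t2*t6*t7 - t3*t4*t8 + t4^2*t7 - t4*t5*t6) * y2 + (t0*t6*t8 + 2*t0*t7^2 + t1*t5*t8 - 4*t1*t6*t7 + t2*t4*t8 - t2*t5*t7 + t2*t6^2) * y3 + ( - t0*t7^2 +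 t1*t5*t8 - t1*t6*t7 + 2*t2*t4*t8 - t2*t5*t7 + t2*t6^2 + t3^2*t8 - t3*t4*t7 - t3*t5*t6 + 2*t4^2*t6) * y4 + ( - 2*t0*t5*t8 + 3*t0*t6*t7 + 2*t1*t5*t7 - t1*t6^2 - t2*t3*t8 - t2*t4*t7) * y5 + ( - t0*t4*t8 - 3*t0*t5*t7 + t0*t6^2 + 2*t1*t3*t8 + 4*t1*t4*t7 - t1*t5*t6 + t2^2*t8 - 2*t2*t3*t7 + t2*t4*t6) * y6 + (t4*t8 - 2*t5*t7) * (y4 * y1) + ( - 2*t3*t8 - t4*t7 + t5*t6) * (y4 * y2) + (2*t3*t7 - 2*t4*t6 + t5^2) * (y4 * y3) + (t3*t7 - 3*t4*t6 + t5^2) * (y4 * y4) + ( - 3*t1*t8 + t2*t7 + t3*t6 - t4*t5) * (y4 * y5) + (t0*t8 - 2*t1*t7 - t3*t5 + t4^2) * (y4 * y6) + (t6) * (y4 * (y4 * y4))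
    linear_combination h.qc6

theorem span_mon_eq_top (t0 t1 t2 t3 t4 t5 t6 t7 t8 : A) (y1 y2 y3 y4 y5 y6 : C)
    (h : Rel (algebraMap A C t0) (algebraMap A C t1) (algebraMap A C t2)
      (algebraMap A C t3) (algebraMap A C t4) (algebraMap A C t5) (algebraMap A C t6)
      (algebraMap A C t7) (algebraMap A C t8) y1 y2 y3 y4 y5 y6)
    (ht : Algebra.adjoin A {y1, y2, y3, y4, y5, y6} = ⊤) :
    Submodule.span A (Set.range (mon y1 y2 y3 y4 y5 y6)) = ⊤ := by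
  set N := Submodule.span A (Set.range (mon y1 y2 y3 y4 y5 y6)) with hN
  have he : ∀ c, mon y1 y2 y3 y4 y5 y6 c ∈ N := fun c => Submodule.subset_span ⟨c, rfl⟩
  have c1 : ∀ x ∈ N, y1 * x ∈ N := by
    intro x hx
    induction hx using Submodule.span_induction with
    | mem x hx =>
      obtain ⟨b, rfl⟩ := hx
      rw [h.mul_mon1 b, ← col1_alg]
      exact col1_mem _ _ _ _ _ _ _ _ _ _ b N he
    | zero => rw [mul_zero]; exact N.zero_mem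
    | add x y _ _ hx hy => rw [mul_add]; exact N.add_mem hx hy
    | smul a x _ hx => rw [mul_smul_comm]; exact N.smul_mem _ hx
  have c2 : ∀ x ∈ N, y2 * x ∈ N := by
    intro x hx
    induction hx using Submodule.span_induction with
    | mem x hx =>
      obtain ⟨b, rfl⟩ := hx
      rw [h.mul_mon2 b, ← col2_alg]
      exact col2_mem _ _ _ _ _ _ _ _ _ _ b N he
    | zero => rw [mul_zero]; exact N.zero_mem
    | add x y _ _ hx hy => rw [mul_add]; exact N.add_mem hx hy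
    | smul a x _ hx => rw [mul_smul_comm]; exact N.smul_mem _ hx
  have c3 : ∀ x ∈ N, y3 * x ∈ N := by
    intro x hx
    induction hx using Submodule.span_induction with
    | mem x hx =>
      obtain ⟨b, rfl⟩ := hx
      rw [h.mul_mon3 b, ← col3_alg]
      exact col3_mem _ _ _ _ _ _ _ _ _ _ b N he
    | zero => rw [mul_zero]; exact N.zero_mem
    | add x y _ _ hx hy => rw [mul_add]; exact N.add_mem hx hy
    | smul a x _ hx => rw [mul_smul_comm]; exact N.smul_mem _ hx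
  have c4 : ∀ x ∈ N, y4 * x ∈ N := by
    intro x hx
    induction hx using Submodule.span_induction with
    | mem x hx =>
      obtain ⟨b, rfl⟩ := hx
      rw [h.mul_mon4 b, ← col4_alg]
      exact col4_mem _ _ _ _ _ _ _ _ _ _ b N he
    | zero => rw [mul_zero]; exact N.zero_mem
    | add x y _ _ hx hy => rw [mul_add]; exact N.add_mem hx hy
    | smul a x _ hx => rw [mul_smul_comm]; exact N.smul_mem _ hx
  have c5 : ∀ x ∈ N, y5 * x ∈ N := by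
    intro x hx
    induction hx using Submodule.span_induction with
    | mem x hx =>
      obtain ⟨b, rfl⟩ := hx
      rw [h.mul_mon5 b, ← col5_alg]
      exact col5_mem _ _ _ _ _ _ _ _ _ _ b N he
    | zero => rw [mul_zero]; exact N.zero_mem
    | add x y _ _ hx hy => rw [mul_add]; exact N.add_mem hx hy
    | smul a x _ hx => rw [mul_smul_comm]; exact N.smul_mem _ hx
  have c6 : ∀ x ∈ N, y6 * x ∈ N := by
    intro x hx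
    induction hx using Submodule.span_induction with
    | mem x hx =>
      obtain ⟨b, rfl⟩ := hx
      rw [h.mul_mon6 b, ← col6_alg]
      exact col6_mem _ _ _ _ _ _ _ _ _ _ b N he
    | zero => rw [mul_zero]; exact N.zero_mem
    | add x y _ _ hx hy => rw [mul_add]; exact N.add_mem hx hy
    | smul a x _ hx => rw [mul_smul_comm]; exact N.smul_mem _ hx
  have key : ∀ z ∈ Algebra.adjoin A {y1, y2, y3, y4, y5, y6}, ∀ x ∈ N, z * x ∈ N := by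
    intro z hz
    induction hz using Algebra.adjoin_induction with
    | mem z hz =>
      simp only [Set.mem_insert_iff, Set.mem_singleton_iff] at hz
      rcases hz with rfl | rfl | rfl | rfl | rfl | rfl
      · exact c1
      · exact c2
      · exact c3
      · exact c4
      · exact c5
      · exact c6
    | algebraMap a => intro x hx; rw [← Algebra.smul_def]; exact N.smul_mem _ hx
    | add z w _ _ hz hw => intro x hx; rw [add_mul]; exact N.add_mem (hz x hx) (hw x hx)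
    | mul z w _ _ hz hw => intro x hx; rw [mul_assoc]; exact hz _ (hw x hx)
  rw [eq_top_iff]
  rintro z -
  have := key z (ht ▸ Algebra.mem_top) 1 (he 0)
  rwa [mul_one] at this

end span

section QRing

variable {A : Type u} [CommRing A]

open MvPolynomial

/-- the polynomials of the relations -/
noncomputable def relPoly (t0 t1 t2 t3 t4 t5 t6 t7 t8 : A) : Fin 15 → MvPolynomial (Fin 6) A :=
  ![
    (X 0 * X 0 : MvPolynomial (Fin 6) A) - (C t0 * X 3 - C t1 * X 1 + C t2 * X 0),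
    (X 0 * X 1 : MvPolynomial (Fin 6) A) - (C t0 * X 4 - C t1 * X 2 + C t3 * X 0),
    (X 0 * X 2 : MvPolynomial (Fin 6) A) - (C t0 * C t6 - C t0 * X 5 - C t1 * C t5 + C t1 * X 4 + C t4 * X 0 - X 0 * X 3),
    (X 0 * X 4 : MvPolynomial (Fin 6) A) - (-C t1 * X 5 + C t2 * X 4 - C t3 * X 3 + X 1 * X 3),
    (X 0 * X 5 : MvPolynomial (Fin 6) A) - (C t1 * C t7 - C t2 * C t6 + C t2 * X 5 + C t4 * X 3 + C t6 * X 0 - X 2 * X 3 - X 3^2),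
    (X 1 * X 1 : MvPolynomial (Fin 6) A) - (C t0 * C t6 - C t1 * C t5 + C t1 * X 4 - C t2 * X 2 + C t3 * X 1 + C t4 * X 0 - X 0 * X 3),
    (X 1 * X 2 : MvPolynomial (Fin 6) A) - (C t0 * C t7 + C t1 * X 5 - C t2 * C t5 + C t3 * X 3 + C t4 * X 1 + C t5 * X 0 - 2 * X 1 * X 3),
    (X 1 * X 4 : MvPolynomial (Fin 6) A) - (C t1 * C t7 - C t2 * C t6 + C t2 * X 5 + C t4 * X 3 + C t6 * X 0 - X 3^2),
    (X 1 * X 5 : MvPolynomial (Fin 6) A) - (-C t5 * X 3 + C t6 * X 1 - C t7 * X 0 + X 3 * X 4),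
    (X 2 * X 2 : MvPolynomial (Fin 6) A) - (C t0 * C t8 - C t1 * C t7 + C t2 * C t6 - C t2 * X 5 - C t3 * C t5 + C t3 * X 4 + C t4 * X 2 - C t4 * X 3 + C t5 * X 1 - C t6 * X 0 - X 2 * X 3 + X 3^2),
    (X 2 * X 4 : MvPolynomial (Fin 6) A) - (C t1 * C t8 - C t3 * C t6 + C t3 * X 5 + C t4 * X 4 + C t5 * X 3 + C t7 * X 0 - 2 * X 3 * X 4),
    (X 2 * X 5 : MvPolynomial (Fin 6) A) - (C t2 * C t8 - C t3 * C t7 + C t4 * X 5 + C t7 * X 1 - C t8 * X 0 - X 3 * X 5),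
    (X 4 * X 4 : MvPolynomial (Fin 6) A) - (C t2 * C t8 - C t3 * C t7 + C t4 * X 5 + C t5 * X 4 - C t6 * X 2 + C t7 * X 1 - X 3 * X 5),
    (X 4 * X 5 : MvPolynomial (Fin 6) A) - (C t5 * X 5 - C t7 * X 2 + C t8 * X 1),
    (X 5 * X 5 : MvPolynomial (Fin 6) A) - (C t6 * X 5 - C t7 * X 4 + C t8 * X 3)]

/-- the algebra defined by the relations -/
def QRing (t0 t1 t2 t3 t4 t5 t6 t7 t8 : A) : Type u :=
  MvPolynomial (Fin 6) A ⧸ Ideal.span (Set.range (relPoly t0 t1 t2 t3 t4 t5 t6 t7 t8))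

noncomputable instance (t0 t1 t2 t3 t4 t5 t6 t7 t8 : A) : CommRing (QRing t0 t1 t2 t3 t4 t5 t6 t7 t8) :=
  inferInstanceAs (CommRing (MvPolynomial (Fin 6) A ⧸ Ideal.span (Set.range (relPoly t0 t1 t2 t3 t4 t5 t6 t7 t8))))

noncomputable instance (t0 t1 t2 t3 t4 t5 t6 t7 t8 : A) : Algebra A (QRing t0 t1 t2 t3 t4 t5 t6 t7 t8) :=
  inferInstanceAs (Algebra A (MvPolynomial (Fin 6) A ⧸ Ideal.span (Set.range (relPoly t0 t1 t2 t3 t4 t5 t6 t7 t8))))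

namespace QRing

variable (t0 t1 t2 t3 t4 t5 t6 t7 t8 : A)

/-- the quotient map -/
noncomputable def mk : MvPolynomial (Fin 6) A →ₐ[A] QRing t0 t1 t2 t3 t4 t5 t6 t7 t8 :=
  Ideal.Quotient.mkₐ A _

theorem mk_surjective : Function.Surjective (mk t0 t1 t2 t3 t4 t5 t6 t7 t8) := Ideal.Quotient.mk_surjective

/-- the generators -/
noncomputable def y (i : Fin 6) : QRing t0 t1 t2 t3 t4 t5 t6 t7 t8 := mk t0 t1 t2 t3 t4 t5 t6 t7 t8 (X i)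

theorem mk_relPoly (i : Fin 15) : mk t0 t1 t2 t3 t4 t5 t6 t7 t8 (relPoly t0 t1 t2 t3 t4 t5 t6 t7 t8 i) = 0 :=
  Ideal.Quotient.eq_zero_iff_mem.2 (Ideal.subset_span ⟨i, rfl⟩)

theorem rel : Rel (algebraMap A (QRing t0 t1 t2 t3 t4 t5 t6 t7 t8) t0) (algebraMap A (QRing t0 t1 t2 t3 t4 t5 t6 t7 t8) t1)
    (algebraMap A (QRing t0 t1 t2 t3 t4 t5 t6 t7 t8) t2) (algebraMap A (QRing t0 t1 t2 t3 t4 t5 t6 t7 t8) t3)
    (algebraMap A (QRing t0 t1 t2 t3 t4 t5 t6 t7 t8) t4) (algebraMap A (QRing t0 t1 t2 t3 t4 t5 t6 t7 t8) t5)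
    (algebraMap A (QRing t0 t1 t2 t3 t4 t5 t6 t7 t8) t6) (algebraMap A (QRing t0 t1 t2 t3 t4 t5 t6 t7 t8) t7)
    (algebraMap A (QRing t0 t1 t2 t3 t4 t5 t6 t7 t8) t8) (y t0 t1 t2 t3 t4 t5 t6 t7 t8 0) (y t0 t1 t2 t3 t4 t5 t6 t7 t8 1) (y t0 t1 t2 t3 t4 t5 t6 t7 t8 2) (y t0 t1 t2 t3 t4 t5 t6 t7 t8 3) (y t0 t1 t2 t3 t4 t5 t6 t7 t8 4) (y t0 t1 t2 t3 t4 t5 t6 t7 t8 5) := by
  have hC : ∀ a : A, algebraMap A (QRing t0 t1 t2 t3 t4 t5 t6 t7 t8) a = mk t0 t1 t2 t3 t4 t5 t6 t7 t8 (C a) := fun a => rfl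
  simp only [hC, y]
  refine ⟨?_, ?_, ?_, ?_, ?_, ?_, ?_, ?_, ?_, ?_, ?_, ?_, ?_, ?_, ?_⟩
  · have e := mk_relPoly t0 t1 t2 t3 t4 t5 t6 t7 t8 0
    have e' : relPoly t0 t1 t2 t3 t4 t5 t6 t7 t8 0 = (X 0 * X 0 : MvPolynomial (Fin 6) A) - (C t0 * X 3 - C t1 * X 1 + C t2 * X 0) := rfl
    rw [e'] at e
    simp only [map_sub, map_add, map_mul, map_neg, map_pow, map_ofNat] at e ⊢
    linear_combination e
  · have e := mk_relPoly t0 t1 t2 t3 t4 t5 t6 t7 t8 1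
    have e' : relPoly t0 t1 t2 t3 t4 t5 t6 t7 t8 1 = (X 0 * X 1 : MvPolynomial (Fin 6) A) - (C t0 * X 4 - C t1 * X 2 + C t3 * X 0) := rfl
    rw [e'] at e
    simp only [map_sub, map_add, map_mul, map_neg, map_pow, map_ofNat] at e ⊢
    linear_combination e
  · have e := mk_relPoly t0 t1 t2 t3 t4 t5 t6 t7 t8 2
    have e' : relPoly t0 t1 t2 t3 t4 t5 t6 t7 t8 2 = (X 0 * X 2 : MvPolynomial (Fin 6) A) - (C t0 * C t6 - C t0 * X 5 - C t1 * C t5 + C t1 * X 4 + C t4 * X 0 - X 0 * X 3) := rfl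
    rw [e'] at e
    simp only [map_sub, map_add, map_mul, map_neg, map_pow, map_ofNat] at e ⊢
    linear_combination e
  · have e := mk_relPoly t0 t1 t2 t3 t4 t5 t6 t7 t8 3
    have e' : relPoly t0 t1 t2 t3 t4 t5 t6 t7 t8 3 = (X 0 * X 4 : MvPolynomial (Fin 6) A) - (-C t1 * X 5 + C t2 * X 4 - C t3 * X 3 + X 1 * X 3) := rfl
    rw [e'] at e
    simp only [map_sub, map_add, map_mul, map_neg, map_pow, map_ofNat] at e ⊢
    linear_combination e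
  · have e := mk_relPoly t0 t1 t2 t3 t4 t5 t6 t7 t8 4
    have e' : relPoly t0 t1 t2 t3 t4 t5 t6 t7 t8 4 = (X 0 * X 5 : MvPolynomial (Fin 6) A) - (C t1 * C t7 - C t2 * C t6 + C t2 * X 5 + C t4 * X 3 + C t6 * X 0 - X 2 * X 3 - X 3^2) := rfl
    rw [e'] at e
    simp only [map_sub, map_add, map_mul, map_neg, map_pow, map_ofNat] at e ⊢
    linear_combination e
  · have e := mk_relPoly t0 t1 t2 t3 t4 t5 t6 t7 t8 5
    have e' : relPoly t0 t1 t2 t3 t4 t5 t6 t7 t8 5 = (X 1 * X 1 : MvPolynomial (Fin 6) A) - (C t0 * C t6 - C t1 * C t5 + C t1 * X 4 - C t2 * X 2 + C t3 * X 1 + C t4 * X 0 - X 0 * X 3) := rfl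
    rw [e'] at e
    simp only [map_sub, map_add, map_mul, map_neg, map_pow, map_ofNat] at e ⊢
    linear_combination e
  · have e := mk_relPoly t0 t1 t2 t3 t4 t5 t6 t7 t8 6
    have e' : relPoly t0 t1 t2 t3 t4 t5 t6 t7 t8 6 = (X 1 * X 2 : MvPolynomial (Fin 6) A) - (C t0 * C t7 + C t1 * X 5 - C t2 * C t5 + C t3 * X 3 + C t4 * X 1 + C t5 * X 0 - 2 * X 1 * X 3) := rfl
    rw [e'] at e
    simp only [map_sub, map_add, map_mul, map_neg, map_pow, map_ofNat] at e ⊢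
    linear_combination e
  · have e := mk_relPoly t0 t1 t2 t3 t4 t5 t6 t7 t8 7
    have e' : relPoly t0 t1 t2 t3 t4 t5 t6 t7 t8 7 = (X 1 * X 4 : MvPolynomial (Fin 6) A) - (C t1 * C t7 - C t2 * C t6 + C t2 * X 5 + C t4 * X 3 + C t6 * X 0 - X 3^2) := rfl
    rw [e'] at e
    simp only [map_sub, map_add, map_mul, map_neg, map_pow, map_ofNat] at e ⊢
    linear_combination e
  · have e := mk_relPoly t0 t1 t2 t3 t4 t5 t6 t7 t8 8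
    have e' : relPoly t0 t1 t2 t3 t4 t5 t6 t7 t8 8 = (X 1 * X 5 : MvPolynomial (Fin 6) A) - (-C t5 * X 3 + C t6 * X 1 - C t7 * X 0 + X 3 * X 4) := rfl
    rw [e'] at e
    simp only [map_sub, map_add, map_mul, map_neg, map_pow, map_ofNat] at e ⊢
    linear_combination e
  · have e := mk_relPoly t0 t1 t2 t3 t4 t5 t6 t7 t8 9
    have e' : relPoly t0 t1 t2 t3 t4 t5 t6 t7 t8 9 = (X 2 * X 2 : MvPolynomial (Fin 6) A) - (C t0 * C t8 - C t1 * C t7 + C t2 * C t6 - C t2 * X 5 - C t3 * C t5 + C t3 * X 4 + C t4 * X 2 - C t4 * X 3 + C t5 * X 1 - C t6 * X 0 - X 2 * X 3 + X 3^2) := rfl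
    rw [e'] at e
    simp only [map_sub, map_add, map_mul, map_neg, map_pow, map_ofNat] at e ⊢
    linear_combination e
  · have e := mk_relPoly t0 t1 t2 t3 t4 t5 t6 t7 t8 10
    have e' : relPoly t0 t1 t2 t3 t4 t5 t6 t7 t8 10 = (X 2 * X 4 : MvPolynomial (Fin 6) A) - (C t1 * C t8 - C t3 * C t6 + C t3 * X 5 + C t4 * X 4 + C t5 * X 3 + C t7 * X 0 - 2 * X 3 * X 4) := rfl
    rw [e'] at e
    simp only [map_sub, map_add, map_mul, map_neg, map_pow, map_ofNat] at e ⊢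
    linear_combination e
  · have e := mk_relPoly t0 t1 t2 t3 t4 t5 t6 t7 t8 11
    have e' : relPoly t0 t1 t2 t3 t4 t5 t6 t7 t8 11 = (X 2 * X 5 : MvPolynomial (Fin 6) A) - (C t2 * C t8 - C t3 * C t7 + C t4 * X 5 + C t7 * X 1 - C t8 * X 0 - X 3 * X 5) := rfl
    rw [e'] at e
    simp only [map_sub, map_add, map_mul, map_neg, map_pow, map_ofNat] at e ⊢
    linear_combination e
  · have e := mk_relPoly t0 t1 t2 t3 t4 t5 t6 t7 t8 12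
    have e' : relPoly t0 t1 t2 t3 t4 t5 t6 t7 t8 12 = (X 4 * X 4 : MvPolynomial (Fin 6) A) - (C t2 * C t8 - C t3 * C t7 + C t4 * X 5 + C t5 * X 4 - C t6 * X 2 + C t7 * X 1 - X 3 * X 5) := rfl
    rw [e'] at e
    simp only [map_sub, map_add, map_mul, map_neg, map_pow, map_ofNat] at e ⊢
    linear_combination e
  · have e := mk_relPoly t0 t1 t2 t3 t4 t5 t6 t7 t8 13
    have e' : relPoly t0 t1 t2 t3 t4 t5 t6 t7 t8 13 = (X 4 * X 5 : MvPolynomial (Fin 6) A) - (C t5 * X 5 - C t7 * X 2 + C t8 * X 1) := rfl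
    rw [e'] at e
    simp only [map_sub, map_add, map_mul, map_neg, map_pow, map_ofNat] at e ⊢
    linear_combination e
  · have e := mk_relPoly t0 t1 t2 t3 t4 t5 t6 t7 t8 14
    have e' : relPoly t0 t1 t2 t3 t4 t5 t6 t7 t8 14 = (X 5 * X 5 : MvPolynomial (Fin 6) A) - (C t6 * X 5 - C t7 * X 4 + C t8 * X 3) := rfl
    rw [e'] at e
    simp only [map_sub, map_add, map_mul, map_neg, map_pow, map_ofNat] at e ⊢
    linear_combination e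

variable {t0 t1 t2 t3 t4 t5 t6 t7 t8}

/-- the universal property -/
theorem exists_lift {S : Type*} [CommRing S] [Algebra A S] {y1 y2 y3 y4 y5 y6 : S}
    (h : Rel (algebraMap A S t0) (algebraMap A S t1) (algebraMap A S t2)
      (algebraMap A S t3) (algebraMap A S t4) (algebraMap A S t5) (algebraMap A S t6)
      (algebraMap A S t7) (algebraMap A S t8) y1 y2 y3 y4 y5 y6) :
    ∃ φ : QRing t0 t1 t2 t3 t4 t5 t6 t7 t8 →ₐ[A] S, φ (y t0 t1 t2 t3 t4 t5 t6 t7 t8 0) = y1 ∧ φ (y t0 t1 t2 t3 t4 t5 t6 t7 t8 1) = y2 ∧ φ (y t0 t1 t2 t3 t4 t5 t6 t7 t8 2) = y3 ∧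
      φ (y t0 t1 t2 t3 t4 t5 t6 t7 t8 3) = y4 ∧ φ (y t0 t1 t2 t3 t4 t5 t6 t7 t8 4) = y5 ∧ φ (y t0 t1 t2 t3 t4 t5 t6 t7 t8 5) = y6 := by
  let ψ : MvPolynomial (Fin 6) A →ₐ[A] S := aeval ![y1, y2, y3, y4, y5, y6]
  have x0 : ψ (X 0) = y1 := by simp [ψ]
  have x1 : ψ (X 1) = y2 := by simp [ψ]
  have x2 : ψ (X 2) = y3 := by simp [ψ]
  have x3 : ψ (X 3) = y4 := by simp [ψ]
  have x4 : ψ (X 4) = y5 := by simp [ψ]
  have x5 : ψ (X 5) = y6 := by simp [ψ]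
  have hC : ∀ a : A, ψ (C a) = algebraMap A S a := fun a => ψ.commutes a
  have hψ : ∀ i, ψ (relPoly t0 t1 t2 t3 t4 t5 t6 t7 t8 i) = 0 := by
    intro i
    fin_cases i
    · change ψ ((X 0 * X 0 : MvPolynomial (Fin 6) A) - (C t0 * X 3 - C t1 * X 1 + C t2 * X 0)) = 0
      simp only [map_sub, map_add, map_mul, map_neg, map_pow, map_ofNat, x0, x1, x2, x3, x4, x5, hC]
      linear_combination h.r11
    · change ψ ((X 0 * X 1 : MvPolynomial (Fin 6) A) - (C t0 * X 4 - C t1 * X 2 + C t3 * X 0)) = 0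
      simp only [map_sub, map_add, map_mul, map_neg, map_pow, map_ofNat, x0, x1, x2, x3, x4, x5, hC]
      linear_combination h.r12
    · change ψ ((X 0 * X 2 : MvPolynomial (Fin 6) A) - (C t0 * C t6 - C t0 * X 5 - C t1 * C t5 + C t1 * X 4 + C t4 * X 0 - X 0 * X 3)) = 0
      simp only [map_sub, map_add, map_mul, map_neg, map_pow, map_ofNat, x0, x1, x2, x3, x4, x5, hC]
      linear_combination h.r13
    · change ψ ((X 0 * X 4 : MvPolynomial (Fin 6) A) - (-C t1 * X 5 + C t2 * X 4 - C t3 * X 3 + X 1 * X 3)) = 0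
      simp only [map_sub, map_add, map_mul, map_neg, map_pow, map_ofNat, x0, x1, x2, x3, x4, x5, hC]
      linear_combination h.r15
    · change ψ ((X 0 * X 5 : MvPolynomial (Fin 6) A) - (C t1 * C t7 - C t2 * C t6 + C t2 * X 5 + C t4 * X 3 + C t6 * X 0 - X 2 * X 3 - X 3^2)) = 0
      simp only [map_sub, map_add, map_mul, map_neg, map_pow, map_ofNat, x0, x1, x2, x3, x4, x5, hC]
      linear_combination h.r16
    · change ψ ((X 1 * X 1 : MvPolynomial (Fin 6) A) - (C t0 * C t6 - C t1 * C t5 + C t1 * X 4 - C t2 * X 2 + C t3 * X 1 + C t4 * X 0 - X 0 * X 3)) = 0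
      simp only [map_sub, map_add, map_mul, map_neg, map_pow, map_ofNat, x0, x1, x2, x3, x4, x5, hC]
      linear_combination h.r22
    · change ψ ((X 1 * X 2 : MvPolynomial (Fin 6) A) - (C t0 * C t7 + C t1 * X 5 - C t2 * C t5 + C t3 * X 3 + C t4 * X 1 + C t5 * X 0 - 2 * X 1 * X 3)) = 0
      simp only [map_sub, map_add, map_mul, map_neg, map_pow, map_ofNat, x0, x1, x2, x3, x4, x5, hC]
      linear_combination h.r23
    · change ψ ((X 1 * X 4 : MvPolynomial (Fin 6) A) - (C t1 * C t7 - C t2 * C t6 + C t2 * X 5 + C t4 * X 3 + C t6 * X 0 - X 3^2)) = 0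
      simp only [map_sub, map_add, map_mul, map_neg, map_pow, map_ofNat, x0, x1, x2, x3, x4, x5, hC]
      linear_combination h.r25
    · change ψ ((X 1 * X 5 : MvPolynomial (Fin 6) A) - (-C t5 * X 3 + C t6 * X 1 - C t7 * X 0 + X 3 * X 4)) = 0
      simp only [map_sub, map_add, map_mul, map_neg, map_pow, map_ofNat, x0, x1, x2, x3, x4, x5, hC]
      linear_combination h.r26
    · change ψ ((X 2 * X 2 : MvPolynomial (Fin 6) A) - (C t0 * C t8 - C t1 * C t7 + C t2 * C t6 - C t2 * X 5 - C t3 * C t5 + C t3 * X 4 + C t4 * X 2 - C t4 * X 3 + C t5 * X 1 - C t6 * X 0 - X 2 * X 3 + X 3^2)) = 0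
      simp only [map_sub, map_add, map_mul, map_neg, map_pow, map_ofNat, x0, x1, x2, x3, x4, x5, hC]
      linear_combination h.r33
    · change ψ ((X 2 * X 4 : MvPolynomial (Fin 6) A) - (C t1 * C t8 - C t3 * C t6 + C t3 * X 5 + C t4 * X 4 + C t5 * X 3 + C t7 * X 0 - 2 * X 3 * X 4)) = 0
      simp only [map_sub, map_add, map_mul, map_neg, map_pow, map_ofNat, x0, x1, x2, x3, x4, x5, hC]
      linear_combination h.r35
    · change ψ ((X 2 * X 5 : MvPolynomial (Fin 6) A) - (C t2 * C t8 - C t3 * C t7 + C t4 * X 5 + C t7 * X 1 - C t8 * X 0 - X 3 * X 5)) = 0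
      simp only [map_sub, map_add, map_mul, map_neg, map_pow, map_ofNat, x0, x1, x2, x3, x4, x5, hC]
      linear_combination h.r36
    · change ψ ((X 4 * X 4 : MvPolynomial (Fin 6) A) - (C t2 * C t8 - C t3 * C t7 + C t4 * X 5 + C t5 * X 4 - C t6 * X 2 + C t7 * X 1 - X 3 * X 5)) = 0
      simp only [map_sub, map_add, map_mul, map_neg, map_pow, map_ofNat, x0, x1, x2, x3, x4, x5, hC]
      linear_combination h.r55
    · change ψ ((X 4 * X 5 : MvPolynomial (Fin 6) A) - (C t5 * X 5 - C t7 * X 2 + C t8 * X 1)) = 0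
      simp only [map_sub, map_add, map_mul, map_neg, map_pow, map_ofNat, x0, x1, x2, x3, x4, x5, hC]
      linear_combination h.r56
    · change ψ ((X 5 * X 5 : MvPolynomial (Fin 6) A) - (C t6 * X 5 - C t7 * X 4 + C t8 * X 3)) = 0
      simp only [map_sub, map_add, map_mul, map_neg, map_pow, map_ofNat, x0, x1, x2, x3, x4, x5, hC]
      linear_combination h.r66
  refine ⟨Ideal.Quotient.liftₐ _ ψ ?_, x0, x1, x2, x3, x4, x5⟩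
  intro a ha
  have : Ideal.span (Set.range (relPoly t0 t1 t2 t3 t4 t5 t6 t7 t8)) ≤ RingHom.ker ψ := by
    rw [Ideal.span_le]
    rintro _ ⟨i, rfl⟩
    exact hψ i
  exact this ha

theorem adjoin_y : Algebra.adjoin A {y t0 t1 t2 t3 t4 t5 t6 t7 t8 0, y t0 t1 t2 t3 t4 t5 t6 t7 t8 1, y t0 t1 t2 t3 t4 t5 t6 t7 t8 2, y t0 t1 t2 t3 t4 t5 t6 t7 t8 3, y t0 t1 t2 t3 t4 t5 t6 t7 t8 4, y t0 t1 t2 t3 t4 t5 t6 t7 t8 5} = ⊤ := by
  rw [eq_top_iff]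
  rintro z -
  obtain ⟨p, rfl⟩ := mk_surjective t0 t1 t2 t3 t4 t5 t6 t7 t8 z
  induction p using MvPolynomial.induction_on with
  | C a => exact Subalgebra.algebraMap_mem _ a
  | add p q hp hq => rw [map_add]; exact Subalgebra.add_mem _ hp hq
  | mul_X p i hp =>
    rw [map_mul]
    refine Subalgebra.mul_mem _ hp (Algebra.subset_adjoin ?_)
    change y t0 t1 t2 t3 t4 t5 t6 t7 t8 i ∈ _
    fin_cases i <;> simp

theorem alg_ext {S : Type*} [CommRing S] [Algebra A S] {φ ψ : QRing t0 t1 t2 t3 t4 t5 t6 t7 t8 →ₐ[A] S}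
    (h : ∀ i, φ (y t0 t1 t2 t3 t4 t5 t6 t7 t8 i) = ψ (y t0 t1 t2 t3 t4 t5 t6 t7 t8 i)) : φ = ψ := by
  have : φ.comp (mk t0 t1 t2 t3 t4 t5 t6 t7 t8) = ψ.comp (mk t0 t1 t2 t3 t4 t5 t6 t7 t8) := MvPolynomial.algHom_ext h
  ext z
  obtain ⟨p, rfl⟩ := mk_surjective t0 t1 t2 t3 t4 t5 t6 t7 t8 z
  exact DFunLike.congr_fun this p

theorem span_eq_top : Submodule.span A (Set.range (mon (y t0 t1 t2 t3 t4 t5 t6 t7 t8 0) (y t0 t1 t2 t3 t4 t5 t6 t7 t8 1) (y t0 t1 t2 t3 t4 t5 t6 t7 t8 2) (y t0 t1 t2 t3 t4 t5 t6 t7 t8 3)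
    (y t0 t1 t2 t3 t4 t5 t6 t7 t8 4) (y t0 t1 t2 t3 t4 t5 t6 t7 t8 5))) = ⊤ :=
  span_mon_eq_top t0 t1 t2 t3 t4 t5 t6 t7 t8 _ _ _ _ _ _ (rel t0 t1 t2 t3 t4 t5 t6 t7 t8) adjoin_y

theorem linearIndependent : LinearIndependent A (mon (y t0 t1 t2 t3 t4 t5 t6 t7 t8 0) (y t0 t1 t2 t3 t4 t5 t6 t7 t8 1) (y t0 t1 t2 t3 t4 t5 t6 t7 t8 2) (y t0 t1 t2 t3 t4 t5 t6 t7 t8 3)
    (y t0 t1 t2 t3 t4 t5 t6 t7 t8 4) (y t0 t1 t2 t3 t4 t5 t6 t7 t8 5)) := by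
  obtain ⟨Q, i1, i2, y1, y2, y3, y4, y5, y6, hr, hl⟩ := exists_model t0 t1 t2 t3 t4 t5 t6 t7 t8
  obtain ⟨φ, h1, h2, h3, h4, h5, h6⟩ := exists_lift hr
  refine LinearIndependent.of_comp φ.toLinearMap ?_
  have : φ.toLinearMap ∘ mon (y t0 t1 t2 t3 t4 t5 t6 t7 t8 0) (y t0 t1 t2 t3 t4 t5 t6 t7 t8 1) (y t0 t1 t2 t3 t4 t5 t6 t7 t8 2) (y t0 t1 t2 t3 t4 t5 t6 t7 t8 3)
    (y t0 t1 t2 t3 t4 t5 t6 t7 t8 4) (y t0 t1 t2 t3 t4 t5 t6 t7 t8 5) = mon y1 y2 y3 y4 y5 y6 := by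
    funext b
    rw [Function.comp_apply, AlgHom.toLinearMap_apply]
    fin_cases b
    · exact map_one φ
    · exact h1
    · exact h2
    · exact h3
    · exact h4
    · exact h5
    · exact h6
    · exact (map_mul φ _ _).trans (by rw [h4, h1]; rfl)
    · exact (map_mul φ _ _).trans (by rw [h4, h2]; rfl)
    · exact (map_mul φ _ _).trans (by rw [h4, h3]; rfl)
    · exact (map_mul φ _ _).trans (by rw [h4]; rfl)
    · exact (map_mul φ _ _).trans (by rw [h4, h5]; rfl)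
    · exact (map_mul φ _ _).trans (by rw [h4, h6]; rfl)
    · exact (map_mul φ _ _).trans (by rw [map_mul, h4]; rfl)
  rw [this]
  exact hl

/-- the fourteen monomials are a basis -/
noncomputable def basis : Module.Basis (Fin 14) A (QRing t0 t1 t2 t3 t4 t5 t6 t7 t8) :=
  Module.Basis.mk linearIndependent span_eq_top.ge

end QRing
end QRing

end Pool.Agent.J4.H15
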