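import Pool.Agent.J4.H15.CM2
import Pool.Agent.J4.H15.NormEt

/-!
# Smooth algebras over a normal domain that is finite free over a regular ring
-/

set_option autoImplicit false
set_option linter.style.haveILetI false

universe u

open scoped TensorProduct
open IsLocalRing

namespace Pool.Agent.J4.H15

/-- normal Cohen–Macaulay local rings -/
def NCM (R : Type u) [CommRing R] [IsLocalRing R] : Prop :=
  IsDomain R ∧ IsIntegrallyClosed R ∧ IsCMLocal R

theorem NCM.of_equiv {R R' : Type u} [CommRing R] [CommRing R'] [IsLocalRing R] [IsLocalRing R']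
    (e : R ≃+* R') (h : NCM R) : NCM R' := by
  obtain ⟨h1, h2, h3⟩ := h
  exact ⟨e.symm.injective.isDomain (e.symm : R' →+* R), IsIntegrallyClosed.of_equiv e, h3.of_equiv e⟩

/-- local rings do not change under localization -/
theorem NCM.of_loc {R S : Type u} [CommRing R] [CommRing S] [Algebra R S] (M : Submonoid R)
    [IsLocalization M S] (p : Ideal R) [p.IsPrime] (q : Ideal S) [q.IsPrime]
    (h : q.under R = p) (hq : NCM (Localization.AtPrime q)) : NCM (Localization.AtPrime p) := by
  subst h
  have h1 : IsLocalization.AtPrime (Localization.AtPrime q) (q.under R) :=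
    IsLocalization.isLocalization_isLocalization_atPrime_isLocalization M
      (Localization.AtPrime q) q
  exact hq.of_equiv (IsLocalization.algEquiv (q.under R).primeCompl (Localization.AtPrime q)
    (Localization.AtPrime (q.under R))).toRingEquiv

theorem NCM.to_loc {R S : Type u} [CommRing R] [CommRing S] [Algebra R S] (M : Submonoid R)
    [IsLocalization M S] (q : Ideal S) [q.IsPrime]
    (hq : NCM (Localization.AtPrime (q.under R))) : NCM (Localization.AtPrime q) := by
  have h1 : IsLocalization.AtPrime (Localization.AtPrime q) (q.under R) :=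
    IsLocalization.isLocalization_isLocalization_atPrime_isLocalization M
      (Localization.AtPrime q) q
  exact hq.of_equiv (IsLocalization.algEquiv (q.under R).primeCompl
    (Localization.AtPrime (q.under R)) (Localization.AtPrime q)).toRingEquiv

theorem isIntegrallyClosed_mvPolynomial {R : Type u} [CommRing R] [IsDomain R]
    [IsIntegrallyClosed R] (n : ℕ) : IsIntegrallyClosed (MvPolynomial (Fin n) R) := by
  induction n with
  | zero =>
    exact IsIntegrallyClosed.of_equiv
      (MvPolynomial.isEmptyAlgEquiv R (Fin 0)).symm.toRingEquiv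
  | succ n ih =>
    exact IsIntegrallyClosed.of_equiv (MvPolynomial.finSuccEquiv R n).symm.toRingEquiv

attribute [local instance] MvPolynomial.algebraMvPolynomial in
theorem ncm_of_smooth {P C W : Type u} [CommRing P] [IsRegularRing P] [CommRing C] [IsDomain C]
    [IsIntegrallyClosed C] [Algebra P C] [Module.Finite P C] [Module.Flat P C] [CommRing W]
    [Algebra C W] [Algebra.Smooth C W] (q : Ideal W) [q.IsPrime] :
    NCM (Localization.AtPrime q) := by
  have hC : IsNoetherianRing C := IsNoetherianRing.of_finite P C
  obtain ⟨f, hf, n, inst1, inst2, inst3⟩ :=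
    Algebra.IsSmoothAt.exists_isStandardEtale_mvPolynomial (R := C) (S := W) (p := q)
  have hdisj : Disjoint (Submonoid.powers f : Set W) q :=
    (Ideal.disjoint_powers_iff_notMem_of_isPrime _).mpr hf
  let q' : Ideal (Localization.Away f) := q.map (algebraMap W (Localization.Away f))
  have hq' : q'.IsPrime := IsLocalization.isPrime_of_isPrime_disjoint (.powers f) _ _ ‹_› hdisj
  have hcomap : q'.under W = q :=
    IsLocalization.under_map_of_isPrime_disjoint (.powers f) _ ‹_› hdisj
  refine NCM.of_loc (Submonoid.powers f) q q' hcomap ?_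
  have hN : IsIntegrallyClosed (MvPolynomial (Fin n) C) := isIntegrallyClosed_mvPolynomial n
  have het : Algebra.Etale (MvPolynomial (Fin n) C) (Localization.Away f) := inferInstance
  obtain ⟨h1, h2⟩ := normal_of_etale (N := MvPolynomial (Fin n) C) q'
  refine ⟨h1, h2, ?_⟩
  let e := Algebra.IsPushout.equiv P (MvPolynomial (Fin n) P) C (MvPolynomial (Fin n) C)
  have hfin : Module.Finite (MvPolynomial (Fin n) P) (MvPolynomial (Fin n) C) :=
    Module.Finite.equiv e.toLinearEquiv
  have hflat : Module.Flat (MvPolynomial (Fin n) P) (MvPolynomial (Fin n) C) :=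
    Module.Flat.of_linearEquiv e.toLinearEquiv.symm
  letI : Algebra (MvPolynomial (Fin n) P) (Localization.Away f) :=
    ((algebraMap (MvPolynomial (Fin n) C) (Localization.Away f)).comp
      (algebraMap (MvPolynomial (Fin n) P) (MvPolynomial (Fin n) C))).toAlgebra
  have htow : IsScalarTower (MvPolynomial (Fin n) P) (MvPolynomial (Fin n) C)
      (Localization.Away f) := IsScalarTower.of_algebraMap_eq fun _ => rfl
  have hflat2 : Module.Flat (MvPolynomial (Fin n) P) (Localization.Away f) :=
    Module.Flat.trans _ (MvPolynomial (Fin n) C) _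
  have hqf1 : Algebra.QuasiFinite (MvPolynomial (Fin n) P) (MvPolynomial (Fin n) C) :=
    inferInstance
  have hqf2 : Algebra.QuasiFinite (MvPolynomial (Fin n) C) (Localization.Away f) :=
    inferInstance
  have hqf : Algebra.QuasiFinite (MvPolynomial (Fin n) P) (Localization.Away f) :=
    Algebra.QuasiFinite.trans _ (MvPolynomial (Fin n) C) _
  have hnoeth : IsNoetherianRing (Localization.Away f) :=
    Algebra.FiniteType.isNoetherianRing (MvPolynomial (Fin n) C) _
  exact IsCMLocal.of_quasiFinite (P := MvPolynomial (Fin n) P) q'

end Pool.Agent.J4.H15
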