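import Pool.Agent.J4.H15.WSmooth

/-!
# Every chart ring of a smooth algebra of finite type for four points is normal and Cohen–Macaulay
-/

set_option autoImplicit false
set_option linter.style.haveILetI false

universe u

open scoped TensorProduct

namespace Pool.Agent.J4.H15

open Helper226 MvPolynomial

section beta

variable (k : Type u) [CommRing k] {B : Type u} [CommRing B] [Algebra k B] {d : ℕ} (m : ℕ)
  (b : Fin d → B)

/-- the constant frame -/
noncomputable def beta : Fin d → MvPolynomial (Fin m) B := fun i => C (b i)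

/-- the inclusion of constants -/
noncomputable def calg : B →ₐ[k] MvPolynomial (Fin m) B :=
  IsScalarTower.toAlgHom k B (MvPolynomial (Fin m) B)

theorem calg_apply (x : B) : calg k (B := B) m x = C x := rfl

theorem exists_betaEquiv :
    ∃ e : MvPolynomial (Fin m × Fin d) (ChartRing k b) ≃ₐ[k] ChartRing k (beta m b),
      (∀ x j, e (C ((univChart k b).q x j)) = (univChart k (beta m b)).q (C x) j) ∧
      ∀ i j, e (X (i, j)) = (univChart k (beta m b)).q (X i) j := by
  let αl : ChartRing k b →ₐ[k] ChartRing k (beta m b) :=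
    (comapC (univChart k (beta m b)) (calg k m) b (fun i => rfl)).lift
  have hαl : ∀ x j, αl ((univChart k b).q x j) = (univChart k (beta m b)).q (C x) j := by
    intro x j
    rw [← Chart.map_q, Chart.map_lift]
    rfl
  let F : MvPolynomial (Fin m × Fin d) (ChartRing k b) →ₐ[k] ChartRing k (beta m b) :=
    aevalTower αl (fun p => (univChart k (beta m b)).q (X p.1) p.2)
  have hFC : ∀ x, F (C x) = αl x := aevalTower_C αl _
  have hFX : ∀ p, F (X p) = (univChart k (beta m b)).q (X p.1) p.2 := aevalTower_X αl _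
  let a : ChartRing k b →ₐ[k] MvPolynomial (Fin m × Fin d) (ChartRing k b) :=
    IsScalarTower.toAlgHom k (ChartRing k b) (MvPolynomial (Fin m × Fin d) (ChartRing k b))
  have ha : ∀ x, a x = C x := fun _ => rfl
  let c : Chart k b (MvPolynomial (Fin m × Fin d) (ChartRing k b)) := (univChart k b).map a
  let Φ : MvPolynomial (Fin m) B →ₐ[k] EAlg c :=
    aevalTower (piE c) (fun i => expandE c (fun j => X (i, j)))
  have hΦC : ∀ x, Φ (C x) = piE c x := aevalTower_C _ _
  have hΦX : ∀ i, Φ (X i) = expandE c (fun j => X (i, j)) := aevalTower_X _ _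
  let c' := ofHom c Φ (beta m b) (fun i => hΦC (b i))
  have hc' : ∀ u, c'.q u = coordE c (Φ u) := fun _ => rfl
  let G : ChartRing k (beta m b) →ₐ[k] MvPolynomial (Fin m × Fin d) (ChartRing k b) := c'.lift
  have hG : ∀ u j, G ((univChart k (beta m b)).q u j) = c'.q u j := by
    intro u j
    have h1 := Chart.map_q (R' := MvPolynomial (Fin m × Fin d) (ChartRing k b))
      (univChart k (beta m b)) c'.lift u j
    rw [Chart.map_lift] at h1
    exact h1.symm
  have hGF : G.comp F = AlgHom.id k _ := by
    apply MvPolynomial.algHom_ext'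
    · have h1 : (G.comp F).comp a = a := by
        refine chartRing_hom_ext (R := MvPolynomial (Fin m × Fin d) (ChartRing k b)) ?_
        refine Chart.ext' fun x => funext fun j => ?_
        change G (F (C ((univChart k b).q x j))) = C ((univChart k b).q x j)
        rw [hFC, hαl, hG, hc', hΦC, coordE_piE]
        rfl
      exact h1
    · rintro ⟨i, j⟩
      rw [AlgHom.comp_apply, hFX, hG, hc', hΦX, coordE_expandE]
      rfl
  have hFG : F.comp G = AlgHom.id k (ChartRing k (beta m b)) := by
    apply chartRing_hom_ext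
    rw [← Chart.map_map (R' := MvPolynomial (Fin m × Fin d) (ChartRing k b)), Chart.map_id, show (univChart k (beta m b)).map G = c' from
      Chart.map_lift c']
    obtain ⟨f, hf, hfπ⟩ := exists_bcE c F
    obtain ⟨Φ2, hΦ2, hΦ2ι⟩ := exists_toHom (univChart k (beta m b)) (calg k m) (b := b)
      (fun i => rfl) (c.map F) (by
        intro x
        funext j
        change _ = F (C ((univChart k b).q x j))
        rw [hFC, hαl]
        rfl)
    have hcomp : f.comp Φ = Φ2 := by
      apply MvPolynomial.algHom_ext'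
      · ext x
        change f (Φ (C x)) = Φ2 (C x)
        rw [hΦC, hfπ]
        exact (hΦ2ι x).symm
      · intro i
        rw [AlgHom.comp_apply, hΦX]
        apply (coordE (c.map F)).injective
        funext j
        rw [hf, coordE_expandE, hΦ2, hFX]
    ext u j
    rw [Chart.map_q, hc', ← hf]
    have h1 : f (Φ u) = Φ2 u := DFunLike.congr_fun hcomp u
    rw [h1, hΦ2]
  refine ⟨AlgEquiv.ofAlgHom F G hFG hGF, ?_, ?_⟩
  · intro x j
    change F (C _) = _
    rw [hFC, hαl]
  · intro i j
    exact hFX (i, j)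

end beta

section overlap

variable (k : Type u) [CommRing k] {B : Type u} [CommRing B] [Algebra k B] {d : ℕ}

theorem exists_univEquiv {L : Set (Fin d → B)} (U V : UnivFor k L) :
    Nonempty (U.A ≃ₐ[k] V.A) := by
  obtain ⟨φ, hφ⟩ := U.desc V.A V.I V.has
  obtain ⟨ψ, hψ⟩ := V.desc U.A U.I U.has
  refine ⟨AlgEquiv.ofAlgHom φ ψ ?_ ?_⟩
  · apply V.uniq
    rw [map_bc_comp, hψ, hφ, map_bc_id]
  · apply U.uniq
    rw [map_bc_comp, hφ, hψ, map_bc_id]

theorem univSingle_chart (b : Fin d → B) :
    (univSingle k b).chart (b := b) rfl = univChart k b :=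
  Chart.ideal_injective ((univSingle k b).chart_ideal rfl)

theorem tmat_self {R : Type u} [CommRing R] [Algebra k R] {b : Fin d → B} (c : Chart k b R) :
    tmat c b = 1 := by
  ext i j
  rw [tmat, Matrix.of_apply, c.q_b, Matrix.one_apply, Pi.single_apply]
  by_cases h : i = j
  · rw [if_pos h, if_pos h.symm]
  · rw [if_neg h, if_neg (Ne.symm h)]

theorem exists_loc_gen {b : Fin d → B} (U : UnivFor k ({b} : Set (Fin d → B)))
    (L : Finset (Fin d → B)) (hb : b ∈ L) :
    ∃ (V : UnivFor k (L : Set (Fin d → B))) (_ : Algebra U.A V.A),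
      IsLocalization (Submonoid.powers (locElt (U.chart (b := b) rfl) L)) V.A :=
  ⟨U.loc (b := b) rfl L (by rintro x rfl; exact hb),
    (inferInstance : Algebra U.A (Localization.Away (locElt (U.chart (b := b) rfl) L))),
    (inferInstance : IsLocalization (Submonoid.powers (locElt (U.chart (b := b) rfl) L))
      (Localization.Away (locElt (U.chart (b := b) rfl) L)))⟩

theorem exists_loc (b : Fin d → B) (L : Finset (Fin d → B)) (hb : b ∈ L) :
    ∃ (V : UnivFor k (L : Set (Fin d → B))) (_ : Algebra (ChartRing k b) V.A),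
      IsLocalization (Submonoid.powers (locElt (univChart k b) L)) V.A := by
  have h := exists_loc_gen k (univSingle k b) L hb
  rw [univSingle_chart] at h
  exact h

theorem ncm_overlap (b1 b2 : Fin d → B)
    (h2 : ∀ (Q : Ideal (ChartRing k b2)) [Q.IsPrime], NCM (Localization.AtPrime Q))
    (Q : Ideal (ChartRing k b1)) [Q.IsPrime]
    (hQ : (tmat (univChart k b1) b2).det ∉ Q) : NCM (Localization.AtPrime Q) := by
  classical
  obtain ⟨U1, alg1, hl1⟩ := exists_loc k b1 {b1, b2} (Finset.mem_insert_self _ _)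
  obtain ⟨U2, alg2, hl2⟩ := exists_loc k b2 {b1, b2}
    (Finset.mem_insert_of_mem (Finset.mem_singleton_self _))
  obtain ⟨e⟩ := exists_univEquiv k U1 U2
  have hf1 : locElt (univChart k b1) {b1, b2} ∉ Q := by
    intro hmem
    rw [locElt, Ideal.IsPrime.prod_mem_iff] at hmem
    obtain ⟨b', hb', hd⟩ := hmem
    rcases Finset.mem_insert.1 hb' with rfl | h
    · rw [tmat_self, Matrix.det_one] at hd
      exact (inferInstance : Q.IsPrime).ne_top ((Ideal.eq_top_iff_one Q).2 hd)
    · rw [Finset.mem_singleton.1 h] at hd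
      exact hQ hd
  have hdisj : Disjoint (Submonoid.powers (locElt (univChart k b1) {b1, b2}) :
      Set (ChartRing k b1)) Q :=
    (Ideal.disjoint_powers_iff_notMem_of_isPrime _).mpr hf1
  let Q1 : Ideal U1.A := Q.map (algebraMap (ChartRing k b1) U1.A)
  have hQ1 : Q1.IsPrime :=
    IsLocalization.isPrime_of_isPrime_disjoint (.powers _) _ _ ‹_› hdisj
  have hcomap : Q1.under (ChartRing k b1) = Q :=
    IsLocalization.under_map_of_isPrime_disjoint (.powers _) _ ‹_› hdisj
  refine NCM.of_loc (Submonoid.powers (locElt (univChart k b1) {b1, b2})) Q Q1 hcomap ?_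
  let Q2 : Ideal U2.A := Q1.comap (e.symm : U2.A →+* U1.A)
  have hQ2 : Q2.IsPrime := Ideal.comap_isPrime _ _
  refine NCM.of_ringEquiv e.toRingEquiv Q1 Q2 ?_ ?_
  · intro x
    change _ ↔ e.symm (e x) ∈ Q1
    rw [e.symm_apply_apply]
  · exact NCM.to_loc (Submonoid.powers (locElt (univChart k b2) {b1, b2})) Q2 (h2 _)

end overlap

section main

theorem det_frame {A : Type u} [CommRing A] (u : Fin 4 → A) (j0 : Fin 4) :
    (Matrix.of (Fin.cons u (fun i => Pi.single (j0.succAbove i) 1)) :
      Matrix (Fin 4) (Fin 4) A).det = (-1) ^ (j0 : ℕ) * u j0 := by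
  rw [Matrix.det_succ_column _ j0, Finset.sum_eq_single 0]
  · have h1 : ((Matrix.of (Fin.cons u (fun i => Pi.single (j0.succAbove i) 1)) :
        Matrix (Fin 4) (Fin 4) A).submatrix (Fin.succAbove 0) j0.succAbove) = 1 := by
      ext i j
      rw [Matrix.submatrix_apply, Matrix.of_apply, Fin.succAbove_zero, Fin.cons_succ,
        Matrix.one_apply]
      by_cases h : i = j
      · subst h; rw [if_pos rfl, Pi.single_eq_same]
      · rw [if_neg h, Pi.single_eq_of_ne (fun h' => h (Fin.succAbove_right_injective h').symm)]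
    rw [h1, Matrix.det_one, mul_one, Matrix.of_apply, Fin.cons_zero]
    simp
  · intro i _ hi
    obtain ⟨i', rfl⟩ := Fin.exists_succ_eq.2 hi
    rw [Matrix.of_apply, Fin.cons_succ, Pi.single_eq_of_ne (Fin.succAbove_ne j0 i').symm, mul_zero,
      zero_mul]
  · intro h
    exact absurd (Finset.mem_univ _) h

variable (k : Type u) [Field k] {B : Type u} [CommRing B] [Algebra k B]
  [Algebra.FormallySmooth k B] [Algebra.FiniteType k B]

theorem ncm_chartRing (b : Fin 4 → B) (p : Ideal (ChartRing k b)) [p.IsPrime] :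
    NCM (Localization.AtPrime p) := by
  classical
  let A := ChartRing k b
  let u : Fin 4 → A := (univChart k b).q 1
  obtain ⟨j0, hj0⟩ : ∃ j0, u j0 ∉ p := by
    by_contra hc
    push Not at hc
    have h1 := (univChart k b).q_mul 1 (b 0)
    rw [one_mul, (univChart k b).q_b] at h1
    have h2 := congrFun h1 0
    rw [Pi.single_eq_same, Finset.sum_apply] at h2
    have h3 : (1 : A) ∈ p := by
      rw [h2]
      exact p.sum_mem fun j _ => Ideal.mul_mem_right _ _ (hc j)
    exact (inferInstance : p.IsPrime).ne_top ((Ideal.eq_top_iff_one p).2 h3)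
  obtain ⟨e, heC, heX⟩ := exists_betaEquiv k 3 b
  let σ : Fin 3 × Fin 4 ≃ Fin 12 := finProdFinEquiv
  let cf : Fin 3 × Fin 4 → A := fun x => (Pi.single (j0.succAbove x.1) 1 : Fin 4 → A) x.2
  let P : Ideal (MvPolynomial (Fin 3 × Fin 4) A) := p.comap (MvPolynomial.eval cf)
  have hP : P.IsPrime := Ideal.comap_isPrime _ _
  let P' : Ideal (MvPolynomial (Fin 12) A) := p.comap (MvPolynomial.eval (cf ∘ σ.symm))
  have hP' : P'.IsPrime := Ideal.comap_isPrime _ _
  refine ncm_descent 12 p (cf ∘ σ.symm) P' rfl ?_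
  refine NCM.of_ringEquiv (R := MvPolynomial (Fin 12) A) (R' := MvPolynomial (Fin 3 × Fin 4) A)
    (MvPolynomial.renameEquiv A σ.symm).toRingEquiv P' P ?_ ?_
  · intro x
    change MvPolynomial.eval (cf ∘ σ.symm) x ∈ p ↔
      MvPolynomial.eval cf (MvPolynomial.rename σ.symm x) ∈ p
    rw [MvPolynomial.eval_rename]
  let Q : Ideal (ChartRing k (beta 3 b)) := P.comap (e.symm : _ →+* _)
  have hQ : Q.IsPrime := Ideal.comap_isPrime _ _
  refine NCM.of_ringEquiv (R := MvPolynomial (Fin 3 × Fin 4) A)
    (R' := ChartRing k (beta 3 b)) e.toRingEquiv P Q ?_ ?_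
  · intro x
    change _ ↔ e.symm (e x) ∈ P
    rw [e.symm_apply_apply]
  refine ncm_overlap k (beta 3 b) (tau B) (fun Q _ => ncm_chartRing_tau k B Q) Q ?_
  intro hmem
  have h1 : MvPolynomial.eval cf (e.symm (tmat (univChart k (beta 3 b)) (tau B)).det) ∈ p := hmem
  have h2 : MvPolynomial.eval cf (e.symm (tmat (univChart k (beta 3 b)) (tau B)).det) =
      (-1) ^ (j0 : ℕ) * u j0 := by
    have h3 := RingHom.map_det ((MvPolynomial.eval cf).comp (e.symm : _ →+* _))
      (tmat (univChart k (beta 3 b)) (tau B))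
    rw [RingHom.comp_apply] at h3
    refine h3.trans ?_
    rw [← det_frame u j0]
    congr 1
    ext i j
    rw [RingHom.mapMatrix_apply, Matrix.map_apply, Matrix.of_apply, RingHom.comp_apply, tmat,
      Matrix.of_apply]
    refine Fin.cases ?_ (fun i => ?_) i
    · rw [Fin.cons_zero]
      have h4 : e.symm ((univChart k (beta 3 b)).q (tau B 0) j) = C (u j) := by
        rw [AlgEquiv.symm_apply_eq, heC]
        rw [map_one]
        rfl
      change MvPolynomial.eval cf (e.symm _) = _
      rw [h4, MvPolynomial.eval_C]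
    · rw [Fin.cons_succ]
      have h5 : tau B i.succ = X i := by fin_cases i <;> rfl
      have h4 : e.symm ((univChart k (beta 3 b)).q (tau B i.succ) j) = X (i, j) := by
        rw [AlgEquiv.symm_apply_eq, heX, h5]
      change MvPolynomial.eval cf (e.symm _) = _
      rw [h4, MvPolynomial.eval_X]
  rw [h2] at h1
  have h6 : ((-1 : A) ^ (j0 : ℕ)) * ((-1) ^ (j0 : ℕ) * u j0) ∈ p := Ideal.mul_mem_left _ _ h1
  rw [← mul_assoc, ← mul_pow, show (-1 : ChartRing k b) * -1 = 1 by ring, one_pow, one_mul] at h6
  exact hj0 h6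

end main

end Pool.Agent.J4.H15
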