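import Pool.Agent.J4.H15.ChartE
import Pool.Agent.J4.H15.QIso
import Pool.Agent.J4.H15.Desc

/-!
# Smoothness of the chart ring of a smooth algebra with three extra variables
-/

set_option autoImplicit false
set_option linter.style.haveILetI false

universe u

open scoped TensorProduct

namespace Pool.Agent.J4.H15

open Helper226 MvPolynomial

section

variable (k : Type u) [CommRing k] (B : Type u) [CommRing B] [Algebra k B]

/-- the frame `1, X 0, X 1, X 2` -/
noncomputable def tau : Fin 4 → MvPolynomial (Fin 3) B := ![1, X 0, X 1, X 2]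

/-- the inclusion of the polynomial ring over the base -/
noncomputable def iota0 : MvPolynomial (Fin 3) k →ₐ[k] MvPolynomial (Fin 3) B :=
  aeval (X : Fin 3 → MvPolynomial (Fin 3) B)

theorem iota0_X (i : Fin 3) : iota0 k B (X i) = X i := aeval_X _ _

theorem iota0_frame (i : Fin 4) : iota0 k B (stdFrame k i) = tau B i := by
  fin_cases i
  · exact map_one _
  · exact iota0_X k B 0
  · exact iota0_X k B 1
  · exact iota0_X k B 2

/-- the classifying map of the underlying quartic algebra -/
noncomputable def gam : ChartRing k (stdFrame k) →ₐ[k] ChartRing k (tau B) :=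
  (comapC (univChart k (tau B)) (iota0 k B) (stdFrame k) (iota0_frame k B)).lift

theorem gam_q (x : MvPolynomial (Fin 3) k) (j : Fin 4) :
    gam k B ((univChart k (stdFrame k)).q x j) = (univChart k (tau B)).q (iota0 k B x) j := by
  rw [← Chart.map_q, gam, Chart.map_lift]
  rfl

theorem formallySmooth_gam [Algebra.FormallySmooth k B] :
    letI := (gam k B).toRingHom.toAlgebra
    Algebra.FormallySmooth (ChartRing k (stdFrame k)) (ChartRing k (tau B)) := by
  letI alg : Algebra (ChartRing k (stdFrame k)) (ChartRing k (tau B)) :=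
    (gam k B).toRingHom.toAlgebra
  have halg : ∀ x, algebraMap (ChartRing k (stdFrame k)) (ChartRing k (tau B)) x = gam k B x :=
    fun _ => rfl
  apply Algebra.FormallySmooth.of_comp_surjective
  intro T _ _ I hI ψ
  letI algT : Algebra k T :=
    ((algebraMap (ChartRing k (stdFrame k)) T).comp
      (algebraMap k (ChartRing k (stdFrame k)))).toAlgebra
  have hkT : ∀ r, algebraMap k T r = algebraMap (ChartRing k (stdFrame k)) T
      (algebraMap k (ChartRing k (stdFrame k)) r) := fun _ => rfl
  let πI : T →ₐ[k] T ⧸ I := Ideal.Quotient.mkₐ k I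
  have hπ : ∀ x, πI x = Ideal.Quotient.mk I x := fun _ => rfl
  let ψk : ChartRing k (tau B) →ₐ[k] T ⧸ I :=
    { (ψ : ChartRing k (tau B) →+* T ⧸ I) with
      commutes' := fun r => by
        change ψ (algebraMap k _ r) = _
        rw [← (gam k B).commutes, ← halg, AlgHom.commutes]
        rfl }
  have hψk : ∀ w, ψk w = ψ w := fun _ => rfl
  let aT : ChartRing k (stdFrame k) →ₐ[k] T :=
    { (algebraMap (ChartRing k (stdFrame k)) T) with commutes' := fun r => rfl }
  have haT : ∀ x, aT x = algebraMap (ChartRing k (stdFrame k)) T x := fun _ => rfl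
  let c : Chart k (stdFrame k) T := (univChart k (stdFrame k)).map aT
  let cI : Chart k (stdFrame k) (T ⧸ I) := c.map πI
  let c'I : Chart k (tau B) (T ⧸ I) := (univChart k (tau B)).map ψk
  have h : ∀ x, c'I.q (iota0 k B x) = cI.q x := by
    intro x
    funext j
    change ψ ((univChart k (tau B)).q (iota0 k B x) j) =
      Ideal.Quotient.mk I (algebraMap (ChartRing k (stdFrame k)) T
        ((univChart k (stdFrame k)).q x j))
    rw [← gam_q, ← halg, AlgHom.commutes]
    rfl
  obtain ⟨Φb, hΦb, hΦbι⟩ := exists_toHom c'I (iota0 k B) (iota0_frame k B) cI h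
  obtain ⟨f, hf, hfπ⟩ := exists_bcE c πI
  let θb : B →ₐ[k] EAlg cI := Φb.comp (IsScalarTower.toAlgHom k B (MvPolynomial (Fin 3) B))
  have hsurj : Function.Surjective f := by
    intro z
    choose v hv using fun j => Ideal.Quotient.mk_surjective (coordE cI z j)
    refine ⟨(coordE c).symm v, ?_⟩
    apply (coordE cI).injective
    funext j
    rw [hf, LinearEquiv.apply_symm_apply]
    exact hv j
  have hkerI : ∀ z, f z = 0 → ∀ j, coordE c z j ∈ I := by
    intro z hz j
    have := hf z j
    rw [hz, map_zero] at this
    exact Ideal.Quotient.eq_zero_iff_mem.1 this.symm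
  have hnil : IsNilpotent (RingHom.ker (f : EAlg c →+* EAlg cI)) := by
    refine ⟨2, ?_⟩
    rw [Ideal.zero_eq_bot, eq_bot_iff]
    refine (le_of_eq (pow_two (RingHom.ker (f : EAlg c →+* EAlg cI)))).trans ?_
    rw [Ideal.mul_le]
    intro z hz w hw
    rw [Ideal.mem_bot]
    apply (coordE c).injective
    rw [map_zero, coordE_mul]
    refine Finset.sum_eq_zero fun j _ => ?_
    funext l
    rw [Pi.smul_apply, smul_eq_mul, Pi.zero_apply]
    have h1 := hkerI z hz j
    have h2 := hkerI (piE c (stdFrame k j) * w) (by rw [map_mul, show f w = 0 from hw, mul_zero]) l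
    have h3 := Ideal.mul_mem_mul h1 h2
    rw [← pow_two, hI] at h3
    exact h3
  let θ : B →ₐ[k] EAlg c := Algebra.FormallySmooth.liftOfSurjective θb f hsurj hnil
  have hθ : ∀ x, f (θ x) = θb x := Algebra.FormallySmooth.liftOfSurjective_apply θb f hsurj hnil
  let Φ : MvPolynomial (Fin 3) B →ₐ[k] EAlg c := aevalTower θ (fun i => piE c (X i))
  have hΦC : ∀ x, Φ (C x) = θ x := aevalTower_C θ _
  have hΦX : ∀ i, Φ (X i) = piE c (X i) := aevalTower_X θ _
  have hΦι : ∀ x, Φ (iota0 k B x) = piE c x := by
    have : Φ.comp (iota0 k B) = piE c := by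
      apply MvPolynomial.algHom_ext
      intro i
      rw [AlgHom.comp_apply, iota0_X, hΦX]
    exact fun x => DFunLike.congr_fun this x
  have h' : ∀ i, Φ (tau B i) = piE c (stdFrame k i) := by
    intro i
    rw [← iota0_frame k B, hΦι]
  let c' := ofHom c Φ (tau B) h'
  have hc'q : ∀ u, c'.q u = coordE c (Φ u) := fun _ => rfl
  have hlift : (univChart k (tau B)).map c'.lift = c' := Chart.map_lift c'
  have hlin : c'.lift.comp (gam k B) = aT := by
    apply chartRing_hom_ext
    ext x j
    rw [Chart.map_q, Chart.map_q, AlgHom.comp_apply, gam_q, ← Chart.map_q, hlift, hc'q, hΦι,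
      coordE_piE]
    rfl
  let ψ' : ChartRing k (tau B) →ₐ[ChartRing k (stdFrame k)] T :=
    { (c'.lift : ChartRing k (tau B) →+* T) with
      commutes' := fun r => DFunLike.congr_fun hlin r }
  refine ⟨ψ', ?_⟩
  have key : πI.comp c'.lift = ψk := by
    apply chartRing_hom_ext
    rw [← Chart.map_map, hlift]
    ext u j
    rw [Chart.map_q, hc'q, ← hf]
    have hcomp : f.comp Φ = Φb := by
      apply MvPolynomial.algHom_ext'
      · ext x
        change f (Φ (C x)) = Φb (C x)
        rw [hΦC, hθ]
        rfl
      · intro i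
        rw [AlgHom.comp_apply, hΦX, hfπ, ← hΦbι, iota0_X]
    have h1 : f (Φ u) = Φb u := DFunLike.congr_fun hcomp u
    rw [h1, hΦb]
  ext w
  exact DFunLike.congr_fun key w

end

section

variable (k : Type u) [Field k] (B : Type u) [CommRing B] [Algebra k B] [Algebra.FormallySmooth k B]
  [Algebra.FiniteType k B]

theorem ncm_chartRing_tau (q : Ideal (ChartRing k (tau B))) [q.IsPrime] :
    NCM (Localization.AtPrime q) := by
  let C0 := ChartRing k (stdFrame k)
  letI alg : Algebra C0 (ChartRing k (tau B)) := (gam k B).toRingHom.toAlgebra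
  have htow : IsScalarTower k C0 (ChartRing k (tau B)) :=
    IsScalarTower.of_algebraMap_eq fun r => ((gam k B).commutes r).symm
  have hfs : Algebra.FormallySmooth C0 (ChartRing k (tau B)) := formallySmooth_gam k B
  have hft0 : Algebra.FiniteType k C0 := chartRing_finiteType _
  have hftB : Algebra.FiniteType k (MvPolynomial (Fin 3) B) :=
    Algebra.FiniteType.trans (S := B) inferInstance inferInstance
  have hft : Algebra.FiniteType k (ChartRing k (tau B)) := chartRing_finiteType _
  have hn : IsNoetherianRing C0 := Algebra.FiniteType.isNoetherianRing k C0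
  have hft2 : Algebra.FiniteType C0 (ChartRing k (tau B)) :=
    Algebra.FiniteType.of_restrictScalars_finiteType k C0 _
  have hfp : Algebra.FinitePresentation C0 (ChartRing k (tau B)) :=
    Algebra.FinitePresentation.of_finiteType.1 hft2
  have hsm : Algebra.Smooth C0 (ChartRing k (tau B)) := ⟨hfs, hfp⟩
  obtain ⟨e, he⟩ := exists_coneEquiv k
  let K := MvPolynomial (Fin 3) k
  let P := MvPolynomial (Fin 9) K
  letI algP : Algebra P C0 := ((e : Cone K →+* C0).comp (algebraMap P (Cone K))).toAlgebra
  let el : Cone K ≃ₗ[P] C0 :=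
    { e with
      map_smul' := fun r x => by
        change e (r • x) = algebraMap P C0 r * e x
        rw [Algebra.smul_def, map_mul]
        rfl }
  have hfin : Module.Finite P C0 := Module.Finite.equiv el
  have hflat : Module.Flat P C0 := Module.Flat.of_linearEquiv el.symm
  have hdom : IsDomain C0 := e.symm.injective.isDomain (e.symm : C0 →+* Cone K)
  have hic : IsIntegrallyClosed C0 := IsIntegrallyClosed.of_equiv e
  exact ncm_of_smooth (P := P) (C := C0) q

end

end Pool.Agent.J4.H15
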